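import Pool.Agent.P.MP_6dea24_co.Host

namespace Pool.Agent.P.MP_6dea24_co

open Finset
open scoped Classical

variable {α ι : Type*} {F : SimpleGraph α} {cr cb : ι → ℕ}

/-- `g` splits `X` into cliques of `F` -/
def Cov (F : SimpleGraph α) (X : Finset α) (g : α → ℕ) : Prop :=
  ∀ a ∈ X, ∀ b ∈ X, a ≠ b → g a = g b → F.Adj a b

theorem Cov.mono {X X' : Finset α} {g : α → ℕ} (h : Cov F X g) (hX : X' ⊆ X) : Cov F X' g :=
  fun a ha b hb => h a (hX ha) b (hX hb)

/-- number of indices with capacity at least `J` -/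
noncomputable def cnt (c : ι → ℕ) (I : Finset ι) (J : ℕ) : ℕ := (I.filter (fun i => J ≤ c i)).card

theorem cnt_erase {c : ι → ℕ} {I : Finset ι} {i : ι} (hi : i ∈ I) (J : ℕ) :
    cnt c (I.erase i) J + (if J ≤ c i then 1 else 0) = cnt c I J := by
  unfold cnt
  rw [filter_erase]
  split_ifs with h
  · have hm : i ∈ I.filter (fun i => J ≤ c i) := mem_filter.2 ⟨hi, h⟩
    rw [card_erase_of_mem hm]
    have := card_pos.2 ⟨i, hm⟩
    omega
  · have hm : i ∉ I.filter (fun i => J ≤ c i) := fun hm => h (mem_filter.1 hm).2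
    rw [erase_eq_of_notMem hm]
    rfl

theorem cnt_mono {c : ι → ℕ} {I I' : Finset ι} (h : I ⊆ I') (J : ℕ) : cnt c I J ≤ cnt c I' J :=
  card_le_card (filter_subset_filter _ h)

theorem host_red (g : α → ℕ) : ∀ (n : ℕ) (X : Finset α) (I : Finset ι), X.card = n →
    Cov F X g → (∀ i ∈ I, 1 ≤ cr i) → (X.image g).card ≤ I.card →
    (∀ J, 2 ≤ J → X.card + 1 + J * (X.image g).card
      ≤ cnt cr I (J + 1) + J * (I.card + 1) + (X.image g).card) →
    ¬ RM F X (cnt cr I 2 + 1) → Host F cr cb X I := by
  intro n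
  induction n using Nat.strong_induction_on with
  | _ n ih =>
  intro X I hn hg h1 hN hJ hR
  by_cases hs : X.card ≤ I.card
  · exact Host.singles _ X I rfl h1 hs
  obtain ⟨a, ha, b, hb, hab, hgab⟩ : ∃ a ∈ X, ∃ b ∈ X, a ≠ b ∧ g a = g b := by
    by_contra hno
    push Not at hno
    have : (X.image g).card = X.card := card_image_of_injOn fun a ha b hb h => by
      by_contra hne
      exact hno a ha b hb hne h
    omega
  set Y := X.filter (fun c => g c = g a) with hY
  have hYX : Y ⊆ X := filter_subset _ _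
  have hYcl : F.IsClique Y := fun u hu v hv huv => by
    have hu' := mem_filter.1 hu
    have hv' := mem_filter.1 hv
    exact hg u hu'.1 v hv'.1 huv (hu'.2.trans hv'.2.symm)
  have hY2 : 2 ≤ Y.card := one_lt_card.2 ⟨a, mem_filter.2 ⟨ha, rfl⟩, b,
    mem_filter.2 ⟨hb, hgab.symm⟩, hab⟩
  have hc2 : 0 < cnt cr I 2 := by
    by_contra h0
    have h0' : cnt cr I 2 = 0 := by omega
    rw [h0'] at hR
    exact hR ((RM.zero _).succ hYX hY2 hYcl)
  obtain ⟨i0, hi0⟩ := card_pos.1 hc2
  obtain ⟨i, hi, hmax⟩ := exists_max_image I cr ⟨i0, (mem_filter.1 hi0).1⟩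
  have hi2 : 2 ≤ cr i := (mem_filter.1 hi0).2.trans (hmax i0 (mem_filter.1 hi0).1)
  have hIc : (I.erase i).card + 1 = I.card := card_erase_add_one hi
  have hzero : ∀ J, cr i < J → cnt cr I J = 0 := by
    intro J hJ'
    unfold cnt
    rw [card_eq_zero, filter_eq_empty_iff]
    intro j hj
    have := hmax j hj
    omega
  have hR' : ∀ Y' ⊆ Y, 2 ≤ Y'.card → ¬ RM F (X \ Y') (cnt cr (I.erase i) 2 + 1) := by
    intro Y' hY' h2 h
    have := cnt_erase (c := cr) hi 2
    rw [if_pos hi2] at this
    rw [this] at h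
    exact hR (h.succ (hY'.trans hYX) h2 (hYcl.subset (coe_subset.2 hY')))
  by_cases hfit : Y.card ≤ cr i
  · refine Host.step X I Y i hi (Or.inl ⟨hYcl, hfit⟩) ?_
    have hc : (X \ Y).card + Y.card = X.card := card_sdiff_add_card_eq_card hYX
    have him : (X \ Y).image g = (X.image g).erase (g a) := by
      ext c
      simp only [mem_image, mem_erase, mem_sdiff, hY, mem_filter]
      constructor
      · rintro ⟨u, ⟨hu, hu'⟩, rfl⟩
        exact ⟨fun e => hu' ⟨hu, e⟩, u, hu, rfl⟩
      · rintro ⟨hne, u, hu, rfl⟩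
        exact ⟨u, ⟨hu, fun h => hne h.2⟩, rfl⟩
    have hc' : ((X \ Y).image g).card + 1 = (X.image g).card := by
      rw [him]
      exact card_erase_add_one (mem_image_of_mem g ha)
    refine ih _ (by omega) (X \ Y) (I.erase i) rfl (hg.mono sdiff_subset)
      (fun j hj => h1 j (mem_of_mem_erase hj)) (by omega) ?_ (hR' Y Subset.rfl hY2)
    intro J hJ2
    have h3 := hJ J hJ2
    have h4 := cnt_erase (c := cr) hi (J + 1)
    rw [← hc', ← hIc] at h3
    have h5 : (if J + 1 ≤ cr i then 1 else 0) ≤ 1 := by split_ifs <;> omega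
    nlinarith
  · obtain ⟨Y', hY', hcY'⟩ := exists_subset_card_eq (by omega : cr i ≤ Y.card)
    refine Host.step X I Y' i hi (Or.inl ⟨hYcl.subset (coe_subset.2 hY'), hcY'.le⟩) ?_
    have hc : (X \ Y').card + Y'.card = X.card := card_sdiff_add_card_eq_card (hY'.trans hYX)
    have him : (X \ Y').image g = X.image g := by
      refine Subset.antisymm (image_subset_image sdiff_subset) ?_
      intro c hc
      obtain ⟨u, hu, rfl⟩ := mem_image.1 hc
      by_cases huY : u ∈ Y'
      · obtain ⟨w, hw, hw'⟩ := exists_mem_notMem_of_card_lt_card (by omega : Y'.card < Y.card)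
        refine mem_image.2 ⟨w, mem_sdiff.2 ⟨hYX hw, hw'⟩, ?_⟩
        rw [(mem_filter.1 hw).2, (mem_filter.1 (hY' huY)).2]
      · exact mem_image.2 ⟨u, mem_sdiff.2 ⟨hu, huY⟩, rfl⟩
    have hYle : Y.card + (X.image g).card ≤ X.card + 1 := by
      have h6 : X.image g ⊆ insert (g a) ((X \ Y).image g) := by
        intro c hc
        obtain ⟨u, hu, rfl⟩ := mem_image.1 hc
        by_cases huY : u ∈ Y
        · rw [(mem_filter.1 huY).2]; exact mem_insert_self _ _
        · exact mem_insert_of_mem (mem_image_of_mem g (mem_sdiff.2 ⟨hu, huY⟩))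
      have h7 := card_le_card h6
      have h8 := card_insert_le (g a) ((X \ Y).image g)
      have h9 : ((X \ Y).image g).card ≤ (X \ Y).card := card_image_le
      have h10 : (X \ Y).card + Y.card = X.card := card_sdiff_add_card_eq_card hYX
      omega
    have hk := hJ (cr i) hi2
    rw [hzero _ (Nat.lt_succ_self _)] at hk
    have hlt : (X.image g).card < I.card := by
      by_contra hge
      have he : (X.image g).card = I.card := by omega
      rw [he] at hk hYle
      nlinarith
    refine ih _ (by omega) (X \ Y') (I.erase i) rfl (hg.mono sdiff_subset)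
      (fun j hj => h1 j (mem_of_mem_erase hj)) (by rw [him]; omega) ?_
      (hR' Y' hY' (by omega))
    intro J hJ2
    rw [him]
    have h4 := cnt_erase (c := cr) hi (J + 1)
    obtain ⟨t, ht⟩ : ∃ t, I.card = (X.image g).card + t + 1 := ⟨I.card - (X.image g).card - 1, by omega⟩
    have hI' : (I.erase i).card = (X.image g).card + t := by omega
    rw [hI']
    split_ifs at h4 with h5
    · have h3 := hJ J hJ2
      rw [ht] at h3
      nlinarith
    · rw [ht] at hk
      have h6 : cr i ≤ J := by omega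
      have h7 : cr i * (t + 1) ≤ J * (t + 1) := Nat.mul_le_mul_right _ h6
      nlinarith

theorem rm_of_classes (g : α → ℕ) : ∀ (n : ℕ) (Z : Finset α), (Z.image g).card = n → Cov F Z g →
    (∀ a ∈ Z, ∃ b ∈ Z, b ≠ a ∧ g b = g a) → RM F Z n := by
  intro n
  induction n with
  | zero => intro Z _ _ _; exact RM.zero Z
  | succ n ih =>
    intro Z hn hg h
    obtain ⟨c, hc⟩ : (Z.image g).Nonempty := card_pos.1 (by omega)
    obtain ⟨a, ha, rfl⟩ := mem_image.1 hc
    obtain ⟨b, hb, hba, hgb⟩ := h a ha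
    have him : (Z.filter (fun u => g u ≠ g a)).image g = (Z.image g).erase (g a) := by
      ext c
      simp only [mem_image, mem_erase, mem_filter]
      constructor
      · rintro ⟨u, ⟨hu, hu'⟩, rfl⟩
        exact ⟨hu', u, hu, rfl⟩
      · rintro ⟨hne, u, hu, rfl⟩
        exact ⟨u, ⟨hu, hne⟩, rfl⟩
    have h1 := ih (Z.filter (fun u => g u ≠ g a)) (by rw [him, card_erase_of_mem hc]; omega)
      (hg.mono (filter_subset _ _)) (fun u hu => by
        obtain ⟨w, hw, hwu, hgw⟩ := h u (mem_filter.1 hu).1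
        exact ⟨w, mem_filter.2 ⟨hw, hgw ▸ (mem_filter.1 hu).2⟩, hwu, hgw⟩)
    refine RM.succ (Y := {a, b}) (h1.mono ?_ le_rfl)
      (insert_subset ha (singleton_subset_iff.2 hb)) (card_pair hba.symm).ge
      (clique_pair (hg a ha b hb hba.symm hgb.symm))
    intro u hu
    have hu' := mem_filter.1 hu
    refine mem_sdiff.2 ⟨hu'.1, fun h => hu'.2 ?_⟩
    rcases mem_insert.1 h with rfl | h
    · rfl
    · rw [mem_singleton.1 h, hgb]

theorem two_singles (g : α → ℕ) {X : Finset α} {μ : ℕ} (hg : Cov F X g) (hR : ¬ RM F X (μ + 1))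
    (hN : μ + 2 ≤ (X.image g).card) :
    ∃ u ∈ X, ∃ v ∈ X, u ≠ v ∧ (∀ b ∈ X, g b = g u → b = u) ∧ (∀ b ∈ X, g b = g v → b = v) := by
  set S := X.filter (fun u => ∀ b ∈ X, g b = g u → b = u) with hS
  by_contra hno
  have hS1 : S.card ≤ 1 := by
    by_contra h
    obtain ⟨u, hu, v, hv, huv⟩ := one_lt_card.1 (by omega : 1 < S.card)
    exact hno ⟨u, (mem_filter.1 hu).1, v, (mem_filter.1 hv).1, huv, (mem_filter.1 hu).2,
      (mem_filter.1 hv).2⟩
  have h1 : X.image g ⊆ (X \ S).image g ∪ S.image g := by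
    rw [← image_union, sdiff_union_of_subset (filter_subset _ _)]
  have h2 := card_le_card h1
  have h3 := card_union_le ((X \ S).image g) (S.image g)
  have h4 : (S.image g).card ≤ S.card := card_image_le
  have h5 := rm_of_classes (F := F) g _ (X \ S) rfl (hg.mono sdiff_subset) (fun a ha => by
    have ha' := mem_sdiff.1 ha
    have h6 : ¬ ∀ b ∈ X, g b = g a → b = a := fun h => ha'.2 (mem_filter.2 ⟨ha'.1, h⟩)
    push Not at h6
    obtain ⟨b, hb, hgb, hba⟩ := h6
    refine ⟨b, mem_sdiff.2 ⟨hb, fun hbS => hba ?_⟩, hba, hgb⟩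
    exact ((mem_filter.1 hbS).2 a ha'.1 hgb.symm).symm)
  exact hR (h5.mono sdiff_subset (by omega))

theorem host_alpha (μ : ℕ) : ∀ (w : ℕ) (g : α → ℕ) (X : Finset α) (I K : Finset ι),
    Cov F X g → (∀ i ∈ I, 1 ≤ cr i) → K ⊆ I → (∀ i ∈ K, 2 ≤ cb i) → w ≤ K.card →
    (X.image g).card ≤ I.card →
    (∀ J, 2 ≤ J → X.card + 1 + J * (X.image g).card
      ≤ cnt cr (I \ K) (J + 1) + w + J * (I.card + 1) + (X.image g).card) →
    ¬ RM F X (μ + 1) → μ ≤ cnt cr (I \ K) 2 → (w = 0 ∨ μ + w + 1 ≤ (X.image g).card) →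
    Host F cr cb X I := by
  intro w
  induction w using Nat.strong_induction_on with
  | _ w ih =>
  intro g X I K hg h1 hK hK2 hw hN hJ hR hμ hs
  by_cases hw0 : w = 0
  · refine host_red g _ X I rfl hg h1 hN (fun J hJ2 => ?_) (fun h => hR (h.mono Subset.rfl ?_))
    · have := hJ J hJ2
      have := cnt_mono (c := cr) (sdiff_subset : I \ K ⊆ I) (J + 1)
      omega
    · have := cnt_mono (c := cr) (sdiff_subset : I \ K ⊆ I) 2
      omega
  have hs' : μ + w + 1 ≤ (X.image g).card := hs.resolve_left hw0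
  obtain ⟨u, hu, v, hv, huv, hus, hvs⟩ := two_singles g hg hR (by omega)
  have hguv : g u ≠ g v := fun e => huv (hvs u hu e)
  by_cases hF : F.Adj u v
  · have him : X.image (Function.update g v (g u)) = (X.image g).erase (g v) := by
      ext c
      simp only [mem_image, mem_erase]
      constructor
      · rintro ⟨a, ha, rfl⟩
        by_cases hav : a = v
        · subst hav
          simp only [Function.update_self]
          exact ⟨hguv, u, hu, rfl⟩
        · simp only [Function.update_of_ne hav]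
          exact ⟨fun e => hav (hvs a ha e), a, ha, rfl⟩
      · rintro ⟨hne, a, ha, rfl⟩
        have hav : a ≠ v := fun e => hne (e ▸ rfl)
        exact ⟨a, ha, by simp only [Function.update_of_ne hav]⟩
    have hc : (X.image (Function.update g v (g u))).card + 1 = (X.image g).card := by
      rw [him]
      exact card_erase_add_one (mem_image_of_mem g hv)
    refine ih (w - 1) (by omega) (Function.update g v (g u)) X I K ?_ h1 hK hK2 (by omega)
      (by omega) (fun J hJ2 => ?_) hR hμ (by omega)
    · intro a ha b hb hab h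
      by_cases hav : a = v
      · have hbv : b ≠ v := fun e => hab (hav.trans e.symm)
        rw [hav, Function.update_self, Function.update_of_ne hbv] at h
        rw [hav, hus b hb h.symm]
        exact hF.symm
      · by_cases hbv : b = v
        · rw [hbv, Function.update_self, Function.update_of_ne hav] at h
          rw [hbv, hus a ha h]
          exact hF
        · rw [Function.update_of_ne hav, Function.update_of_ne hbv] at h
          exact hg a ha b hb hab h
    · have h3 := hJ J hJ2
      rw [← hc] at h3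
      obtain ⟨w', rfl⟩ : ∃ w', w = w' + 1 := ⟨w - 1, by omega⟩
      simp only [Nat.add_sub_cancel]
      nlinarith
  · obtain ⟨i, hi⟩ : K.Nonempty := card_pos.1 (by omega)
    have hsub : ({u, v} : Finset α) ⊆ X := insert_subset hu (singleton_subset_iff.2 hv)
    refine Host.step X I {u, v} i (hK hi) (Or.inr ⟨clique_pair' hF, ?_⟩) ?_
    · rw [card_pair huv]; exact hK2 i hi
    have him : (X \ {u, v}).image g = ((X.image g).erase (g u)).erase (g v) := by
      ext c
      simp only [mem_image, mem_erase, mem_sdiff, mem_insert, mem_singleton, not_or]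
      constructor
      · rintro ⟨a, ⟨ha, hau, hav⟩, rfl⟩
        exact ⟨fun e => hav (hvs a ha e), fun e => hau (hus a ha e), a, ha, rfl⟩
      · rintro ⟨h2, h3, a, ha, rfl⟩
        exact ⟨a, ⟨ha, fun e => h3 (e ▸ rfl), fun e => h2 (e ▸ rfl)⟩, rfl⟩
    have hc : ((X \ {u, v}).image g).card + 2 = (X.image g).card := by
      rw [him]
      have h2 := card_erase_add_one (mem_image_of_mem g hu)
      have h3 := card_erase_add_one (mem_erase.2 ⟨hguv.symm, mem_image_of_mem g hv⟩)
      omega
    have hX : (X \ {u, v}).card + 2 = X.card := by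
      have := card_sdiff_add_card_eq_card hsub
      rwa [card_pair huv] at this
    have hI : (I.erase i).card + 1 = I.card := card_erase_add_one (hK hi)
    have hKc : (K.erase i).card + 1 = K.card := card_erase_add_one hi
    have hIK : I.erase i \ K.erase i = I \ K := by
      ext j
      simp only [mem_sdiff, mem_erase, not_and]
      constructor
      · rintro ⟨⟨h2, h3⟩, h4⟩
        exact ⟨h3, h4 h2⟩
      · rintro ⟨h2, h3⟩
        exact ⟨⟨fun e => h3 (e ▸ hi), h2⟩, fun _ => h3⟩
    refine ih (w - 2) (by omega) g (X \ {u, v}) (I.erase i) (K.erase i) (hg.mono sdiff_subset)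
      (fun j hj => h1 j (mem_of_mem_erase hj)) (erase_subset_erase _ hK)
      (fun j hj => hK2 j (mem_of_mem_erase hj)) (by omega) (by omega) (fun J hJ2 => ?_)
      (fun h => hR (h.mono sdiff_subset le_rfl)) (by rw [hIK]; exact hμ) (by omega)
    have h3 := hJ J hJ2
    rw [hIK]
    rw [← hc, ← hX, ← hI] at h3
    have h4 : w ≤ (w - 2) + 2 := by omega
    nlinarith

end Pool.Agent.P.MP_6dea24_co
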