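import Pool.Agent.P.MP_6dea24_co.Beta1

namespace Pool.Agent.P.MP_6dea24_co

open Finset
open scoped Classical

variable {α β : Type*}

theorem bal_of_inv [Finite β] {G : SimpleGraph β} {π : β → β} (h1 : ∀ u, π (π u) = u)
    (h2 : ∀ u, G.Adj u (π u)) (sy : ∀ u v, G.Adj u (π v) → G.Adj v (π u))
    (tr : ∀ u v w, G.Adj u (π v) → G.Adj v (π w) → G.Adj u (π w)) (C : G.ConnectedComponent) :
    ∃ s : ℕ, 1 ≤ s ∧ Nonempty (C.toSimpleGraph ≃g completeBipartiteGraph (Fin s) (Fin s)) := by
  obtain ⟨u0, rfl⟩ := C.exists_rep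
  have pp : ∀ u v, G.Adj u v → G.Adj (π u) (π v) := by
    intro u v h
    apply SimpleGraph.Adj.symm
    apply sy u (π v)
    rwa [h1]
  have AB : ∀ a b, G.Adj a (π u0) → G.Adj b (π u0) → G.Adj a (π b) := fun a b ha hb =>
    tr a u0 b ha (sy b u0 hb)
  have AA : ∀ a b, G.Adj a (π u0) → G.Adj b (π u0) → ¬ G.Adj a b := by
    intro a b ha hb h
    have := tr b a (π b) (AB b a hb ha) (by rwa [h1])
    rw [h1] at this
    exact this.ne rfl
  have step : ∀ w w', G.Adj w (π u0) → G.Adj w w' → G.Adj (π w') (π u0) := by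
    intro w w' hw h
    exact tr (π w') w u0 (sy w (π w') (by rwa [h1])) hw
  have memC : ∀ w, G.Reachable u0 w → G.Adj w (π u0) ∨ G.Adj (π w) (π u0) := by
    intro w hw
    rw [SimpleGraph.reachable_iff_reflTransGen] at hw
    induction hw with
    | refl => exact Or.inl (h2 u0)
    | tail _ hadj ih =>
      rcases ih with h | h
      · exact Or.inr (step _ _ h hadj)
      · left
        have := step _ _ h (pp _ _ hadj)
        rwa [h1] at this
  let A := {w // G.Adj w (π u0)}
  have : Nonempty A := ⟨⟨u0, h2 u0⟩⟩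
  let e : Fin (Nat.card A) ≃ A := (Finite.equivFin A).symm
  have inA : ∀ a : A, G.connectedComponentMk a.1 = G.connectedComponentMk u0 := fun a =>
    SimpleGraph.ConnectedComponent.sound (a.2.reachable.trans (h2 u0).reachable.symm)
  have inB : ∀ a : A, G.connectedComponentMk (π a.1) = G.connectedComponentMk u0 := fun a =>
    (SimpleGraph.ConnectedComponent.sound (h2 a.1).reachable.symm).trans (inA a)
  let f : Fin (Nat.card A) ⊕ Fin (Nat.card A) → (G.connectedComponentMk u0) :=
    Sum.elim (fun i => ⟨(e i).1, inA _⟩) (fun i => ⟨π (e i).1, inB _⟩)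
  have hadj : ∀ i j, (G.connectedComponentMk u0).toSimpleGraph.Adj (f i) (f j) ↔
      (completeBipartiteGraph (Fin (Nat.card A)) (Fin (Nat.card A))).Adj i j := by
    rintro (i | i) (j | j)
    · exact iff_of_false (AA _ _ (e i).2 (e j).2) (by simp)
    · exact iff_of_true (AB _ _ (e i).2 (e j).2) (by simp)
    · exact iff_of_true (AB _ _ (e j).2 (e i).2).symm (by simp)
    · refine iff_of_false (fun h => AA _ _ (e i).2 (e j).2 ?_) (by simp)
      have h' : G.Adj (π (e i).1) (π (e j).1) := h
      have := pp _ _ h'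
      rwa [h1, h1] at this
  have hbij : Function.Bijective f := by
    constructor
    · rintro (i | i) (j | j) h
      · have h' : (e i).1 = (e j).1 := congrArg (fun z : (G.connectedComponentMk u0) => z.1) h
        exact congrArg _ (e.injective (Subtype.ext h'))
      · have h' : (e i).1 = π (e j).1 := congrArg Subtype.val h
        exact absurd h' (AB _ _ (e i).2 (e j).2).ne
      · have h' : π (e i).1 = (e j).1 := congrArg Subtype.val h
        exact absurd h'.symm (AB _ _ (e j).2 (e i).2).ne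
      · have h' : π (e i).1 = π (e j).1 := congrArg Subtype.val h
        have h'' := congrArg π h'
        rw [h1, h1] at h''
        exact congrArg _ (e.injective (Subtype.ext h''))
    · rintro ⟨w, hw⟩
      have hr : G.Reachable u0 w := (SimpleGraph.ConnectedComponent.exact hw).symm
      rcases memC w hr with h | h
      · exact ⟨Sum.inl (e.symm ⟨w, h⟩), Subtype.ext (by simp [f])⟩
      · exact ⟨Sum.inr (e.symm ⟨π w, h⟩), Subtype.ext (by simp [f, h1])⟩
  exact ⟨Nat.card A, Nat.card_pos, ⟨RelIso.symm ⟨Equiv.ofBijective f hbij, fun {i j} => hadj i j⟩⟩⟩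

theorem Inv.bal {G : SimpleGraph α} {X : Finset α} (h : Inv G X)
    (C : (G.induce (X : Set α)).ConnectedComponent) :
    ∃ s : ℕ, 1 ≤ s ∧ Nonempty (C.toSimpleGraph ≃g completeBipartiteGraph (Fin s) (Fin s)) := by
  obtain ⟨π, h1, h2, h3⟩ := h
  exact bal_of_inv (π := fun u => ⟨π u.1, (h1 u.1 u.2).1⟩)
    (fun u => Subtype.ext (h1 u.1 u.2).2.1) (fun u => (h1 u.1 u.2).2.2)
    (fun u v => h2 u.1 u.2 v.1 v.2) (fun u v w => h3 u.1 u.2 v.1 v.2 w.1 w.2) C

end Pool.Agent.P.MP_6dea24_co
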