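import Mathlib

namespace Pool.Agent.P.MP_6dea24_co

open Finset
open scoped Classical

variable {α V : Type*}

/-- The part `X` of the coloured complete graph given by `F` embeds into `s`. -/
def Emb (F : SimpleGraph α) (X : Finset α) (R B : SimpleGraph V) (s : Finset V) : Prop :=
  ∃ φ : α → V, (∀ a ∈ X, φ a ∈ s) ∧ ∀ a ∈ X, ∀ b ∈ X, a ≠ b →
    (F.Adj a b → R.Adj (φ a) (φ b)) ∧ (¬ F.Adj a b → B.Adj (φ a) (φ b))

/-- Weight of the non-neighbours of `v` (including `v`). -/
noncomputable def lack (R : SimpleGraph V) (s : Finset V) (x : V → ℝ) (v : V) : ℝ :=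
  ∑ u ∈ s, if R.Adj u v then 0 else x u

/-- No white pair inside `s`. -/
def NoWhite (R B : SimpleGraph V) (s : Finset V) : Prop :=
  ∀ u ∈ s, ∀ v ∈ s, u ≠ v → R.Adj u v ∨ B.Adj u v

/-- The degree condition. -/
def Deg (R B : SimpleGraph V) (s : Finset V) (x : V → ℝ) (ν τ : ℝ) : Prop :=
  ∀ v ∈ s, ν * lack R s x v + τ * lack B s x v < ∑ u ∈ s, x u

/-- Certificate. -/
def Cert (F : SimpleGraph α) (X : Finset α) (ν τ : ℝ) (R B : SimpleGraph V) : Prop :=
  ∀ (s : Finset V) (x : V → ℝ), s.Nonempty → (∀ v ∈ s, 0 < x v) → NoWhite R B s →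
    Deg R B s x ν τ → Emb F X R B s

theorem lack_nonneg (R : SimpleGraph V) {s : Finset V} {x : V → ℝ} (hx : ∀ v ∈ s, 0 < x v)
    (v : V) : 0 ≤ lack R s x v := by
  unfold lack
  refine sum_nonneg fun u hu => ?_
  split_ifs
  · exact le_rfl
  · exact (hx u hu).le

theorem lack_mono (R : SimpleGraph V) {s t : Finset V} {x : V → ℝ} (hx : ∀ v ∈ s, 0 < x v)
    (hts : t ⊆ s) (v : V) : lack R t x v ≤ lack R s x v := by
  unfold lack
  refine sum_le_sum_of_subset_of_nonneg hts fun u hu _ => ?_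
  split_ifs
  · exact le_rfl
  · exact (hx u hu).le

theorem Emb.swap {F : SimpleGraph α} {X : Finset α} {R B : SimpleGraph V} {s : Finset V}
    (h : Emb Fᶜ X B R s) : Emb F X R B s := by
  obtain ⟨φ, h1, h2⟩ := h
  refine ⟨φ, h1, fun a ha b hb hab => ⟨fun h => ?_, fun h => ?_⟩⟩
  · exact (h2 a ha b hb hab).2 (by simp [SimpleGraph.compl_adj, h])
  · exact (h2 a ha b hb hab).1 (by simp [SimpleGraph.compl_adj, h, hab])

theorem Emb.mono {F : SimpleGraph α} {X Y : Finset α} {R B : SimpleGraph V} {s t : Finset V}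
    (h : Emb F X R B s) (hY : Y ⊆ X) (hst : s ⊆ t) : Emb F Y R B t := by
  obtain ⟨φ, h1, h2⟩ := h
  exact ⟨φ, fun a ha => hst (h1 a (hY ha)), fun a ha b hb => h2 a (hY ha) b (hY hb)⟩

theorem NoWhite.swap {R B : SimpleGraph V} {s : Finset V} (h : NoWhite R B s) :
    NoWhite B R s := fun u hu v hv huv => (h u hu v hv huv).symm

theorem NoWhite.mono {R B : SimpleGraph V} {s t : Finset V} (h : NoWhite R B s) (hts : t ⊆ s) :
    NoWhite R B t := fun u hu v hv huv => h u (hts hu) v (hts hv) huv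

theorem Deg.swap {R B : SimpleGraph V} {s : Finset V} {x : V → ℝ} {ν τ : ℝ}
    (h : Deg R B s x ν τ) : Deg B R s x τ ν := fun v hv => by
  have := h v hv
  linarith

theorem Cert.swap {F : SimpleGraph α} {X : Finset α} {ν τ : ℝ} {R B : SimpleGraph V}
    (h : Cert Fᶜ X τ ν B R) : Cert F X ν τ R B :=
  fun s x hs hx hw hd => (h s x hs hx hw.swap hd.swap).swap

theorem Cert.mono {F : SimpleGraph α} {X Y : Finset α} {ν τ ν' τ' : ℝ} {R B : SimpleGraph V}
    (h : Cert F X ν τ R B) (hY : Y ⊆ X) (hν : ν ≤ ν') (hτ : τ ≤ τ') : Cert F Y ν' τ' R B := by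
  intro s x hs hx hw hd
  refine (h s x hs hx hw fun v hv => ?_).mono hY Subset.rfl
  have h1 := hd v hv
  have h2 := lack_nonneg R hx v
  have h3 := lack_nonneg B hx v
  nlinarith

/-- extending an embedding by one vertex -/
theorem Emb.insert {F : SimpleGraph α} {X : Finset α} {R B : SimpleGraph V} {s t : Finset V}
    (h : Emb F X R B t) (hts : t ⊆ s) {w : α} (hw : w ∉ X) {v : V} (hv : v ∈ s)
    (hR : ∀ a ∈ X, F.Adj w a → ∀ u ∈ t, R.Adj u v)
    (hB : ∀ a ∈ X, ¬ F.Adj w a → ∀ u ∈ t, B.Adj u v) : Emb F (insert w X) R B s := by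
  obtain ⟨φ, h1, h2⟩ := h
  refine ⟨Function.update φ w v, ?_, ?_⟩
  · intro a ha
    rcases mem_insert.1 ha with rfl | ha
    · simpa using hv
    · have : a ≠ w := fun e => hw (e ▸ ha)
      simpa [this] using hts (h1 a ha)
  · intro a ha0 b hb0 hab
    rcases mem_insert.1 ha0 with rfl | ha
    · rcases mem_insert.1 hb0 with rfl | hb
      · exact absurd rfl hab
      · have : b ≠ a := fun e => hw (e ▸ hb)
        simp only [Function.update_self, Function.update_of_ne this]
        exact ⟨fun h => (hR b hb h _ (h1 b hb)).symm, fun h => (hB b hb h _ (h1 b hb)).symm⟩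
    · have ha' : a ≠ w := fun e => hw (e ▸ ha)
      by_cases hbw : b = w
      · subst hbw
        simp only [Function.update_self, Function.update_of_ne ha']
        exact ⟨fun h => hR a ha h.symm _ (h1 a ha),
          fun h => hB a ha (fun h' => h h'.symm) _ (h1 a ha)⟩
      · have hb : b ∈ X := (mem_insert.1 hb0).resolve_left hbw
        simp only [Function.update_of_ne ha', Function.update_of_ne hbw]
        exact h2 a ha b hb hab

theorem sum_filter_adj (R : SimpleGraph V) (s : Finset V) (x : V → ℝ) (v : V) :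
    ∑ u ∈ s.filter (fun u => R.Adj u v), x u = ∑ u ∈ s, x u - lack R s x v := by
  unfold lack
  rw [sum_filter, ← sum_sub_distrib]
  refine sum_congr rfl fun u _ => ?_
  split_ifs <;> simp

/-- adding a blue-universal vertex -/
theorem Cert.blue {F : SimpleGraph α} {X : Finset α} {ν τ : ℝ} {R B : SimpleGraph V}
    (h : Cert F X ν τ R B) (hν : 0 ≤ ν) (hτ : 0 ≤ τ) {w : α} (hw : w ∉ X)
    (hb : ∀ a ∈ X, ¬ F.Adj w a) : Cert F (insert w X) ν (τ + 1) R B := by
  intro s x hs hx hW hd
  obtain ⟨v, hv, hmin⟩ := exists_min_image s (lack B s x) hs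
  set t := s.filter (fun u => B.Adj u v) with ht
  have hts : t ⊆ s := filter_subset _ _
  have hsum : ∑ u ∈ t, x u = ∑ u ∈ s, x u - lack B s x v := sum_filter_adj B s x v
  have hne : t.Nonempty := by
    rw [nonempty_iff_ne_empty]
    intro he
    rw [he, sum_empty] at hsum
    have h1 := hd v hv
    have h2 := lack_nonneg R hx v
    have h3 := lack_nonneg B hx v
    nlinarith
  have hE := h t x hne (fun u hu => hx u (hts hu)) (hW.mono hts) (fun u hu => by
    have h1 := hd u (hts hu)
    have h2 := lack_mono R hx hts u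
    have h3 := lack_mono B hx hts u
    have h4 := hmin u (hts hu)
    rw [hsum]
    nlinarith)
  exact hE.insert hts hw hv (fun a ha h => absurd h (hb a ha))
    (fun a _ _ u hu => (mem_filter.1 hu).2)

/-- adding a red-universal vertex -/
theorem Cert.red {F : SimpleGraph α} {X : Finset α} {ν τ : ℝ} {R B : SimpleGraph V}
    (h : Cert F X ν τ R B) (hν : 0 ≤ ν) (hτ : 0 ≤ τ) {w : α} (hw : w ∉ X)
    (hb : ∀ a ∈ X, F.Adj w a) : Cert F (insert w X) (ν + 1) τ R B := by
  apply Cert.swap
  have h' : Cert Fᶜ X τ ν B R := by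
    apply Cert.swap
    simpa using h
  exact h'.blue hτ hν hw (fun a ha h => by
    rw [SimpleGraph.compl_adj] at h
    exact h.2 (hb a ha))

/-- adding an arbitrary vertex -/
theorem Cert.any {F : SimpleGraph α} {X : Finset α} {ν τ : ℝ} {R B : SimpleGraph V}
    (h : Cert F X ν τ R B) (hν : 0 ≤ ν) (hτ : 0 ≤ τ) {w : α} (hw : w ∉ X) :
    Cert F (insert w X) (ν + 1) (τ + 1) R B := by
  intro s x hs hx hW hd
  obtain ⟨v, hv, hmin⟩ := exists_min_image s (fun u => lack R s x u + lack B s x u) hs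
  set t := (s.filter (fun u => B.Adj u v)).filter (fun u => R.Adj u v) with ht
  have hts' : s.filter (fun u => B.Adj u v) ⊆ s := filter_subset _ _
  have hts : t ⊆ s := (filter_subset _ _).trans hts'
  have hsum : ∑ u ∈ s, x u - lack B s x v - lack R s x v ≤ ∑ u ∈ t, x u := by
    rw [ht, sum_filter_adj, sum_filter_adj]
    have := lack_mono R hx hts' v
    linarith
  have hne : t.Nonempty := by
    rw [nonempty_iff_ne_empty]
    intro he
    rw [he, sum_empty] at hsum
    have h1 := hd v hv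
    have h2 := lack_nonneg R hx v
    have h3 := lack_nonneg B hx v
    nlinarith
  have hE := h t x hne (fun u hu => hx u (hts hu)) (hW.mono hts) (fun u hu => by
    have h1 := hd u (hts hu)
    have h2 := lack_mono R hx hts u
    have h3 := lack_mono B hx hts u
    have h4 := hmin u (hts hu)
    nlinarith)
  exact hE.insert hts hw hv (fun a _ _ u hu => (mem_filter.1 hu).2)
    (fun a _ _ u hu => (mem_filter.1 (mem_filter.1 hu).1).2)

theorem Cert.single (F : SimpleGraph α) (w : α) (R B : SimpleGraph V) :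
    Cert F {w} 0 0 R B := by
  intro s x hs _ _ _
  obtain ⟨v, hv⟩ := hs
  refine ⟨fun _ => v, fun _ _ => hv, ?_⟩
  intro a ha b hb hab
  rw [mem_singleton] at ha hb
  exact absurd (ha.trans hb.symm) hab

theorem Cert.empty (F : SimpleGraph α) (R B : SimpleGraph V) :
    Cert F ∅ 0 0 R B := by
  intro s x hs _ _ _
  obtain ⟨v, hv⟩ := hs
  exact ⟨fun _ => v, fun _ _ => hv, by simp⟩

end Pool.Agent.P.MP_6dea24_co
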