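import Pool.Agent.P.MP_6dea24_co.Host

namespace Pool.Agent.P.MP_6dea24_co

open Finset
open scoped Classical

variable {α ι : Type*} {F : SimpleGraph α} {cr cb : ι → ℕ}

theorem host_fam (fam : Finset (Finset α)) :
    ∀ (X W : Finset α) (I K : Finset ι), K ⊆ I → fam.card ≤ K.card →
      (∀ Y ∈ fam, ∀ i ∈ K, Ok F cr cb Y i) → X ⊆ W ∪ fam.biUnion id →
      Host F cr cb W (I \ K) → Host F cr cb X I := by
  induction fam using Finset.induction_on with
  | empty =>
    intro X W I K _ _ _ h hH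
    exact hH.mono (by simpa using h) sdiff_subset
  | insert Y M hY ih =>
    intro X W I K hI hc h2 hX hH
    rw [card_insert_of_notMem hY] at hc
    obtain ⟨i, hi⟩ : K.Nonempty := card_pos.1 (by omega)
    refine Host.step X I Y i (hI hi) (h2 Y (mem_insert_self _ _) i hi) ?_
    refine ih (X \ Y) W (I.erase i) (K.erase i) (erase_subset_erase _ hI) ?_
      (fun Z hZ j hj => h2 Z (mem_insert_of_mem hZ) j (mem_of_mem_erase hj)) ?_
      (hH.mono Subset.rfl ?_)
    · rw [card_erase_of_mem hi]; omega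
    · intro a ha
      have h3 := hX (mem_sdiff.1 ha).1
      have h4 := (mem_sdiff.1 ha).2
      simp only [biUnion_insert, mem_union, id] at h3 ⊢
      tauto
    · intro j hj
      simp only [mem_sdiff, mem_erase] at hj ⊢
      refine ⟨⟨fun e => hj.2 (e ▸ hi), hj.1⟩, fun h => hj.2 h.2⟩

theorem Host.add {X Y : Finset α} {I : Finset ι} {i : ι} (h : Host F cr cb X I) (hi : i ∉ I)
    (hY : Ok F cr cb Y i) : Host F cr cb (Y ∪ X) (insert i I) := by
  refine Host.step _ _ Y i (mem_insert_self _ _) hY (h.mono ?_ ?_)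
  · intro a ha
    simp only [mem_sdiff, mem_union] at ha
    tauto
  · rw [erase_insert hi]

theorem Host.one {Y : Finset α} {I : Finset ι} {i : ι} (hi : i ∈ I)
    (hY : Ok F cr cb Y i) : Host F cr cb Y I :=
  Host.step _ _ Y i hi hY (by rw [sdiff_self]; exact Host.nil _)

theorem ok_red2 {u v : α} {i : ι} (h : F.Adj u v) (hi : 2 ≤ cr i) : Ok F cr cb {u, v} i :=
  Or.inl ⟨clique_pair h, card_le_two.trans hi⟩

theorem ok_blue2 {u v : α} {i : ι} (h : ¬ F.Adj u v) (hi : 2 ≤ cb i) : Ok F cr cb {u, v} i :=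
  Or.inr ⟨clique_pair' h, card_le_two.trans hi⟩

/-- structure of a disjoint union of balanced complete bipartite graphs -/
def Inv (G : SimpleGraph α) (X : Finset α) : Prop :=
  ∃ π : α → α, (∀ u ∈ X, π u ∈ X ∧ π (π u) = u ∧ G.Adj u (π u)) ∧
    (∀ u ∈ X, ∀ v ∈ X, G.Adj u (π v) → G.Adj v (π u)) ∧
    (∀ u ∈ X, ∀ v ∈ X, ∀ w ∈ X, G.Adj u (π v) → G.Adj v (π w) → G.Adj u (π w))

theorem exists_partner {G : SimpleGraph α} {X : Finset α} {N : Finset (Finset α)} (hN : Mat G X N)
    (hcov : X ⊆ N.biUnion id) : ∃ π : α → α, ∀ u ∈ X, ({u, π u} : Finset α) ∈ N ∧ π u ≠ u ∧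
      π u ∈ X ∧ π (π u) = u ∧ G.Adj u (π u) := by
  have h1 : ∀ u, ∃ u', u ∈ X → ({u, u'} : Finset α) ∈ N ∧ u' ≠ u := by
    intro u
    by_cases hu : u ∈ X
    · obtain ⟨Y, hY, huY⟩ := mem_biUnion.1 (hcov hu)
      obtain ⟨a, b, hab, rfl⟩ := card_eq_two.1 (hN.two Y hY)
      rcases mem_insert.1 huY with rfl | h
      · exact ⟨b, fun _ => ⟨hY, hab.symm⟩⟩
      · rw [mem_singleton.1 h]
        exact ⟨a, fun _ => ⟨by rwa [pair_comm], hab⟩⟩
    · exact ⟨u, fun h => absurd h hu⟩
  choose π hπ using h1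
  have h2 : ∀ u ∈ X, π u ∈ X := fun u hu => hN.sub _ (hπ u hu).1 (by simp)
  refine ⟨π, fun u hu => ⟨(hπ u hu).1, (hπ u hu).2, h2 u hu, ?_, ?_⟩⟩
  · have h3 := hπ u hu
    have h4 := hπ (π u) (h2 u hu)
    have h5 : ({u, π u} : Finset α) = {π u, π (π u)} := by
      by_contra hne
      exact disjoint_left.1 (hN.dis _ h3.1 _ h4.1 hne) (by simp : π u ∈ _) (by simp)
    have h6 : u ∈ ({π u, π (π u)} : Finset α) := by rw [← h5]; simp
    rcases mem_insert.1 h6 with h | h
    · exact absurd h.symm h3.2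
    · exact (mem_singleton.1 h).symm
  · exact hN.cl _ (hπ u hu).1 (by simp) (by simp) (hπ u hu).2.symm

theorem one_red {X : Finset α} {I K : Finset ι} {N : Finset (Finset α)} {r : ι}
    (hN : Mat Fᶜ X N) (hcov : X ⊆ N.biUnion id) (hK : K ⊆ I) (hc : N.card ≤ K.card + 1)
    (hK2 : ∀ i ∈ K, 2 ≤ cb i) (hr : r ∈ I \ K) (hr2 : 2 ≤ cr r)
    (h4 : (∃ i ∈ K, 4 ≤ cb i) ∨ ∀ Y ∈ N, ∀ Z ∈ N, Y ≠ Z → ¬ Fᶜ.IsClique (Y ∪ Z : Finset α))
    (hH : ¬ Host F cr cb X I) : Inv Fᶜ X := by
  obtain ⟨π, hπ⟩ := exists_partner hN hcov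
  have hokN : ∀ Y ∈ N, ∀ i ∈ K, Ok F cr cb Y i := fun Y hY i hi =>
    Or.inr ⟨hN.cl Y hY, (hN.two Y hY).le.trans (hK2 i hi)⟩
  have hne : ∀ u ∈ X, ∀ v ∈ X, v ≠ u → v ≠ π u → ({u, π u} : Finset α) ≠ {v, π v} := by
    intro u _ v _ h1 h2 h
    have : v ∈ ({u, π u} : Finset α) := by rw [h]; simp
    simp [h1, h2] at this
  have hadj : ∀ u v, Fᶜ.Adj u v → ¬ F.Adj u v := fun u v h => ((F.compl_adj u v).1 h).2
  -- two edges
  have L1 : ∀ u ∈ X, ∀ v ∈ X, Fᶜ.Adj u (π v) → Fᶜ.Adj v (π u) := by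
    intro u hu v hv h
    by_cases h1 : v = u
    · rw [h1]; exact (hπ u hu).2.2.2.2
    have h2 : v ≠ π u := by
      rintro rfl
      rw [(hπ u hu).2.2.2.1] at h
      exact h.ne rfl
    by_contra hn
    have hred : F.Adj v (π u) := by
      by_contra h'
      exact hn ((F.compl_adj _ _).2 ⟨h2, h'⟩)
    have hYZ := hne u hu v hv h1 h2
    refine hH (host_fam (insert {u, π v} ((N.erase {u, π u}).erase {v, π v})) X {v, π u} I K hK
      ?_ ?_ ?_ (Host.one hr (ok_red2 hred hr2)))
    · have c1 := card_erase_add_one (hπ u hu).1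
      have c2 := card_erase_add_one (mem_erase.2 ⟨hYZ.symm, (hπ v hv).1⟩)
      have c3 := card_insert_le ({u, π v} : Finset α) ((N.erase {u, π u}).erase {v, π v})
      omega
    · intro Y hY i hi
      rcases mem_insert.1 hY with rfl | hY
      · exact ok_blue2 (hadj _ _ h) (hK2 i hi)
      · exact hokN Y (mem_of_mem_erase (mem_of_mem_erase hY)) i hi
    · intro a ha
      obtain ⟨Y, hY, haY⟩ := mem_biUnion.1 (hcov ha)
      by_cases e1 : Y = {u, π u}
      · subst e1
        simp only [id, mem_insert, mem_singleton] at haY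
        rcases haY with rfl | rfl <;> simp
      by_cases e2 : Y = {v, π v}
      · subst e2
        simp only [id, mem_insert, mem_singleton] at haY
        rcases haY with rfl | rfl <;> simp
      exact mem_union_right _ (mem_biUnion.2 ⟨Y, mem_insert_of_mem
        (mem_erase.2 ⟨e2, mem_erase.2 ⟨e1, hY⟩⟩), haY⟩)
  refine ⟨π, fun u hu => (hπ u hu).2.2, L1, ?_⟩
  intro u hu v hv w hw huv hvw
  by_cases h1 : v = u
  · rw [← h1]; exact hvw
  have h2 : v ≠ π u := by
    rintro rfl
    rw [(hπ u hu).2.2.2.1] at huv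
    exact huv.ne rfl
  by_cases h3 : w = v
  · rw [h3]; exact huv
  have h4' : w ≠ π v := by
    rintro rfl
    rw [(hπ v hv).2.2.2.1] at hvw
    exact hvw.ne rfl
  by_cases h5 : w = u
  · rw [h5]; exact (hπ u hu).2.2.2.2
  have hYZ := hne u hu v hv h1 h2
  by_cases h6 : w = π u
  · exfalso
    subst h6
    rw [(hπ u hu).2.2.2.1] at hvw
    have a1 : Fᶜ.Adj v (π u) := L1 u hu v hv huv
    have a2 : Fᶜ.Adj (π v) (π u) := by
      apply L1 u hu (π v) (hπ v hv).2.2.1
      rw [(hπ v hv).2.2.2.1]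
      exact hvw.symm
    have a3 := (hπ u hu).2.2.2.2
    have a4 := (hπ v hv).2.2.2.2
    have hcl : Fᶜ.IsClique (({u, π u} : Finset α) ∪ {v, π v} : Finset α) := by
      intro a ha b hb hab
      simp only [coe_union, coe_insert, coe_singleton, Set.mem_union, Set.mem_insert_iff,
        Set.mem_singleton_iff] at ha hb
      rcases ha with (rfl | rfl) | (rfl | rfl) <;> rcases hb with (rfl | rfl) | (rfl | rfl) <;>
        first | exact absurd rfl hab | assumption | (apply SimpleGraph.Adj.symm; assumption)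
    rcases h4 with ⟨i, hi, hi4⟩ | h4
    · refine hH (host_fam ((N.erase {u, π u}).erase {v, π v}) X ({u, π u} ∪ {v, π v}) I (K.erase i)
        ((erase_subset _ _).trans hK) ?_ ?_ ?_
        (Host.one (i := i) (by simp [hK hi]) (Or.inr ⟨hcl, ?_⟩)))
      · have c1 := card_erase_add_one (hπ u hu).1
        have c2 := card_erase_add_one (mem_erase.2 ⟨hYZ.symm, (hπ v hv).1⟩)
        have c3 := card_erase_add_one hi
        omega
      · intro Y hY j hj
        exact hokN Y (mem_of_mem_erase (mem_of_mem_erase hY)) j (mem_of_mem_erase hj)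
      · intro a ha
        obtain ⟨Y, hY, haY⟩ := mem_biUnion.1 (hcov ha)
        by_cases e1 : Y = {u, π u}
        · subst e1
          exact mem_union_left _ (mem_union_left _ haY)
        by_cases e2 : Y = {v, π v}
        · subst e2
          exact mem_union_left _ (mem_union_right _ haY)
        exact mem_union_right _ (mem_biUnion.2 ⟨Y,
          (mem_erase.2 ⟨e2, mem_erase.2 ⟨e1, hY⟩⟩), haY⟩)
      · have c1 := card_union_le ({u, π u} : Finset α) {v, π v}
        have c2 : ({u, π u} : Finset α).card ≤ 2 := card_le_two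
        have c3 : ({v, π v} : Finset α).card ≤ 2 := card_le_two
        omega
    · exact h4 _ (hπ u hu).1 _ (hπ v hv).1 hYZ hcl
  apply L1 w hw u hu
  by_contra hn
  have hred : F.Adj w (π u) := by
    by_contra h'
    exact hn ((F.compl_adj _ _).2 ⟨h6, h'⟩)
  have hYW := hne u hu w hw h5 h6
  have hZW := hne v hv w hw h3 h4'
  refine hH (host_fam (insert {u, π v} (insert {v, π w}
    (((N.erase {u, π u}).erase {v, π v}).erase {w, π w}))) X {w, π u} I K hK
    ?_ ?_ ?_ (Host.one hr (ok_red2 hred hr2)))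
  · have c1 := card_erase_add_one (hπ u hu).1
    have c2 := card_erase_add_one (mem_erase.2 ⟨hYZ.symm, (hπ v hv).1⟩)
    have c2' := card_erase_add_one
      (mem_erase.2 ⟨hZW.symm, mem_erase.2 ⟨hYW.symm, (hπ w hw).1⟩⟩)
    have c3 := card_insert_le ({v, π w} : Finset α)
      (((N.erase {u, π u}).erase {v, π v}).erase {w, π w})
    have c4 := card_insert_le ({u, π v} : Finset α) (insert {v, π w}
      (((N.erase {u, π u}).erase {v, π v}).erase {w, π w}))
    omega
  · intro Y hY i hi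
    rcases mem_insert.1 hY with rfl | hY
    · exact ok_blue2 (hadj _ _ huv) (hK2 i hi)
    rcases mem_insert.1 hY with rfl | hY
    · exact ok_blue2 (hadj _ _ hvw) (hK2 i hi)
    · exact hokN Y (mem_of_mem_erase (mem_of_mem_erase (mem_of_mem_erase hY))) i hi
  · intro a ha
    obtain ⟨Y, hY, haY⟩ := mem_biUnion.1 (hcov ha)
    by_cases e1 : Y = {u, π u}
    · subst e1
      simp only [id, mem_insert, mem_singleton] at haY
      rcases haY with rfl | rfl <;> simp
    by_cases e2 : Y = {v, π v}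
    · subst e2
      simp only [id, mem_insert, mem_singleton] at haY
      rcases haY with rfl | rfl <;> simp
    by_cases e3 : Y = {w, π w}
    · subst e3
      simp only [id, mem_insert, mem_singleton] at haY
      rcases haY with rfl | rfl <;> simp
    exact mem_union_right _ (mem_biUnion.2 ⟨Y, mem_insert_of_mem (mem_insert_of_mem
      (mem_erase.2 ⟨e3, mem_erase.2 ⟨e2, mem_erase.2 ⟨e1, hY⟩⟩⟩)), haY⟩)

end Pool.Agent.P.MP_6dea24_co
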