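import Pool.Agent.P.MP_6dea24_co.Beta1

namespace Pool.Agent.P.MP_6dea24_co

open Finset
open scoped Classical

variable {α ι : Type*} {F : SimpleGraph α} {cr cb : ι → ℕ}

theorem ok_red3 {u v w : α} {i : ι} (h1 : F.Adj u v) (h2 : F.Adj u w) (h3 : F.Adj v w)
    (hi : 3 ≤ cr i) : Ok F cr cb {u, v, w} i := by
  refine Or.inl ⟨?_, card_le_three.trans hi⟩
  intro a ha b hb hab
  simp only [coe_insert, coe_singleton, Set.mem_insert_iff, Set.mem_singleton_iff] at ha hb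
  rcases ha with rfl | rfl | rfl <;> rcases hb with rfl | rfl | rfl <;>
    first | exact absurd rfl hab | assumption | (apply SimpleGraph.Adj.symm; assumption)

theorem ok_blue3 {u v w : α} {i : ι} (h1 : ¬ F.Adj u v) (h2 : ¬ F.Adj u w) (h3 : ¬ F.Adj v w)
    (hi : 3 ≤ cb i) : Ok F cr cb {u, v, w} i := by
  refine Or.inr ⟨?_, card_le_three.trans hi⟩
  have h1' : ¬ F.Adj v u := fun h => h1 h.symm
  have h2' : ¬ F.Adj w u := fun h => h2 h.symm
  have h3' : ¬ F.Adj w v := fun h => h3 h.symm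
  intro a ha b hb hab
  simp only [coe_insert, coe_singleton, Set.mem_insert_iff, Set.mem_singleton_iff] at ha hb
  refine (F.compl_adj _ _).2 ⟨hab, ?_⟩
  rcases ha with rfl | rfl | rfl <;> rcases hb with rfl | rfl | rfl <;>
    first | exact absurd rfl hab | assumption

theorem ok_blue4 {u v w z : α} {i : ι} (h1 : ¬ F.Adj u v) (h2 : ¬ F.Adj u w) (h3 : ¬ F.Adj v w)
    (h4 : ¬ F.Adj u z) (h5 : ¬ F.Adj v z) (h6 : ¬ F.Adj w z)
    (hi : 4 ≤ cb i) : Ok F cr cb {u, v, w, z} i := by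
  refine Or.inr ⟨?_, card_le_four.trans hi⟩
  have h1' : ¬ F.Adj v u := fun h => h1 h.symm
  have h2' : ¬ F.Adj w u := fun h => h2 h.symm
  have h3' : ¬ F.Adj w v := fun h => h3 h.symm
  have h4' : ¬ F.Adj z u := fun h => h4 h.symm
  have h5' : ¬ F.Adj z v := fun h => h5 h.symm
  have h6' : ¬ F.Adj z w := fun h => h6 h.symm
  intro a ha b hb hab
  simp only [coe_insert, coe_singleton, Set.mem_insert_iff, Set.mem_singleton_iff] at ha hb
  refine (F.compl_adj _ _).2 ⟨hab, ?_⟩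
  rcases ha with rfl | rfl | rfl | rfl <;> rcases hb with rfl | rfl | rfl | rfl <;>
    first | exact absurd rfl hab | assumption

theorem ok_red1 {u : α} {i : ι} (hi : 1 ≤ cr i) : Ok F cr cb {u} i :=
  Or.inl ⟨by simp, by simpa using hi⟩

theorem ok_blue1 {u : α} {i : ι} (hi : 1 ≤ cb i) : Ok F cr cb {u} i :=
  Or.inr ⟨by simp, by simpa using hi⟩

theorem ok_empty {i : ι} : Ok F cr cb ∅ i := Or.inl ⟨by simp, by simp⟩

theorem eight {p1 p2 p3 p4 x y x' y' : α} {r1 r2 b1 b2 : ι}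
    (n1 : r1 ≠ r2) (n2 : r1 ≠ b1) (n3 : r1 ≠ b2) (n4 : r2 ≠ b1) (n5 : r2 ≠ b2) (n6 : b1 ≠ b2)
    (e12 : F.Adj p1 p2) (e23 : F.Adj p2 p3) (e34 : F.Adj p3 p4) (e41 : F.Adj p4 p1)
    (d13 : ¬ F.Adj p1 p3) (d24 : ¬ F.Adj p2 p4) (hxy : ¬ F.Adj x y) (hxy' : F.Adj x' y')
    (c1 : 2 ≤ cr r1) (c2 : 2 ≤ cr r2) (c3 : 2 ≤ cb b1) (c4 : 2 ≤ cb b2)
    (hc : (3 ≤ cb b1 ∧ 3 ≤ cb b2) ∨ (3 ≤ cr r1 ∧ 3 ≤ cr r2 ∧ 4 ≤ cb b1)) :
    Host F cr cb {p1, p2, p3, p4, x, y, x', y'} {r1, r2, b1, b2} := by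
  by_contra hH
  have H : ∀ P1 P2 Q1 Q2 : Finset α, Ok F cr cb P1 r1 → Ok F cr cb P2 r2 → Ok F cr cb Q1 b1 →
      Ok F cr cb Q2 b2 → ({p1, p2, p3, p4, x, y, x', y'} : Finset α) ⊆ P1 ∪ (P2 ∪ (Q1 ∪ Q2)) →
      False := by
    intro P1 P2 Q1 Q2 o1 o2 o3 o4 hs
    refine hH (Host.mono ((((Host.one (I := {b2}) (mem_singleton_self b2) o4).add ?_ o3).add
      ?_ o2).add ?_ o1) hs Subset.rfl)
    · simp [n6]
    · simp [n4, n5]
    · simp [n1, n2, n3]
  have H' : ∀ a b c d : α, ({p1, p2, p3, p4} : Finset α) ⊆ {a, b, c, d} →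
      ∀ P1 P2 Q1 Q2 : Finset α, Ok F cr cb P1 r1 → Ok F cr cb P2 r2 → Ok F cr cb Q1 b1 →
      Ok F cr cb Q2 b2 → ({a, b, c, d, x, y, x', y'} : Finset α) ⊆ P1 ∪ (P2 ∪ (Q1 ∪ Q2)) →
      False := by
    intro a b c d hs P1 P2 Q1 Q2 o1 o2 o3 o4 h
    refine H P1 P2 Q1 Q2 o1 o2 o3 o4 (Subset.trans ?_ h)
    have h1 : ({p1, p2, p3, p4, x, y, x', y'} : Finset α) = {p1, p2, p3, p4} ∪ {x, y, x', y'} := by
      simp only [insert_union, ← insert_eq]
    have h2 : ({a, b, c, d, x, y, x', y'} : Finset α) = {a, b, c, d} ∪ {x, y, x', y'} := by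
      simp only [insert_union, ← insert_eq]
    rw [h1, h2]
    exact union_subset_union hs Subset.rfl
  clear hH
  have e32 := e23.symm
  have e14 := e41.symm
  rcases hc with ⟨k1, k2⟩ | ⟨k1, k2, k3⟩
  · have sw : ∀ a b c d : α, F.Adj c d →
        ({p1, p2, p3, p4} : Finset α) ⊆ {a, b, c, d} → (F.Adj x' a ↔ F.Adj y' b) := by
      intro a b c d hcd hs
      constructor
      · intro h
        by_contra h'
        exact H' a b c d hs _ _ _ _ (ok_red2 h c1) (ok_red2 hcd c2) (ok_blue2 h' c3)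
          (ok_blue2 hxy c4) (by simp [insert_subset_iff])
      · intro h
        by_contra h'
        exact H' a b c d hs _ _ _ _ (ok_red2 h c1) (ok_red2 hcd c2) (ok_blue2 h' c3)
          (ok_blue2 hxy c4) (by simp [insert_subset_iff])
    have s12 := sw p1 p2 p3 p4 e34 (by simp)
    have s32 := sw p3 p2 p4 p1 e41 (by simp [insert_subset_iff])
    have s14 := sw p1 p4 p2 p3 e23 (by simp [insert_subset_iff])
    have s23 := sw p2 p3 p4 p1 e41 (by simp [insert_subset_iff])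
    have s43 := sw p4 p3 p1 p2 e12 (by simp [insert_subset_iff])
    have s21 := sw p2 p1 p3 p4 e34 (by simp [insert_subset_iff])
    by_cases A1 : F.Adj x' p1
    · have B3 : ¬ F.Adj y' p3 := fun h =>
        H _ _ _ _ (ok_red2 A1 c1) (ok_red2 h c2) (ok_blue2 d24 c3) (ok_blue2 hxy c4)
          (by simp [insert_subset_iff])
      have A2 : ¬ F.Adj x' p2 := fun h => B3 (s23.1 h)
      exact H {x} {y} {x', p2, p4} {y', p1, p3} (ok_red1 (by omega)) (ok_red1 (by omega))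
        (ok_blue3 A2 (fun h => B3 (s43.1 h)) d24 k1) (ok_blue3 (fun h => A2 (s21.2 h)) B3 d13 k2)
        (by simp [insert_subset_iff])
    · have B2 : ¬ F.Adj y' p2 := fun h => A1 (s12.2 h)
      exact H {x} {y} {x', p1, p3} {y', p2, p4} (ok_red1 (by omega)) (ok_red1 (by omega))
        (ok_blue3 A1 (fun h => B2 (s32.1 h)) d13 k1) (ok_blue3 B2 (fun h => A1 (s14.2 h)) d24 k2)
        (by simp [insert_subset_iff])
  · have sw : ∀ a b c d : α, ¬ F.Adj c d →
        ({p1, p2, p3, p4} : Finset α) ⊆ {a, b, c, d} → (F.Adj x a ↔ F.Adj y b) := by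
      intro a b c d hcd hs
      constructor
      · intro h
        by_contra h'
        exact H' a b c d hs _ _ _ _ (ok_red2 h c1) (ok_red2 hxy' c2) (ok_blue2 h' c3)
          (ok_blue2 hcd c4) (by simp [insert_subset_iff])
      · intro h
        by_contra h'
        exact H' a b c d hs _ _ _ _ (ok_red2 h c1) (ok_red2 hxy' c2) (ok_blue2 h' c3)
          (ok_blue2 hcd c4) (by simp [insert_subset_iff])
    have nb : ∀ a b c d : α, F.Adj c d →
        ({p1, p2, p3, p4} : Finset α) ⊆ {a, b, c, d} → (F.Adj x a ∨ F.Adj y b) := by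
      intro a b c d hcd hs
      by_contra h
      push Not at h
      exact H' a b c d hs _ _ _ _ (ok_red2 hcd c1) (ok_red2 hxy' c2) (ok_blue2 h.1 c3)
        (ok_blue2 h.2 c4) (by simp [insert_subset_iff])
    have s13 := sw p1 p3 p2 p4 d24 (by simp [insert_subset_iff])
    have s31 := sw p3 p1 p2 p4 d24 (by simp [insert_subset_iff])
    have s24 := sw p2 p4 p1 p3 d13 (by simp [insert_subset_iff])
    have s42 := sw p4 p2 p1 p3 d13 (by simp [insert_subset_iff])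
    have t12 := nb p1 p2 p3 p4 e34 (by simp)
    have t21 := nb p2 p1 p3 p4 e34 (by simp [insert_subset_iff])
    have t23 := nb p2 p3 p4 p1 e41 (by simp [insert_subset_iff])
    have T : ∀ a b c d : α, F.Adj x a → F.Adj x b → F.Adj a b → F.Adj y c → F.Adj y d →
        F.Adj c d → ({p1, p2, p3, p4} : Finset α) ⊆ {a, b, c, d} → False := by
      intro a b c d h1 h2 h3 h4 h5 h6 hs
      exact H' a b c d hs _ _ {x'} {y'} (ok_red3 h1 h2 h3 k1) (ok_red3 h4 h5 h6 k2)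
        (ok_blue1 (by omega)) (ok_blue1 (by omega)) (by simp [insert_subset_iff])
    by_cases C1 : F.Adj x p1 <;> by_cases C2 : F.Adj x p2
    · exact T p1 p2 p3 p4 C1 C2 e12 (s13.1 C1) (s24.1 C2) e34 (by simp)
    · by_cases C4 : F.Adj x p4
      · exact T p1 p4 p3 p2 C1 C4 e14 (s13.1 C1) (s42.1 C4) e32 (by simp [insert_subset_iff])
      · exact H {x', y'} ∅ {x, y, p2, p4} {p1, p3} (ok_red2 hxy' c1) ok_empty
          (ok_blue4 hxy C2 (fun h => C4 (s42.2 h)) C4 (fun h => C2 (s24.2 h)) d24 k3)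
          (ok_blue2 d13 c4) (by simp [insert_subset_iff])
    · by_cases C3 : F.Adj x p3
      · exact T p3 p2 p1 p4 C3 C2 e32 (s31.1 C3) (s24.1 C2) e14 (by simp [insert_subset_iff])
      · exact H {x', y'} ∅ {x, y, p1, p3} {p2, p4} (ok_red2 hxy' c1) ok_empty
          (ok_blue4 hxy C1 (fun h => C3 (s31.2 h)) C3 (fun h => C1 (s13.2 h)) d13 k3)
          (ok_blue2 d24 c4) (by simp [insert_subset_iff])
    · exact C1 (s13.2 (t23.resolve_left C2))

end Pool.Agent.P.MP_6dea24_co
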