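import Pool.Agent.P.MP_6dea24_co.Beta2

namespace Pool.Agent.P.MP_6dea24_co

open Finset
open scoped Classical

variable {α ι : Type*} {F : SimpleGraph α} {cr cb : ι → ℕ}

theorem fam2 {X : Finset α} {I Rs Bs : Finset ι} {A C : Finset (Finset α)} (hR : Rs ⊆ I)
    (hB : Bs ⊆ I) (hA : ∀ Y ∈ A, ∀ i ∈ Rs, Ok F cr cb Y i) (hC : ∀ Y ∈ C, ∀ i ∈ Bs, Ok F cr cb Y i)
    (c1 : A.card ≤ Rs.card) (c2 : C.card ≤ Bs.card) (c3 : A.card + C.card ≤ (Rs ∪ Bs).card)
    (hX : X ⊆ A.biUnion id ∪ C.biUnion id) : Host F cr cb X I := by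
  obtain ⟨Ia, Ib, h1, h2, h3, h4, h5⟩ := exists_two_subsets c1 c2 c3
  refine host_fam A X (C.biUnion id) I Ia (h1.trans hR) h4.ge
    (fun Y hY i hi => hA Y hY i (h1 hi)) (by rwa [union_comm]) ?_
  exact host_fam C _ ∅ _ Ib (subset_sdiff.2 ⟨h2.trans hB, h3.symm⟩) h5.ge
    (fun Y hY i hi => hC Y hY i (h2 hi)) (by simp) (Host.nil _)

theorem mat_two {G : SimpleGraph α} {X : Finset α} {N : Finset (Finset α)} {a b c d : α}
    (hN : Mat G X N) (ha : a ∈ X) (hb : b ∈ X) (hc : c ∈ X) (hd : d ∈ X) (hab : G.Adj a b)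
    (hcd : G.Adj c d) (n1 : a ≠ c) (n2 : a ≠ d) (n3 : b ≠ c) (n4 : b ≠ d)
    (m1 : a ∉ N.biUnion id) (m2 : b ∉ N.biUnion id) (m3 : c ∉ N.biUnion id)
    (m4 : d ∉ N.biUnion id) : Mat G X (insert {a, b} (insert {c, d} N)) := by
  have key : ∀ u v : α, u ∉ N.biUnion id → v ∉ N.biUnion id → ∀ Z ∈ N,
      Disjoint ({u, v} : Finset α) Z := by
    intro u v hu hv Z hZ
    rw [disjoint_insert_left, disjoint_singleton_left]
    exact ⟨fun h => hu (mem_biUnion.2 ⟨Z, hZ, h⟩), fun h => hv (mem_biUnion.2 ⟨Z, hZ, h⟩)⟩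
  refine ((hN.insert (insert_subset hc (singleton_subset_iff.2 hd)) (card_pair hcd.ne)
    (clique_pair hcd) (key c d m3 m4)).1.insert (insert_subset ha (singleton_subset_iff.2 hb))
    (card_pair hab.ne) (clique_pair hab) ?_).1
  intro Z hZ
  rcases mem_insert.1 hZ with rfl | hZ
  · simp [n1.symm, n2.symm, n3.symm, n4.symm]
  · exact key a b m1 m2 Z hZ

theorem beta_core {X : Finset α} {I : Finset ι} {sz : ι → ℕ} {M0 N0 : Finset (Finset α)}
    {p1 p2 p3 p4 : α} (hall : ∀ i ∈ I, 2 ≤ cr i ∨ 2 ≤ cb i)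
    (hs1 : ∀ i ∈ I, sz i ≤ cr i ∨ 2 ≤ cb i) (hs2 : ∀ i ∈ I, sz i ≤ cb i ∨ 2 ≤ cr i)
    (h4 : (I.filter (fun i => sz i < 4)).card ≤ 1) (hM : Mat F X M0) (hN : Mat Fᶜ X N0)
    (q1 : p1 ∈ X) (q2 : p2 ∈ X) (q3 : p3 ∈ X) (q4 : p4 ∈ X)
    (e12 : F.Adj p1 p2) (e23 : F.Adj p2 p3) (e34 : F.Adj p3 p4) (e41 : F.Adj p4 p1)
    (d13 : Fᶜ.Adj p1 p3) (d24 : Fᶜ.Adj p2 p4)
    (hout : ∀ p ∈ ({p1, p2, p3, p4} : Finset α), p ∉ M0.biUnion id ∧ p ∉ N0.biUnion id)
    (hX : X ⊆ {p1, p2, p3, p4} ∪ (M0.biUnion id ∪ N0.biUnion id))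
    (hc : M0.card + N0.card + 2 = I.card)
    (cM : M0.card + 1 ≤ (I.filter (fun i => 2 ≤ cr i)).card)
    (cN : N0.card + 1 ≤ (I.filter (fun i => 2 ≤ cb i)).card)
    (hH : ¬ Host F cr cb X I) : Inv F X ∨ Inv Fᶜ X := by
  set Rs := I.filter (fun i => 2 ≤ cr i) with hRs
  set Bs := I.filter (fun i => 2 ≤ cb i) with hBs
  have hR : Rs ⊆ I := filter_subset _ _
  have hB : Bs ⊆ I := filter_subset _ _
  have hR2 : ∀ i ∈ Rs, 2 ≤ cr i := fun i hi => (mem_filter.1 hi).2
  have hB2 : ∀ i ∈ Bs, 2 ≤ cb i := fun i hi => (mem_filter.1 hi).2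
  have hU : Rs ∪ Bs = I := by
    refine Subset.antisymm (union_subset hR hB) fun i hi => ?_
    rcases hall i hi with h | h
    · exact mem_union_left _ (mem_filter.2 ⟨hi, h⟩)
    · exact mem_union_right _ (mem_filter.2 ⟨hi, h⟩)
  have okM : ∀ Y ∈ M0, ∀ i ∈ Rs, Ok F cr cb Y i := fun Y hY i hi =>
    Or.inl ⟨hM.cl Y hY, (hM.two Y hY).le.trans (hR2 i hi)⟩
  have okN : ∀ Y ∈ N0, ∀ i ∈ Bs, Ok F cr cb Y i := fun Y hY i hi =>
    Or.inr ⟨hN.cl Y hY, (hN.two Y hY).le.trans (hB2 i hi)⟩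
  have d13' : ¬ F.Adj p1 p3 := ((F.compl_adj _ _).1 d13).2
  have d24' : ¬ F.Adj p2 p4 := ((F.compl_adj _ _).1 d24).2
  have cR : Rs.card = M0.card + 1 := by
    by_contra hne
    have c1 := card_insert_le ({p3, p4} : Finset α) M0
    have c2 := card_insert_le ({p1, p2} : Finset α) (insert {p3, p4} M0)
    refine hH (fam2 (A := insert {p1, p2} (insert {p3, p4} M0)) hR hB ?_ okN (by omega) (by omega)
      (by rw [hU]; omega) (hX.trans ?_))
    · intro Y hY i hi
      rcases mem_insert.1 hY with rfl | hY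
      · exact ok_red2 e12 (hR2 i hi)
      rcases mem_insert.1 hY with rfl | hY
      · exact ok_red2 e34 (hR2 i hi)
      · exact okM Y hY i hi
    · simp only [biUnion_insert, id, insert_union, singleton_union]
      exact Subset.rfl
  have cB : Bs.card = N0.card + 1 := by
    by_contra hne
    have c1 := card_insert_le ({p2, p4} : Finset α) N0
    have c2 := card_insert_le ({p1, p3} : Finset α) (insert {p2, p4} N0)
    refine hH (fam2 (C := insert {p1, p3} (insert {p2, p4} N0)) hR hB okM ?_ (by omega) (by omega)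
      (by rw [hU]; omega) (hX.trans ?_))
    · intro Y hY i hi
      rcases mem_insert.1 hY with rfl | hY
      · exact ok_blue2 d13' (hB2 i hi)
      rcases mem_insert.1 hY with rfl | hY
      · exact ok_blue2 d24' (hB2 i hi)
      · exact okN Y hY i hi
    · simp only [biUnion_insert, id]
      refine union_subset ?_ (union_subset_union Subset.rfl
        (subset_union_right.trans subset_union_right))
      simp [insert_subset_iff]
  have hdis : Disjoint Rs Bs := by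
    rw [← card_union_eq_card_add_card, hU]; omega
  have hR4 : ∀ i ∈ Rs, ¬ sz i < 4 → 4 ≤ cr i := by
    intro i hi h
    rcases hs1 i (hR hi) with h' | h'
    · omega
    · exact absurd (mem_filter.2 ⟨hR hi, h'⟩) (disjoint_left.1 hdis hi)
  have hB4 : ∀ i ∈ Bs, ¬ sz i < 4 → 4 ≤ cb i := by
    intro i hi h
    rcases hs2 i (hB hi) with h' | h'
    · omega
    · exact absurd (mem_filter.2 ⟨hB hi, h'⟩) (disjoint_right.1 hdis hi)
  have hone : ∀ i ∈ I, ∀ j ∈ I, sz i < 4 → sz j < 4 → i = j := fun i hi j hj h h' =>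
    card_le_one.1 h4 i (mem_filter.2 ⟨hi, h⟩) j (mem_filter.2 ⟨hj, h'⟩)
  have hbig : ∀ K ⊆ I, 2 ≤ K.card → ∃ i ∈ K, ¬ sz i < 4 := by
    intro K hK h
    obtain ⟨i, hi, j, hj, hij⟩ := one_lt_card.1 (by omega : 1 < K.card)
    by_contra hno
    push Not at hno
    exact hij (hone i (hK hi) j (hK hj) (hno i hi) (hno j hj))
  have o1 := hout p1 (by simp)
  have o2 := hout p2 (by simp)
  have o3 := hout p3 (by simp)
  have o4 := hout p4 (by simp)
  by_cases hM0 : M0 = ∅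
  · right
    obtain ⟨r, hr⟩ : Rs.Nonempty := card_pos.1 (by omega)
    have c1 := card_insert_le ({p2, p4} : Finset α) N0
    have c2 := card_insert_le ({p1, p3} : Finset α) (insert {p2, p4} N0)
    refine one_red (mat_two hN q1 q3 q2 q4 d13 d24 e12.ne e41.ne.symm e23.ne.symm e34.ne
      o1.2 o3.2 o2.2 o4.2) (hX.trans ?_) hB (by omega) hB2
      (mem_sdiff.2 ⟨hR hr, disjoint_left.1 hdis hr⟩) (hR2 r hr) ?_ hH
    · simp only [biUnion_insert, id, hM0, biUnion_empty, empty_union]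
      refine union_subset ?_ (subset_union_right.trans subset_union_right)
      simp [insert_subset_iff]
    · by_cases hN0 : N0 = ∅
      · right
        intro Y hY Z hZ hne hcl
        have h12 : p1 ∈ Y ∪ Z ∧ p2 ∈ Y ∪ Z := by
          simp only [hN0, insert_empty_eq, mem_insert, mem_singleton] at hY hZ
          rcases hY with rfl | rfl <;> rcases hZ with rfl | rfl
          · exact absurd rfl hne
          · simp
          · simp
          · exact absurd rfl hne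
        exact ((F.compl_adj _ _).1 (hcl h12.1 h12.2 e12.ne)).2 e12
      · left
        have : 0 < N0.card := card_pos.2 (nonempty_iff_ne_empty.2 hN0)
        obtain ⟨i, hi, h⟩ := hbig Bs hB (by omega)
        exact ⟨i, hi, hB4 i hi h⟩
  by_cases hN0 : N0 = ∅
  · left
    obtain ⟨r, hr⟩ : Bs.Nonempty := card_pos.1 (by omega)
    have c1 := card_insert_le ({p3, p4} : Finset α) M0
    have c2 := card_insert_le ({p1, p2} : Finset α) (insert {p3, p4} M0)
    have hmat := mat_two hM q1 q2 q3 q4 e12 e34 d13.ne e41.ne.symm e23.ne d24.ne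
      o1.1 o2.1 o3.1 o4.1
    have := one_red (F := Fᶜ) (cr := cb) (cb := cr) (I := I) (K := Rs) (r := r)
      (N := insert {p1, p2} (insert {p3, p4} M0)) (X := X) (by rwa [compl_compl])
      (hX.trans ?_) hR (by omega) hR2
      (mem_sdiff.2 ⟨hB hr, disjoint_right.1 hdis hr⟩) (hB2 r hr) ?_ (fun h => hH h.swap)
    · rwa [compl_compl] at this
    · simp only [biUnion_insert, id, hN0, biUnion_empty, union_empty, insert_union, singleton_union]
      exact Subset.rfl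
    · left
      have : 0 < M0.card := card_pos.2 (nonempty_iff_ne_empty.2 hM0)
      obtain ⟨i, hi, h⟩ := hbig Rs hR (by omega)
      exact ⟨i, hi, hR4 i hi h⟩
  exfalso
  obtain ⟨Y, hY⟩ := nonempty_iff_ne_empty.2 hM0
  obtain ⟨Z, hZ⟩ := nonempty_iff_ne_empty.2 hN0
  have cY := card_erase_add_one hY
  have cZ := card_erase_add_one hZ
  obtain ⟨x', y', hxy', rfl⟩ := card_eq_two.1 (hM.two Y hY)
  obtain ⟨x, y, hxy, rfl⟩ := card_eq_two.1 (hN.two Z hZ)
  have a1 : F.Adj x' y' := hM.cl _ hY (by simp) (by simp) hxy'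
  have a2 : ¬ F.Adj x y := ((F.compl_adj _ _).1 (hN.cl _ hZ (by simp) (by simp) hxy)).2
  obtain ⟨r1, hr1, r2, hr2, hr⟩ := one_lt_card.1 (by omega : 1 < Rs.card)
  obtain ⟨b1, hb1, b2, hb2, hb, hcap⟩ : ∃ b1 ∈ Bs, ∃ b2 ∈ Bs, b1 ≠ b2 ∧
      ((3 ≤ cb b1 ∧ 3 ≤ cb b2) ∨ (3 ≤ cr r1 ∧ 3 ≤ cr r2 ∧ 4 ≤ cb b1)) := by
    obtain ⟨b1, hb1, h1⟩ := hbig Bs hB (by omega)
    have cb1 := card_erase_add_one hb1
    obtain ⟨b2, hb2⟩ : (Bs.erase b1).Nonempty := card_pos.1 (by omega)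
    have hb2' := mem_erase.1 hb2
    refine ⟨b1, hb1, b2, hb2'.2, hb2'.1.symm, ?_⟩
    have k1 := hB4 b1 hb1 h1
    by_cases h2 : sz b2 < 4
    · right
      have k : ∀ r ∈ Rs, 4 ≤ cr r := fun r hr => hR4 r hr fun h =>
        disjoint_left.1 hdis hr (hone r (hR hr) b2 (hB hb2'.2) h h2 ▸ hb2'.2)
      have k2 := k r1 hr1
      have k3 := k r2 hr2
      omega
    · left
      have k2 := hB4 b2 hb2'.2 h2
      omega
  have nrb : ∀ r ∈ Rs, ∀ b ∈ Bs, r ≠ b := fun r hr b hb e =>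
    disjoint_left.1 hdis hr (e ▸ hb)
  have h8 := eight (F := F) hr (nrb r1 hr1 b1 hb1) (nrb r1 hr1 b2 hb2) (nrb r2 hr2 b1 hb1)
    (nrb r2 hr2 b2 hb2) hb e12 e23 e34 e41 d13' d24' a2 a1 (hR2 r1 hr1) (hR2 r2 hr2) (hB2 b1 hb1)
    (hB2 b2 hb2) hcap
  have k1 := card_erase_add_one hr1
  have k2 := card_erase_add_one (mem_erase.2 ⟨hr.symm, hr2⟩)
  have k3 := card_erase_add_one hb1
  have k4 := card_erase_add_one (mem_erase.2 ⟨hb.symm, hb2⟩)
  have sR : (Rs.erase r1).erase r2 ⊆ Rs := (erase_subset _ _).trans (erase_subset _ _)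
  have sB : (Bs.erase b1).erase b2 ⊆ Bs := (erase_subset _ _).trans (erase_subset _ _)
  refine hH (host_fam (M0.erase {x', y'}) X
    ({p1, p2, p3, p4, x, y, x', y'} ∪ (N0.erase {x, y}).biUnion id) I ((Rs.erase r1).erase r2)
    (sR.trans hR) (by omega) (fun Y hY i hi => okM Y (mem_of_mem_erase hY) i (sR hi)) ?_ ?_)
  · intro a ha
    rcases mem_union.1 (hX ha) with h | h
    · refine mem_union_left _ (mem_union_left _ ?_)
      simp only [mem_insert, mem_singleton] at h ⊢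
      rcases h with h | h | h | h <;> simp [h]
    rcases mem_union.1 h with h | h
    · obtain ⟨W, hW, haW⟩ := mem_biUnion.1 h
      by_cases e : W = {x', y'}
      · subst e
        refine mem_union_left _ (mem_union_left _ ?_)
        simp only [id, mem_insert, mem_singleton] at haW ⊢
        rcases haW with h | h <;> simp [h]
      · exact mem_union_right _ (mem_biUnion.2 ⟨W, mem_erase.2 ⟨e, hW⟩, haW⟩)
    · obtain ⟨W, hW, haW⟩ := mem_biUnion.1 h
      by_cases e : W = {x, y}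
      · subst e
        refine mem_union_left _ (mem_union_left _ ?_)
        simp only [id, mem_insert, mem_singleton] at haW ⊢
        rcases haW with h | h <;> simp [h]
      · exact mem_union_left _ (mem_union_right _ (mem_biUnion.2 ⟨W, mem_erase.2 ⟨e, hW⟩, haW⟩))
  · refine host_fam (N0.erase {x, y}) _ _ _ ((Bs.erase b1).erase b2)
      (subset_sdiff.2 ⟨sB.trans hB, disjoint_of_subset_left sB
        (disjoint_of_subset_right sR hdis.symm)⟩) (by omega)
      (fun Y hY i hi => okN Y (mem_of_mem_erase hY) i (sB hi)) Subset.rfl (h8.mono Subset.rfl ?_)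
    intro i hi
    simp only [mem_insert, mem_singleton] at hi
    simp only [mem_sdiff, mem_erase, not_and]
    rcases hi with rfl | rfl | rfl | rfl
    · exact ⟨⟨hR hr1, fun _ h => absurd rfl h⟩, fun _ _ => disjoint_left.1 hdis hr1⟩
    · exact ⟨⟨hR hr2, fun h => absurd rfl h⟩, fun _ _ => disjoint_left.1 hdis hr2⟩
    · exact ⟨⟨hB hb1, fun _ _ => disjoint_right.1 hdis hb1⟩, fun _ h => absurd rfl h⟩
    · exact ⟨⟨hB hb2, fun _ _ => disjoint_right.1 hdis hb2⟩, fun h => absurd rfl h⟩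

end Pool.Agent.P.MP_6dea24_co
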