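import Pool.Agent.P.MP_6dea24_co.Basic

namespace Pool.Agent.P.MP_6dea24_co.Bip

open Finset
open scoped Classical

variable {V : Type*}

/-- cost of a pair -/
noncomputable def en (R B : SimpleGraph V) (ν τ : ℝ) (u v : V) : ℝ :=
  ν * (if R.Adj u v then 0 else 1) + τ * (if B.Adj u v then 0 else 1)

/-- two blue cliques joined in red, the cross pairs that are not blue form a matching -/
def Tgt (R B : SimpleGraph V) (s : Finset V) (t : ℕ) : Prop :=
  ∃ A ⊆ s, ∃ C ⊆ s, t ≤ A.card ∧ t ≤ C.card ∧ (∀ u ∈ A, ∀ v ∈ A, u ≠ v → B.Adj u v) ∧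
    (∀ u ∈ C, ∀ v ∈ C, u ≠ v → B.Adj u v) ∧ (∀ u ∈ A, ∀ v ∈ C, R.Adj u v) ∧
    (∀ u ∈ A, ∀ v ∈ C, ∀ v' ∈ C, ¬ B.Adj u v → ¬ B.Adj u v' → v = v') ∧
    (∀ v ∈ C, ∀ u ∈ A, ∀ u' ∈ A, ¬ B.Adj u v → ¬ B.Adj u' v → u = u')

/-- twice the potential -/
noncomputable def pot (R B : SimpleGraph V) (ν τ : ℝ) (K : Finset V) : ℝ :=
  3 * (ν + τ) * K.card - ∑ u ∈ K, ∑ v ∈ K, en R B ν τ u v

/-- the potential is largest at `K` -/
def Top (R B : SimpleGraph V) (ν τ : ℝ) (s K : Finset V) : Prop :=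
  K ⊆ s ∧ ∀ L ⊆ s, pot R B ν τ L ≤ pot R B ν τ K

/-- a smallest set of largest potential -/
def Opt (R B : SimpleGraph V) (ν τ : ℝ) (s K : Finset V) : Prop :=
  Top R B ν τ s K ∧ ∀ L ⊆ s, L.card < K.card → pot R B ν τ L < pot R B ν τ K

variable {R B : SimpleGraph V} {s K : Finset V} {ν τ : ℝ} {x : V → ℝ}

theorem en_symm (u v : V) : en R B ν τ u v = en R B ν τ v u := by
  simp only [en, R.adj_comm u v, B.adj_comm u v]

theorem en_nonneg (hν : 0 ≤ ν) (hτ : 0 ≤ τ) (u v : V) : 0 ≤ en R B ν τ u v := by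
  unfold en
  split_ifs <;> linarith

theorem en_self (u : V) : en R B ν τ u u = ν + τ := by simp [en]

theorem sum_en (x : V → ℝ) (v : V) :
    ∑ u ∈ s, x u * en R B ν τ u v = ν * lack R s x v + τ * lack B s x v := by
  unfold lack en
  rw [mul_sum, mul_sum, ← sum_add_distrib]
  refine sum_congr rfl fun u _ => ?_
  split_ifs <;> ring

/-- averaging the degree condition over a weighted family -/
theorem avg {ι : Type*} (hx : ∀ v ∈ s, 0 < x v) (hd : Deg R B s x ν τ) {I : Finset ι}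
    {f : ι → V} (hf : ∀ i ∈ I, f i ∈ s) {c : ι → ℝ} (hc : ∀ i ∈ I, 0 < c i) (hI : I.Nonempty) :
    ∃ w ∈ s, ∑ i ∈ I, c i * en R B ν τ (f i) w < ∑ i ∈ I, c i := by
  by_contra hn
  push Not at hn
  have h1 : ∑ w ∈ s, x w * ∑ i ∈ I, c i ≤ ∑ w ∈ s, x w * ∑ i ∈ I, c i * en R B ν τ (f i) w :=
    sum_le_sum fun w hw => mul_le_mul_of_nonneg_left (hn w hw) (hx w hw).le
  have h2 : ∑ w ∈ s, x w * ∑ i ∈ I, c i * en R B ν τ (f i) w
      = ∑ i ∈ I, c i * ∑ w ∈ s, x w * en R B ν τ w (f i) := by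
    simp only [mul_sum]
    rw [sum_comm]
    exact sum_congr rfl fun i _ => sum_congr rfl fun w _ => by rw [en_symm (f i) w]; ring
  have h3 : ∑ i ∈ I, c i * ∑ w ∈ s, x w * en R B ν τ w (f i) < ∑ i ∈ I, c i * ∑ w ∈ s, x w :=
    sum_lt_sum_of_nonempty hI fun i hi =>
      mul_lt_mul_of_pos_left (by rw [sum_en]; exact hd _ (hf i hi)) (hc i hi)
  rw [← sum_mul] at h1 h3
  linarith

theorem pot_insert {w : V} (hw : w ∉ K) :
    pot R B ν τ (insert w K) = pot R B ν τ K + 2 * (ν + τ) - 2 * ∑ v ∈ K, en R B ν τ v w := by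
  unfold pot
  rw [card_insert_of_notMem hw, sum_insert hw, sum_insert hw, en_self]
  simp only [sum_insert hw, sum_add_distrib]
  rw [sum_congr rfl fun v _ => en_symm (R := R) (B := B) (ν := ν) (τ := τ) w v]
  push_cast
  ring

theorem pot_erase {w : V} (hw : w ∈ K) :
    pot R B ν τ (K.erase w)
      = pot R B ν τ K - 2 * (ν + τ) + 2 * ∑ v ∈ K.erase w, en R B ν τ v w := by
  have h := pot_insert (R := R) (B := B) (ν := ν) (τ := τ) (notMem_erase w K)
  rw [insert_erase hw] at h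
  linarith

theorem exists_opt (R B : SimpleGraph V) (ν τ : ℝ) (s : Finset V) : ∃ K, Opt R B ν τ s K := by
  obtain ⟨K0, h0, h1⟩ := exists_max_image s.powerset (pot R B ν τ) ⟨∅, by simp⟩
  obtain ⟨K, h2, h3⟩ := exists_min_image
    (s.powerset.filter fun L => pot R B ν τ L = pot R B ν τ K0) card ⟨K0, by simpa using h0⟩
  obtain ⟨h4, h5⟩ := mem_filter.1 h2
  refine ⟨K, ⟨mem_powerset.1 h4, fun L hL => h5 ▸ h1 L (mem_powerset.2 hL)⟩, fun L hL hlt => ?_⟩
  refine lt_of_le_of_ne (h5 ▸ h1 L (mem_powerset.2 hL)) fun e => ?_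
  exact absurd (h3 L (mem_filter.2 ⟨mem_powerset.2 hL, e.trans h5⟩)) (not_le.2 hlt)

/-- outside vertices cost at least `ν + τ` -/
theorem Top.out (h : Top R B ν τ s K) {w : V} (hw : w ∈ s) (hK : w ∉ K) :
    ν + τ ≤ ∑ v ∈ K, en R B ν τ v w := by
  have h1 := h.2 (insert w K) (insert_subset hw h.1)
  rw [pot_insert hK] at h1
  linarith

/-- inside vertices cost less than `ν + τ` -/
theorem Opt.inn (h : Opt R B ν τ s K) {w : V} (hw : w ∈ K) :
    ∑ v ∈ K.erase w, en R B ν τ v w < ν + τ := by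
  have h1 := h.2 (K.erase w) ((erase_subset _ _).trans h.1.1) (card_erase_lt_of_mem hw)
  rw [pot_erase hw] at h1
  linarith

/-- a set of largest potential has more than `ν + τ` elements -/
theorem Top.lt_card (hν : 0 ≤ ν) (hτ : 0 ≤ τ) (hD : 0 < ν + τ) (hs : s.Nonempty)
    (hx : ∀ v ∈ s, 0 < x v) (hd : Deg R B s x ν τ) (h : Top R B ν τ s K) : ν + τ < K.card := by
  have hK : K.Nonempty := by
    obtain ⟨w, hw⟩ := hs
    rw [nonempty_iff_ne_empty]
    rintro rfl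
    have := h.out hw (notMem_empty w)
    simp at this
    linarith
  obtain ⟨w, hw, hlt⟩ := avg hx hd (f := id) h.1 (c := fun _ => 1) (fun _ _ => one_pos) hK
  simp only [one_mul, id, sum_const, nsmul_eq_mul, mul_one] at hlt
  by_cases hwK : w ∈ K
  · have := single_le_sum (f := fun v => en R B ν τ v w) (fun v _ => en_nonneg hν hτ v w) hwK
    rw [en_self] at this
    linarith
  · linarith [h.out hw hwK]

end Pool.Agent.P.MP_6dea24_co.Bip
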