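import Pool.Agent.P.MP_6dea24_co.Bip0

namespace Pool.Agent.P.MP_6dea24_co.Bip

open Finset
open scoped Classical

variable {V : Type*}

/-- degree inside `M` -/
noncomputable def dg (G : SimpleGraph V) (M : Finset V) (v : V) : ℕ := (M.filter (G.Adj v)).card

/-- vertices in triangles -/
noncomputable def tri (G : SimpleGraph V) (M : Finset V) : Finset V :=
  M.filter fun v => ∃ u ∈ M, ∃ z ∈ M, G.Adj v u ∧ G.Adj u z ∧ G.Adj z v

/-- vertices of degree two that are in no triangle -/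
noncomputable def inner (G : SimpleGraph V) (M : Finset V) : Finset V :=
  M.filter fun v => dg G M v = 2 ∧ v ∉ tri G M

/-- two disjoint parts of sizes at least `a`, `b` with no edge between them -/
def Sep (G : SimpleGraph V) (M X Y : Finset V) : Prop :=
  X ⊆ M ∧ Y ⊆ M ∧ Disjoint X Y ∧ ∀ u ∈ X, ∀ v ∈ Y, ¬ G.Adj u v

variable {G : SimpleGraph V} {M : Finset V} {h : ℕ}

/-- closed under taking neighbours in `M` -/
def Cl (G : SimpleGraph V) (M C : Finset V) : Prop :=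
  C ⊆ M ∧ ∀ u ∈ C, ∀ v ∈ M, G.Adj u v → v ∈ C

/-- neighbours outside -/
noncomputable def bd (G : SimpleGraph V) (M T : Finset V) : Finset V :=
  M.filter fun v => v ∉ T ∧ ∃ u ∈ T, G.Adj u v

theorem cl_univ : Cl G M M := ⟨subset_rfl, fun _ _ _ h _ => h⟩

theorem Cl.sdiff {C D : Finset V} (hC : Cl G M C) (hD : Cl G M D) : Cl G M (C \ D) :=
  ⟨sdiff_subset.trans hC.1, fun u hu v hv a => mem_sdiff.2 ⟨hC.2 u (mem_sdiff.1 hu).1 v hv a,
    fun h => (mem_sdiff.1 hu).2 (hD.2 v h u (hC.1 (mem_sdiff.1 hu).1) a.symm)⟩⟩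

theorem Cl.union {C D : Finset V} (hC : Cl G M C) (hD : Cl G M D) : Cl G M (C ∪ D) :=
  ⟨union_subset hC.1 hD.1, fun u hu v hv a => mem_union.2
    ((mem_union.1 hu).imp (fun h => hC.2 u h v hv a) fun h => hD.2 u h v hv a)⟩

theorem Sep.symm {X Y : Finset V} (h : Sep G M X Y) : Sep G M Y X :=
  ⟨h.2.1, h.1, h.2.2.1.symm, fun u hu v hv a => h.2.2.2 v hv u hu a.symm⟩

theorem Cl.sep {C : Finset V} (hC : Cl G M C) : Sep G M C (M \ C) :=
  ⟨hC.1, sdiff_subset, disjoint_sdiff, fun u hu v hv a =>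
    (mem_sdiff.1 hv).2 (hC.2 u hu v (mem_sdiff.1 hv).1 a)⟩

theorem sep_bd {T : Finset V} (hT : T ⊆ M) :
    ∃ Y, Sep G M T Y ∧ M.card ≤ Y.card + T.card + (bd G M T).card :=
  ⟨(M \ T) \ bd G M T, ⟨hT, sdiff_subset.trans sdiff_subset,
    disjoint_sdiff.mono_right sdiff_subset, fun u hu v hv a => by
      simp only [bd, mem_sdiff, mem_filter] at hv
      exact hv.2 ⟨hv.1.1, hv.1.2, u, hu, a⟩⟩, by
    have := card_sdiff_add_card_eq_card hT
    have := le_card_sdiff (bd G M T) (M \ T)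
    omega⟩

theorem bd_insert (T : Finset V) (v : V) : (bd G M (insert v T)).card ≤
    ((bd G M T).erase v).card + (M.filter (G.Adj v) \ T).card :=
  (card_le_card fun x hx => by
    simp only [bd, mem_filter, mem_insert, mem_union, mem_erase, mem_sdiff, not_or] at hx ⊢
    obtain ⟨h1, h2, u, rfl | hu, a⟩ := hx
    exacts [Or.inr ⟨⟨h1, a⟩, h2.2⟩, Or.inl ⟨h2.1, h1, h2.2, u, hu, a⟩]).trans (card_union_le _ _)

theorem bd_step (hd : ∀ v ∈ M, dg G M v ≤ 2) {T : Finset V} (hT : T ⊆ M) {v : V}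
    (hv : v ∈ bd G M T) : (bd G M (insert v T)).card ≤ (bd G M T).card := by
  obtain ⟨h1, -, u, hu, a⟩ := mem_filter.1 hv
  have h2 := card_erase_add_one hv
  have h3 := bd_insert (G := G) (M := M) T v
  have h4 : (M.filter (G.Adj v) \ T).card < dg G M v := card_lt_card ⟨sdiff_subset, fun h =>
    (mem_sdiff.1 (h (mem_filter.2 ⟨hT hu, a.symm⟩))).2 hu⟩
  have := hd v h1
  omega

theorem bd_new {T : Finset V} (h : bd G M T = ∅) (v : V) :
    (bd G M (insert v T)).card ≤ dg G M v := by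
  have h3 := bd_insert (G := G) (M := M) T v
  rw [h, erase_empty, card_empty, zero_add] at h3
  exact h3.trans (card_le_card sdiff_subset)

theorem two_le {v x y : V} (hx : x ∈ M) (hy : y ∈ M) (a : G.Adj v x) (b : G.Adj v y)
    (h : x ≠ y) : 2 ≤ dg G M v :=
  one_lt_card.2 ⟨x, mem_filter.2 ⟨hx, a⟩, y, mem_filter.2 ⟨hy, b⟩, h⟩

theorem third {v x y w : V} (hd : dg G M v ≤ 2) (hx : x ∈ M) (hy : y ∈ M) (hw : w ∈ M)
    (a : G.Adj v x) (b : G.Adj v y) (c : G.Adj v w) (h : x ≠ y) : w = x ∨ w = y := by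
  by_contra hh
  exact hd.not_gt (two_lt_card_iff.2 ⟨x, y, w, mem_filter.2 ⟨hx, a⟩, mem_filter.2 ⟨hy, b⟩,
    mem_filter.2 ⟨hw, c⟩, h, fun e => hh (Or.inl e.symm), fun e => hh (Or.inr e.symm)⟩)

theorem exists_max (A : Finset V) (k : ℕ) : ∃ X, Cl G M X ∧ X ⊆ A ∧ X.card ≤ k ∧
    ∀ C, Cl G M C → C ⊆ A → C.card ≤ k → C.card ≤ X.card := by
  obtain ⟨X, h1, h2⟩ := exists_max_image (A.powerset.filter fun X => Cl G M X ∧ X.card ≤ k) card
    ⟨∅, by simp [Cl]⟩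
  simp only [mem_filter, mem_powerset] at h1 h2
  exact ⟨X, h1.2.1, h1.1, h1.2.2, fun C a b c => h2 C ⟨b, a, c⟩⟩

theorem split_two (hd : ∀ v ∈ M, dg G M v ≤ 2) (hM : 2 * h + 2 ≤ M.card) :
    ∃ X Y, Sep G M X Y ∧ h ≤ X.card ∧ h ≤ Y.card := by
  have key : ∀ j ≤ h, ∃ T ⊆ M, T.card = j ∧ (bd G M T).card ≤ 2 := by
    intro j hj
    induction j with
    | zero => exact ⟨∅, by simp [bd]⟩
    | succ j ih =>
      obtain ⟨T, h1, h2, h3⟩ := ih (by omega)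
      rcases (bd G M T).eq_empty_or_nonempty with h4 | ⟨v, hv⟩
      · obtain ⟨v, hv, hv'⟩ := exists_mem_notMem_of_card_lt_card (show T.card < M.card by omega)
        exact ⟨_, insert_subset hv h1, h2 ▸ card_insert_of_notMem hv', (bd_new h4 v).trans (hd v hv)⟩
      · exact ⟨_, insert_subset (mem_filter.1 hv).1 h1,
          h2 ▸ card_insert_of_notMem (mem_filter.1 hv).2.1, (bd_step hd h1 hv).trans h3⟩
  obtain ⟨T, h1, h2, h3⟩ := key h le_rfl
  obtain ⟨Y, h4, h5⟩ := sep_bd (G := G) h1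
  exact ⟨T, Y, h4, h2.ge, by omega⟩

theorem tri_cl (hd : ∀ v ∈ M, dg G M v ≤ 2) {v : V} (hv : v ∈ tri G M) :
    dg G M v = 2 ∧ ∃ C, Cl G M C ∧ C ⊆ tri G M ∧ v ∈ C ∧ C.card ≤ 3 := by
  obtain ⟨h1, u, hu, z, hz, a, b, c⟩ := mem_filter.1 hv
  have t : ({v, u, z} : Finset V) ⊆ tri G M := by
    simp only [insert_subset_iff, singleton_subset_iff]
    exact ⟨hv, mem_filter.2 ⟨hu, z, hz, v, h1, b, c, a⟩, mem_filter.2 ⟨hz, v, h1, u, hu, c, a, b⟩⟩
  refine ⟨(hd v h1).antisymm (two_le hu hz a c.symm b.ne), {v, u, z},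
    ⟨t.trans (filter_subset _ _), fun x hx w hw e => ?_⟩, t, mem_insert_self _ _, card_le_three⟩
  simp only [mem_insert, mem_singleton] at hx ⊢
  rcases hx with rfl | rfl | rfl
  · exact Or.inr (third (hd _ h1) hu hz hw a c.symm e b.ne)
  · exact (third (hd _ hu) h1 hz hw a.symm b e c.ne').imp_right Or.inr
  · exact (third (hd _ hz) h1 hu hw c b.symm e a.ne).imp_right Or.inl

theorem split_one (hd : ∀ v ∈ M, dg G M v ≤ 2) (hM : M.card = 2 * h + 1)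
    (h1 : 2 * (inner G M).card + (tri G M).card ≤ 2 * h + 3) (h2 : (tri G M).card ≤ 2 * h) :
    ∃ X Y, Sep G M X Y ∧ h ≤ X.card ∧ h ≤ Y.card := by
  have c3 : Cl G M (tri G M) := ⟨filter_subset _ _, fun u hu v hv a => by
    obtain ⟨-, C, k1, k2, k3, -⟩ := tri_cl hd hu
    exact k2 (k1.2 u k3 v hv a)⟩
  obtain ⟨Y0, m0⟩ : ∃ Y0 : Finset V, ∀ v, v ∈ Y0 ↔
      v ∈ M ∧ ∃ C, Cl G M C ∧ (∀ u ∈ C, dg G M u = 2) ∧ v ∈ C := ⟨_, fun _ => mem_filter⟩
  have c0 : Cl G M Y0 := ⟨fun v hv => ((m0 v).1 hv).1, fun u hu v hv a => by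
    obtain ⟨-, C, k1, k2, k3⟩ := (m0 u).1 hu
    exact (m0 v).2 ⟨hv, C, k1, k2, k1.2 u k3 v hv a⟩⟩
  have d0 : ∀ v ∈ Y0, dg G M v = 2 := fun v hv => by
    obtain ⟨-, C, -, k2, k3⟩ := (m0 v).1 hv
    exact k2 v k3
  have s3 : tri G M ⊆ Y0 := fun v hv => (m0 v).2 ⟨c3.1 hv, _, c3, fun u hu => (tri_cl hd hu).1, hv⟩
  have i1 : (Y0 \ tri G M).card ≤ (inner G M).card := card_le_card fun v hv =>
    mem_filter.2 ⟨c0.1 (mem_sdiff.1 hv).1, d0 v (mem_sdiff.1 hv).1, (mem_sdiff.1 hv).2⟩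
  have i2 : (Y0 \ tri G M).card = 0 ∨ 3 ≤ (Y0 \ tri G M).card := by
    rcases (Y0 \ tri G M).eq_empty_or_nonempty with e | ⟨v, hv⟩
    · exact Or.inl (card_eq_zero.2 e)
    · have := d0 v (mem_sdiff.1 hv).1
      have := card_lt_card (show M.filter (G.Adj v) ⊂ Y0 \ tri G M from
        ⟨fun x hx => (c0.sdiff c3).2 v hv x (mem_filter.1 hx).1 (mem_filter.1 hx).2,
          fun e => (mem_filter.1 (e hv)).2.ne rfl⟩)
      unfold dg at *
      omega
  obtain ⟨Y2, c2, s2, l2, m2⟩ := exists_max (G := G) (M := M) (tri G M) (h + 1)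
  have i3 : (tri G M).card ≤ Y2.card ∨ h ≤ Y2.card + 1 := by
    refine or_iff_not_imp_left.2 fun e => ?_
    obtain ⟨v, hv, hv'⟩ := exists_mem_notMem_of_card_lt_card (not_le.1 e)
    obtain ⟨-, C, k1, k2, k3, k4⟩ := tri_cl hd hv
    have := m2 _ (c2.union k1) (union_subset s2 k2)
    have := card_union_le Y2 C
    have := card_lt_card (show Y2 ⊂ Y2 ∪ C from
      ⟨subset_union_left, fun e => hv' (e (mem_union_right _ k3))⟩)
    omega
  have i4 := card_sdiff_add_card_eq_card s3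
  have i5 := card_sdiff_add_card_eq_card (s2.trans s3)
  have c1 := c0.sdiff c2
  have big : ∀ C, Cl G M C → C.card = h + 1 → ∃ X Y, Sep G M X Y ∧ h ≤ X.card ∧ h ≤ Y.card :=
    fun C k e => ⟨_, _, k.sep, by omega, by have := card_sdiff_add_card_eq_card k.1; omega⟩
  by_cases e1 : (Y0 \ Y2).card = h + 1
  · exact big _ c1 e1
  by_cases e2 : Y2.card = h + 1
  · exact big _ c2 e2
  have key : ∀ j, (Y0 \ Y2).card ≤ j → j ≤ h → ∃ T ⊆ M \ Y2, Y0 \ Y2 ⊆ T ∧ T.card = j ∧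
      (bd G M T).card ≤ 1 := by
    intro j hj
    induction j, hj using Nat.le_induction with
    | base =>
      refine fun _ => ⟨_, sdiff_subset_sdiff c0.1 subset_rfl, subset_rfl, rfl, ?_⟩
      rw [bd, filter_false_of_mem fun v hv ⟨a, u, b, c⟩ => a (c1.2 u b v hv c)]
      simp
    | succ j _ ih =>
      intro hj
      obtain ⟨T, t1, t2, t3, t4⟩ := ih (by omega)
      have t5 := t1.trans sdiff_subset
      rcases (bd G M T).eq_empty_or_nonempty with h4 | ⟨v, hv⟩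
      · have cT : Cl G M T := ⟨t5, fun u hu v hv a => by_contra fun e =>
          notMem_empty v (h4 ▸ mem_filter.2 ⟨hv, e, u, hu, a⟩)⟩
        have cR := (cl_univ.sdiff c2).sdiff cT
        obtain ⟨v, hv, e⟩ : ∃ v ∈ (M \ Y2) \ T, dg G M v ≠ 2 := by
          by_contra! e
          have := card_sdiff_add_card_eq_card c2.1
          obtain ⟨v, a, b⟩ := exists_mem_notMem_of_card_lt_card
            (show T.card < (M \ Y2).card by omega)
          exact b (t2 (mem_sdiff.2 ⟨(m0 v).2 ⟨(mem_sdiff.1 a).1, _, cR, e, mem_sdiff.2 ⟨a, b⟩⟩,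
            (mem_sdiff.1 a).2⟩))
        have := hd v (cR.1 hv)
        exact ⟨_, insert_subset (mem_sdiff.1 hv).1 t1, t2.trans (subset_insert _ _),
          t3 ▸ card_insert_of_notMem (mem_sdiff.1 hv).2, (bd_new h4 v).trans (by omega)⟩
      · obtain ⟨a, b, u, hu, c⟩ := mem_filter.1 hv
        exact ⟨_, insert_subset (mem_sdiff.2 ⟨a, fun e => (mem_sdiff.1 (t1 hu)).2
          (c2.2 v e u (t5 hu) c.symm)⟩) t1, t2.trans (subset_insert _ _),
          t3 ▸ card_insert_of_notMem b, (bd_step hd t5 hv).trans t4⟩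
  obtain ⟨T, t1, -, t3, t4⟩ := key h (by omega) le_rfl
  obtain ⟨Y, h4, h5⟩ := sep_bd (G := G) (t1.trans sdiff_subset)
  exact ⟨T, Y, h4, t3.ge, by omega⟩

theorem grow (hd : ∀ v ∈ M, dg G M v ≤ 2) {W : Finset V} (hW : Cl G M W) {a : V} (ha : a ∈ M)
    (haW : a ∉ W) (da : dg G M a ≤ 1) (j : ℕ) (hj : W.card ≤ j)
    (hc : ∀ C, Cl G M C → W ⊆ C → a ∈ C → j < C.card) :
    ∃ T z, W ⊆ T ∧ T ⊆ M ∧ T.card = j ∧ z ∈ M ∧ z ∉ T ∧
      (∀ u ∈ T, ∀ v ∈ M, G.Adj u v → v ∈ insert z T) ∧ a ∈ insert z T ∧ (W.card < j → a ∈ T) ∧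
      (∀ v ∈ T, v ∉ W → v ≠ a → dg G M v = 2) ∧ (z = a ∨ ∃ u ∈ T, G.Adj z u) := by
  induction j, hj using Nat.le_induction with
  | base =>
    exact ⟨W, a, subset_rfl, hW.1, rfl, ha, haW, fun u hu v hv e =>
      mem_insert_of_mem (hW.2 u hu v hv e), mem_insert_self _ _, fun e => absurd e (lt_irrefl _),
      fun v a b => absurd a b, Or.inl rfl⟩
  | succ j _ ih =>
    obtain ⟨T, z, t1, t2, t3, t4, t5, t6, t7, -, t9, t0⟩ :=
      ih fun C a b c => (Nat.lt_succ_self j).trans (hc C a b c)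
    have k1 := card_insert_of_notMem t5
    have k2 := t1.trans (subset_insert z T)
    obtain ⟨v, hv, e, hv'⟩ : ∃ v ∈ M, G.Adj z v ∧ v ∉ insert z T := by
      by_contra! e
      have := hc _ ⟨insert_subset t4 t2, fun u hu v hv a =>
        (mem_insert.1 hu).elim (fun h => e v hv (h ▸ a)) fun h => t6 u h v hv a⟩ k2 t7
      omega
    have k3 : ∀ u ∈ T, u ≠ v := fun u hu e => hv' (mem_insert_of_mem (e ▸ hu))
    refine ⟨_, v, k2, insert_subset t4 t2, t3 ▸ k1, hv, hv', fun u hu w hw e' => ?_,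
      mem_insert_of_mem t7, fun _ => t7, fun u hu a b => ?_,
      Or.inr ⟨z, mem_insert_self _ _, e.symm⟩⟩
    · rcases mem_insert.1 hu with rfl | hu
      · rcases t0 with rfl | ⟨x, hx, e''⟩
        · exact mem_insert.2 (Or.inl (by_contra fun n => (two_le hw hv e' e n).not_gt (by omega)))
        · exact mem_insert.2 ((third (hd _ t4) (t2 hx) hv hw e'' e e' (k3 x hx)).symm.imp_right
            fun h : w = x => mem_insert_of_mem (h ▸ hx))
      · exact mem_insert_of_mem (t6 u hu w hw e')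
    · rcases mem_insert.1 hu with rfl | hu
      · obtain ⟨x, hx, e''⟩ := t0.resolve_left b
        exact (hd _ t4).antisymm (two_le (t2 hx) hv e'' e (k3 x hx))
      · exact t9 u hu a b

theorem grow' (hd : ∀ v ∈ M, dg G M v ≤ 2) {W : Finset V} (hW : Cl G M W) {a b : V} (ha : a ∈ M)
    (haW : a ∉ W) (da : dg G M a ≤ 1) (hb : b ∉ W) (hab : b ≠ a) (db : dg G M b ≤ 1) (j : ℕ)
    (hj : W.card ≤ j) (hc : ∀ C, Cl G M C → W ⊆ C → a ∈ C → j < C.card) :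
    ∃ T Y, Sep G M T Y ∧ T.card = j ∧ M.card ≤ Y.card + j + 1 ∧ a ∉ Y ∧ b ∉ T := by
  obtain ⟨T, z, -, t2, t3, t4, t5, t6, t7, -, t9, -⟩ := grow hd hW ha haW da j hj hc
  refine ⟨T, M \ insert z T, ⟨t2, sdiff_subset, disjoint_sdiff.mono_left (subset_insert _ _),
    fun u hu v hv e => (mem_sdiff.1 hv).2 (t6 u hu v (mem_sdiff.1 hv).1 e)⟩, t3, ?_,
    fun e => (mem_sdiff.1 e).2 t7, fun e => ?_⟩
  · have := card_sdiff_add_card_eq_card (insert_subset t4 t2)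
    have := card_insert_of_notMem t5
    omega
  · have := t9 b e hb hab
    omega

theorem split_pair (hd : ∀ v ∈ M, dg G M v ≤ 2) (hM : M.card = 2 * h)
    (hn : ¬ ∃ X Y, Sep G M X Y ∧ h ≤ X.card ∧ h ≤ Y.card) :
    ∃ X ⊆ M, X.card < h ∧ (∀ v ∈ M, v ∉ X → 1 ≤ dg G M v) ∧
      ∀ a ∈ M, ∀ b ∈ M, a ≠ b → dg G M a ≤ 1 → dg G M b ≤ 1 → ¬ (a ∈ X ∧ b ∈ X) →
        ∃ T Y, Sep G M T Y ∧ h ≤ T.card ∧ h ≤ Y.card + 1 ∧ b ∉ T ∧ a ∉ Y := by
  obtain ⟨X, cX, sX, lX, mX⟩ := exists_max (G := G) (M := M) M h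
  have i1 := card_sdiff_add_card_eq_card sX
  have l : X.card < h := lX.lt_of_ne fun e => hn ⟨_, _, cX.sep, e.ge, by omega⟩
  have big : ∀ C, Cl G M C → X ⊆ C → ∀ a ∈ C, a ∉ X → h < C.card := fun C k1 k2 a k3 k4 =>
    not_le.1 fun e => (mX C k1 k1.1 e).not_gt (card_lt_card ⟨k2, fun e => k4 (e k3)⟩)
  have cZ := cl_univ.sdiff cX
  have comp : ∀ a ∈ M, a ∉ X → ∃ W, Cl G M W ∧ W ⊆ M \ X ∧ a ∉ W ∧ W.card < h ∧
      ∀ C, Cl G M C → W ⊆ C → a ∈ C → h < C.card := fun a ha haX => by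
    obtain ⟨P, mP⟩ : ∃ P : Finset V, ∀ v, v ∈ P ↔ v ∈ M ∧ ∀ C, Cl G M C → a ∈ C → v ∈ C :=
      ⟨_, fun _ => mem_filter⟩
    have cP : Cl G M P := ⟨fun v hv => ((mP v).1 hv).1, fun u hu v hv e =>
      (mP v).2 ⟨hv, fun C k1 k2 => k1.2 u (((mP u).1 hu).2 C k1 k2) v hv e⟩⟩
    have aP : a ∈ P := (mP a).2 ⟨ha, fun _ _ h => h⟩
    refine ⟨_, cZ.sdiff cP, sdiff_subset, fun e => (mem_sdiff.1 e).2 aP, ?_, fun C _ k2 k3 =>
      lt_of_lt_of_le (by omega) (card_le_card (show M \ X ⊆ C from fun v hv => by_contra fun e =>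
        e (k2 (mem_sdiff.2 ⟨hv, fun n => e (((mP v).1 n).2 C ‹_› k3)⟩))))⟩
    have := big _ (cX.union cP) subset_union_left a (mem_union_right _ aP) haX
    have := card_sdiff_add_card_eq_card (cX.union cP).1
    rw [sdiff_sdiff_left, sup_eq_union]
    omega
  refine ⟨X, sX, l, fun v hv hX => by_contra fun e => ?_, fun a ha b hb hab da db hX => ?_⟩
  · have := big _ ⟨insert_subset hv sX, fun u hu w hw a => (mem_insert.1 hu).elim
      (fun h => (e (card_pos.2 ⟨w, mem_filter.2 ⟨hw, h ▸ a⟩⟩)).elim)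
      fun h => mem_insert_of_mem (cX.2 u h w hw a)⟩ (subset_insert _ _) v (mem_insert_self _ _) hX
    have := card_insert_of_notMem hX
    omega
  by_cases aX : a ∈ X
  · obtain ⟨W, w1, w2, w3, w4, w5⟩ := comp b hb fun e => hX ⟨aX, e⟩
    obtain ⟨T, Y, k1, k2, k3, k4, k5⟩ := grow' hd w1 hb w3 db (fun e => (mem_sdiff.1 (w2 e)).2 aX)
      hab da (h - 1) (by omega) fun C x y z => by have := w5 C x y z; omega
    exact ⟨Y, T, k1.symm, by omega, by omega, k4, k5⟩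
  obtain ⟨W, w1, w2, w3, w4, w5⟩ : ∃ W, Cl G M W ∧ b ∉ W ∧ a ∉ W ∧ W.card < h ∧
      ∀ C, Cl G M C → W ⊆ C → a ∈ C → h < C.card := by
    by_cases bX : b ∈ X
    · obtain ⟨W, w1, w2, w⟩ := comp a ha aX
      exact ⟨W, w1, fun e => (mem_sdiff.1 (w2 e)).2 bX, w⟩
    · exact ⟨X, cX, bX, aX, l, fun C x y z => big C x y a z aX⟩
  obtain ⟨T, Y, k1, k2, k3, k4, k5⟩ := grow' hd w1 ha w3 da w2 hab.symm db h w4.le w5
  exact ⟨T, Y, k1, k2.ge, by omega, k5, k4⟩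

end Pool.Agent.P.MP_6dea24_co.Bip
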