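import Pool.Agent.P.MP_6dea24_co.Bip2a

namespace Pool.Agent.P.MP_6dea24_co.Bip

open Finset
open scoped Classical

variable {V : Type*}

/-- the second system of weights -/
noncomputable def wt (R B : SimpleGraph V) (K : Finset V) (t : ℕ) (v : V) : ℝ :=
  if v ∈ inner Rᶜ (mid B K) then t / (t + 2)
  else if v ∈ tri Rᶜ (mid B K) ∨ v ∉ mid B K then (2 * t - 1) / (2 * t + 1) else 1

variable {G R B : SimpleGraph V} {s K M X Y : Finset V} {t : ℕ} {x : V → ℝ} {u v w a b : V}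

theorem tri_iff : v ∈ tri G M ↔ v ∈ M ∧ ∃ u ∈ M, ∃ z ∈ M, G.Adj v u ∧ G.Adj u z ∧ G.Adj z v :=
  mem_filter

theorem inner_iff : v ∈ inner G M ↔ v ∈ M ∧ dg G M v = 2 ∧ v ∉ tri G M := mem_filter

theorem pat {g r : ℕ} (h6 : (6 : ℝ) ≤ t)
    (h1 : 2 * (t : ℝ) - 1 ≤ ((t : ℝ) - 3 / 2) * g + ((t : ℝ) + 1 / 2) * r)
    (h2 : ((t : ℝ) - 3 / 2) * g + ((t : ℝ) + 1 / 2) * r < 2 * t + 3) :
    (g = 1 ∧ r = 1) ∨ (g = 0 ∧ r = 2) ∨ (g = 3 ∧ r = 0) := by
  by_contra hn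
  have g0 : (0 : ℝ) ≤ g := Nat.cast_nonneg g
  have r0 : (0 : ℝ) ≤ r := Nat.cast_nonneg r
  rcases (by omega : (r = 0 ∧ g ≤ 2) ∨ (r = 1 ∧ g = 0) ∨ 4 ≤ g ∨ (2 ≤ g ∧ 1 ≤ r) ∨
    (1 ≤ g ∧ 2 ≤ r) ∨ 3 ≤ r) with ⟨rfl, a⟩ | ⟨rfl, rfl⟩ | a | ⟨a, b⟩ | ⟨a, b⟩ | a
  · have : (g : ℝ) ≤ 2 := by exact_mod_cast a
    push_cast at h1
    nlinarith
  · push_cast at h1
    linarith
  · have : (4 : ℝ) ≤ g := by exact_mod_cast a
    nlinarith
  · have : (2 : ℝ) ≤ g := by exact_mod_cast a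
    have : (1 : ℝ) ≤ r := by exact_mod_cast b
    nlinarith
  · have : (1 : ℝ) ≤ g := by exact_mod_cast a
    have : (2 : ℝ) ≤ r := by exact_mod_cast b
    nlinarith
  · have : (3 : ℝ) ≤ r := by exact_mod_cast a
    nlinarith

theorem sum_low {c : V → ℝ} {m : ℝ} (h : ∀ v ∈ nb G M w, m ≤ c v) :
    m * dg G M w ≤ ∑ v ∈ nb G M w, c v := by
  have := card_nsmul_le_sum _ c m h
  rwa [nsmul_eq_mul, mul_comm] at this

theorem Ctx.low (h : Ctx R B s K t) {c : V → ℝ} {m : ℝ} (hc : ∀ v ∈ K, m ≤ c v) (w : V) :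
    m * cst R B t K w + (if w ∈ K then (2 * (t : ℝ) - 1) * c w else 0) ≤
      ∑ v ∈ K, c v * en R B ((t : ℝ) - 3 / 2) ((t : ℝ) + 1 / 2) v w := by
  have h6 := h.six
  have h1 := sum_low (G := Rᶜ) (w := w) fun v hv => hc v (mem_nb.1 hv).1
  have h2 := sum_low (G := Bᶜ) (w := w) fun v hv => hc v (mem_nb.1 hv).1
  rw [wsum, cst, show (t : ℝ) - 3 / 2 + ((t : ℝ) + 1 / 2) = 2 * t - 1 by ring]
  nlinarith

theorem Ctx.lt_two (h : Ctx R B s K t) (hv : v ∈ K) (h1 : cst R B t K v ≤ (t : ℝ) + 1 / 2) :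
    dg Rᶜ K v ≤ 1 := by
  by_contra hn
  have h6 := h.six
  have h2 := h.typ hv
  rw [cst, show dg Rᶜ K v = 2 by omega, show dg Bᶜ K v = 0 by omega] at h1
  push_cast at h1
  linarith

theorem Ctx.cstP (h : Ctx R B s K t) (hv : v ∈ K) (h1 : v ∉ mid B K) :
    dg Rᶜ K v = 0 ∧ cst R B t K v = (t : ℝ) + 1 / 2 := by
  have h2 := h.typ hv
  have h3 : dg Bᶜ K v ≠ 0 := fun e => h1 (mem_mid.2 ⟨hv, e⟩)
  rw [cst, show dg Rᶜ K v = 0 by omega, show dg Bᶜ K v = 1 by omega]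
  simp

theorem cstM (hv : v ∈ mid B K) : cst R B t K v = ((t : ℝ) - 3 / 2) * dg Rᶜ K v := by
  rw [cst, (mem_mid.1 hv).2]
  simp

theorem enP {ν τ : ℝ} (hu : u ∈ mid B K) (hv : v ∈ K)
    (h1 : ¬ Rᶜ.Adj v u) (hn : v ≠ u) : en R B ν τ u v = 0 :=
  en_zero hn h1 fun e => by
    have := dg_pos hv e.symm
    have := (mem_mid.1 hu).2
    omega

theorem Ctx.rb (h : Ctx R B s K t) (hw : w ∈ s) (hK : w ∉ K) (h1 : dg Rᶜ K w = 1)
    (h2 : dg Bᶜ K w = 1) : ∃ a b, nb Bᶜ K w = {a} ∧ nb Rᶜ K w = {b} ∧ a ∈ mid B K ∧ b ∈ K ∧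
      a ≠ b ∧ dg Rᶜ K a ≤ 1 ∧ dg Rᶜ K b ≤ 1 ∧ (b ∉ mid B K → dg Rᶜ K a = 0) := by
  obtain ⟨a, ha⟩ := card_eq_one.1 h2
  obtain ⟨b, hb⟩ := card_eq_one.1 h1
  have a1 : a ∈ nb Bᶜ K w := (show nb Bᶜ K w = {a} from ha) ▸ mem_singleton_self a
  have b1 : b ∈ nb Rᶜ K w := (show nb Rᶜ K w = {b} from hb) ▸ mem_singleton_self b
  have a2 := (mem_nb.1 a1).1
  have b2 := (mem_nb.1 b1).1
  have h6 := h.six
  have c0 : cst R B t K w = 2 * t - 1 := by
    rw [cst, h1, h2]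
    push_cast
    ring
  have c1 := h.x1 hw hK a2
  have c2 := h.x1 hw hK b2
  rw [h.enR hw a1] at c1
  rw [h.enB hw b1] at c2
  have a3 : a ∈ mid B K := by_contra fun e => by linarith [(h.cstP a2 e).2]
  have ab : a ≠ b := fun e => h.excl hw b2 (mem_nb.1 b1).2 (e ▸ (mem_nb.1 a1).2)
  refine ⟨a, b, ha, hb, a3, b2, ab, h.lt_two a2 (by linarith), h.lt_two b2 (by linarith),
    fun e => by_contra fun e' => ?_⟩
  have c3 := h.x2 hw hK a2 b2 ab.symm
  have c4 : (1 : ℝ) ≤ dg Rᶜ K a := by exact_mod_cast Nat.pos_of_ne_zero e'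
  rw [h.enR hw a1, h.enB hw b1, (h.cstP b2 e).2, cstM a3, enP a3 b2 (fun p => by
    have := dg_pos a2 p
    have := (h.cstP b2 e).1
    omega) ab.symm] at c3
  nlinarith

theorem Ctx.wt_one (h : Ctx R B s K t) (hv : v ∈ mid B K) (h1 : dg Rᶜ K v ≤ 1) :
    wt R B K t v = 1 := by
  rw [← h.dg_mid (mid_sub hv)] at h1
  rw [wt, if_neg fun e => by have := (inner_iff.1 e).2.1; omega,
    if_neg fun e => e.elim (fun e => by have := dg_tri e; omega) fun e => e hv]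

theorem Ctx.wt_ge (h : Ctx R B s K t) (hv : v ∉ inner Rᶜ (mid B K)) :
    (2 * (t : ℝ) - 1) / (2 * t + 1) ≤ wt R B K t v := by
  have h6 := h.six
  rw [wt, if_neg hv]
  split_ifs
  · exact le_rfl
  · rw [div_le_one (by linarith)]
    linarith

theorem Ctx.wt_ge' (h : Ctx R B s K t) (v : V) : (t : ℝ) / (t + 2) ≤ wt R B K t v := by
  have h6 := h.six
  by_cases hv : v ∈ inner Rᶜ (mid B K)
  · rw [wt, if_pos hv]
  · refine le_trans ?_ (h.wt_ge hv)
    rw [div_le_div_iff₀ (by linarith) (by linarith)]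
    nlinarith

theorem Ctx.wt_sum (h : Ctx R B s K t) {r : ℕ} (hr : (mid B K).card + 2 * r = K.card) :
    ∑ v ∈ K, wt R B K t v = K.card - 2 / (t + 2) * (inner Rᶜ (mid B K)).card -
      2 / (2 * t + 1) * ((tri Rᶜ (mid B K)).card + 2 * r) := by
  have h6 := h.six
  have k : ∀ S ⊆ K, ∑ v ∈ K, (if v ∈ S then (1 : ℝ) else 0) = S.card := fun S hS => by
    rw [sum_ite_mem, inter_eq_right.2 hS, sum_const, nsmul_eq_mul, mul_one]
  have e : (2 * r : ℝ) = K.card - (mid B K).card := by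
    rw [← hr]
    push_cast
    ring
  rw [e, ← k (inner Rᶜ (mid B K)) fun _ a => mid_sub (inner_iff.1 a).1,
    ← k (tri Rᶜ (mid B K)) fun _ a => mid_sub (tri_iff.1 a).1, ← k (mid B K) mid_sub,
    ← k K Subset.rfl, ← sum_sub_distrib, ← sum_add_distrib, mul_sum, mul_sum, ← sum_sub_distrib,
    ← sum_sub_distrib]
  refine sum_congr rfl fun v hv => ?_
  rw [wt, if_pos hv]
  by_cases h1 : v ∈ inner Rᶜ (mid B K)
  · rw [if_pos h1, if_pos h1, if_neg (inner_iff.1 h1).2.2, if_pos (inner_iff.1 h1).1]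
    field_simp
    ring
  rw [if_neg h1, if_neg h1]
  by_cases h2 : v ∈ tri Rᶜ (mid B K)
  · rw [if_pos (Or.inl h2), if_pos h2, if_pos (tri_iff.1 h2).1]
    field_simp
    ring
  by_cases h3 : v ∈ mid B K
  · rw [if_neg (not_or.2 ⟨h2, not_not.2 h3⟩), if_neg h2, if_pos h3]
    ring
  · rw [if_pos (Or.inr h3), if_neg h2, if_neg h3]
    field_simp
    ring

theorem Ctx.bbb (h : Ctx R B s K t) (hw : w ∈ s) (hK : w ∉ K) (h1 : dg Rᶜ K w = 3)
    (h2 : dg Bᶜ K w = 0) (hv : v ∈ nb Rᶜ K w) (hi : v ∈ inner Rᶜ (mid B K)) :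
    ∃ u ∈ nb Rᶜ K w, wt R B K t u = 1 := by
  by_contra hn
  have h6 := h.six
  have k0 : ∀ u ∈ nb Rᶜ K w, u ∈ mid B K → dg Rᶜ K u = 2 := fun u hu hm => by
    have := h.typ (mem_nb.1 hu).1
    exact by_contra fun e => hn ⟨u, hu, h.wt_one hm (by omega)⟩
  have k1 : ∀ u ∈ nb Rᶜ K w, u ∈ mid B K → ∀ z ∈ nb Rᶜ K w, z ≠ u → Rᶜ.Adj z u :=
    fun u hu hm z hz hn => by_contra fun e => by
      have c := h.x2 hw hK (mid_sub hm) (mem_nb.1 hz).1 hn
      have c0 : cst R B t K w = ((t : ℝ) - 3 / 2) * 3 := by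
        rw [cst, h1, h2]
        simp
      rw [h.enB hw hu, h.enB hw hz, enP hm (mem_nb.1 hz).1 e hn, cstM hm, k0 u hu hm, c0] at c
      push_cast at c
      by_cases hm' : z ∈ mid B K
      · rw [cstM hm', k0 z hz hm'] at c
        push_cast at c
        linarith
      · linarith [(h.cstP (mem_nb.1 hz).1 hm').2]
  have hm := (inner_iff.1 hi).1
  have k2 : ∀ z ∈ (nb Rᶜ K w).erase v, z ∈ mid B K := fun z hz => by_contra fun e => by
    have := dg_pos (mid_sub hm) (k1 v hv hm z (mem_of_mem_erase hz) (mem_erase.1 hz).1)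
    have := (h.cstP (mem_nb.1 (mem_of_mem_erase hz)).1 e).1
    omega
  obtain ⟨y, hy, z, hz, hyz⟩ := one_lt_card.1 (show 1 < ((nb Rᶜ K w).erase v).card by
    rw [card_erase_of_mem hv, card_nb, h1]; decide)
  exact (inner_iff.1 hi).2.2 (tri_iff.2 ⟨hm, y, k2 y hy, z, k2 z hz,
    (k1 v hv hm y (mem_of_mem_erase hy) (mem_erase.1 hy).1).symm,
    k1 z (mem_of_mem_erase hz) (k2 z hz) y (mem_of_mem_erase hy) hyz,
    k1 v hv hm z (mem_of_mem_erase hz) (mem_erase.1 hz).1⟩)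

theorem Ctx.w2 (h : Ctx R B s K t) (hx : ∀ v ∈ s, 0 < x v)
    (hd : Deg R B s x ((t : ℝ) - 3 / 2) ((t : ℝ) + 1 / 2)) (hne : K.Nonempty)
    (hC : ∑ v ∈ K, wt R B K t v ≤ 2 * t - 1) :
    ∃ w ∈ s, w ∉ K ∧ ∃ a b, nb Bᶜ K w = {a} ∧ nb Rᶜ K w = {b} ∧ a ∈ mid B K ∧ b ∉ mid B K ∧
      dg Rᶜ K a = 0 ∧ 2 * t - (4 * t - 2) / (2 * t + 1) < ∑ v ∈ K, wt R B K t v := by
  have h6 := h.six
  have m0 : (0 : ℝ) < t / (t + 2) := by positivity
  obtain ⟨w, hw, h1⟩ := avg hx hd (f := id) h.sub (fun v _ => m0.trans_le (h.wt_ge' v)) hne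
  simp only [id] at h1
  have h2 := h.low (fun v _ => h.wt_ge' v) w
  have m1 : (t : ℝ) / (t + 2) * (t + 2) = t := div_mul_cancel₀ _ (by linarith)
  have g1 : (2 * (t : ℝ) - 1) / (2 * t + 1) * (2 * t + 1) = 2 * t - 1 :=
    div_mul_cancel₀ _ (by linarith)
  have g0 : (0 : ℝ) < (2 * t - 1) / (2 * t + 1) := div_pos (by linarith) (by linarith)
  have hK : w ∉ K := fun hK => by
    rw [if_pos hK] at h2
    have a0 := h.wt_ge' w
    by_cases a : cst R B t K w < (t : ℝ) + 1 / 2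
    · have a1 : w ∈ mid B K := by_contra fun e => a.ne (h.cstP hK e).2
      have a2 : 0 ≤ cst R B t K w := by
        rw [cstM a1]
        exact mul_nonneg (by linarith) (Nat.cast_nonneg _)
      rw [h.wt_one a1 (h.lt_two hK a.le)] at h2
      nlinarith
    · have a1 : (t : ℝ) / (t + 2) * (3 * t - 1 / 2) < 2 * t - 1 := by nlinarith
      rw [div_mul_eq_mul_div, div_lt_iff₀ (by linarith)] at a1
      nlinarith
  rw [if_neg hK] at h2
  have h3 : cst R B t K w < 2 * t + 3 := by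
    by_contra a
    have a1 : (t : ℝ) / (t + 2) * (2 * t + 3) < 2 * t - 1 := by nlinarith
    rw [div_mul_eq_mul_div, div_lt_iff₀ (by linarith)] at a1
    nlinarith
  rw [wsum, if_neg hK] at h1
  rcases pat h6 (h.x0 hw hK) h3 with ⟨p, q⟩ | ⟨p, q⟩ | ⟨p, q⟩
  · obtain ⟨a, b, e1, e2, a1, b1, -, a2, b2, a3⟩ := h.rb hw hK p q
    rw [e1, e2, sum_singleton, sum_singleton, h.wt_one a1 a2] at h1
    have b3 : b ∉ mid B K := fun e => by
      rw [h.wt_one e b2] at h1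
      linarith
    refine ⟨w, hw, hK, a, b, e1, e2, a1, b3, a3 b3, lt_of_le_of_lt (le_of_eq ?_) h1⟩
    rw [wt, if_neg fun e => b3 (inner_iff.1 e).1, if_pos (Or.inr b3)]
    field_simp
    ring
  · have a1 := sum_low (G := Bᶜ) (M := K) (w := w) fun v hv => h.wt_ge (v := v) fun e => by
      have c := h.x1 hw hK (mem_nb.1 hv).1
      rw [h.enR hw hv, cst, cst, p, q] at c
      have := h.lt_two (mem_nb.1 hv).1 (by rw [cst]; push_cast at c; linarith)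
      have := (inner_iff.1 e).2.1
      rw [h.dg_mid (mem_nb.1 hv).1] at this
      omega
    rw [card_eq_zero.1 (show (nb Rᶜ K w).card = 0 from p), sum_empty] at h1
    rw [q] at a1
    push_cast at a1
    nlinarith
  · rw [card_eq_zero.1 (show (nb Bᶜ K w).card = 0 from q), sum_empty] at h1
    exfalso
    by_cases hi : ∃ v ∈ nb Rᶜ K w, v ∈ inner Rᶜ (mid B K)
    · obtain ⟨v, hv, hi⟩ := hi
      obtain ⟨u, hu, e⟩ := h.bbb hw hK p q hv hi
      have a1 := card_nsmul_le_sum ((nb Rᶜ K w).erase u) _ _ fun v _ => h.wt_ge' v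
      rw [card_erase_of_mem hu, card_nb, p, sum_erase_eq_sub hu, e, nsmul_eq_mul] at a1
      norm_num at a1
      have a2 : ((t : ℝ) - 3 / 2) * (2 * (t / (t + 2)) + 1) < 2 * t - 1 := by nlinarith
      have a3 := mul_lt_mul_of_pos_right a2 (show (0 : ℝ) < t + 2 by linarith)
      nlinarith
    · have a1 := sum_low (G := Rᶜ) (M := K) (w := w) fun v hv => h.wt_ge fun e => hi ⟨v, hv, e⟩
      rw [p] at a1
      push_cast at a1
      nlinarith

theorem sep_ins (ha : a ∈ M) (h0 : dg G M a = 0) (h : Sep G (M.erase a) X Y) :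
    Sep G M X (insert a Y) ∧ a ∉ X ∧ (insert a Y).card = Y.card + 1 := by
  obtain ⟨h1, h2, h3, h4⟩ := h
  have h5 : a ∉ X := fun e => notMem_erase _ _ (h1 e)
  refine ⟨⟨h1.trans (erase_subset _ _), insert_subset ha (h2.trans (erase_subset _ _)),
    disjoint_insert_right.2 ⟨h5, h3⟩, fun u hu v hv e => ?_⟩, h5,
    card_insert_of_notMem fun e => notMem_erase _ _ (h2 e)⟩
  rcases mem_insert.1 hv with rfl | hv
  · have := dg_pos (mem_of_mem_erase (h1 hu)) e.symm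
    omega
  · exact h4 u hu v hv e

theorem iso_le (h0 : dg G M a = 0) : (inner G (M.erase a)).card ≤ (inner G M).card ∧
    (tri G (M.erase a)).card ≤ (tri G M).card := by
  have k : ∀ u ∈ M, ∀ v ∈ M, G.Adj u v → v ∈ M.erase a := fun u hu v hv e =>
    mem_erase.2 ⟨fun p => by have := dg_pos hu (p ▸ e.symm); omega, hv⟩
  refine ⟨card_le_card fun v hv => ?_, card_le_card fun v hv => ?_⟩
  · obtain ⟨h1, h2, h3⟩ := inner_iff.1 hv
    have h4 := mem_of_mem_erase h1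
    refine inner_iff.2 ⟨h4, le_antisymm (h2 ▸ card_le_card fun u hu => mem_nb.2
      ⟨k v h4 u (mem_nb.1 hu).1 (mem_nb.1 hu).2, (mem_nb.1 hu).2⟩)
      (h2 ▸ dg_mono (erase_subset _ _) v), fun e => h3 ?_⟩
    obtain ⟨-, u, hu, z, hz, e1, e2, e3⟩ := tri_iff.1 e
    exact tri_iff.2 ⟨h1, u, k v h4 u hu e1, z, k u hu z hz e2, e1, e2, e3⟩
  · obtain ⟨h1, u, hu, z, hz, e⟩ := tri_iff.1 hv
    exact tri_iff.2 ⟨mem_of_mem_erase h1, u, mem_of_mem_erase hu, z, mem_of_mem_erase hz, e⟩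

theorem Ctx.odd (h : Ctx R B s K t) (hx : ∀ v ∈ s, 0 < x v)
    (hd : Deg R B s x ((t : ℝ) - 3 / 2) ((t : ℝ) + 1 / 2)) {r k : ℕ}
    (hr : (mid B K).card + 2 * r = K.card) (hk : r + k + 1 = t) (hn : K.card = 2 * t + 1) :
    Tgt R B s t := by
  have hne : K.Nonempty := card_pos.1 (by omega)
  have h6 := h.six
  by_cases hS : 2 * (inner Rᶜ (mid B K)).card + (tri Rᶜ (mid B K)).card ≤ 2 * (k + 1) + 3 ∧
      (tri Rᶜ (mid B K)).card ≤ 2 * (k + 1)
  · obtain ⟨X, Y, h1, h2, h3⟩ := split_one (h.deg Subset.rfl) (by omega) hS.1 hS.2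
    exact h.asm1 hne.choose h1 hr (by omega) (by omega)
  obtain ⟨w, hw, hK, a, b, e1, e2, a1, b1, a2, -⟩ := h.w2 hx hd hne (by
    rw [h.wt_sum hr, hn]
    generalize (inner Rᶜ (mid B K)).card = i at *
    generalize (tri Rᶜ (mid B K)).card = j at *
    have f1 : 2 / ((t : ℝ) + 2) * (t + 2) = 2 := div_mul_cancel₀ _ (by linarith)
    have g1 : 2 / (2 * (t : ℝ) + 1) * (2 * t + 1) = 2 := div_mul_cancel₀ _ (by linarith)
    have f0 : 0 < 2 / ((t : ℝ) + 2) := by positivity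
    have g0 : 0 < 2 / (2 * (t : ℝ) + 1) := by positivity
    have fg : 2 / ((t : ℝ) + 2) ≤ 2 * (2 / (2 * (t : ℝ) + 1)) := by
      rw [← mul_div_assoc, div_le_div_iff₀ (by linarith) (by linarith)]
      linarith
    have i0 : (0 : ℝ) ≤ i := Nat.cast_nonneg i
    have j0 : (0 : ℝ) ≤ j + 2 * r := by positivity
    push_cast
    rcases (by omega : 2 * (t + 2) ≤ 2 * i + (j + 2 * r) ∨ 2 * t + 1 ≤ j + 2 * r) with a | a
    · have a : 2 * ((t : ℝ) + 2) ≤ 2 * i + (j + 2 * r) := by exact_mod_cast a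
      nlinarith
    · have a : 2 * (t : ℝ) + 1 ≤ j + 2 * r := by exact_mod_cast a
      nlinarith)
  obtain ⟨X, Y, h1, h2, h3⟩ := split_two (h := k) (h.deg (erase_subset a _))
    (by rw [card_erase_of_mem a1]; omega)
  obtain ⟨p1, p2, p3⟩ := sep_ins a1 ((h.dg_mid (mid_sub a1)).trans a2) h1
  exact h.asm2 hw hK e1 e2 a1 p2 (fun e => b1 (p1.2.1 e)) p1 hr (by omega) (by omega)

theorem Ctx.iso (h : Ctx R B s K t) (hx : ∀ v ∈ s, 0 < x v)
    (hd : Deg R B s x ((t : ℝ) - 3 / 2) ((t : ℝ) + 1 / 2)) {r k : ℕ}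
    (hr : (mid B K).card + 2 * r = K.card) (hk : r + k + 1 = t) (hn : K.card = 2 * t)
    (ha : a ∈ mid B K) (h0 : dg Rᶜ K a = 0) :
    ∃ X Y, Sep Rᶜ ((mid B K).erase a) X Y ∧ k ≤ X.card ∧ k ≤ Y.card := by
  have h6 := h.six
  obtain ⟨p1, p2⟩ := iso_le ((h.dg_mid (mid_sub ha)).trans h0)
  by_contra hc
  have hS : ¬ (2 * (inner Rᶜ ((mid B K).erase a)).card + (tri Rᶜ ((mid B K).erase a)).card ≤
      2 * k + 3 ∧ (tri Rᶜ ((mid B K).erase a)).card ≤ 2 * k) := fun e =>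
    hc (split_one (h.deg (erase_subset a _)) (by rw [card_erase_of_mem ha]; omega) e.1 e.2)
  have g2 : (1 : ℝ) ≤ (4 * t - 2) / (2 * t + 1) := by
    rw [le_div_iff₀ (by linarith)]
    linarith
  have key : ∑ v ∈ K, wt R B K t v ≤ 2 * t - (4 * t - 2) / (2 * t + 1) := by
    rw [h.wt_sum hr, hn]
    generalize (inner Rᶜ (mid B K)).card = i at *
    generalize (tri Rᶜ (mid B K)).card = j at *
    have g1 : (4 * (t : ℝ) - 2) / (2 * t + 1) = 2 / (2 * (t : ℝ) + 1) * (2 * t - 1) := by ring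
    have f1 : (4 * (t : ℝ) - 2) / (2 * t + 1) ≤ 2 / ((t : ℝ) + 2) * (t + 1) := by
      rw [div_mul_eq_mul_div, div_le_div_iff₀ (by linarith) (by linarith)]
      nlinarith
    have f0 : 0 < 2 / ((t : ℝ) + 2) := by positivity
    have g0 : 0 < 2 / (2 * (t : ℝ) + 1) := by positivity
    have fg : 2 / ((t : ℝ) + 2) ≤ 2 * (2 / (2 * (t : ℝ) + 1)) := by
      rw [← mul_div_assoc, div_le_div_iff₀ (by linarith) (by linarith)]
      linarith
    have i0 : (0 : ℝ) ≤ i := Nat.cast_nonneg i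
    have j0 : (0 : ℝ) ≤ j + 2 * r := by positivity
    push_cast
    rcases (by omega : 2 * (t + 1) ≤ 2 * i + (j + 2 * r) ∨ 2 * t ≤ j + 2 * r + 1) with a | a
    · have a : 2 * ((t : ℝ) + 1) ≤ 2 * i + (j + 2 * r) := by exact_mod_cast a
      nlinarith
    · have a : 2 * (t : ℝ) ≤ j + 2 * r + 1 := by exact_mod_cast a
      nlinarith
  obtain ⟨w, -, -, a, b, -, -, -, -, -, e⟩ := h.w2 hx hd ⟨a, mid_sub ha⟩ (by linarith)
  linarith

theorem Ctx.evn (h : Ctx R B s K t) (hx : ∀ v ∈ s, 0 < x v)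
    (hd : Deg R B s x ((t : ℝ) - 3 / 2) ((t : ℝ) + 1 / 2)) {r k : ℕ}
    (hr : (mid B K).card + 2 * r = K.card) (hk : r + k + 1 = t) (hn : K.card = 2 * t) :
    Tgt R B s t := by
  have hne : K.Nonempty := card_pos.1 (by omega)
  have h6 := h.six
  by_cases hS : ∃ X Y, Sep Rᶜ (mid B K) X Y ∧ k + 1 ≤ X.card ∧ k + 1 ≤ Y.card
  · obtain ⟨X, Y, h1, h2, h3⟩ := hS
    exact h.asm1 hne.choose h1 hr (by omega) (by omega)
  obtain ⟨X, x1, x2, x3, x4⟩ := split_pair (h.deg Subset.rfl) (by omega) hS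
  have m0 : (0 : ℝ) < t / (t + 1) := by positivity
  have m1 : (t : ℝ) / (t + 1) * (t + 1) = t := div_mul_cancel₀ _ (by linarith)
  have m2 : (t : ℝ) / (t + 1) ≤ 1 := by
    rw [div_le_one (by linarith)]
    linarith
  have c0 : ∀ v ∈ K, (t : ℝ) / (t + 1) ≤ if v ∈ X then 1 else (t : ℝ) / (t + 1) := fun v _ => by
    split_ifs
    · exact m2
    · exact le_rfl
  obtain ⟨w, hw, h1⟩ := avg hx hd (f := id) h.sub (fun v hv => m0.trans_le (c0 v hv)) hne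
  simp only [id] at h1
  have h2 := h.low c0 w
  have hC : ∑ v ∈ K, (if v ∈ X then 1 else (t : ℝ) / (t + 1)) ≤ 2 * t - 1 := by
    have a1 := card_sdiff_add_card_eq_card (x1.trans mid_sub)
    have a2 : (X.card : ℝ) + 1 ≤ t := by exact_mod_cast (by omega : X.card + 1 ≤ t)
    have a3 : ((K \ X).card : ℝ) = 2 * t - X.card := by
      rw [eq_sub_iff_add_eq]
      exact_mod_cast a1.trans hn
    rw [sum_ite, filter_mem_eq_inter, inter_eq_right.2 (x1.trans mid_sub), filter_notMem_eq_sdiff,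
      sum_const, sum_const, nsmul_eq_mul, nsmul_eq_mul, a3]
    nlinarith
  replace h1 := h1.trans_le hC
  have hK : w ∉ K := fun hK => by
    rw [if_pos hK] at h2
    have a1 : 0 ≤ cst R B t K w := add_nonneg (mul_nonneg (by linarith) (Nat.cast_nonneg _))
      (mul_nonneg (by linarith) (Nat.cast_nonneg _))
    split_ifs at h2 with hX
    · nlinarith
    · have a2 : (t : ℝ) - 3 / 2 ≤ cst R B t K w := by
        by_cases e : w ∈ mid B K
        · have b : (1 : ℝ) ≤ dg Rᶜ K w := by exact_mod_cast h.dg_mid hK ▸ x3 w e hX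
          rw [cstM e]
          nlinarith
        · linarith [(h.cstP hK e).2]
      have a3 : (t : ℝ) / (t + 1) * (3 * t - 5 / 2) < 2 * t - 1 := by nlinarith
      rw [div_mul_eq_mul_div, div_lt_iff₀ (by linarith)] at a3
      nlinarith
  rw [if_neg hK] at h2
  have h3 : cst R B t K w < 2 * t + 1 := by
    by_contra a
    have a1 : (t : ℝ) / (t + 1) * (2 * t + 1) < 2 * t - 1 := by nlinarith
    rw [div_mul_eq_mul_div, div_lt_iff₀ (by linarith)] at a1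
    nlinarith
  rcases pat h6 (h.x0 hw hK) (h3.trans (by linarith)) with ⟨p, q⟩ | ⟨p, q⟩ | ⟨p, q⟩
  · obtain ⟨a, b, e1, e2, a1, b1, ab, a2, b2, a3⟩ := h.rb hw hK p q
    by_cases b3 : b ∈ mid B K
    · obtain ⟨T, Y, p1, p2, p3, p4, p5⟩ := x4 a a1 b b3 ab (h.dg_mid (mid_sub a1) ▸ a2)
        (h.dg_mid b1 ▸ b2) fun e => by
          rw [wsum, if_neg hK, e1, e2, sum_singleton, sum_singleton, if_pos e.1, if_pos e.2] at h1
          linarith
      exact h.asm2 hw hK e1 e2 a1 p5 p4 ⟨p1.2.1, p1.1, p1.2.2.1.symm,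
        fun u hu v hv e => p1.2.2.2 v hv u hu e.symm⟩ hr (by omega) (by omega)
    · obtain ⟨X', Y', q1, q2, q3⟩ := h.iso hx hd hr hk hn a1 (a3 b3)
      obtain ⟨p1, p2, p3⟩ := sep_ins a1 ((h.dg_mid (mid_sub a1)).trans (a3 b3)) q1
      exact h.asm2 hw hK e1 e2 a1 p2 (fun e => b3 (p1.2.1 e)) p1 hr (by omega) (by omega)
  · rw [cst, p, q] at h3
    push_cast at h3
    linarith
  · rw [cst, p, q] at h3
    push_cast at h3
    linarith

theorem tgt_big {V : Type*} {R B : SimpleGraph V} {s : Finset V} {x : V → ℝ} {t : ℕ} (ht : 6 ≤ t)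
    (hs : s.Nonempty) (hx : ∀ v ∈ s, 0 < x v) (hW : NoWhite R B s)
    (hd : Deg R B s x ((t : ℝ) - 3 / 2) ((t : ℝ) + 1 / 2)) : Tgt R B s t := by
  obtain ⟨K, hK⟩ := exists_opt R B ((t : ℝ) - 3 / 2) ((t : ℝ) + 1 / 2) s
  have h : Ctx R B s K t := ⟨ht, hW, hK⟩
  have h6 := h.six
  have h1 := hK.1.lt_card (by linarith) (by linarith) (by linarith) hs hx hd
  have h2 : 2 * t < K.card + 1 := by
    have : 2 * (t : ℝ) < K.card + 1 := by linarith
    exact_mod_cast this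
  obtain ⟨r, hr⟩ := h.even hs.choose
  by_cases h3 : t ≤ r
  · exact h.asm1 (X := ∅) (Y := ∅) hs.choose
      ⟨empty_subset _, empty_subset _, disjoint_empty_left _, by simp⟩ hr h3 h3
  obtain ⟨k, hk⟩ := Nat.exists_eq_add_of_lt (not_le.1 h3)
  rcases (by omega : K.card = 2 * t ∨ K.card = 2 * t + 1 ∨ 2 * t + 2 ≤ K.card) with e | e | e
  · exact h.evn hx hd hr hk.symm e
  · exact h.odd hx hd hr hk.symm e
  · obtain ⟨X, Y, p1, p2, p3⟩ := split_two (h := k + 1) (h.deg Subset.rfl) (by omega)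
    exact h.asm1 hs.choose p1 hr (by omega) (by omega)

end Pool.Agent.P.MP_6dea24_co.Bip
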