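import Pool.Agent.P.MP_6dea24_co.Bip1

namespace Pool.Agent.P.MP_6dea24_co.Bip

open Finset
open scoped Classical

variable {V : Type*}

/-- neighbours inside `M` -/
noncomputable def nb (G : SimpleGraph V) (M : Finset V) (v : V) : Finset V := M.filter (G.Adj v)

/-- the cost of a vertex -/
noncomputable def cst (R B : SimpleGraph V) (t : ℕ) (K : Finset V) (w : V) : ℝ :=
  ((t : ℝ) - 3 / 2) * dg Rᶜ K w + ((t : ℝ) + 1 / 2) * dg Bᶜ K w

/-- the vertices that are in no red pair -/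
noncomputable def mid (B : SimpleGraph V) (K : Finset V) : Finset V :=
  K.filter fun v => dg Bᶜ K v = 0

/-- the standing assumptions -/
structure Ctx (R B : SimpleGraph V) (s K : Finset V) (t : ℕ) : Prop where
  ht : 6 ≤ t
  hW : NoWhite R B s
  opt : Opt R B ((t : ℝ) - 3 / 2) ((t : ℝ) + 1 / 2) s K

variable {G R B : SimpleGraph V} {s K M X Y : Finset V} {t : ℕ} {ν τ : ℝ} {x : V → ℝ}
  {u v w a b : V}

theorem mem_nb : u ∈ nb G M v ↔ u ∈ M ∧ G.Adj v u := mem_filter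

theorem card_nb (G : SimpleGraph V) (M : Finset V) (v : V) : (nb G M v).card = dg G M v := rfl

theorem dg_pos (hu : u ∈ M) (h : G.Adj v u) : 1 ≤ dg G M v := card_pos.2 ⟨u, mem_nb.2 ⟨hu, h⟩⟩

theorem dg_mono (h : M ⊆ K) (v : V) : dg G M v ≤ dg G K v :=
  card_le_card (filter_subset_filter _ h)

theorem dg_tri (h : v ∈ tri G M) : 2 ≤ dg G M v := by
  obtain ⟨u, hu, z, hz, h1, h2, h3⟩ := (mem_filter.1 h).2
  exact one_lt_card.2 ⟨u, mem_nb.2 ⟨hu, h1⟩, z, mem_nb.2 ⟨hz, h3.symm⟩, h2.ne⟩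

theorem mem_mid : v ∈ mid B K ↔ v ∈ K ∧ dg Bᶜ K v = 0 := mem_filter

theorem mid_sub : mid B K ⊆ K := filter_subset _ _

theorem en_eq (v w : V) : en R B ν τ v w = (if Rᶜ.Adj w v then ν else 0) +
    (if Bᶜ.Adj w v then τ else 0) + if w = v then ν + τ else 0 := by
  by_cases h : w = v
  · simp [h, en_self]
  · rw [en_symm]
    by_cases h1 : R.Adj w v <;> by_cases h2 : B.Adj w v <;> simp [en, h, h1, h2]

theorem en_zero (hn : w ≠ v) (h1 : ¬ Rᶜ.Adj w v) (h2 : ¬ Bᶜ.Adj w v) : en R B ν τ v w = 0 := by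
  rw [en_eq, if_neg h1, if_neg h2, if_neg hn]
  ring

theorem wsum (c : V → ℝ) (w : V) : ∑ v ∈ K, c v * en R B ν τ v w =
    ν * ∑ v ∈ nb Rᶜ K w, c v + τ * ∑ v ∈ nb Bᶜ K w, c v +
      if w ∈ K then (ν + τ) * c w else 0 := by
  rw [nb, nb, sum_filter, sum_filter, mul_sum, mul_sum, ← sum_ite_eq K w fun v => (ν + τ) * c v,
    ← sum_add_distrib, ← sum_add_distrib]
  refine sum_congr rfl fun v _ => ?_
  rw [en_eq]
  split_ifs <;> ring

theorem sum_out (hw : w ∉ K) :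
    ∑ v ∈ K, en R B ((t : ℝ) - 3 / 2) ((t : ℝ) + 1 / 2) v w = cst R B t K w := by
  have := wsum (R := R) (B := B) (K := K) (ν := (t : ℝ) - 3 / 2) (τ := (t : ℝ) + 1 / 2)
    (fun _ => 1) w
  simp only [one_mul, if_neg hw, add_zero, sum_const, nsmul_eq_mul, mul_one] at this
  exact this

theorem sum_in (hw : w ∈ K) :
    ∑ v ∈ K.erase w, en R B ((t : ℝ) - 3 / 2) ((t : ℝ) + 1 / 2) v w = cst R B t K w := by
  have := wsum (R := R) (B := B) (K := K) (ν := (t : ℝ) - 3 / 2) (τ := (t : ℝ) + 1 / 2)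
    (fun _ => 1) w
  simp only [one_mul, if_pos hw, sum_const, nsmul_eq_mul, mul_one] at this
  rw [sum_erase_eq_sub hw, this, en_self, add_sub_cancel_right]
  rfl

theorem Ctx.six (h : Ctx R B s K t) : (6 : ℝ) ≤ t := by exact_mod_cast h.ht

theorem Ctx.sub (h : Ctx R B s K t) : K ⊆ s := h.opt.1.1

theorem Ctx.excl (h : Ctx R B s K t) (hw : w ∈ s) (hv : v ∈ K) (h1 : Rᶜ.Adj w v) :
    ¬ Bᶜ.Adj w v := fun h2 => (h.hW w hw v (h.sub hv) h1.1).elim h1.2 h2.2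

theorem Ctx.enB (h : Ctx R B s K t) (hw : w ∈ s) (hv : v ∈ nb Rᶜ K w) : en R B ν τ v w = ν := by
  obtain ⟨h1, h2⟩ := mem_nb.1 hv
  rw [en_eq, if_pos h2, if_neg (h.excl hw h1 h2), if_neg h2.ne]
  ring

theorem Ctx.enR (h : Ctx R B s K t) (hw : w ∈ s) (hv : v ∈ nb Bᶜ K w) : en R B ν τ v w = τ := by
  obtain ⟨h1, h2⟩ := mem_nb.1 hv
  rw [en_eq, if_pos h2, if_neg fun a => h.excl hw h1 a h2, if_neg h2.ne]
  ring

theorem Ctx.typ (h : Ctx R B s K t) (hv : v ∈ K) :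
    (dg Bᶜ K v = 0 ∧ dg Rᶜ K v ≤ 2) ∨ (dg Bᶜ K v = 1 ∧ dg Rᶜ K v = 0) := by
  have h1 := h.opt.inn hv
  have h6 := h.six
  rw [sum_in hv, cst] at h1
  generalize dg Rᶜ K v = g at *
  generalize dg Bᶜ K v = r at *
  by_contra hn
  have g0 : (0 : ℝ) ≤ g := Nat.cast_nonneg g
  have r0 : (0 : ℝ) ≤ r := Nat.cast_nonneg r
  rcases (by omega : 3 ≤ g ∨ 2 ≤ r ∨ (1 ≤ g ∧ 1 ≤ r)) with a | a | ⟨a, b⟩
  · have : (3 : ℝ) ≤ g := by exact_mod_cast a
    nlinarith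
  · have : (2 : ℝ) ≤ r := by exact_mod_cast a
    nlinarith
  · have : (1 : ℝ) ≤ g := by exact_mod_cast a
    have : (1 : ℝ) ≤ r := by exact_mod_cast b
    nlinarith

theorem Ctx.x0 (h : Ctx R B s K t) (hw : w ∈ s) (hK : w ∉ K) : 2 * (t : ℝ) - 1 ≤ cst R B t K w := by
  have := h.opt.1.out hw hK
  rw [sum_out hK] at this
  linarith

theorem Ctx.x1 (h : Ctx R B s K t) (hw : w ∈ s) (hK : w ∉ K) (hv : v ∈ K) :
    cst R B t K v ≤ cst R B t K w - en R B ((t : ℝ) - 3 / 2) ((t : ℝ) + 1 / 2) v w := by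
  have h1 := h.opt.1.2 (insert w (K.erase v)) (insert_subset hw ((erase_subset _ _).trans h.sub))
  rw [pot_insert fun a => hK (mem_of_mem_erase a), pot_erase hv, sum_in hv, sum_erase_eq_sub hv,
    sum_out hK] at h1
  linarith

theorem Ctx.x2 (h : Ctx R B s K t) (hw : w ∈ s) (hK : w ∉ K) (hu : u ∈ K) (hv : v ∈ K)
    (hn : v ≠ u) : cst R B t K u + cst R B t K v - en R B ((t : ℝ) - 3 / 2) ((t : ℝ) + 1 / 2) u v <
      cst R B t K w - en R B ((t : ℝ) - 3 / 2) ((t : ℝ) + 1 / 2) u w -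
        en R B ((t : ℝ) - 3 / 2) ((t : ℝ) + 1 / 2) v w + (2 * (t : ℝ) - 1) := by
  have hv' : v ∈ K.erase u := mem_erase.2 ⟨hn, hv⟩
  have hw' : w ∉ (K.erase u).erase v := fun a => hK (mem_of_mem_erase (mem_of_mem_erase a))
  have h1 := h.opt.2 (insert w ((K.erase u).erase v))
    (insert_subset hw ((erase_subset _ _).trans ((erase_subset _ _).trans h.sub))) (by
      rw [card_insert_of_notMem hw', card_erase_add_one hv']
      exact card_erase_lt_of_mem hu)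
  rw [pot_insert hw', pot_erase hv', pot_erase hu, sum_in hu,
    sum_erase_eq_sub (f := fun z => en R B _ _ z w) hv',
    sum_erase_eq_sub (f := fun z => en R B _ _ z w) hu, sum_out hK, erase_right_comm,
    sum_erase_eq_sub (mem_erase.2 ⟨hn.symm, hu⟩), sum_in hv] at h1
  linarith

theorem Ctx.dg_mid (h : Ctx R B s K t) (hv : v ∈ K) : dg Rᶜ (mid B K) v = dg Rᶜ K v := by
  refine le_antisymm (dg_mono mid_sub v) (card_le_card fun u hu => ?_)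
  obtain ⟨h1, h2⟩ := mem_nb.1 hu
  have := dg_pos hv h2.symm
  have := h.typ h1
  exact mem_nb.2 ⟨mem_mid.2 ⟨h1, by omega⟩, h2⟩

theorem Ctx.deg (h : Ctx R B s K t) (hM : M ⊆ mid B K) : ∀ v ∈ M, dg Rᶜ M v ≤ 2 := fun v hv => by
  have h1 := mem_mid.1 (hM hv)
  have h2 := h.typ h1.1
  have h3 := dg_mono (G := Rᶜ) (hM.trans mid_sub) v
  omega

theorem Ctx.uniq (h : Ctx R B s K t) (hv : v ∈ K) (ha : a ∈ K) (hb : b ∈ K) (h1 : Bᶜ.Adj v a)
    (h2 : Bᶜ.Adj v b) : a = b :=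
  card_le_one.1 (show (nb Bᶜ K v).card ≤ 1 by have := h.typ hv; rw [card_nb]; omega) a
    (mem_nb.2 ⟨ha, h1⟩) b (mem_nb.2 ⟨hb, h2⟩)

theorem Ctx.half (h : Ctx R B s K t) (b : V) : ∃ A C, A ∪ C = K \ mid B K ∧ Disjoint A C ∧
    A.card = C.card ∧ b ∉ C ∧ (∀ u ∈ A, ∀ v ∈ A, ¬ Bᶜ.Adj u v) ∧
    ∀ u ∈ C, ∀ v ∈ C, ¬ Bᶜ.Adj u v := by
  let ρ : V → V → Prop := WellOrderingRel
  have asy : ∀ u v, ρ u v → ¬ ρ v u := fun u v => asymm_of ρ
  let S : (V → V → Prop) → Finset V := fun σ => K.filter fun v => ∃ u ∈ K, Bᶜ.Adj v u ∧ σ v u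
  have k1 : ∀ σ : V → V → Prop, (∀ u v, σ u v → ¬ σ v u) →
      ∀ u ∈ S σ, ∀ v ∈ S σ, ¬ Bᶜ.Adj u v := fun σ hσ u hu v hv e => by
    obtain ⟨u1, u', u2, u3, u4⟩ := mem_filter.1 hu
    obtain ⟨v1, v', v2, v3, v4⟩ := mem_filter.1 hv
    exact hσ u v (h.uniq u1 u2 v1 u3 e ▸ u4) (h.uniq v1 v2 u1 v3 e.symm ▸ v4)
  have k2 : ∀ σ : V → V → Prop, (S σ).card ≤ (S (flip σ)).card := fun σ =>
    card_le_card_of_forall_subsingleton Bᶜ.Adj (fun u hu => by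
      obtain ⟨u1, u', u2, u3, u4⟩ := mem_filter.1 hu
      exact ⟨u', mem_filter.2 ⟨u2, u, u1, u3.symm, u4⟩, u3⟩) fun v hv a ha b hb =>
        h.uniq (mem_filter.1 hv).1 (mem_filter.1 ha.1).1 (mem_filter.1 hb.1).1 ha.2.symm hb.2.symm
  have k3 : S ρ ∪ S (flip ρ) = K \ mid B K := by
    ext v
    rw [mem_union, mem_sdiff, mem_mid, mem_filter, mem_filter, ← and_or_left]
    refine and_congr_right fun hv => ⟨fun a b => ?_, fun a => ?_⟩
    · obtain ⟨u, u1, u2, -⟩ | ⟨u, u1, u2, -⟩ := a <;>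
      · have := dg_pos u1 u2
        omega
    · obtain ⟨u, hu⟩ := card_pos.1 (Nat.pos_of_ne_zero fun e => a ⟨hv, e⟩)
      obtain ⟨u1, u2⟩ := mem_nb.1 hu
      rcases trichotomous_of ρ v u with e | e | e
      · exact Or.inl ⟨u, u1, u2, e⟩
      · exact absurd e u2.ne
      · exact Or.inr ⟨u, u1, u2, e⟩
  have k4 : Disjoint (S ρ) (S (flip ρ)) := disjoint_left.2 fun v h1 h2 => by
    obtain ⟨v1, u, u2, u3, u4⟩ := mem_filter.1 h1
    obtain ⟨-, u', v2, v3, v4⟩ := mem_filter.1 h2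
    exact asy v u u4 (h.uniq v1 v2 u2 v3 u3 ▸ v4)
  have k5 := le_antisymm (k2 ρ) (k2 (flip ρ))
  have k6 := k1 (flip ρ) fun u v a b => asy _ _ a b
  by_cases hb : b ∈ S (flip ρ)
  · exact ⟨_, _, (union_comm _ _).trans k3, k4.symm, k5.symm, disjoint_right.1 k4 hb, k6, k1 ρ asy⟩
  · exact ⟨_, _, k3, k4, k5, hb, k1 ρ asy, k6⟩

theorem Ctx.even (h : Ctx R B s K t) (b : V) : ∃ r, (mid B K).card + 2 * r = K.card := by
  obtain ⟨A, C, h1, h2, h3, -⟩ := h.half b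
  have := card_sdiff_add_card_eq_card (mid_sub (B := B) (K := K))
  rw [← h1, card_union_of_disjoint h2] at this
  exact ⟨A.card, by omega⟩

/-- assembly, with a set `W` of at most one further vertex -/
theorem Ctx.asm (h : Ctx R B s K t) {W : Finset V} (hW : W ⊆ s) (hK : Disjoint W K)
    (h1 : W.card ≤ 1) (ha : ∀ w ∈ W, ∀ v ∈ K, Bᶜ.Adj w v → v = a ∧ a ∈ mid B K ∧ a ∉ X)
    (hb : ∀ w ∈ W, ∀ v ∈ K, Rᶜ.Adj w v → v = b) (hY : b ∉ Y ∨ W = ∅)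
    (hS : Sep Rᶜ (mid B K) X Y) {r : ℕ} (hr : (mid B K).card + 2 * r = K.card)
    (c1 : t ≤ r + X.card + W.card) (c2 : t ≤ r + Y.card) : Tgt R B s t := by
  obtain ⟨A, C, k1, k2, k3, k4, k5, k6⟩ := h.half b
  obtain ⟨s1, s2, s3, s4⟩ := hS
  have hc := card_sdiff_add_card_eq_card (mid_sub (B := B) (K := K))
  rw [← k1, card_union_of_disjoint k2] at hc
  have hA : ∀ v ∈ A, v ∈ K ∧ v ∉ mid B K := fun v hv => mem_sdiff.1 (k1 ▸ mem_union_left _ hv)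
  have hC : ∀ v ∈ C, v ∈ K ∧ v ∉ mid B K := fun v hv => mem_sdiff.1 (k1 ▸ mem_union_right _ hv)
  have m0 : ∀ u ∈ mid B K, ∀ v ∈ K, ¬ Bᶜ.Adj u v := fun u hu v hv e => by
    have := dg_pos hv e
    have := (mem_mid.1 hu).2
    omega
  have p0 : ∀ u ∈ K, u ∉ mid B K → ∀ v ∈ K, ¬ Rᶜ.Adj u v := fun u hu hu' v hv e => by
    have := dg_pos hv e
    have := h.typ hu
    exact hu' (mem_mid.2 ⟨hu, by omega⟩)
  have a1 : A ∪ X ⊆ K := union_subset (fun v hv => (hA v hv).1) (s1.trans mid_sub)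
  have a2 : C ∪ Y ⊆ K := union_subset (fun v hv => (hC v hv).1) (s2.trans mid_sub)
  have a3 : ∀ P Z, Z ⊆ mid B K → P ∪ Z ⊆ K → (∀ u ∈ P, ∀ v ∈ P, ¬ Bᶜ.Adj u v) →
      ∀ u ∈ P ∪ Z, ∀ v ∈ P ∪ Z, ¬ Bᶜ.Adj u v := fun P Z z1 z2 z3 u hu v hv e =>
    (mem_union.1 hu).elim (fun p => (mem_union.1 hv).elim (fun q => z3 u p v q e)
      fun q => m0 v (z1 q) u (z2 hu) e.symm) fun p => m0 u (z1 p) v (z2 hv) e
  have a4 : ∀ w ∈ W, ∀ v ∈ A ∪ X, ¬ Bᶜ.Adj w v := fun w hw v hv e => by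
    obtain ⟨rfl, b1, b2⟩ := ha w hw v (a1 hv) e
    exact (mem_union.1 hv).elim (fun p => (hA v p).2 b1) b2
  have a5 : ∀ u ∈ A ∪ X ∪ W, ∀ v ∈ C ∪ Y, u ≠ v := fun u hu v hv e => by
    subst e
    rcases mem_union.1 hu with p | p
    · rcases mem_union.1 p with p | p <;> rcases mem_union.1 hv with q | q
      · exact disjoint_left.1 k2 p q
      · exact (hA u p).2 (s2 q)
      · exact (hC u q).2 (s1 p)
      · exact disjoint_left.1 s3 p q
    · exact disjoint_left.1 hK p (a2 hv)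
  refine ⟨A ∪ X ∪ W, union_subset (a1.trans h.sub) hW, C ∪ Y, a2.trans h.sub, ?_, ?_,
    fun u hu v hv hn => by_contra fun e => ?_,
    fun u hu v hv hn => by_contra fun e => a3 C Y s2 a2 k6 u hu v hv ⟨hn, e⟩,
    fun u hu v hv => by_contra fun e => ?_, fun u hu v hv v' hv' e e' => ?_,
    fun v hv u hu u' hu' e e' => ?_⟩
  · rw [card_union_of_disjoint (hK.symm.mono_left a1),
      card_union_of_disjoint (disjoint_left.2 fun v p q => (hA v p).2 (s1 q))]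
    omega
  · rw [card_union_of_disjoint (disjoint_left.2 fun v p q => (hC v p).2 (s2 q))]
    omega
  · have e' : Bᶜ.Adj u v := ⟨hn, e⟩
    rcases mem_union.1 hu with p | p <;> rcases mem_union.1 hv with q | q
    · exact a3 A X s1 a1 k5 u p v q e'
    · exact a4 v q u p e'.symm
    · exact a4 u p v q e'
    · exact hn (card_le_one.1 h1 u p v q)
  · have e' : Rᶜ.Adj u v := ⟨a5 u hu v hv, e⟩
    rcases mem_union.1 hu with p | p
    · rcases mem_union.1 p with p' | p'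
      · exact p0 u (hA u p').1 (hA u p').2 v (a2 hv) e'
      · exact (mem_union.1 hv).elim (fun q => p0 v (hC v q).1 (hC v q).2 u (a1 p) e'.symm)
          fun q => s4 u p' v q e'
    · obtain rfl := hb u p v (a2 hv) e'
      exact (mem_union.1 hv).elim k4 (hY.resolve_right (ne_empty_of_mem p))
  · have f : Bᶜ.Adj u v := ⟨a5 u hu v hv, e⟩
    have f' : Bᶜ.Adj u v' := ⟨a5 u hu v' hv', e'⟩
    exact (mem_union.1 hu).elim (fun p => h.uniq (a1 p) (a2 hv) (a2 hv') f f')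
      fun p => (ha u p v (a2 hv) f).1.trans (ha u p v' (a2 hv') f').1.symm
  · have f : Bᶜ.Adj u v := ⟨a5 u hu v hv, e⟩
    have f' : Bᶜ.Adj u' v := ⟨a5 u' hu' v hv, e'⟩
    rcases mem_union.1 hu with p | p <;> rcases mem_union.1 hu' with q | q
    · exact h.uniq (a2 hv) (a1 p) (a1 q) f.symm f'.symm
    · obtain ⟨rfl, b1, -⟩ := ha u' q v (a2 hv) f'
      exact absurd f.symm (m0 v b1 u (a1 p))
    · obtain ⟨rfl, b1, -⟩ := ha u p v (a2 hv) f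
      exact absurd f'.symm (m0 v b1 u' (a1 q))
    · exact card_le_one.1 h1 u p u' q

theorem Ctx.asm1 (h : Ctx R B s K t) (b : V) (hS : Sep Rᶜ (mid B K) X Y) {r : ℕ}
    (hr : (mid B K).card + 2 * r = K.card) (c1 : t ≤ r + X.card) (c2 : t ≤ r + Y.card) :
    Tgt R B s t :=
  h.asm (a := b) (b := b) (empty_subset _) (disjoint_empty_left _) (by simp) (by simp) (by simp)
    (Or.inr rfl) hS hr c1 c2

theorem Ctx.asm2 (h : Ctx R B s K t) (hw : w ∈ s) (hK : w ∉ K) (ha : nb Bᶜ K w = {a})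
    (hb : nb Rᶜ K w = {b}) (h1 : a ∈ mid B K) (h2 : a ∉ X) (h3 : b ∉ Y)
    (hS : Sep Rᶜ (mid B K) X Y) {r : ℕ} (hr : (mid B K).card + 2 * r = K.card)
    (c1 : t ≤ r + X.card + 1) (c2 : t ≤ r + Y.card) : Tgt R B s t :=
  h.asm (a := a) (b := b) (singleton_subset_iff.2 hw) (disjoint_singleton_left.2 hK) le_rfl
    (fun _ hu _ hv e => ⟨mem_singleton.1 (ha ▸ mem_nb.2 ⟨hv, mem_singleton.1 hu ▸ e⟩), h1, h2⟩)
    (fun _ hu _ hv e => mem_singleton.1 (hb ▸ mem_nb.2 ⟨hv, mem_singleton.1 hu ▸ e⟩))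
    (Or.inl h3) hS hr c1 c2

end Pool.Agent.P.MP_6dea24_co.Bip
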