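import Pool.Agent.P.MP_6dea24_co.ChkS
import Pool.Agent.P.MP_6dea24_co.ChkD1
import Pool.Agent.P.MP_6dea24_co.ChkD2
import Pool.Agent.P.MP_6dea24_co.ChkD3
import Pool.Agent.P.MP_6dea24_co.ChkD4

namespace Pool.Agent.P.MP_6dea24_co.Bip

variable {V : Type*} {R B : SimpleGraph V} {s K : Finset V} {x : V → ℝ}

theorem clm_all (C : Stand R B s K x) : ∀ j < 569, Clm R B s K tb j := by
  have h0 : ∀ j < 0, Clm R B s K tb j := fun _ h => absurd h (Nat.not_lt_zero _)
  have h44 : ∀ j < 44, Clm R B s K tb j := ls_sound C d0 0 ok0 h0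
  have h49 : ∀ j < 49, Clm R B s K tb j := ls_sound C d44 44 ok44 h44
  have h55 : ∀ j < 55, Clm R B s K tb j := ls_sound C d49 49 ok49 h49
  have h59 : ∀ j < 59, Clm R B s K tb j := ls_sound C d55 55 ok55 h55
  have h62 : ∀ j < 62, Clm R B s K tb j := ls_sound C d59 59 ok59 h59
  have h65 : ∀ j < 65, Clm R B s K tb j := ls_sound C d62 62 ok62 h62
  have h68 : ∀ j < 68, Clm R B s K tb j := ls_sound C d65 65 ok65 h65
  have h71 : ∀ j < 71, Clm R B s K tb j := ls_sound C d68 68 ok68 h68
  have h74 : ∀ j < 74, Clm R B s K tb j := ls_sound C d71 71 ok71 h71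
  have h77 : ∀ j < 77, Clm R B s K tb j := ls_sound C d74 74 ok74 h74
  have h80 : ∀ j < 80, Clm R B s K tb j := ls_sound C d77 77 ok77 h77
  have h83 : ∀ j < 83, Clm R B s K tb j := ls_sound C d80 80 ok80 h80
  have h86 : ∀ j < 86, Clm R B s K tb j := ls_sound C d83 83 ok83 h83
  have h89 : ∀ j < 89, Clm R B s K tb j := ls_sound C d86 86 ok86 h86
  have h92 : ∀ j < 92, Clm R B s K tb j := ls_sound C d89 89 ok89 h89
  have h96 : ∀ j < 96, Clm R B s K tb j := ls_sound C d92 92 ok92 h92
  have h99 : ∀ j < 99, Clm R B s K tb j := ls_sound C d96 96 ok96 h96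
  have h102 : ∀ j < 102, Clm R B s K tb j := ls_sound C d99 99 ok99 h99
  have h105 : ∀ j < 105, Clm R B s K tb j := ls_sound C d102 102 ok102 h102
  have h108 : ∀ j < 108, Clm R B s K tb j := ls_sound C d105 105 ok105 h105
  have h111 : ∀ j < 111, Clm R B s K tb j := ls_sound C d108 108 ok108 h108
  have h115 : ∀ j < 115, Clm R B s K tb j := ls_sound C d111 111 ok111 h111
  have h119 : ∀ j < 119, Clm R B s K tb j := ls_sound C d115 115 ok115 h115
  have h122 : ∀ j < 122, Clm R B s K tb j := ls_sound C d119 119 ok119 h119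
  have h125 : ∀ j < 125, Clm R B s K tb j := ls_sound C d122 122 ok122 h122
  have h128 : ∀ j < 128, Clm R B s K tb j := ls_sound C d125 125 ok125 h125
  have h131 : ∀ j < 131, Clm R B s K tb j := ls_sound C d128 128 ok128 h128
  have h135 : ∀ j < 135, Clm R B s K tb j := ls_sound C d131 131 ok131 h131
  have h140 : ∀ j < 140, Clm R B s K tb j := ls_sound C d135 135 ok135 h135
  have h143 : ∀ j < 143, Clm R B s K tb j := ls_sound C d140 140 ok140 h140
  have h147 : ∀ j < 147, Clm R B s K tb j := ls_sound C d143 143 ok143 h143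
  have h150 : ∀ j < 150, Clm R B s K tb j := ls_sound C d147 147 ok147 h147
  have h154 : ∀ j < 154, Clm R B s K tb j := ls_sound C d150 150 ok150 h150
  have h157 : ∀ j < 157, Clm R B s K tb j := ls_sound C d154 154 ok154 h154
  have h164 : ∀ j < 164, Clm R B s K tb j := ls_sound C d157 157 ok157 h157
  have h173 : ∀ j < 173, Clm R B s K tb j := ls_sound C d164 164 ok164 h164
  have h182 : ∀ j < 182, Clm R B s K tb j := ls_sound C d173 173 ok173 h173
  have h192 : ∀ j < 192, Clm R B s K tb j := ls_sound C d182 182 ok182 h182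
  have h203 : ∀ j < 203, Clm R B s K tb j := ls_sound C d192 192 ok192 h192
  have h214 : ∀ j < 214, Clm R B s K tb j := ls_sound C d203 203 ok203 h203
  have h224 : ∀ j < 224, Clm R B s K tb j := ls_sound C d214 214 ok214 h214
  have h235 : ∀ j < 235, Clm R B s K tb j := ls_sound C d224 224 ok224 h224
  have h246 : ∀ j < 246, Clm R B s K tb j := ls_sound C d235 235 ok235 h235
  have h257 : ∀ j < 257, Clm R B s K tb j := ls_sound C d246 246 ok246 h246
  have h267 : ∀ j < 267, Clm R B s K tb j := ls_sound C d257 257 ok257 h257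
  have h278 : ∀ j < 278, Clm R B s K tb j := ls_sound C d267 267 ok267 h267
  have h290 : ∀ j < 290, Clm R B s K tb j := ls_sound C d278 278 ok278 h278
  have h301 : ∀ j < 301, Clm R B s K tb j := ls_sound C d290 290 ok290 h290
  have h313 : ∀ j < 313, Clm R B s K tb j := ls_sound C d301 301 ok301 h301
  have h323 : ∀ j < 323, Clm R B s K tb j := ls_sound C d313 313 ok313 h313
  have h334 : ∀ j < 334, Clm R B s K tb j := ls_sound C d323 323 ok323 h323
  have h345 : ∀ j < 345, Clm R B s K tb j := ls_sound C d334 334 ok334 h334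
  have h355 : ∀ j < 355, Clm R B s K tb j := ls_sound C d345 345 ok345 h345
  have h365 : ∀ j < 365, Clm R B s K tb j := ls_sound C d355 355 ok355 h355
  have h377 : ∀ j < 377, Clm R B s K tb j := ls_sound C d365 365 ok365 h365
  have h388 : ∀ j < 388, Clm R B s K tb j := ls_sound C d377 377 ok377 h377
  have h399 : ∀ j < 399, Clm R B s K tb j := ls_sound C d388 388 ok388 h388
  have h411 : ∀ j < 411, Clm R B s K tb j := ls_sound C d399 399 ok399 h399
  have h423 : ∀ j < 423, Clm R B s K tb j := ls_sound C d411 411 ok411 h411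
  have h435 : ∀ j < 435, Clm R B s K tb j := ls_sound C d423 423 ok423 h423
  have h449 : ∀ j < 449, Clm R B s K tb j := ls_sound C d435 435 ok435 h435
  have h463 : ∀ j < 463, Clm R B s K tb j := ls_sound C d449 449 ok449 h449
  have h479 : ∀ j < 479, Clm R B s K tb j := ls_sound C d463 463 ok463 h463
  have h497 : ∀ j < 497, Clm R B s K tb j := ls_sound C d479 479 ok479 h479
  have h518 : ∀ j < 518, Clm R B s K tb j := ls_sound C d497 497 ok497 h497
  have h547 : ∀ j < 547, Clm R B s K tb j := ls_sound C d518 518 ok518 h518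
  have h569 : ∀ j < 569, Clm R B s K tb j := ls_sound C d547 547 ok547 h547
  exact h569

theorem last_n : fld (slot tb 568) 288 15 = 0 := by decide +kernel

theorem last_tag : fld (slot tb 568) 292 255 = 0 := by decide +kernel

theorem ten (hs : s.Nonempty) (hx : ∀ v ∈ s, 0 < x v) (hW : NoWhite R B s)
    (hd : Deg R B s x 3 6) : Ten R B s := by
  obtain ⟨K, hK⟩ := exists_opt R B 3 6 s
  obtain ⟨w, hw⟩ := hs
  refine clm_all ⟨⟨w, hw⟩, hx, hW, hd, hK⟩ 568 (by norm_num) (fun _ => w) ?_ ?_
  · rw [last_n]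
    exact fun _ h => absurd h (Nat.not_lt_zero _)
  · rw [last_n, last_tag]
    exact ⟨fun _ h => absurd h (Nat.not_lt_zero _), fun _ _ h => absurd h (Nat.not_lt_zero _),
      fun h => absurd rfl h⟩

end Pool.Agent.P.MP_6dea24_co.Bip
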