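import Pool.Agent.P.MP_6dea24_co.Beta1
import Pool.Agent.P.MP_6dea24_co.Bip2
import Pool.Agent.P.MP_6dea24_co.Chk5

namespace Pool.Agent.P.MP_6dea24_co.Bip

open Finset
open scoped Classical

variable {α V : Type*} {R B : SimpleGraph V} {s : Finset V}

/-- the target as two sequences -/
def Seq (R B : SimpleGraph V) (s : Finset V) (t : ℕ) : Prop :=
  ∃ a b : Fin t → V, (∀ i, a i ∈ s ∧ b i ∈ s) ∧ (∀ i j, R.Adj (a i) (b j)) ∧
    ∀ i j, i ≠ j → B.Adj (a i) (a j) ∧ B.Adj (b i) (b j) ∧ B.Adj (a i) (b j)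

theorem seq_aux : ∀ (t : ℕ) (A C : Finset V), t ≤ A.card → t ≤ C.card →
    (∀ u ∈ A, ∀ v ∈ C, ∀ v' ∈ C, ¬ B.Adj u v → ¬ B.Adj u v' → v = v') →
    (∀ v ∈ C, ∀ u ∈ A, ∀ u' ∈ A, ¬ B.Adj u v → ¬ B.Adj u' v → u = u') →
    ∃ a b : Fin t → V, (∀ i, a i ∈ A ∧ b i ∈ C) ∧
      ∀ i j, i ≠ j → a i ≠ a j ∧ b i ≠ b j ∧ B.Adj (a i) (b j) := by
  intro t
  induction t with
  | zero => exact fun _ _ _ _ _ _ => ⟨Fin.elim0, Fin.elim0, fun i => i.elim0, fun i => i.elim0⟩
  | succ t ih =>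
    intro A C cA cC m1 m2
    obtain ⟨u, hu, v, hv, h1, h2⟩ : ∃ u ∈ A, ∃ v ∈ C, (∀ v' ∈ C, v' ≠ v → B.Adj u v') ∧
        ∀ u' ∈ A, u' ≠ u → B.Adj u' v := by
      by_cases hex : ∃ u ∈ A, ∃ v ∈ C, ¬ B.Adj u v
      · obtain ⟨u, hu, v, hv, huv⟩ := hex
        refine ⟨u, hu, v, hv, fun v' hv' e => ?_, fun u' hu' e => ?_⟩
        · by_contra hn
          exact e (m1 u hu v' hv' v hv hn huv)
        · by_contra hn
          exact e (m2 v hv u' hu' u hu hn huv)
      · push Not at hex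
        obtain ⟨u, hu⟩ : A.Nonempty := card_pos.1 (by omega)
        obtain ⟨v, hv⟩ : C.Nonempty := card_pos.1 (by omega)
        exact ⟨u, hu, v, hv, fun v' hv' _ => hex u hu v' hv', fun u' hu' _ => hex u' hu' v hv⟩
    obtain ⟨a, b, h3, h4⟩ := ih (A.erase u) (C.erase v)
      (by rw [card_erase_of_mem hu]; omega) (by rw [card_erase_of_mem hv]; omega)
      (fun u hu v hv v' hv' => m1 u (mem_of_mem_erase hu) v (mem_of_mem_erase hv) v'
        (mem_of_mem_erase hv'))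
      (fun v hv u hu u' hu' => m2 v (mem_of_mem_erase hv) u (mem_of_mem_erase hu) u'
        (mem_of_mem_erase hu'))
    have ha := fun i => mem_erase.1 (h3 i).1
    have hb := fun i => mem_erase.1 (h3 i).2
    refine ⟨Fin.cons u a, Fin.cons v b, fun i => ?_, fun i j => ?_⟩
    · refine Fin.cases ?_ (fun i => ?_) i
      · exact ⟨hu, hv⟩
      · exact ⟨(ha i).2, (hb i).2⟩
    · refine Fin.cases ?_ (fun i => ?_) i <;> refine Fin.cases ?_ (fun j => ?_) j <;> intro hij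
      · exact absurd rfl hij
      · exact ⟨(ha j).1.symm, (hb j).1.symm, h1 _ (hb j).2 (hb j).1⟩
      · exact ⟨(ha i).1, (hb i).1, h2 _ (ha i).2 (ha i).1⟩
      · exact h4 i j fun e => hij (by rw [e])

theorem Tgt.seq {t : ℕ} (h : Tgt R B s t) : Seq R B s t := by
  obtain ⟨A, hA, C, hC, cA, cC, bA, bC, hR, m1, m2⟩ := h
  obtain ⟨a, b, h1, h2⟩ := seq_aux t A C cA cC m1 m2
  exact ⟨a, b, fun i => ⟨hA (h1 i).1, hC (h1 i).2⟩, fun i j => hR _ (h1 i).1 _ (h1 j).2,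
    fun i j hij => ⟨bA _ (h1 i).1 _ (h1 j).1 (h2 i j hij).1,
      bC _ (h1 i).2 _ (h1 j).2 (h2 i j hij).2.1, (h2 i j hij).2.2⟩⟩

theorem col_blue {u v : V} {m : ℕ} (hm : m = 2 ∨ m = 3) (h : Nat.land (col R B u v) m = 0) :
    B.Adj u v := by
  by_contra hn
  unfold col at h
  rw [if_neg hn] at h
  rcases hm with rfl | rfl <;> split_ifs at h

theorem col_red {u v : V} {m : ℕ} (hm : m = 1 ∨ m = 3) (h : Nat.land (col R B u v) m = 0) :
    R.Adj u v := by
  by_contra hn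
  unfold col at h
  rw [if_neg hn] at h
  rcases hm with rfl | rfl <;> split_ifs at h

theorem Ten.seq (h : Ten R B s) : Seq R B s 5 := by
  obtain ⟨f, h1, h2⟩ := h
  have t1 : ∀ i j : Fin 5, tpat i (j + 5) = 1 ∨ tpat i (j + 5) = 3 := by decide
  have t2 : ∀ i j : Fin 5, i ≠ j → tpat i (j + 5) = 3 := by decide
  have t3 : ∀ i j : Fin 5, tpat i j = 2 ∧ tpat (i + 5) (j + 5) = 2 := by decide
  have k : ∀ i j : Fin 5, i < j → B.Adj (f i) (f j) ∧ B.Adj (f (i + 5)) (f (j + 5)) :=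
    fun i j hij => ⟨col_blue (Or.inl (t3 i j).1) (h2 j (by omega) i hij),
      col_blue (Or.inl (t3 i j).2) (h2 (j + 5) (by omega) (i + 5) (by omega))⟩
  refine ⟨fun i => f i, fun i => f (i + 5), fun i => ⟨h1 _ (by omega), h1 _ (by omega)⟩,
    fun i j => col_red (t1 i j) (h2 (j + 5) (by omega) i (by omega)), fun i j hij => ?_⟩
  have k3 := col_blue (Or.inr (t2 i j hij)) (h2 (j + 5) (by omega) i (by omega))
  rcases lt_or_gt_of_ne hij with h | h
  · exact ⟨(k i j h).1, (k i j h).2, k3⟩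
  · exact ⟨(k j i h).1.symm, (k j i h).2.symm, k3⟩

/-- a union of balanced complete bipartite graphs has a side -/
theorem exists_side {G : SimpleGraph α} {π : α → α} : ∀ (n : ℕ) (X : Finset α), X.card = n →
    (∀ u ∈ X, π u ∈ X ∧ π (π u) = u ∧ G.Adj u (π u)) →
    (∀ u ∈ X, ∀ v ∈ X, G.Adj u (π v) → G.Adj v (π u)) →
    (∀ u ∈ X, ∀ v ∈ X, ∀ w ∈ X, G.Adj u (π v) → G.Adj v (π w) → G.Adj u (π w)) →
    ∃ A ⊆ X, (∀ u ∈ X, u ∈ A ↔ π u ∉ A) ∧ ∀ u ∈ A, ∀ v ∈ A, ¬ G.Adj u v := by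
  intro n
  induction n using Nat.strong_induction_on with
  | _ n ih =>
    intro X hX h1 h2 h3
    rcases X.eq_empty_or_nonempty with rfl | ⟨z, hz⟩
    · exact ⟨∅, Subset.rfl, by simp, by simp⟩
    set Y := X.filter fun u => ¬ G.Adj u (π z) ∧ ¬ G.Adj (π u) (π z) with hY
    have hYX : Y ⊆ X := filter_subset _ _
    have hlt : Y.card < n := hX ▸ card_lt_card ⟨hYX, fun h =>
      (mem_filter.1 (h hz)).2.1 (h1 z hz).2.2⟩
    obtain ⟨A, hA, k1, k2⟩ := ih _ hlt Y rfl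
      (fun u hu => ⟨mem_filter.2 ⟨(h1 u (hYX hu)).1, (mem_filter.1 hu).2.2, by
        rw [(h1 u (hYX hu)).2.1]; exact (mem_filter.1 hu).2.1⟩, (h1 u (hYX hu)).2⟩)
      (fun u hu v hv => h2 u (hYX hu) v (hYX hv))
      (fun u hu v hv w hw => h3 u (hYX hu) v (hYX hv) w (hYX hw))
    have no : ∀ u ∈ X, ∀ v ∈ X, G.Adj u v → G.Adj u (π z) → G.Adj (π v) (π z) := by
      intro u hu v hv huv huz
      refine h3 _ (h1 v hv).1 u hu z hz (h2 u hu _ (h1 v hv).1 ?_) huz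
      rwa [(h1 v hv).2.1]
    have no2 : ∀ u ∈ X, G.Adj u (π z) → ¬ G.Adj (π u) (π z) := by
      intro u hu h4 h5
      have h6 := h3 u hu z hz _ (h1 u hu).1 h4 (h2 _ (h1 u hu).1 z hz h5)
      rw [(h1 u hu).2.1] at h6
      exact h6.ne rfl
    refine ⟨A ∪ X.filter fun u => G.Adj u (π z), union_subset (hA.trans hYX) (filter_subset _ _),
      fun u hu => ?_, fun u hu v hv huv => ?_⟩
    · simp only [mem_union, mem_filter, not_or, not_and]
      by_cases huY : u ∈ Y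
      · have h4 := (mem_filter.1 huY).2
        rw [← k1 u huY]
        tauto
      · have h4 : u ∉ A := fun h => huY (hA h)
        have h5 : π u ∉ A := fun h => huY (mem_filter.2 ⟨hu, by
          have := (mem_filter.1 (hA h)).2
          rw [(h1 u hu).2.1] at this
          exact this.symm⟩)
        have h6 : G.Adj u (π z) ∨ G.Adj (π u) (π z) := by
          by_contra hn
          exact huY (mem_filter.2 ⟨hu, not_or.1 hn⟩)
        have h7 := no2 u hu
        have h8 := (h1 u hu).1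
        tauto
    · rcases mem_union.1 hu with hu | hu <;> rcases mem_union.1 hv with hv | hv
      · exact k2 u hu v hv huv
      · exact (mem_filter.1 (hA hu)).2.2
          (no v (mem_filter.1 hv).1 u (hYX (hA hu)) huv.symm (mem_filter.1 hv).2)
      · exact (mem_filter.1 (hA hv)).2.2
          (no u (mem_filter.1 hu).1 v (hYX (hA hv)) huv (mem_filter.1 hu).2)
      · exact no2 v (mem_filter.1 hv).1 (mem_filter.1 hv).2
          (no u (mem_filter.1 hu).1 v (mem_filter.1 hv).1 huv (mem_filter.1 hu).2)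

theorem Seq.emb {G : SimpleGraph α} {X : Finset α} {t : ℕ} (hG : Inv G X) (hX : X.card = 2 * t)
    (ht : 0 < t) (h : Seq R B s t) : Emb G X R B s := by
  obtain ⟨π, h1, h2, h3⟩ := hG
  obtain ⟨A, hA, k1, k2⟩ := exists_side _ X rfl h1 h2 h3
  obtain ⟨a, b, m1, m2, m3⟩ := h
  have hc : A.card ≤ t := by
    have e1 : A.card ≤ (X \ A).card := card_le_card_of_injOn π
      (fun u hu => by
        simpa using ⟨(h1 u (hA hu)).1, (k1 u (hA hu)).1 hu⟩)
      (fun u hu v hv e => by rw [← (h1 u (hA hu)).2.1, e, (h1 v (hA hv)).2.1])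
    rw [card_sdiff_of_subset hA] at e1
    omega
  obtain ⟨e, he⟩ : ∃ e : α → Fin t, Set.InjOn e A := by
    refine ⟨fun u => if h : u ∈ A then Fin.castLE hc (A.equivFin ⟨u, h⟩) else ⟨0, ht⟩,
      fun u hu v hv h => ?_⟩
    simp only [dif_pos (mem_coe.1 hu), dif_pos (mem_coe.1 hv)] at h
    exact congrArg Subtype.val (A.equivFin.injective (Fin.castLE_injective hc h))
  have k3 : ∀ u ∈ X, u ∉ A → π u ∈ A := fun u hu h => by
    by_contra hn
    exact h ((k1 u hu).2 hn)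
  have cross : ∀ u ∈ A, ∀ v ∈ X, v ∉ A → ¬ G.Adj u v → B.Adj (a (e u)) (b (e (π v))) := by
    intro u hu v hv hvA hn
    refine (m3 _ _ fun h => hn ?_).2.2
    rw [he hu (k3 v hv hvA) h]
    exact (h1 v hv).2.2.symm
  refine ⟨fun u => if u ∈ A then a (e u) else b (e (π u)), fun u _ => ?_, fun u hu v hv huv => ?_⟩
  · beta_reduce
    split_ifs
    · exact (m1 _).1
    · exact (m1 _).2
  · beta_reduce
    split_ifs with c1 c2 c2
    · exact ⟨fun h => absurd h (k2 u c1 v c2), fun _ => (m3 _ _ fun h => huv (he c1 c2 h)).1⟩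
    · exact ⟨fun _ => m2 _ _, cross u c1 v hv c2⟩
    · exact ⟨fun _ => (m2 _ _).symm, fun h => (cross v c2 u hu c1 fun h' => h h'.symm).symm⟩
    · refine ⟨fun h => absurd ?_ (k2 _ (k3 u hu c1) _ (k3 v hv c2)), fun _ => (m3 _ _ fun h => huv ?_).2.1⟩
      · have h4 := h2 u hu _ (h1 v hv).1 (by rwa [(h1 v hv).2.1])
        exact h4.symm
      · rw [← (h1 u hu).2.1, he (k3 u hu c1) (k3 v hv c2) h, (h1 v hv).2.1]

/-- the certificate for unions of balanced complete bipartite graphs on at least ten vertices -/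
theorem cert_bip {G : SimpleGraph α} {X : Finset α} {t : ℕ} (hG : Inv G X) (hX : X.card = 2 * t)
    (ht : 5 ≤ t) : ∃ ν τ : ℝ, 0 ≤ ν ∧ 0 ≤ τ ∧ ν + τ = 2 * t - 1 ∧
      ∀ (W : Type) (R B : SimpleGraph W), Cert G X ν τ R B := by
  rcases ht.eq_or_lt with rfl | h6
  · exact ⟨3, 6, by norm_num, by norm_num, by norm_num, fun W R B s x h1 h2 h3 h4 =>
      (ten h1 h2 h3 h4).seq.emb hG hX (by norm_num)⟩
  · have h : (6 : ℝ) ≤ t := by exact_mod_cast h6
    exact ⟨t - 3 / 2, t + 1 / 2, by linarith, by linarith, by ring, fun W R B s x h1 h2 h3 h4 =>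
      (tgt_big h6 h1 h2 h3 h4).seq.emb hG hX (by omega)⟩

end Pool.Agent.P.MP_6dea24_co.Bip
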