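import Pool.Agent.P.MP_6dea24_co.Crown

namespace Pool.Agent.P.MP_6dea24_co

open Finset
open scoped Classical

variable {α V : Type*}

/-- greedy green clique with small average cost -/
theorem greedy_green (R B : SimpleGraph V) (x : V → ℝ) {c : ℝ} (hc : 0 < c) :
    ∀ (n : ℕ) (s : Finset V) (l : V → ℝ), (∀ v ∈ s, 0 < x v) → (∀ v ∈ s, 0 ≤ l v) →
      (∀ v ∈ s, lack R s x v + lack B s x v ≤ c) → n * c ≤ ∑ u ∈ s, x u →
      ∃ A ⊆ s, A.card = n ∧ (∀ a ∈ A, ∀ b ∈ A, a ≠ b → R.Adj a b ∧ B.Adj a b) ∧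
        c * ∑ a ∈ A, l a ≤ ∑ u ∈ s, x u * l u := by
  intro n
  induction n with
  | zero =>
    intro s l hx hl _ _
    refine ⟨∅, empty_subset _, rfl, by simp, ?_⟩
    rw [sum_empty, mul_zero]
    exact sum_nonneg fun u hu => mul_nonneg (hx u hu).le (hl u hu)
  | succ n ih =>
    intro s l hx hl hN hn
    push_cast at hn
    have hne : s.Nonempty := by
      rw [nonempty_iff_ne_empty]
      intro he
      rw [he, sum_empty] at hn
      have : (0 : ℝ) ≤ n * c := by positivity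
      linarith
    obtain ⟨v, hv, hmin⟩ := exists_min_image s l hne
    set t := (s.filter (fun u => B.Adj u v)).filter (fun u => R.Adj u v) with ht
    have hts' : s.filter (fun u => B.Adj u v) ⊆ s := filter_subset _ _
    have hts : t ⊆ s := (filter_subset _ _).trans hts'
    have hsum : ∑ u ∈ s, x u - lack B s x v - lack R s x v ≤ ∑ u ∈ t, x u := by
      rw [ht, sum_filter_adj, sum_filter_adj]
      have := lack_mono R hx hts' v
      linarith
    obtain ⟨A, hA, hcard, hg, hle⟩ := ih t (fun u => l u - l v) (fun u hu => hx u (hts hu))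
      (fun u hu => sub_nonneg.2 (hmin u (hts hu)))
      (fun u hu => by
        have h1 := hN u (hts hu)
        have h2 := lack_mono R hx hts u
        have h3 := lack_mono B hx hts u
        linarith)
      (by have := hN v hv; linarith)
    have hg' : ∀ a ∈ A, R.Adj a v ∧ B.Adj a v := fun a ha =>
      ⟨(mem_filter.1 (hA ha)).2, (mem_filter.1 (mem_filter.1 (hA ha)).1).2⟩
    have hvA : v ∉ A := fun h => (hg' v h).1.ne rfl
    refine ⟨insert v A, insert_subset hv (hA.trans hts), by rw [card_insert_of_notMem hvA, hcard],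
      ?_, ?_⟩
    · intro a ha b hb hab
      rcases mem_insert.1 ha with ha | ha <;> rcases mem_insert.1 hb with hb | hb
      · exact absurd (ha.trans hb.symm) hab
      · rw [ha]; exact ⟨(hg' b hb).1.symm, (hg' b hb).2.symm⟩
      · rw [hb]; exact hg' a ha
      · exact hg a ha b hb hab
    · have h1 : ∑ u ∈ t, x u * (l u - l v) ≤ ∑ u ∈ s, x u * (l u - l v) :=
        sum_le_sum_of_subset_of_nonneg hts fun u hu _ =>
          mul_nonneg (hx u hu).le (sub_nonneg.2 (hmin u hu))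
      have h2 : ∑ u ∈ s, x u * (l u - l v) = ∑ u ∈ s, x u * l u - (∑ u ∈ s, x u) * l v := by
        rw [sum_mul, ← sum_sub_distrib]
        exact sum_congr rfl fun u _ => by ring
      rw [sum_sub_distrib, sum_const, hcard, nsmul_eq_mul] at hle
      rw [sum_insert hvA]
      have h3 := mul_le_mul_of_nonneg_right hn (hl v hv)
      nlinarith

theorem sum_lack (R : SimpleGraph V) (s J : Finset V) (x : V → ℝ) :
    ∑ j ∈ J, lack R s x j = ∑ u ∈ s, x u * ((J.filter (fun j => ¬ R.Adj u j)).card : ℝ) := by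
  unfold lack
  rw [sum_comm]
  refine sum_congr rfl fun u _ => ?_
  rw [card_filter, Nat.cast_sum, mul_sum]
  refine sum_congr rfl fun j _ => ?_
  split_ifs <;> simp

/-- the host configuration for the independent-set-plus-matching case -/
theorem pi_config {R B : SimpleGraph V} {s : Finset V} {x : V → ℝ} {ν τ : ℕ} (hν : 1 ≤ ν)
    (hντ : ν ≤ τ) (hs : s.Nonempty) (hx : ∀ v ∈ s, 0 < x v) (hd : Deg R B s x ν τ) :
    ∃ J ⊆ s, B.IsClique J ∧ (∀ T ⊆ s, B.IsClique T → T.card ≤ J.card) ∧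
      ∃ A ⊆ s, A.card = ν ∧ (∀ a ∈ A, ∀ b ∈ A, a ≠ b → R.Adj a b ∧ B.Adj a b) ∧
        ∑ a ∈ A, ((J.filter (fun j => ¬ R.Adj a j)).card + (J.filter (fun j => ¬ B.Adj a j)).card)
          + τ + 1 ≤ J.card + ν := by
  obtain ⟨J, hJ, hcl, hcap⟩ := exists_cap B s
  have hmax : ∀ T ⊆ s, B.IsClique T → T.card ≤ J.card := fun T hT h => hcap ▸ le_cap hT h
  have hS : 0 < ∑ u ∈ s, x u := sum_pos hx hs
  have hJne : J.Nonempty := by
    obtain ⟨v, hv⟩ := hs
    have := hmax {v} (singleton_subset_iff.2 hv) (by simp)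
    exact card_pos.1 (by simpa using this)
  have hr : ∀ w ∈ s, 1 ≤ (J.filter (fun j => ¬ B.Adj w j)).card := by
    intro w hw
    by_contra h
    have h0 : ∀ j ∈ J, B.Adj w j := by
      intro j hj
      by_contra hn
      exact h (card_pos.2 ⟨j, mem_filter.2 ⟨hj, hn⟩⟩)
    have hwJ : w ∉ J := fun h => (h0 w h).ne rfl
    have := hmax (insert w J) (insert_subset hw hJ) (by
      rw [coe_insert]
      exact hcl.insert fun b hb _ => h0 b hb)
    rw [card_insert_of_notMem hwJ] at this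
    omega
  have hν' : (1 : ℝ) ≤ ν := by exact_mod_cast hν
  have hντ' : (ν : ℝ) ≤ τ := by exact_mod_cast hντ
  obtain ⟨A, hA, hcard, hg, hle⟩ := greedy_green R B x (c := (∑ u ∈ s, x u) / ν) (by positivity)
    ν s (fun w => ((J.filter (fun j => ¬ R.Adj w j)).card : ℝ) +
      (J.filter (fun j => ¬ B.Adj w j)).card - 1) hx
    (fun w hw => by
      have : (1 : ℝ) ≤ (J.filter (fun j => ¬ B.Adj w j)).card := by exact_mod_cast hr w hw
      have : (0 : ℝ) ≤ (J.filter (fun j => ¬ R.Adj w j)).card := by positivity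
      linarith)
    (fun v hv => by
      rw [le_div_iff₀ (by positivity)]
      have h1 := hd v hv
      have h2 := lack_nonneg B hx v
      nlinarith)
    (by rw [mul_div_cancel₀ _ (by positivity)])
  refine ⟨J, hJ, hcl, hmax, A, hA, hcard, hg, ?_⟩
  have h1 : ∑ j ∈ J, (ν * lack R s x j + τ * lack B s x j) < ∑ j ∈ J, ∑ u ∈ s, x u :=
    sum_lt_sum_of_nonempty hJne fun j hj => hd j (hJ hj)
  rw [sum_add_distrib, ← mul_sum, ← mul_sum, sum_lack, sum_lack, sum_const, nsmul_eq_mul] at h1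
  have h2 : ν * ∑ u ∈ s, x u * (((J.filter (fun j => ¬ R.Adj u j)).card : ℝ) +
      (J.filter (fun j => ¬ B.Adj u j)).card - 1) + τ * ∑ u ∈ s, x u ≤
      ν * ∑ u ∈ s, x u * ((J.filter (fun j => ¬ R.Adj u j)).card : ℝ) +
      τ * ∑ u ∈ s, x u * ((J.filter (fun j => ¬ B.Adj u j)).card : ℝ) := by
    simp only [mul_sum, ← sum_add_distrib]
    refine sum_le_sum fun u hu => ?_
    have h3 : (1 : ℝ) ≤ (J.filter (fun j => ¬ B.Adj u j)).card := by exact_mod_cast hr u hu
    have h4 := mul_nonneg (hx u hu).le (mul_nonneg (sub_nonneg.2 hντ') (sub_nonneg.2 h3))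
    nlinarith
  rw [div_mul_eq_mul_div, div_le_iff₀ (by positivity), sum_sub_distrib, sum_const, hcard,
    nsmul_eq_mul, mul_one] at hle
  have h5 : (∑ u ∈ s, x u) * (∑ a ∈ A, (((J.filter (fun j => ¬ R.Adj a j)).card : ℝ) +
      (J.filter (fun j => ¬ B.Adj a j)).card) + τ) < (∑ u ∈ s, x u) * (J.card + ν) := by
    nlinarith
  have h6 := lt_of_mul_lt_mul_left h5 hS.le
  have h7 : ∑ a ∈ A, ((J.filter (fun j => ¬ R.Adj a j)).card +
      (J.filter (fun j => ¬ B.Adj a j)).card) + τ < J.card + ν := by exact_mod_cast h6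
  omega

/-- partners by Hall's theorem -/
theorem pi_partners {B : SimpleGraph V} {s J A : Finset V} (hJ : J ⊆ s) (hcl : B.IsClique J)
    (hmax : ∀ T ⊆ s, B.IsClique T → T.card ≤ J.card) (hA : A ⊆ s)
    (hg : ∀ a ∈ A, ∀ b ∈ A, a ≠ b → B.Adj a b) :
    ∃ f : V → V, (∀ a ∈ A \ J, f a ∈ J ∧ ¬ B.Adj a (f a)) ∧
      ∀ a ∈ A \ J, ∀ b ∈ A \ J, f a = f b → a = b := by
  have hall : ∀ Y : Finset (A \ J : Finset V), Y.card ≤
      (Y.biUnion (fun a : (A \ J : Finset V) => J.filter (fun j => ¬ B.Adj a j))).card := by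
    intro Y
    set Γ := Y.biUnion (fun a : (A \ J : Finset V) => J.filter (fun j => ¬ B.Adj a j)) with hΓ
    have hΓJ : Γ ⊆ J := biUnion_subset.2 fun a _ => filter_subset _ _
    set Y' := Y.map (Function.Embedding.subtype _) with hY'
    have hY : ∀ a ∈ Y', a ∈ A ∧ a ∉ J ∧ ∀ j ∈ J \ Γ, B.Adj a j := by
      intro a ha
      obtain ⟨b, hb, rfl⟩ := mem_map.1 ha
      refine ⟨(mem_sdiff.1 b.2).1, (mem_sdiff.1 b.2).2, fun j hj => ?_⟩
      by_contra hn
      exact (mem_sdiff.1 hj).2 (mem_biUnion.2 ⟨b, hb, mem_filter.2 ⟨(mem_sdiff.1 hj).1, hn⟩⟩)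
    have h1 := hmax (Y' ∪ (J \ Γ)) (union_subset (fun a ha => hA (hY a ha).1)
      (sdiff_subset.trans hJ)) (by
        intro a ha b hb hab
        rcases mem_union.1 (mem_coe.1 ha) with ha | ha <;>
          rcases mem_union.1 (mem_coe.1 hb) with hb | hb
        · exact hg a (hY a ha).1 b (hY b hb).1 hab
        · exact (hY a ha).2.2 b hb
        · exact ((hY b hb).2.2 a ha).symm
        · exact hcl (mem_sdiff.1 ha).1 (mem_sdiff.1 hb).1 hab)
    rw [card_union_of_disjoint (disjoint_left.2 fun a ha h => (hY a ha).2.1 (mem_sdiff.1 h).1),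
      hY', card_map] at h1
    have h2 := card_sdiff_add_card_eq_card hΓJ
    omega
  obtain ⟨f, hf, hf2⟩ := (all_card_le_biUnion_card_iff_exists_injective _).1 hall
  refine ⟨fun a => if h : a ∈ A \ J then f ⟨a, h⟩ else a, fun a ha => ?_, fun a ha b hb h => ?_⟩
  · simp only [ha, dite_true]
    exact mem_filter.1 (hf2 ⟨a, ha⟩)
  · simp only [ha, hb, dite_true] at h
    exact congrArg Subtype.val (hf h)

/-- kept partners and free vertices -/
theorem pi_kept {R B : SimpleGraph V} {J A : Finset V} {f : V → V} {τ : ℕ}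
    (hf : ∀ a ∈ A \ J, f a ∈ J ∧ ¬ B.Adj a (f a))
    (hinj : ∀ a ∈ A \ J, ∀ b ∈ A \ J, f a = f b → a = b)
    (hsum : ∑ a ∈ A, ((J.filter (fun j => ¬ R.Adj a j)).card +
      (J.filter (fun j => ¬ B.Adj a j)).card) + τ + 1 ≤ J.card + A.card) :
    ∃ K ⊆ A \ J, ∃ J0 ⊆ J, (∀ a ∈ K, ∀ b ∈ A, b ≠ a → R.Adj b (f a) ∧ B.Adj b (f a)) ∧
      (∀ j ∈ J0, ∀ b ∈ A, R.Adj b j ∧ B.Adj b j) ∧ τ + 1 ≤ J0.card + K.card := by
  let N : V → Finset V := fun a => J.filter (fun j => ¬ (R.Adj a j ∧ B.Adj a j))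
  set K := (A \ J).filter (fun a => ∀ b ∈ A, b ≠ a → R.Adj b (f a) ∧ B.Adj b (f a)) with hK
  let N' : V → Finset V := fun a => if a ∈ (A \ J) \ K then (N a).erase (f a) else N a
  have hU : A.biUnion N ⊆ A.biUnion N' := by
    intro j hj
    obtain ⟨a, ha, hja⟩ := mem_biUnion.1 hj
    by_cases h : a ∈ (A \ J) \ K ∧ j = f a
    · have h1 : ¬ ∀ b ∈ A, b ≠ a → R.Adj b (f a) ∧ B.Adj b (f a) := fun h2 =>
        (mem_sdiff.1 h.1).2 (mem_filter.2 ⟨(mem_sdiff.1 h.1).1, h2⟩)
      simp only [not_forall] at h1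
      obtain ⟨b, hb, hba, hn⟩ := h1
      have hjb : j ∈ N b := mem_filter.2 ⟨(mem_filter.1 hja).1, h.2 ▸ hn⟩
      refine mem_biUnion.2 ⟨b, hb, ?_⟩
      simp only [N']
      split_ifs with h3
      · exact mem_erase.2 ⟨fun e => hba (hinj b (mem_sdiff.1 h3).1 a (mem_sdiff.1 h.1).1
          (e.symm.trans h.2)), hjb⟩
      · exact hjb
    · refine mem_biUnion.2 ⟨a, ha, ?_⟩
      simp only [N']
      split_ifs with h3
      · exact mem_erase.2 ⟨fun e => h ⟨h3, e⟩, hja⟩
      · exact hja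
  have hN : ∀ a ∈ A, (N' a).card + 1 ≤ (J.filter (fun j => ¬ R.Adj a j)).card +
      (J.filter (fun j => ¬ B.Adj a j)).card + if a ∈ K then 1 else 0 := by
    intro a ha
    have h1 : N a = J.filter (fun j => ¬ R.Adj a j) ∪ J.filter (fun j => ¬ B.Adj a j) := by
      rw [← filter_or]
      exact filter_congr fun j _ => not_and_or
    have h2 := card_union_add_card_inter (J.filter (fun j => ¬ R.Adj a j))
      (J.filter (fun j => ¬ B.Adj a j))
    rw [← h1] at h2
    simp only [N']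
    by_cases h3 : a ∈ (A \ J) \ K
    · rw [if_pos h3]
      have h4 := hf a (mem_sdiff.1 h3).1
      have := card_erase_add_one (s := N a) (a := f a) (mem_filter.2 ⟨h4.1, fun h => h4.2 h.2⟩)
      omega
    · rw [if_neg h3]
      by_cases h4 : a ∈ K
      · rw [if_pos h4]; omega
      · have h5 : a ∈ J := by
          by_contra h6
          exact h3 (mem_sdiff.2 ⟨mem_sdiff.2 ⟨ha, h6⟩, h4⟩)
        have : 0 < (J.filter (fun j => ¬ R.Adj a j) ∩ J.filter (fun j => ¬ B.Adj a j)).card :=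
          card_pos.2 ⟨a, by simp [h5]⟩
        omega
  have h1 := sum_le_sum hN
  have hKA : K ⊆ A := (filter_subset _ _).trans sdiff_subset
  rw [sum_add_distrib, sum_add_distrib (g := fun a => if a ∈ K then 1 else 0), sum_const,
    smul_eq_mul, mul_one, ← card_filter, filter_mem_eq_inter, inter_eq_right.2 hKA] at h1
  have h2 := (card_le_card hU).trans card_biUnion_le
  have h3 : A.biUnion N ⊆ J := biUnion_subset.2 fun a _ => filter_subset _ _
  have h4 := card_sdiff_add_card_eq_card h3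
  refine ⟨K, filter_subset _ _, J \ A.biUnion N, sdiff_subset, fun a ha => (mem_filter.1 ha).2,
    fun j hj b hb => ?_, by omega⟩
  by_contra hn
  exact (mem_sdiff.1 hj).2 (mem_biUnion.2 ⟨b, hb, mem_filter.2 ⟨(mem_sdiff.1 hj).1, hn⟩⟩)

/-- an independent set with the other vertices matched into it -/
theorem cert_pi {F : SimpleGraph α} {A J : Finset α} {m : α → α} {τ : ℕ}
    (hJ : ∀ u ∈ J, ∀ v ∈ J, ¬ F.Adj u v) (hJc : J.card = τ + 1) (hA : A.card ≤ τ)
    (hm : ∀ a ∈ A, m a ∈ J ∧ F.Adj a (m a)) (hmi : ∀ a ∈ A, ∀ b ∈ A, m a = m b → a = b)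
    (R B : SimpleGraph V) : Cert F (A ∪ J) A.card τ R B := by
  by_cases hA0 : A = ∅
  · subst hA0
    obtain ⟨w, hw⟩ : J.Nonempty := card_pos.1 (by omega)
    have h1 := (Cert.single F w R B).blues le_rfl le_rfl (J.erase w) (by simp) (fun u hu a ha =>
      hJ u (mem_of_mem_erase hu) a (by
        rcases mem_union.1 ha with h | h
        · exact mem_of_mem_erase h
        · rw [mem_singleton.1 h]; exact hw))
    have h2 := card_erase_add_one hw
    have h3 : ((J.erase w).card : ℝ) = τ := by exact_mod_cast (by omega)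
    refine h1.mono (fun u hu => ?_) (by simp) (by rw [h3]; simp)
    by_cases h : u = w <;> simp_all
  intro s x hs hx hW hd
  obtain ⟨J', hJs, hcl, hmax, A', hA', hcard, hg, hsum⟩ :=
    pi_config (card_pos.2 (nonempty_iff_ne_empty.2 hA0)) hA hs hx hd
  obtain ⟨f, hf, hinj⟩ := pi_partners hJs hcl hmax hA' fun a ha b hb h => (hg a ha b hb h).2
  obtain ⟨K, hK, J0, hJ0, k1, k2, k3⟩ := pi_kept (R := R) hf hinj (hcard ▸ hsum)
  obtain ⟨v0, -⟩ := hs
  obtain ⟨ψ, p1, p2⟩ := exists_inj (Y := A) hcard.ge v0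
  set AK := A.filter (fun a => ψ a ∈ K) with hAK
  have hKA : K ⊆ A' := hK.trans sdiff_subset
  have c1 : (A.filter (fun a => ¬ ψ a ∈ K)).card ≤ (A' \ K).card :=
    card_le_card_of_injOn ψ (fun a ha => mem_coe.2 (mem_sdiff.2
      ⟨p1 a (mem_filter.1 ha).1, (mem_filter.1 ha).2⟩)) (fun a ha b hb h => by
        by_contra hn
        exact p2 a (mem_filter.1 ha).1 b (mem_filter.1 hb).1 hn h)
  have c2 := card_filter_add_card_filter_not (s := A) (fun a => ψ a ∈ K)
  have c3 := card_sdiff_add_card_eq_card hKA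
  have c4 : (AK.image m).card = AK.card := card_image_of_injOn fun a ha b hb h =>
    hmi a (mem_filter.1 ha).1 b (mem_filter.1 hb).1 h
  have c5 : AK.image m ⊆ J := fun z hz => by
    obtain ⟨a, ha, rfl⟩ := mem_image.1 hz
    exact (hm a (mem_filter.1 ha).1).1
  have c6 := card_sdiff_add_card_eq_card c5
  obtain ⟨θ, q1, q2⟩ := exists_inj (Y := J \ AK.image m) (S := J0) (by rw [← hAK] at c2; omega) v0
  have hex : ∀ z ∈ J, ∃ v, (∃ a ∈ AK, m a = z ∧ v = f (ψ a)) ∨ (z ∈ J \ AK.image m ∧ v = θ z) := by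
    intro z hz
    by_cases h : z ∈ AK.image m
    · obtain ⟨a, ha, e⟩ := mem_image.1 h
      exact ⟨_, Or.inl ⟨a, ha, e, rfl⟩⟩
    · exact ⟨_, Or.inr ⟨mem_sdiff.2 ⟨hz, h⟩, rfl⟩⟩
  have : Nonempty V := ⟨v0⟩
  choose! g hgz using hex
  have g1 : ∀ z ∈ J, g z ∈ J' := by
    intro z hz
    rcases hgz z hz with ⟨a, ha, -, e⟩ | ⟨h, e⟩ <;> rw [e]
    · exact (hf _ (hK (mem_filter.1 ha).2)).1
    · exact hJ0 (q1 z h)
  have g2 : ∀ z ∈ J, ∀ w ∈ J, z ≠ w → g z ≠ g w := by
    intro z hz w hw hzw he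
    rcases hgz z hz with ⟨a, ha, ea, e⟩ | ⟨h, e⟩ <;>
      rcases hgz w hw with ⟨b, hb, eb, e'⟩ | ⟨h', e'⟩ <;> rw [e, e'] at he
    · have h1 := hinj _ (hK (mem_filter.1 ha).2) _ (hK (mem_filter.1 hb).2) he
      refine p2 a (mem_filter.1 ha).1 b (mem_filter.1 hb).1 (fun h => hzw ?_) h1
      rw [← ea, ← eb, h]
    · have h1 := hK (mem_filter.1 ha).2
      exact (hf _ h1).2 (he ▸ (k2 _ (q1 w h') _ (mem_sdiff.1 h1).1).2)
    · have h1 := hK (mem_filter.1 hb).2
      exact (hf _ h1).2 (he ▸ (k2 _ (q1 z h) _ (mem_sdiff.1 h1).1).2)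
    · exact q2 z h w h' hzw he
  have g3 : ∀ a ∈ A, ∀ z ∈ J, R.Adj (ψ a) (g z) ∧ (¬ F.Adj a z → B.Adj (ψ a) (g z)) := by
    intro a ha z hz
    rcases hgz z hz with ⟨b, hb, eb, e⟩ | ⟨h, e⟩ <;> rw [e]
    · by_cases hab : a = b
      · subst hab
        have h1 := hK (mem_filter.1 hb).2
        have h2 := hf _ h1
        refine ⟨(hW _ (hA' (p1 a ha)) _ (hJs h2.1) fun e' => (mem_sdiff.1 h1).2 (e' ▸ h2.1)).resolve_right
          h2.2, fun hn => absurd (eb ▸ (hm a ha).2) hn⟩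
      · have := k1 _ (mem_filter.1 hb).2 _ (p1 a ha) (p2 a ha b (mem_filter.1 hb).1 hab)
        exact ⟨this.1, fun _ => this.2⟩
    · have := k2 _ (q1 z h) _ (p1 a ha)
      exact ⟨this.1, fun _ => this.2⟩
  refine ⟨fun z => if z ∈ A then ψ z else g z, fun z hz => ?_, fun z hz w hw hzw => ?_⟩
  · by_cases h : z ∈ A
    · simp only [h, if_true]; exact hA' (p1 z h)
    · simp only [h, if_false]; exact hJs (g1 z ((mem_union.1 hz).resolve_left h))
  · by_cases h : z ∈ A <;> by_cases h' : w ∈ A <;> simp only [h, h', if_true, if_false]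
    · have := hg _ (p1 z h) _ (p1 w h') (p2 z h w h' hzw)
      exact ⟨fun _ => this.1, fun _ => this.2⟩
    · have := g3 z h w ((mem_union.1 hw).resolve_left h')
      exact ⟨fun _ => this.1, this.2⟩
    · have := g3 w h' z ((mem_union.1 hz).resolve_left h)
      exact ⟨fun _ => this.1.symm, fun hn => (this.2 fun h => hn h.symm).symm⟩
    · have hz' := (mem_union.1 hz).resolve_left h
      have hw' := (mem_union.1 hw).resolve_left h'
      exact ⟨fun h => absurd h (hJ z hz' w hw'),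
        fun _ => hcl (g1 z hz') (g1 w hw') (g2 z hz' w hw' hzw)⟩

theorem cert_pi' {F : SimpleGraph α} {X A J : Finset α} {m : α → α} {τ : ℕ}
    (hX : ∀ u ∈ X, u ∈ A ∨ u ∈ J)
    (hJ : ∀ u ∈ J, ∀ v ∈ J, ¬ F.Adj u v) (hJc : J.card = τ + 1) (hA : A.card ≤ τ)
    (hm : ∀ a ∈ A, m a ∈ J ∧ F.Adj a (m a)) (hmi : ∀ a ∈ A, ∀ b ∈ A, m a = m b → a = b)
    (R B : SimpleGraph V) : Cert F X A.card τ R B :=
  (cert_pi hJ hJc hA hm hmi R B).mono (fun u hu => mem_union.2 (hX u hu)) le_rfl le_rfl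

end Pool.Agent.P.MP_6dea24_co
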