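import Pool.Agent.P.MP_6dea24_co.Final
import Pool.Agent.P.MP_6dea24_co.Konig

namespace Pool.Agent.P.MP_6dea24_co

open Finset Matrix
open scoped Classical

variable {α V : Type*}

/-- some weighting inside `s` satisfies the degree condition -/
def Q (R B : SimpleGraph V) (s : Finset V) (ν τ : ℝ) : Prop :=
  ∃ t ⊆ s, ∃ x : V → ℝ, t.Nonempty ∧ (∀ v ∈ t, 0 < x v) ∧ NoWhite R B t ∧ Deg R B t x ν τ

/-- entries of the cost matrix -/
noncomputable def ent (R B : SimpleGraph V) (ν τ : ℝ) (u v : V) : ℝ :=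
  ν * (if R.Adj u v then 0 else 1) + τ * (if B.Adj u v then 0 else 1)

/-- the quadratic form -/
noncomputable def form (R B : SimpleGraph V) (s : Finset V) (ν τ : ℝ) (y : V → ℝ) : ℝ :=
  ∑ u ∈ s, ∑ v ∈ s, y u * y v * ent R B ν τ u v

/-- common green neighbourhood -/
noncomputable def gr (R B : SimpleGraph V) (s : Finset V) (u : V) : Finset V :=
  s.filter (fun w => R.Adj w u ∧ B.Adj w u)

variable {R B : SimpleGraph V} {s : Finset V} {ν τ : ℝ}

theorem ent_symm (u v : V) : ent R B ν τ u v = ent R B ν τ v u := by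
  simp only [ent, R.adj_comm u v, B.adj_comm u v]

theorem ent_nonneg (hν : 0 ≤ ν) (hτ : 0 ≤ τ) (u v : V) : 0 ≤ ent R B ν τ u v := by
  unfold ent
  split_ifs <;> linarith

theorem ent_self (u : V) : ent R B ν τ u u = ν + τ := by simp [ent]

theorem sum_ent (x : V → ℝ) (v : V) :
    ∑ u ∈ s, x u * ent R B ν τ u v = ν * lack R s x v + τ * lack B s x v := by
  unfold lack ent
  rw [mul_sum, mul_sum, ← sum_add_distrib]
  refine sum_congr rfl fun u _ => ?_
  split_ifs <;> ring

theorem Q.mono {s' : Finset V} (h : Q R B s ν τ) (hs : s ⊆ s') : Q R B s' ν τ := by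
  obtain ⟨t, ht, h⟩ := h
  exact ⟨t, ht.trans hs, h⟩

theorem Q.swap (h : Q R B s ν τ) : Q B R s τ ν := by
  obtain ⟨t, ht, x, h1, h2, h3, h4⟩ := h
  exact ⟨t, ht, x, h1, h2, h3.swap, h4.swap⟩

theorem Cert.emb {F : SimpleGraph α} {X : Finset α} (h : Cert F X ν τ R B) (hQ : Q R B s ν τ) :
    Emb F X R B s := by
  obtain ⟨t, ht, x, h1, h2, h3, h4⟩ := hQ
  exact (h t x h1 h2 h3 h4).mono Subset.rfl ht

theorem cert_of_q {F : SimpleGraph α} {X : Finset α}
    (h : ∀ s, Q R B s ν τ → Emb F X R B s) : Cert F X ν τ R B :=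
  fun s x h1 h2 h3 h4 => h s ⟨s, Subset.rfl, x, h1, h2, h3, h4⟩

theorem lack_map (R : SimpleGraph V) (s : Finset V) (t : Finset s) (x : s → ℝ) (v : s) :
    lack R (t.map (Function.Embedding.subtype _)) (fun u => if h : u ∈ s then x ⟨u, h⟩ else 0) v
      = lack (R.comap Subtype.val) t x v := by
  unfold lack
  rw [sum_map]
  refine sum_congr rfl fun u _ => ?_
  simp

/-- without the degree condition the form is large -/
theorem form_ge (hν : 0 ≤ ν) (hτ : 0 ≤ τ) (h : ¬ Q R B s ν τ) {y : V → ℝ}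
    (hy : ∀ v ∈ s, 0 ≤ y v) : (∑ v ∈ s, y v) ^ 2 ≤ form R B s ν τ y := by
  set T := ∑ v ∈ s, y v with hT
  have hT0 : 0 ≤ T := sum_nonneg hy
  have hf0 : 0 ≤ form R B s ν τ y := sum_nonneg fun u hu => sum_nonneg fun v hv =>
    mul_nonneg (mul_nonneg (hy u hu) (hy v hv)) (ent_nonneg hν hτ u v)
  rcases hT0.eq_or_lt with h0 | hpos
  · rw [← h0]; simpa using hf0
  have hC : Cert (⊥ : SimpleGraph (Option s)) univ ν τ (R.comap Subtype.val)
      (B.comap (Subtype.val : s → V)) := by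
    intro t x h1 h2 h3 h4
    exfalso
    refine h ⟨t.map (Function.Embedding.subtype _), ?_,
      fun u => if h : u ∈ s then x ⟨u, h⟩ else 0, h1.map, ?_, ?_, ?_⟩
    · intro u hu
      obtain ⟨w, -, rfl⟩ := mem_map.1 hu
      exact w.2
    · intro u hu
      obtain ⟨w, hw, rfl⟩ := mem_map.1 hu
      simpa using h2 w hw
    · intro u hu v hv huv
      obtain ⟨w, hw, rfl⟩ := mem_map.1 hu
      obtain ⟨z, hz, rfl⟩ := mem_map.1 hv
      exact h3 w hw z hz fun e => huv (by rw [e])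
    · intro u hu
      obtain ⟨w, hw, rfl⟩ := mem_map.1 hu
      have := h4 w hw
      rw [sum_map]
      simp only [Function.Embedding.coe_subtype, SetLike.coe_mem, dite_true]
      rw [lack_map, lack_map]
      exact this
  have hE : ¬ Emb (⊥ : SimpleGraph (Option s)) univ (R.comap Subtype.val)
      (B.comap (Subtype.val : s → V)) univ := by
    intro hE
    obtain ⟨φ, hφ, -⟩ := contains_of_emb hE
    have := Fintype.card_le_of_injective φ hφ
    simp at this
  have hz : (fun v : s => y v / T) ∈ stdSimplex ℝ s := by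
    refine ⟨fun v => div_nonneg (hy v v.2) hT0, ?_⟩
    rw [← sum_div, sum_coe_sort s y, div_self hpos.ne']
  have hq := quad_ge hC hν hτ hE hz
  have h2 : (fun v : s => y v / T) ⬝ᵥ (cost (R.comap Subtype.val) (B.comap (Subtype.val : s → V)) ν τ
      *ᵥ fun v : s => y v / T) = form R B s ν τ y / T ^ 2 := by
    unfold form
    rw [← sum_coe_sort s, sum_div]
    simp only [dotProduct, mulVec, mul_sum]
    refine sum_congr rfl fun u _ => ?_
    rw [← sum_coe_sort s, sum_div]
    refine sum_congr rfl fun v _ => ?_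
    simp only [cost, ent, SimpleGraph.comap_adj]
    field_simp
  rwa [h2, le_div_iff₀ (by positivity), one_mul] at hq

/-- the Caro Wei test vector -/
theorem form_cw (hν : 0 ≤ ν) (hτ : 0 ≤ τ) {x e : V → ℝ} (hx : ∀ v ∈ s, 0 < x v)
    (he0 : ∀ v ∈ s, 0 < e v) (he : ∀ v ∈ s, ∑ u ∈ s, x u * ent R B ν τ u v ≤ e v) :
    form R B s ν τ (fun v => x v / e v) ≤ ∑ v ∈ s, x v / e v := by
  have h1 : form R B s ν τ (fun v => x v / e v) ≤
      ∑ u ∈ s, ∑ v ∈ s, (x u * x v * ent R B ν τ u v / e u ^ 2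
        + x u * x v * ent R B ν τ u v / e v ^ 2) / 2 := by
    refine sum_le_sum fun u hu => sum_le_sum fun v hv => ?_
    have h1 := mul_nonneg (mul_pos (hx u hu) (hx v hv)).le (ent_nonneg (R := R) (B := B) hν hτ u v)
    have h2 := he0 u hu
    have h3 := he0 v hv
    have h4 : x u / e u * (x v / e v) * ent R B ν τ u v
        = x u * x v * ent R B ν τ u v * ((1 / e u) * (1 / e v)) := by field_simp
    have h5 : (x u * x v * ent R B ν τ u v / e u ^ 2 + x u * x v * ent R B ν τ u v / e v ^ 2) / 2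
        = x u * x v * ent R B ν τ u v * (((1 / e u) ^ 2 + (1 / e v) ^ 2) / 2) := by field_simp
    rw [h4, h5]
    exact mul_le_mul_of_nonneg_left (by nlinarith [sq_nonneg (1 / e u - 1 / e v)]) h1
  have h2 : ∑ u ∈ s, ∑ v ∈ s, x u * x v * ent R B ν τ u v / e v ^ 2 ≤ ∑ v ∈ s, x v / e v := by
    rw [sum_comm]
    refine sum_le_sum fun v hv => ?_
    have h3 : ∑ u ∈ s, x u * x v * ent R B ν τ u v / e v ^ 2
        = x v / e v ^ 2 * ∑ u ∈ s, x u * ent R B ν τ u v := by
      rw [mul_sum]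
      exact sum_congr rfl fun u _ => by ring
    have h4 := he0 v hv
    have h5 := hx v hv
    rw [h3]
    calc _ ≤ x v / e v ^ 2 * e v := mul_le_mul_of_nonneg_left (he v hv) (by positivity)
      _ = x v / e v := by field_simp
  have h3 : ∑ u ∈ s, ∑ v ∈ s, x u * x v * ent R B ν τ u v / e u ^ 2
      = ∑ u ∈ s, ∑ v ∈ s, x u * x v * ent R B ν τ u v / e v ^ 2 := by
    rw [sum_comm]
    exact sum_congr rfl fun u _ => sum_congr rfl fun v _ => by rw [ent_symm v u, mul_comm (x v)]
  simp only [← sum_div, sum_add_distrib] at h1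
  simp only [← sum_div] at h2 h3
  linarith

/-- a bound on the Lagrangian -/
def Bd (R B : SimpleGraph V) (s : Finset V) (ν τ b : ℝ) : Prop :=
  ∀ y : V → ℝ, (∀ v ∈ s, 0 ≤ y v) → (∑ v ∈ s, y v) ^ 2 ≤ b * form R B s ν τ y

theorem bd_of_not (hν : 0 ≤ ν) (hτ : 0 ≤ τ) (h : ¬ Q R B s ν τ) : Bd R B s ν τ 1 :=
  fun _ hy => by rw [one_mul]; exact form_ge hν hτ h hy

theorem form_lin (a b ν' τ' : ℝ) (y : V → ℝ) :
    form R B s (a * ν + b * ν') (a * τ + b * τ') y
      = a * form R B s ν τ y + b * form R B s ν' τ' y := by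
  unfold form ent
  simp only [mul_sum, ← sum_add_distrib]
  exact sum_congr rfl fun u _ => sum_congr rfl fun v _ => by ring

theorem Bd.cw {b : ℝ} (h : Bd R B s ν τ b) (hb : 0 ≤ b) (hν : 0 ≤ ν) (hτ : 0 ≤ τ) {x e : V → ℝ}
    (hx : ∀ v ∈ s, 0 < x v) (he0 : ∀ v ∈ s, 0 < e v)
    (he : ∀ v ∈ s, ∑ u ∈ s, x u * ent R B ν τ u v ≤ e v) : ∑ v ∈ s, x v / e v ≤ b := by
  have h1 := h (fun v => x v / e v) fun v hv => (div_pos (hx v hv) (he0 v hv)).le
  have h2 := form_cw hν hτ hx he0 he
  by_contra hlt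
  push Not at hlt
  have h3 := mul_le_mul_of_nonneg_left h2 hb
  nlinarith

/-- the symmetrised averaging inequality -/
theorem core {ν' τ' : ℝ} (hν : 0 ≤ ν') (hτ : 0 ≤ τ') (hD : 0 < ν' + τ') {x : V → ℝ}
    (hx : ∀ v ∈ s, 0 < x v)
    (h : ∀ u ∈ s, ∀ t ∈ s, ¬ (R.Adj t u ∧ B.Adj t u) → ∃ b, 0 ≤ b ∧
      Bd R B (gr R B (gr R B s u) t) ν' τ' b ∧ ent R B ν' τ' t u * b + 1 ≤ ent R B ν τ t u) :
    (∑ v ∈ s, x v) ^ 2 ≤ form R B s ν τ x := by
  set r : V → V → ℝ := fun u w => ∑ t ∈ gr R B s w, x t * ent R B ν' τ' t u with hr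
  have hr0 : ∀ w, ∀ u ∈ gr R B s w, 0 < r u w := by
    intro w u hu
    have h1 : x u * ent R B ν' τ' u u ≤ r u w :=
      single_le_sum (f := fun t => x t * ent R B ν' τ' t u)
        (fun t ht => mul_nonneg (hx t (mem_filter.1 ht).1).le (ent_nonneg hν hτ _ _)) hu
    rw [ent_self] at h1
    exact lt_of_lt_of_le (mul_pos (hx u (mem_filter.1 hu).1) hD) h1
  -- upper bound
  have up : ∀ u ∈ s, ∀ t ∈ s, x t * ent R B ν' τ' t u *
      ∑ w ∈ gr R B (gr R B s u) t, x w / r w u
      ≤ x t * ent R B ν τ t u - if R.Adj t u ∧ B.Adj t u then 0 else x t := by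
    intro u hu t ht
    split_ifs with hg
    · simp [ent, hg.1, hg.2]
    · obtain ⟨b, hb, hB, hle⟩ := h u hu t ht hg
      have hsub : gr R B (gr R B s u) t ⊆ gr R B s u := filter_subset _ _
      have h1 := hB.cw hb hν hτ (x := x) (e := fun w => r w u)
        (fun v hv => hx v (mem_filter.1 (hsub hv)).1) (fun v hv => hr0 u v (hsub hv))
        (fun v _ => sum_le_sum_of_subset_of_nonneg hsub fun z hz _ =>
          mul_nonneg (hx z (mem_filter.1 hz).1).le (ent_nonneg hν hτ _ _))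
      have h2 := mul_le_mul_of_nonneg_left h1
        (mul_nonneg (hx t ht).le (ent_nonneg (R := R) (B := B) hν hτ t u))
      have h3 := mul_le_mul_of_nonneg_left hle (hx t ht).le
      nlinarith
  -- exchange of summation
  have ex : ∀ u ∈ s, ∑ t ∈ s, x t * ent R B ν' τ' t u * ∑ w ∈ gr R B (gr R B s u) t, x w / r w u
      = ∑ w ∈ s, if R.Adj w u ∧ B.Adj w u then x w * (r u w / r w u) else 0 := by
    intro u _
    have h1 : ∀ t ∈ s, x t * ent R B ν' τ' t u * ∑ w ∈ gr R B (gr R B s u) t, x w / r w u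
        = ∑ w ∈ s, if R.Adj w u ∧ B.Adj w u then
          (if R.Adj t w ∧ B.Adj t w then x t * ent R B ν' τ' t u else 0) * (x w / r w u)
          else 0 := by
      intro t _
      unfold gr
      rw [sum_filter, sum_filter, mul_sum]
      refine sum_congr rfl fun w _ => ?_
      rw [R.adj_comm t w, B.adj_comm t w]
      split_ifs <;> simp
    rw [sum_congr rfl h1, sum_comm]
    refine sum_congr rfl fun w _ => ?_
    split_ifs
    · rw [← sum_mul, ← sum_filter]
      change r u w * _ = _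
      ring
    · simp
  have low : ∑ u ∈ s, ∑ w ∈ s, (if R.Adj w u ∧ B.Adj w u then x u * x w else 0) ≤
      ∑ u ∈ s, x u * ∑ w ∈ s, if R.Adj w u ∧ B.Adj w u then x w * (r u w / r w u) else 0 := by
    set f : V → V → ℝ := fun u w =>
      if R.Adj w u ∧ B.Adj w u then x u * x w * (r u w / r w u) else 0 with hf
    have e1 : ∑ u ∈ s, x u * ∑ w ∈ s, (if R.Adj w u ∧ B.Adj w u then x w * (r u w / r w u) else 0)
        = ∑ u ∈ s, ∑ w ∈ s, f u w := by
      refine sum_congr rfl fun u _ => ?_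
      rw [mul_sum]
      refine sum_congr rfl fun w _ => ?_
      simp only [hf]
      split_ifs <;> ring
    have e2 : ∑ u ∈ s, ∑ w ∈ s, f u w = ∑ u ∈ s, ∑ w ∈ s, f w u := sum_comm
    have e3 : ∑ u ∈ s, ∑ w ∈ s, 2 * (if R.Adj w u ∧ B.Adj w u then x u * x w else 0)
        ≤ ∑ u ∈ s, ∑ w ∈ s, (f u w + f w u) := by
      refine sum_le_sum fun u hu => sum_le_sum fun w hw => ?_
      simp only [hf, R.adj_comm u w, B.adj_comm u w]
      split_ifs with hg
      · have h1 := hr0 w u (mem_filter.2 ⟨hu, hg.1.symm, hg.2.symm⟩)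
        have h2 := hr0 u w (mem_filter.2 ⟨hw, hg⟩)
        have h3 : 2 ≤ r u w / r w u + r w u / r u w := by
          rw [div_add_div _ _ h2.ne' h1.ne', le_div_iff₀ (mul_pos h2 h1)]
          nlinarith [sq_nonneg (r u w - r w u)]
        have h4 := mul_le_mul_of_nonneg_left h3 (mul_pos (hx u hu) (hx w hw)).le
        nlinarith
      · simp
    simp only [← mul_sum, sum_add_distrib] at e3
    linarith
  have h1 : ∑ u ∈ s, x u * ∑ w ∈ s, (if R.Adj w u ∧ B.Adj w u then x w * (r u w / r w u) else 0)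
      ≤ ∑ u ∈ s, x u * ∑ t ∈ s,
        (x t * ent R B ν τ t u - if R.Adj t u ∧ B.Adj t u then 0 else x t) := by
    refine sum_le_sum fun u hu => mul_le_mul_of_nonneg_left ?_ (hx u hu).le
    rw [← ex u hu]
    exact sum_le_sum (up u hu)
  have h2 : ∑ u ∈ s, x u * ∑ t ∈ s,
        (x t * ent R B ν τ t u - if R.Adj t u ∧ B.Adj t u then 0 else x t)
      + (∑ v ∈ s, x v) ^ 2 = form R B s ν τ x +
        ∑ u ∈ s, ∑ w ∈ s, (if R.Adj w u ∧ B.Adj w u then x u * x w else 0) := by
    unfold form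
    rw [sq, sum_mul_sum, ← sum_add_distrib, ← sum_add_distrib]
    refine sum_congr rfl fun u _ => ?_
    rw [mul_sum, ← sum_add_distrib, ← sum_add_distrib]
    refine sum_congr rfl fun t _ => ?_
    rw [ent_symm t u]
    split_ifs <;> ring
  linarith

theorem Deg.form_lt {x : V → ℝ} (hs : s.Nonempty) (hx : ∀ v ∈ s, 0 < x v) (h : Deg R B s x ν τ) :
    form R B s ν τ x < (∑ v ∈ s, x v) ^ 2 := by
  unfold form
  rw [sum_comm, sq, sum_mul]
  refine sum_lt_sum_of_nonempty hs fun v hv => ?_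
  have h1 : ∑ u ∈ s, x u * x v * ent R B ν τ u v = x v * ∑ u ∈ s, x u * ent R B ν τ u v := by
    rw [mul_sum]
    exact sum_congr rfl fun u _ => by ring
  rw [h1, sum_ent]
  exact mul_lt_mul_of_pos_left (h v hv) (hx v hv)

theorem gr_self (u : V) : gr R B (gr R B s u) u = gr R B s u := by
  unfold gr
  rw [filter_filter]
  simp

theorem gr_mono {t : Finset V} (h : t ⊆ s) (u : V) : gr R B t u ⊆ gr R B s u :=
  filter_subset_filter _ h

/-- the trichotomy -/
theorem trich (hν : 1 ≤ ν) (hτ : 1 ≤ τ) (hD : 2 < ν + τ) (hQ : Q R B s ν τ) :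
    (∃ u ∈ s, Q R B (gr R B s u) ν (τ - 1)) ∨ (∃ u ∈ s, Q R B (gr R B s u) (ν - 1) τ) ∨
      ∃ u ∈ s, ∃ t ∈ s, (R.Adj u t ∨ B.Adj u t) ∧
        Q R B (gr R B (gr R B s u) t) (ν - 1) (τ - 1) := by
  obtain ⟨s', hs', x, h1, hx, hW, hd⟩ := hQ
  by_contra hcon
  push Not at hcon
  obtain ⟨ha, hb, hc⟩ := hcon
  refine absurd (hd.form_lt h1 hx) (not_lt.2 (core (ν' := ν - 1) (τ' := τ - 1) (by linarith)
    (by linarith) (by linarith) hx fun u hu t ht hg => ?_))
  by_cases htu : t = u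
  · subst htu
    refine ⟨(ν + τ - 1) / (ν + τ - 2), div_nonneg (by linarith) (by linarith), ?_, ?_⟩
    · rw [gr_self]
      intro y hy
      have k1 := form_ge (by linarith) (by linarith)
        (fun h => ha t (hs' ht) (Q.mono h (gr_mono hs' t))) hy
      have k2 := form_ge (by linarith) (by linarith)
        (fun h => hb t (hs' ht) (Q.mono h (gr_mono hs' t))) hy
      have k3 := form_lin (R := R) (B := B) (s := gr R B s' t) (ν := ν) (τ := τ - 1)
        (ν - 1) (τ - 1) (ν - 1) τ y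
      have k4 := form_lin (R := R) (B := B) (s := gr R B s' t) (ν := ν - 1) (τ := τ - 1)
        (ν + τ - 1) 0 0 0 y
      have e1 : (ν - 1) * ν + (τ - 1) * (ν - 1) = (ν + τ - 1) * (ν - 1) + 0 * 0 := by ring
      have e2 : (ν - 1) * (τ - 1) + (τ - 1) * τ = (ν + τ - 1) * (τ - 1) + 0 * 0 := by ring
      rw [e1, e2, k4] at k3
      rw [div_mul_eq_mul_div, le_div_iff₀ (by linarith)]
      nlinarith [mul_le_mul_of_nonneg_left k1 (by linarith : 0 ≤ ν - 1),
        mul_le_mul_of_nonneg_left k2 (by linarith : 0 ≤ τ - 1)]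
    · rw [ent_self, ent_self]
      have : ν - 1 + (τ - 1) = ν + τ - 2 := by ring
      rw [this, mul_div_cancel₀ _ (by linarith)]
      linarith
  · have hadj := hW u hu t ht (Ne.symm htu)
    refine ⟨1, zero_le_one, bd_of_not (by linarith) (by linarith) fun h =>
      hc u (hs' hu) t (hs' ht) hadj (h.mono (gr_mono (gr_mono hs' u) t)), ?_⟩
    unfold ent
    rw [R.adj_comm u t, B.adj_comm u t] at hadj
    split_ifs with h1 h2 h2
    · exact absurd ⟨h1, h2⟩ hg
    · linarith
    · linarith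
    · exact absurd hadj (by simp [h1, h2])

/-- a green clique whose common blue neighbourhood is still rich -/
theorem green_join {q : ℕ} (hq : 1 ≤ q) (hν : (q : ℝ) ≤ ν) (hτ : (q : ℝ) ≤ τ) (hQ : Q R B s ν τ) :
    ∃ K ⊆ s, K.card = q ∧ (∀ a ∈ K, ∀ b ∈ K, a ≠ b → R.Adj a b ∧ B.Adj a b) ∧
      Q R B (s.filter (fun w => ∀ u ∈ K, B.Adj w u)) ν (τ - q) := by
  obtain ⟨s', hs', x, h1, hx, hW, hd⟩ := hQ
  have hq' : (1 : ℝ) ≤ q := by exact_mod_cast hq
  set T := ∑ u ∈ s', x u with hT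
  have hT0 : 0 < T := sum_pos hx h1
  set e : V → ℝ := fun w => ∑ u ∈ s', x u * ent R B ν (τ - q) u w with he
  have he0 : ∀ w ∈ s', 0 < e w := by
    intro w hw
    have h2 : x w * ent R B ν (τ - q) w w ≤ e w :=
      single_le_sum (f := fun t => x t * ent R B ν (τ - q) t w)
        (fun t ht => mul_nonneg (hx t ht).le (ent_nonneg (by linarith) (by linarith) _ _)) hw
    rw [ent_self] at h2
    exact lt_of_lt_of_le (mul_pos (hx w hw) (by linarith)) h2
  obtain ⟨K, hK, hc, hg, hle⟩ := greedy_green R B x (c := T / q) (by positivity) q s'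
    (fun u => lack B s' (fun w => x w / e w) u) hx
    (fun u _ => lack_nonneg B (fun w hw => div_pos (hx w hw) (he0 w hw)) u)
    (fun v hv => by
      rw [le_div_iff₀ (by positivity)]
      have h2 := hd v hv
      have h3 := lack_nonneg B hx v
      have h4 := lack_nonneg R hx v
      nlinarith)
    (by rw [mul_div_cancel₀ _ (by positivity)])
  refine ⟨K, hK.trans hs', hc, hg, ?_⟩
  set W := s'.filter (fun w => ∀ u ∈ K, B.Adj w u) with hWd
  have hWs : W ⊆ s' := filter_subset _ _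
  by_contra hn
  have h2 := (bd_of_not (by linarith) (by linarith) (fun h : Q R B W ν (τ - q) =>
    hn (h.mono (filter_subset_filter _ hs')))).cw zero_le_one (by linarith) (by linarith)
    (x := x) (e := e) (fun v hv => hx v (hWs hv)) (fun v hv => he0 v (hWs hv))
    (fun v _ => sum_le_sum_of_subset_of_nonneg hWs fun z hz _ =>
      mul_nonneg (hx z hz).le (ent_nonneg (by linarith) (by linarith) _ _))
  have h3 : ∑ w ∈ s', x w / e w ≤ ∑ w ∈ W, x w / e w
      + ∑ u ∈ K, lack B s' (fun w => x w / e w) u := by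
    unfold lack
    rw [hWd, sum_filter, sum_comm, ← sum_add_distrib]
    refine sum_le_sum fun w hw => ?_
    have h4 := div_pos (hx w hw) (he0 w hw)
    have h5 : ∀ u ∈ K, 0 ≤ (if B.Adj w u then 0 else x w / e w) := fun u _ => by
      split_ifs <;> linarith
    split_ifs with h6
    · have := sum_nonneg h5
      linarith
    · push Not at h6
      obtain ⟨u, hu, h6⟩ := h6
      have := single_le_sum h5 hu
      rw [if_neg h6] at this
      linarith
  have h4 : ∑ u ∈ s', x u * lack B s' (fun w => x w / e w) u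
      = ∑ w ∈ s', x w / e w * lack B s' x w := by
    unfold lack
    simp only [mul_sum]
    rw [sum_comm]
    refine sum_congr rfl fun w _ => sum_congr rfl fun u _ => ?_
    rw [B.adj_comm w u]
    split_ifs <;> ring
  have h5 : ∑ w ∈ s', (x w + q * (x w / e w * lack B s' x w)) < ∑ w ∈ s', T * (x w / e w) := by
    refine sum_lt_sum_of_nonempty h1 fun w hw => ?_
    have h6 := hd w hw
    have h7 : e w = ν * lack R s' x w + (τ - q) * lack B s' x w := sum_ent x w
    have h8 := he0 w hw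
    have h9 : x w = x w / e w * e w := by field_simp
    have h10 := div_pos (hx w hw) h8
    have h11 : e w + q * lack B s' x w < T := by linarith
    nlinarith [mul_lt_mul_of_pos_left h11 h10]
  rw [sum_add_distrib, ← mul_sum, ← mul_sum, ← h4, ← hT] at h5
  rw [div_mul_eq_mul_div, div_le_iff₀ (by positivity)] at hle
  nlinarith [mul_le_mul_of_nonneg_left h3 hT0.le, mul_le_mul_of_nonneg_left h2 hT0.le]

end Pool.Agent.P.MP_6dea24_co
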