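import Pool.Agent.P.MP_6dea24_co.Tight
import Pool.Agent.P.MP_6dea24_co.Quad

namespace Pool.Agent.P.MP_6dea24_co

open Finset
open scoped Classical

variable {α V : Type*} {F : SimpleGraph α} {R B : SimpleGraph V}

theorem Emb.extend {X U : Finset α} {s t K : Finset V} (h : Emb F X R B t) (hts : t ⊆ s)
    (hU : Emb F U R B K) (hK : K ⊆ s)
    (hR : ∀ a ∈ U, ∀ b ∈ X, F.Adj a b → ∀ k ∈ K, ∀ w ∈ t, R.Adj w k)
    (hB : ∀ a ∈ U, ∀ b ∈ X, ¬ F.Adj a b → ∀ k ∈ K, ∀ w ∈ t, B.Adj w k) :
    Emb F (U ∪ X) R B s := by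
  obtain ⟨φ, h1, h2⟩ := h
  obtain ⟨ψ, k1, k2⟩ := hU
  refine ⟨fun a => if a ∈ U then ψ a else φ a, fun a ha => ?_, fun a ha b hb hab => ?_⟩
  · by_cases c : a ∈ U <;> simp only [c, if_true, if_false]
    · exact hK (k1 a c)
    · exact hts (h1 a ((mem_union.1 ha).resolve_left c))
  · by_cases c : a ∈ U <;> by_cases d : b ∈ U <;> simp only [c, d, if_true, if_false]
    · exact k2 a c b d hab
    · have hb' := (mem_union.1 hb).resolve_left d
      exact ⟨fun e => (hR a c b hb' e _ (k1 a c) _ (h1 b hb')).symm,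
        fun e => (hB a c b hb' e _ (k1 a c) _ (h1 b hb')).symm⟩
    · have ha' := (mem_union.1 ha).resolve_left c
      exact ⟨fun e => hR b d a ha' e.symm _ (k1 b d) _ (h1 a ha'),
        fun e => hB b d a ha' (fun e' => e e'.symm) _ (k1 b d) _ (h1 a ha')⟩
    · exact h2 a ((mem_union.1 ha).resolve_left c) b ((mem_union.1 hb).resolve_left d) hab

theorem Emb.one {X Y : Finset α} {s : Finset V} {u : V} (h : Emb F X R B (gr R B s u)) (hu : u ∈ s)
    (a : α) (hY : Y ⊆ Insert.insert a X) : Emb F Y R B s := by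
  refine (h.extend (U := {a}) (K := {u}) (filter_subset _ _) ⟨fun _ => u, by simp, by simp⟩
    (by simpa using hu) ?_ ?_).mono (by simpa using hY) Subset.rfl
  · intro _ _ _ _ _ k hk w hw
    rw [mem_singleton.1 hk]; exact (mem_filter.1 hw).2.1
  · intro _ _ _ _ _ k hk w hw
    rw [mem_singleton.1 hk]; exact (mem_filter.1 hw).2.2

theorem Emb.two {X Y : Finset α} {s : Finset V} {u t : V}
    (h : Emb F X R B (gr R B (gr R B s u) t)) (hu : u ∈ s) (ht : t ∈ s) (a b : α)
    (hR : F.Adj a b → R.Adj u t) (hB : ¬ F.Adj a b → B.Adj u t)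
    (hY : Y ⊆ Insert.insert a (Insert.insert b X)) : Emb F Y R B s := by
  have hg : ∀ k ∈ ({u, t} : Finset V), ∀ w ∈ gr R B (gr R B s u) t, R.Adj w k ∧ B.Adj w k := by
    intro k hk w hw
    rcases mem_insert.1 hk with rfl | hk
    · exact (mem_filter.1 (mem_filter.1 hw).1).2
    · rw [mem_singleton.1 hk]; exact (mem_filter.1 hw).2
  refine (h.extend (U := {a, b}) (K := {u, t}) ((filter_subset _ _).trans (filter_subset _ _))
    ⟨fun c => if c = a then u else t, fun c _ => by dsimp only; split_ifs <;> simp, ?_⟩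
    (insert_subset hu (singleton_subset_iff.2 ht)) (fun _ _ _ _ _ k hk w hw => (hg k hk w hw).1)
    (fun _ _ _ _ _ k hk w hw => (hg k hk w hw).2)).mono (by simpa using hY) Subset.rfl
  intro c hc d hd hcd
  simp only [mem_insert, mem_singleton] at hc hd
  rcases hc with rfl | rfl <;> rcases hd with rfl | rfl
  · exact absurd rfl hcd
  · simp only [if_true, if_neg hcd.symm]
    exact ⟨hR, hB⟩
  · simp only [if_true, if_neg hcd]
    exact ⟨fun e => (hR e.symm).symm, fun e => (hB fun e' => e e'.symm).symm⟩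
  · exact absurd rfl hcd

/-- blue join with an arbitrary small graph -/
theorem Cert.join {X U : Finset α} {ν τ : ℝ} (h : Cert F X ν τ R B) (hτ : 0 ≤ τ)
    (hν : (U.card : ℝ) ≤ ν) (hb : ∀ a ∈ U, ∀ b ∈ X, ¬ F.Adj a b) :
    Cert F (U ∪ X) ν (τ + U.card) R B := by
  rcases U.eq_empty_or_nonempty with rfl | hne
  · simpa using h
  refine cert_of_q fun s hQ => ?_
  obtain ⟨K, hK, hc, hg, hQ'⟩ := green_join (card_pos.2 hne) hν (by linarith) hQ
  rw [add_sub_cancel_right] at hQ'
  obtain ⟨v, -⟩ : K.Nonempty := card_pos.1 (hc ▸ card_pos.2 hne)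
  obtain ⟨φ, k1, k2⟩ := exists_inj (Y := U) hc.ge v
  exact (h.emb hQ').extend (filter_subset _ _)
    ⟨φ, k1, fun a ha b hb hab => ⟨fun _ => (hg _ (k1 a ha) _ (k1 b hb) (k2 a ha b hb hab)).1,
      fun _ => (hg _ (k1 a ha) _ (k1 b hb) (k2 a ha b hb hab)).2⟩⟩ hK
    (fun a ha b hb' e => absurd e (hb a ha b hb')) (fun _ _ _ _ _ k hk w hw =>
      (mem_filter.1 hw).2 k hk)

theorem Cert.join_red {X U : Finset α} {ν τ : ℝ} (h : Cert F X ν τ R B) (hν : 0 ≤ ν)
    (hτ : (U.card : ℝ) ≤ τ) (hb : ∀ a ∈ U, ∀ b ∈ X, F.Adj a b) :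
    Cert F (U ∪ X) (ν + U.card) τ R B := by
  apply Cert.swap
  have h' : Cert Fᶜ X τ ν B R := by
    apply Cert.swap
    simpa using h
  exact h'.join hν hτ fun a ha b hb' e => ((F.compl_adj _ _).1 e).2 (hb a ha b hb')

/-- the natural class -/
def InC (F : SimpleGraph α) (X : Finset α) (ν τ : ℕ) : Prop :=
  X.card = ν + τ + 1 ∧ cc F X = τ + 1 ∧ ν ≤ τ

theorem cert_odd {X : Finset α} {n : ℕ} (hX : X.card = 2 * n + 1) (h1 : cc F X ≤ n + 1)
    (h2 : cc Fᶜ X ≤ n + 1) : Cert F X n n R B := by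
  have := cert_cc (F := F) (D := 2 * n) hX.le (by omega) (by omega) (fun h => by
    have h3 := h.2.elim Inv.even Inv.even
    rw [hX] at h3
    exact absurd h3 (by simp)) R B
  have e : ((2 * n : ℕ) : ℝ) / 2 = n := by push_cast; ring
  rwa [e] at this

theorem InC.crit {X : Finset α} {ν τ : ℕ} (h : InC F X ν (τ + 1)) (hν : ν ≤ τ) :
    ∃ t ∈ X, InC F (X.erase t) ν τ := by
  obtain ⟨h1, h2, h3⟩ := h
  obtain ⟨g, hg, t, ht⟩ := exists_single (F := F) (X := X) (by omega)
  have h4 := hg.crit ht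
  have h5 := cc_erase_le F X t
  have h6 := card_erase_add_one (mem_filter.1 ht).1
  exact ⟨t, (mem_filter.1 ht).1, by omega, by omega, hν⟩

theorem box {N : ℕ} (IH : ∀ (Y : Finset α) (ν τ : ℕ), Y.card < N → InC F Y ν τ →
      Cert F Y ν τ R B) :
    ∀ (m : ℕ) (U H : Finset α) (μ j c ν τ : ℕ), μ + c + τ = m → μ = j + c → Disjoint U H →
      (∀ a ∈ U, ∀ b ∈ H, ¬ F.Adj a b) → U.card = 2 * μ + 1 → RM F U μ → RM Fᶜ U μ →
      InC F H ν τ → H.card < N →
      (μ + 1 ≤ ν ∨ (μ ≤ ν ∧ ∃ t ∈ U, (U.filter (fun u => F.Adj t u)).card ≤ μ)) →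
      ∀ s, Q R B s (ν + c) (τ + μ + 1) → ∃ S ⊆ U, S.card = j ∧ Emb F (U \ S ∪ H) R B s := by
  intro m
  induction m using Nat.strong_induction_on with
  | _ m ih =>
  intro U H μ j c ν τ hm hμ hd hno hU r1 r2 hH hN hfin s hQ
  have hC := IH H ν τ hN hH
  rcases Nat.eq_zero_or_pos c with rfl | hc
  · obtain rfl : μ = j := by omega
    rw [Nat.cast_zero, add_zero] at hQ
    rcases hfin with h | ⟨h, t, ht, h'⟩
    · obtain ⟨S, hS, hSc⟩ := exists_subset_card_eq (by omega : μ ≤ U.card)
      have h1 := card_sdiff_add_card_eq_card hS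
      have h2 : (U \ S).card = μ + 1 := by omega
      have h3 := hC.join (U := U \ S) (by positivity) (by rw [h2]; exact_mod_cast h)
        fun a ha => hno a (mem_sdiff.1 ha).1
      rw [h2] at h3
      exact ⟨S, hS, hSc, h3.emb (by simpa [add_assoc] using hQ)⟩
    · have h0 := card_erase_add_one ht
      obtain ⟨S, k1, k2, hSc⟩ := exists_subsuperset_card_eq
        (s := U.filter (fun u => F.Adj t u)) (t := U.erase t) (n := μ)
        (fun a ha => mem_erase.2 ⟨(mem_filter.1 ha).2.ne', (mem_filter.1 ha).1⟩) h' (by omega)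
      have h1 := card_sdiff_add_card_eq_card k2
      have h2 : (U.erase t \ S).card = μ := by omega
      have h3 := hC.join (U := U.erase t \ S) (by positivity) (by rw [h2]; exact_mod_cast h)
        fun a ha => hno a (mem_of_mem_erase (mem_sdiff.1 ha).1)
      rw [h2] at h3
      have h4 := h3.blue (by positivity) (by positivity) (w := t)
        (by simp [disjoint_left.1 hd ht]) fun a ha e => by
          rcases mem_union.1 ha with ha | ha
          · exact (mem_sdiff.1 ha).2 (k1 (mem_filter.2 ⟨mem_of_mem_erase (mem_sdiff.1 ha).1, e⟩))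
          · exact hno t ht a ha e
      refine ⟨S, k2.trans (erase_subset _ _), hSc, (h4.emb hQ).mono ?_ Subset.rfl⟩
      intro a ha
      simp only [mem_union, mem_sdiff, mem_insert, mem_erase] at ha ⊢
      tauto
  obtain ⟨c, rfl⟩ : ∃ c', c = c' + 1 := ⟨c - 1, by omega⟩
  obtain ⟨μ, rfl⟩ : ∃ μ', μ = μ' + 1 := ⟨μ - 1, by omega⟩
  have hν : μ + 1 ≤ ν := by omega
  have sub : ∀ a b, (U.erase a).erase b ⊆ U := fun a b =>
    (erase_subset _ _).trans (erase_subset _ _)
  have step : ∀ a ∈ U, ∀ b ∈ U, a ≠ b → RM F ((U.erase a).erase b) μ →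
      RM Fᶜ ((U.erase a).erase b) μ → ∀ j' c', c' ≤ c + 1 → μ = j' + c' →
      ∀ s, Q R B s (ν + c') (τ + μ + 1) →
      ∃ S ⊆ (U.erase a).erase b, S.card = j' ∧ Emb F ((U.erase a).erase b \ S ∪ H) R B s := by
    intro a ha b hb hab k1 k2 j' c' hc' he
    have e1 := card_erase_add_one ha
    have e2 := card_erase_add_one (mem_erase.2 ⟨hab.symm, hb⟩)
    exact ih _ (by omega) _ H μ j' c' ν τ rfl he (disjoint_of_subset_left (sub a b) hd)
      (fun x hx => hno x (sub a b hx)) (by omega) k1 k2 hH hN (Or.inl hν)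
  have p1 : (0 : ℝ) ≤ ν := by positivity
  have p2 : (0 : ℝ) ≤ τ := by positivity
  have p3 : (0 : ℝ) ≤ μ := by positivity
  have p4 : (0 : ℝ) ≤ c := by positivity
  push_cast at hQ
  rcases trich (by linarith) (by linarith) (by linarith) hQ with
    ⟨u, hu, h⟩ | ⟨u, hu, h⟩ | ⟨u, hu, t, ht, hut, h⟩
  · rcases Nat.eq_zero_or_pos j with rfl | hj
    · rcases hH.2.2.eq_or_lt with rfl | hlt
      · obtain ⟨M, hM, cM⟩ := r1
        obtain ⟨t, ht, htM⟩ := hM.exposed (by omega)
        have e1 := card_erase_add_one ht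
        have k1 := cc_of_rm (F := F) ⟨M, hM.erase htM, cM⟩
        have k2 := cc_union_le F (U.erase t) H
        have k3 := nordhaus F H
        have k4 := cc_le_card Fᶜ (U.erase t)
        have k5 := hH.1
        have k6 := hH.2.1
        have k7 := card_union_of_disjoint (disjoint_of_subset_left (erase_subset t U) hd)
        have k8 := cert_odd (F := F) (R := R) (B := B) (X := U.erase t ∪ H) (n := ν + (μ + 1))
          (by omega) (by omega) (cc_join_le (by omega) (by omega) fun a ha b hb hab =>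
            (F.compl_adj _ _).2 ⟨hab, hno a (mem_of_mem_erase ha) b hb⟩)
        obtain rfl : μ = c := by omega
        refine ⟨∅, empty_subset _, rfl, (k8.emb ?_).one hu t ?_⟩
        · convert h using 1 <;> push_cast <;> ring
        · intro a ha
          simp only [mem_union, sdiff_empty, mem_insert, mem_erase] at ha ⊢
          tauto
      · obtain ⟨τ, rfl⟩ : ∃ τ', τ = τ' + 1 := ⟨τ - 1, by omega⟩
        obtain ⟨t, ht, hH'⟩ := hH.crit (by omega)
        obtain ⟨S, k1, k2, k3⟩ := ih _ (by omega) U (H.erase t) (μ + 1) 0 (c + 1) ν τ rfl hμ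
          (disjoint_of_subset_right (erase_subset _ _) hd)
          (fun a ha b hb => hno a ha b (mem_of_mem_erase hb)) hU r1 r2 hH'
          (lt_of_le_of_lt card_erase_le hN) hfin (gr R B s u)
          (by convert h using 1 <;> push_cast <;> ring)
        refine ⟨S, k1, k2, k3.one hu t ?_⟩
        intro a ha
        simp only [mem_union, mem_insert, mem_erase] at ha ⊢
        tauto
    · obtain ⟨j, rfl⟩ : ∃ j', j = j' + 1 := ⟨j - 1, by omega⟩
      obtain ⟨a, ha, b, hb, hab, k1, k2⟩ := box_step hU r1 r2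
      obtain ⟨S, k3, k4, k5⟩ := step a ha b hb hab.ne k1 k2 j (c + 1) le_rfl (by omega)
        (gr R B s u) (by convert h using 1 <;> push_cast <;> ring)
      refine ⟨insert b S, insert_subset hb (k3.trans (sub a b)), ?_, k5.one hu a ?_⟩
      · rw [card_insert_of_notMem fun e => notMem_erase _ _ (k3 e), k4]
      · intro x hx
        simp only [mem_union, mem_sdiff, mem_insert, mem_erase] at hx ⊢
        tauto
  · obtain ⟨S, k1, k2, k3⟩ := ih _ (by omega) U H (μ + 1) (j + 1) c ν τ rfl (by omega) hd hno hU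
      r1 r2 hH hN hfin (gr R B s u) (by convert h using 1 <;> push_cast <;> ring)
    obtain ⟨a, ha⟩ : S.Nonempty := card_pos.1 (by omega)
    refine ⟨S.erase a, (erase_subset _ _).trans k1, by rw [card_erase_of_mem ha]; omega,
      k3.one hu a ?_⟩
    intro x hx
    simp only [mem_union, mem_sdiff, mem_insert, mem_erase] at hx ⊢
    tauto
  · have fin : ∀ a ∈ U, ∀ b ∈ U, a ≠ b → RM F ((U.erase a).erase b) μ →
        RM Fᶜ ((U.erase a).erase b) μ → (F.Adj a b → R.Adj u t) → (¬ F.Adj a b → B.Adj u t) →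
        ∃ S ⊆ U, S.card = j ∧ Emb F (U \ S ∪ H) R B s := by
      intro a ha b hb hab k1 k2 c1 c2
      obtain ⟨S, k3, k4, k5⟩ := step a ha b hb hab k1 k2 j c (by omega) (by omega) _
        (by convert h using 1 <;> ring)
      refine ⟨S, k3.trans (sub a b), k4, k5.two hu ht a b c1 c2 ?_⟩
      intro x hx
      simp only [mem_union, mem_sdiff, mem_insert, mem_erase] at hx ⊢
      tauto
    rcases hut with hut | hut
    · obtain ⟨a, ha, b, hb, hab, k1, k2⟩ := box_step hU r1 r2
      exact fin a ha b hb hab.ne k1 k2 (fun _ => hut) (fun e => absurd hab e)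
    · obtain ⟨a, ha, b, hb, hab, k1, k2⟩ := box_step (F := Fᶜ) hU r2 (by rwa [compl_compl])
      rw [compl_compl] at k2
      exact fin a ha b hb hab.ne k2 k1 (fun e => absurd e ((F.compl_adj _ _).1 hab).2)
        (fun _ => hut)

/-- every graph of the natural class has its certificate -/
theorem cert_class : ∀ (N : ℕ) (X : Finset α) (ν τ : ℕ), X.card = N → InC F X ν τ →
    Cert F X ν τ R B := by
  intro N
  induction N using Nat.strong_induction_on with
  | _ N ih =>
  intro X ν τ hN ⟨h1, h2, h3⟩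
  have IH : ∀ (Y : Finset α) (ν τ : ℕ), Y.card < N → InC F Y ν τ → Cert F Y ν τ R B :=
    fun Y ν τ h => ih _ h Y ν τ rfl
  rcases h3.eq_or_lt with rfl | hlt
  · have := nordhaus F X
    exact cert_odd (by omega) h2.le (by omega)
  obtain ⟨τ, rfl⟩ : ∃ τ', τ = τ' + 1 := ⟨τ - 1, by omega⟩
  obtain ⟨g, hg, t, ht⟩ := exists_single (F := F) (X := X) (by omega)
  have htX := (mem_filter.1 ht).1
  have c1 := hg.crit ht
  have c2 := cc_erase_le F X t
  have c3 := card_erase_add_one htX
  have ct := IH (X.erase t) ν τ (by omega) ⟨by omega, by omega, by omega⟩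
  by_cases hiso : ∀ a ∈ X, ¬ F.Adj t a
  · have := ct.blue (by positivity) (by positivity) (notMem_erase t X)
      fun a ha => hiso a (mem_of_mem_erase ha)
    rw [insert_erase htX] at this
    exact_mod_cast this
  push Not at hiso
  obtain ⟨a, ha, hta⟩ := hiso
  by_cases hall : ∀ w ∈ X, cc F (X.erase w) < cc F X
  · obtain ⟨U, hU, μ, k1, k2, k3, k4, k5, k6⟩ := tight h2 (by omega) hall
    have k7 := card_sdiff_add_card_eq_card hU
    have k8 := cc_pos F (X := X \ U) (card_pos.1 (by omega))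
    obtain ⟨z, hz⟩ : U.Nonempty := card_pos.1 (by omega)
    have k9 : RM Fᶜ U μ := rm_of_deg k1 fun v hv => (k6 v hv).trans (card_le_card fun u hu => by
      simp only [mem_filter, mem_erase, SimpleGraph.compl_adj] at hu ⊢
      tauto)
    have k10 : (U.filter (fun u => F.Adj z u)).card ≤ μ := by
      have e1 := card_filter_add_card_filter_not (s := U.erase z) (fun u => F.Adj z u)
      have e2 := card_erase_add_one hz
      have e3 : (U.filter (fun u => F.Adj z u)).card ≤ ((U.erase z).filter (fun u => F.Adj z u)).card :=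
        card_le_card fun u hu => mem_filter.2
          ⟨mem_erase.2 ⟨(mem_filter.1 hu).2.ne', (mem_filter.1 hu).1⟩, (mem_filter.1 hu).2⟩
      have := k6 z hz
      omega
    obtain ⟨ν, rfl⟩ : ∃ ν', ν = ν' + μ := ⟨ν - μ, by omega⟩
    obtain ⟨τ, rfl⟩ : ∃ τ', τ = τ' + μ := ⟨τ - μ, by omega⟩
    refine cert_of_q fun s hQ => ?_
    obtain ⟨S, -, e2, e3⟩ := box IH _ U (X \ U) μ 0 μ ν τ rfl (by omega) disjoint_sdiff k3 k1 k2 k9
      ⟨by omega, by omega, by omega⟩ (by omega) (Or.inr ⟨by omega, z, hz, k10⟩) s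
      (by convert hQ using 1 <;> push_cast <;> ring)
    rw [card_eq_zero.1 e2, sdiff_empty, union_sdiff_of_subset hU] at e3
    exact e3
  push Not at hall
  by_cases hmix : ∃ p ∈ X, ∃ v ∈ X, cc F X ≤ cc F (X.erase p) ∧ cc F (X.erase v) < cc F X ∧
      ¬ F.Adj p v
  · obtain ⟨p, hp, v, hv, k1, k2, k3⟩ := hmix
    have hpv : v ≠ p := fun e => by rw [e] at k2; omega
    have a1 : cc F ((X.erase t).erase a) ≤ cc F (X.erase t) := cc_mono (erase_subset _ _)
    have a2 := cc_union_le F {t, a} ((X.erase t).erase a)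
    have a3 := cc_clique (clique_pair hta)
    have a4 : cc F X ≤ cc F ({t, a} ∪ (X.erase t).erase a) := cc_mono fun x hx => by
      simp only [mem_union, mem_insert, mem_singleton, mem_erase]
      tauto
    have a5 := card_erase_add_one (mem_erase.2 ⟨hta.ne', ha⟩)
    have a6 := cc_le_card F ((X.erase t).erase a)
    obtain ⟨ν, rfl⟩ : ∃ ν', ν = ν' + 1 := ⟨ν - 1, by omega⟩
    have b1 := card_erase_add_one hp
    have b2 := card_erase_add_one (mem_erase.2 ⟨hpv, hv⟩)
    have b3 : cc F (X.erase p) ≤ cc F X := cc_mono (erase_subset _ _)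
    have b4 := cc_erase_le F (X.erase p) v
    have b5 : cc F ((X.erase p).erase v) ≤ cc F (X.erase v) :=
      cc_mono (erase_subset_erase _ (erase_subset _ _))
    have d1 := IH (X.erase p) ν (τ + 1) (by omega) ⟨by omega, by omega, by omega⟩
    have d2 := IH ((X.erase t).erase a) ν τ (by omega) ⟨by omega, by omega, by omega⟩
    have d3 := IH ((X.erase p).erase v) ν τ (by omega) ⟨by omega, by omega, by omega⟩
    have p1 : (0 : ℝ) ≤ ν := by positivity
    have p2 : (1 : ℝ) ≤ τ := by exact_mod_cast (by omega : 1 ≤ τ)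
    refine cert_of_q fun s hQ => ?_
    push_cast at hQ ct d1
    have sub : ∀ x y, X ⊆ insert x (insert y ((X.erase x).erase y)) := fun x y z hz => by
      simp only [mem_insert, mem_erase]
      tauto
    rcases trich (by linarith) (by linarith) (by linarith) hQ with
      ⟨u, hu, h⟩ | ⟨u, hu, h⟩ | ⟨u, hu, w, hw, huw, h⟩ <;> simp only [add_sub_cancel_right] at h
    · exact (ct.emb h).one hu t (insert_erase htX).ge
    · exact (d1.emb h).one hu p (insert_erase hp).ge
    · rcases huw with e | e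
      · exact (d2.emb h).two hu hw t a (fun _ => e) (fun e' => absurd hta e') (sub t a)
      · exact (d3.emb h).two hu hw p v (fun e' => absurd e' k3) (fun _ => e) (sub p v)
  push Not at hmix
  obtain ⟨p, hp, hp'⟩ := hall
  set A := X.filter (fun w => cc F X ≤ cc F (X.erase w)) with hA
  have hAX : A ⊆ X := filter_subset _ _
  have hj : ∀ a ∈ A, ∀ b ∈ X \ A, F.Adj a b := fun a ha b hb =>
    hmix a (hAX ha) b (mem_sdiff.1 hb).1 (mem_filter.1 ha).2
      (not_le.1 fun e => (mem_sdiff.1 hb).2 (mem_filter.2 ⟨(mem_sdiff.1 hb).1, e⟩))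
  have e1 : cc F A ≤ cc F (X.erase t) := cc_mono fun x hx => mem_erase.2
    ⟨fun e => by have := (mem_filter.1 hx).2; rw [e] at this; omega, hAX hx⟩
  have e2 : cc F (X \ A) ≤ cc F X := cc_mono sdiff_subset
  have e3 : τ + 1 + 1 ≤ cc F (X \ A) := by
    by_contra hn
    have := cc_join_le (F := F) (A := A) (B := X \ A) (n := τ + 1) (by omega) (by omega)
      fun a ha b hb _ => hj a ha b hb
    rw [union_sdiff_of_subset hAX] at this
    omega
  have e4 := card_sdiff_add_card_eq_card hAX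
  have e5 := cc_le_card F (X \ A)
  have e6 : 0 < A.card := card_pos.2 ⟨p, mem_filter.2 ⟨hp, hp'⟩⟩
  obtain ⟨ν, rfl⟩ : ∃ ν', ν = ν' + A.card := ⟨ν - A.card, by omega⟩
  have := (IH (X \ A) ν (τ + 1) (by omega) ⟨by omega, by omega, by omega⟩).join_red (U := A)
    (by positivity) (by exact_mod_cast (by omega : A.card ≤ τ + 1)) hj
  rw [union_sdiff_of_subset hAX] at this
  exact_mod_cast this

end Pool.Agent.P.MP_6dea24_co
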