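import Mathlib.Data.Nat.Bitwise

namespace Pool.Agent.P.MP_6dea24_co.Bip

/-- the bits of `x` from position `o` on, cut by the mask `m` -/
def fld (x o m : ℕ) : ℕ := Nat.land (Nat.shiftRight x o) m

/-- base four digit -/
def dig (x i : ℕ) : ℕ := fld x (Nat.mul 2 i) 3

/-- base sixteen digit -/
def hex (x i : ℕ) : ℕ := fld x (Nat.mul 4 i) 15

/-- matrix entry -/
def mat (M i j : ℕ) : ℕ := dig M (Nat.add (Nat.mul 12 i) j)

/-- bounded conjunction -/
noncomputable def allLt (n : ℕ) (f : ℕ → Bool) : Bool :=
  Nat.rec true (fun k ih => cond (f k) ih false) n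

/-- bounded sum -/
noncomputable def sumLt (n : ℕ) (f : ℕ → ℕ) : ℕ := Nat.rec 0 (fun k ih => Nat.add (f k) ih) n

/-- evaluate the argument first -/
noncomputable def frc (a : ℕ) (f : ℕ → Bool) : Bool :=
  Nat.rec (f 0) (fun k _ => f (Nat.succ k)) a

/-- guaranteed gain when a set of `m` elements is extended greedily -/
def ext (m : ℕ) : ℕ := fld 0x22194e963e55 (Nat.mul 5 m) 31

/-- pattern of the target -/
def tpat (a b : ℕ) : ℕ :=
  cond (Nat.ble 5 b) (cond (Nat.ble 5 a) 2 (cond (Nat.beq (Nat.add a 5) b) 1 3)) 2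

/-- check of one pair of a move -/
noncomputable def pairOK (n M mask req u v m r : ℕ) : Bool :=
  cond (Nat.beq v n)
    (cond (Nat.beq u n) false (cond (Nat.beq (dig mask u) m) (Nat.beq (dig req u) r) false))
    (cond (Nat.beq u n) (cond (Nat.beq (dig mask v) m) (Nat.beq (dig req v) r) false)
      (Nat.beq (Nat.land (mat M u v) m) r))

/-- check of all pairs of a move -/
noncomputable def pairsOK (n M mask req g k : ℕ) (m r : ℕ → ℕ → ℕ) : Bool :=
  allLt k fun b => frc (hex g b) fun v => cond (Nat.ble v n)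
    (allLt b fun a => pairOK n M mask req (hex g a) v (m a b) (r a b)) false

/-- the deleted vertices are different vertices -/
noncomputable def delOK (n g k : ℕ) : Bool :=
  allLt k fun b => cond (Nat.ble n (hex g b)) false
    (allLt b fun a => cond (Nat.beq (hex g a) (hex g b)) false true)

/-- total colour between deleted vertices -/
noncomputable def delE (M g k : ℕ) : ℕ :=
  sumLt k fun b => sumLt b fun a => mat M (hex g a) (hex g b)

/-- entry `j` of the table -/
def slot (T j : ℕ) : ℕ := fld T (Nat.mul 304 j) (Nat.pred (Nat.shiftLeft 1 304))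

/-- check of one move -/
noncomputable def moveOK (T i n M tag dg mv : ℕ) : Bool :=
  frc (fld mv 48 0xffffffffffff) fun g => frc (fld mv 0 0xffffff) fun mask =>
  frc (fld mv 24 0xffffff) fun req => frc (fld mv 116 3) fun ty =>
  cond (Nat.beq ty 0)
    (cond (Nat.ble i (fld mv 96 4095)) false (frc (slot T (fld mv 96 4095)) fun e =>
      cond (Nat.beq (fld e 292 255) tag)
        (pairsOK n M mask req g (fld e 288 15) (fun _ _ => 3) (mat e)) false))
    (cond (Nat.beq ty 1) (pairsOK n M mask req g 10 tpat fun _ _ => 0)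
      (cond (Nat.beq ty 2)
        (cond (Nat.beq tag 0) false (frc (fld mv 108 15) fun k => cond (delOK n g k)
          (Nat.ble (Nat.add (Nat.add (fld mv 112 15) (Nat.mul 3 k)) (delE M g k))
            (Nat.add (Nat.add (sumLt k fun a => hex dg (hex g a)) 2)
              (ext (Nat.sub (Nat.succ n) k)))) false))
        (cond (Nat.beq tag 0) (cond (Nat.ble n (hex g 0)) false
          (Nat.ble 3 (Nat.add (hex dg (hex g 0)) (dig req (hex g 0))))) false)))

/-- move number `a` -/
def mvAt (MV a : ℕ) : ℕ := fld MV (Nat.mul 120 a) (Nat.pred (Nat.shiftLeft 1 120))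

/-- the pattern `p` of total colour `q` is covered by move number `a` -/
noncomputable def leafOK (MV nm p q a : ℕ) : Bool :=
  cond (Nat.ble nm a) false (frc (mvAt MV a) fun mv =>
    cond (Nat.beq (fld mv 116 3) 2)
      (Nat.ble q (Nat.add (fld mv 112 15)
        (sumLt (fld mv 108 15) fun d => dig p (hex (fld mv 48 0xffffffffffff) d))))
      (Nat.beq (Nat.land p (fld mv 0 0xffffff)) (fld mv 24 0xffffff)))

/-- consume one witness -/
noncomputable def leaf (lf : ℕ → ℕ → ℕ → Bool) (p q st : ℕ) : ℕ :=
  cond (lf p q (Nat.land st 255)) (Nat.shiftRight st 8) 0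

/-- continue unless the stream is zero -/
noncomputable def thn (a : ℕ) (f : ℕ → ℕ) : ℕ := Nat.rec 0 (fun k _ => f (Nat.succ k)) a

/-- enumeration of all patterns of small cost -/
noncomputable def go (lf : ℕ → ℕ → ℕ → Bool) (mn : ℕ) (l : List (ℕ × ℕ)) : ℕ → ℕ → ℕ → ℕ → ℕ :=
  List.rec (fun _ p q st => leaf lf p q st)
    (fun c _ ih b p q st => cond (Nat.ble b mn) (leaf lf p q st)
      (thn (ih b p q st) fun s1 => cond (Nat.ble b c.1) s1
        (thn (ih (Nat.sub b c.1) (Nat.add p c.2) (Nat.succ q) s1) fun s2 =>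
          cond (Nat.ble b (Nat.mul 2 c.1)) s2
            (ih (Nat.sub b (Nat.mul 2 c.1)) (Nat.add p (Nat.mul 2 c.2)) (Nat.add q 2) s2)))) l

/-- the list holds the weights and the powers of four -/
noncomputable def lstOK (cw mn : ℕ) (l : List (ℕ × ℕ)) : ℕ → ℕ → Bool :=
  List.rec (fun i n => Nat.beq i n)
    (fun c _ ih i n => cond (Nat.beq c.1 (fld cw (Nat.mul 10 i) 1023))
      (cond (Nat.beq c.2 (Nat.pow 4 i)) (cond (Nat.ble mn c.1) (ih (Nat.succ i) n) false) false)
      false) l

/-- the matrix is symmetric with the right diagonal and degrees -/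
noncomputable def wfOK (n M dg : ℕ) : Bool :=
  allLt n fun a => cond (Nat.beq (Nat.add (hex dg a) 3) (sumLt n fun b => mat M b a))
    (cond (Nat.beq (mat M a a) 3) (allLt a fun b => cond (Nat.beq (mat M a b) (mat M b a))
      (Nat.ble (mat M a b) 2) false) false) false

/-- data of one entry -/
structure Ent where
  dir : Bool
  b : ℕ
  mn : ℕ
  cw : ℕ
  dg : ℕ
  mv : ℕ
  nm : ℕ
  st : ℕ
  tj : ℕ
  l : List (ℕ × ℕ)

/-- the search over all patterns succeeds -/
noncomputable def srchOK (T i n M tag : ℕ) (E : Ent) : Bool :=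
  cond (Nat.ble 1 E.mn) (cond (lstOK E.cw E.mn E.l 0 n)
    (cond (allLt E.nm fun a => frc (mvAt E.mv a) (moveOK T i n M tag E.dg))
      (Nat.ble 1 (go (leafOK E.mv E.nm) E.mn E.l E.b 0 0 E.st)) false) false) false

/-- check of one entry -/
noncomputable def entOK (T i : ℕ) (E : Ent) : Bool :=
  frc (slot T i) fun M => frc (fld M 288 15) fun n => frc (fld M 292 255) fun tag =>
  cond (wfOK n M E.dg)
    (cond (Nat.beq tag 0)
      (cond (cond (Nat.ble n 9) true (cond (Nat.ble i E.tj) false (frc (slot T E.tj) fun e =>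
          cond (Nat.beq (fld e 292 255) 0) false (cond (Nat.beq (fld e 288 15) n)
            (cond (allLt n fun a => allLt a fun b => Nat.beq (mat e b a) (mat M b a))
              (Nat.beq (Nat.add (sumLt n (hex E.dg)) (Nat.mul 2 (fld e 292 255))) (Nat.mul 6 n))
              false) false))))
        (cond (allLt n fun a => Nat.beq (fld E.cw (Nat.mul 10 a) 1023) 1)
          (cond (Nat.beq E.b 3) (srchOK T i n M 0 E) false) false) false)
      (cond (Nat.beq (Nat.add (sumLt n (hex E.dg)) (Nat.mul 2 tag)) (Nat.mul 6 n))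
        (cond E.dir
          (cond (delOK n E.mv E.nm) (Nat.ble
            (Nat.succ (Nat.add (Nat.mul 3 E.nm) (delE M E.mv E.nm)))
            (Nat.add (sumLt E.nm fun a => hex E.dg (hex E.mv a)) (ext (Nat.sub n E.nm)))) false)
          (cond (Nat.ble (sumLt n fun a => fld E.cw (Nat.mul 10 a) 1023) (Nat.mul 3 E.b))
            (cond (allLt n fun a => Nat.ble E.b
                (sumLt n fun z => Nat.mul (fld E.cw (Nat.mul 10 z) 1023) (mat M z a)))
              (cond (Nat.ble 1 n) (srchOK T i n M tag E) false) false) false)) false)) false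

/-- check of consecutive entries -/
noncomputable def lsOK (T : ℕ) (l : List Ent) : ℕ → Bool :=
  List.rec (fun _ => true) (fun E _ ih i => cond (entOK T i E) (ih (Nat.succ i)) false) l

end Pool.Agent.P.MP_6dea24_co.Bip
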