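import Pool.Agent.P.MP_6dea24_co.Bip0
import Pool.Agent.P.MP_6dea24_co.Chk

namespace Pool.Agent.P.MP_6dea24_co.Bip

open Finset

theorem allLt_iff {n : ℕ} {f : ℕ → Bool} : allLt n f = true ↔ ∀ k < n, f k = true := by
  induction n with
  | zero => simp [allLt]
  | succ n ih =>
    have : allLt (n + 1) f = cond (f n) (allLt n f) false := rfl
    rw [this, Nat.forall_lt_succ_right, ← ih]
    cases f n <;> simp

theorem sumLt_eq (n : ℕ) (f : ℕ → ℕ) : sumLt n f = ∑ k ∈ range n, f k := by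
  induction n with
  | zero => rfl
  | succ n ih =>
    have : sumLt (n + 1) f = f n + sumLt n f := rfl
    rw [this, ih, sum_range_succ, add_comm]

theorem frc_eq (a : ℕ) (f : ℕ → Bool) : frc a f = f a := by cases a <;> rfl

theorem thn_ne {a : ℕ} {f : ℕ → ℕ} (h : thn a f ≠ 0) : a ≠ 0 ∧ f a ≠ 0 := by
  cases a with
  | zero => exact absurd rfl h
  | succ a => exact ⟨by simp, h⟩

theorem cond_f {a b : Bool} : cond a b false = true ↔ a = true ∧ b = true := by
  cases a <;> simp

theorem cond_n {a b : Bool} : cond a false b = true ↔ a = false ∧ b = true := by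
  cases a <;> simp

theorem cond_i {a b c : Bool} :
    cond a b c = true ↔ (a = true ∧ b = true) ∨ (a = false ∧ c = true) := by
  cases a <;> simp

theorem beq_t {a b : ℕ} : Nat.beq a b = true ↔ a = b := Nat.beq_eq ▸ Iff.rfl

theorem beq_f {a b : ℕ} : Nat.beq a b = false ↔ a ≠ b := by
  rw [← Bool.not_eq_true, beq_t]

theorem ble_t {a b : ℕ} : Nat.ble a b = true ↔ a ≤ b := Nat.ble_eq ▸ Iff.rfl

theorem ble_f {a b : ℕ} : Nat.ble a b = false ↔ b < a := by
  rw [← Bool.not_eq_true, ble_t, not_le]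

theorem dig_eq (x i : ℕ) : dig x i = x / 4 ^ i % 4 := by
  have : dig x i = (x >>> (2 * i)) &&& (2 ^ 2 - 1) := rfl
  rw [this, Nat.and_two_pow_sub_one_eq_mod, Nat.shiftRight_eq_div_pow, pow_mul]
  norm_num

theorem dig_land (x y i : ℕ) : dig (Nat.land x y) i = Nat.land (dig x i) (dig y i) := by
  change ((x &&& y) >>> (2 * i)) &&& 3 = ((x >>> (2 * i)) &&& 3) &&& ((y >>> (2 * i)) &&& 3)
  apply Nat.eq_of_testBit_eq
  intro j
  simp only [Nat.testBit_and, Nat.testBit_shiftRight]
  cases x.testBit (2 * i + j) <;> cases y.testBit (2 * i + j) <;> cases Nat.testBit 3 j <;> rfl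

theorem sum_lt_pow {d : ℕ → ℕ} {n : ℕ} (hd : ∀ a < n, d a ≤ 3) :
    ∑ a ∈ range n, 4 ^ a * d a < 4 ^ n := by
  induction n with
  | zero => simp
  | succ n ih =>
    have h1 := ih fun a ha => hd a (by omega)
    have h2 := Nat.mul_le_mul_left (4 ^ n) (hd n (by omega))
    rw [sum_range_succ, pow_succ]
    omega

theorem dig_sum {d : ℕ → ℕ} {n : ℕ} (hd : ∀ a < n, d a ≤ 3) :
    ∀ i < n, dig (∑ a ∈ range n, 4 ^ a * d a) i = d i := by
  induction n with
  | zero => simp
  | succ n ih =>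
    intro i hi
    rw [sum_range_succ, dig_eq]
    rcases Nat.lt_succ_iff_lt_or_eq.1 hi with h | rfl
    · obtain ⟨e, rfl⟩ := Nat.exists_eq_add_of_lt h
      have h1 : 4 ^ (i + e + 1) * d (i + e + 1) = 4 ^ i * (4 * (4 ^ e * d (i + e + 1))) := by ring
      rw [h1, Nat.add_mul_div_left _ _ (by positivity), Nat.add_mul_mod_self_left, ← dig_eq]
      exact ih (fun a ha => hd a (by omega)) i h
    · rw [Nat.add_mul_div_left _ _ (by positivity),
        Nat.div_eq_of_lt (sum_lt_pow fun a ha => hd a (by omega)), zero_add]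
      exact Nat.mod_eq_of_lt (by have := hd i hi; omega)

theorem leaf_ne {lf : ℕ → ℕ → ℕ → Bool} {p q st : ℕ} (h : leaf lf p q st ≠ 0) :
    ∃ a, lf p q a = true := by
  refine ⟨Nat.land st 255, ?_⟩
  unfold leaf at h
  cases h1 : lf p q (Nat.land st 255)
  · rw [h1] at h
    exact absurd rfl h
  · rfl

theorem lst_sound {cw mn : ℕ} : ∀ (l : List (ℕ × ℕ)) (i n : ℕ), lstOK cw mn l i n = true →
    i ≤ n ∧ ∀ a ∈ Ico i n, mn ≤ fld cw (10 * a) 1023 := by
  intro l
  induction l with
  | nil =>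
    intro i n h
    obtain rfl : i = n := beq_t.1 h
    simp
  | cons c l ih =>
    intro i n h
    change cond _ (cond _ (cond _ (lstOK cw mn l (i + 1) n) false) false) false = true at h
    simp only [cond_f, beq_t, ble_t] at h
    obtain ⟨h1, -, h3, h4⟩ := h
    obtain ⟨h5, h6⟩ := ih _ _ h4
    refine ⟨by omega, fun a ha => ?_⟩
    rw [mem_Ico] at ha
    rcases ha.1.eq_or_lt with rfl | h
    · exact h3.trans h1.le
    · exact h6 a (mem_Ico.2 ⟨h, ha.2⟩)

theorem go_sound {lf : ℕ → ℕ → ℕ → Bool} {cw mn n : ℕ} {d : ℕ → ℕ} (hd : ∀ a < n, d a ≤ 2) :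
    ∀ (l : List (ℕ × ℕ)) (i b p q st : ℕ), lstOK cw mn l i n = true →
      go lf mn l b p q st ≠ 0 → ∑ a ∈ Ico i n, fld cw (10 * a) 1023 * d a < b →
      ∃ a, lf (p + ∑ a ∈ Ico i n, 4 ^ a * d a) (q + ∑ a ∈ Ico i n, d a) a = true := by
  intro l
  induction l with
  | nil =>
    intro i b p q st h hg _
    obtain rfl : i = n := beq_t.1 h
    simpa using leaf_ne hg
  | cons c l ih =>
    intro i b p q st h hg hb
    have hl := lst_sound _ _ _ h
    change cond _ (cond _ (cond _ (lstOK cw mn l (i + 1) n) false) false) false = true at h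
    simp only [cond_f, beq_t, ble_t] at h
    obtain ⟨h1, h2, h3, h4⟩ := h
    have hi : i < n := (lst_sound _ _ _ h4).1
    change c.1 = fld cw (10 * i) 1023 at h1
    change c.2 = 4 ^ i at h2
    change cond (Nat.ble b mn) (leaf lf p q st) (thn (go lf mn l b p q st) fun s1 =>
      cond (Nat.ble b c.1) s1 (thn (go lf mn l (b - c.1) (p + c.2) (q + 1) s1) fun s2 =>
        cond (Nat.ble b (2 * c.1)) s2
          (go lf mn l (b - 2 * c.1) (p + 2 * c.2) (q + 2) s2))) ≠ 0 at hg
    cases hm : Nat.ble b mn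
    · rw [hm, cond_false] at hg
      obtain ⟨g1, hg⟩ := thn_ne hg
      rw [sum_eq_sum_Ico_succ_bot hi] at hb
      rw [sum_eq_sum_Ico_succ_bot hi, sum_eq_sum_Ico_succ_bot hi, ← h2]
      rw [← h1] at hb
      have hdi := hd i hi
      obtain e | e | e : d i = 0 ∨ d i = 1 ∨ d i = 2 := by omega
      · rw [e] at hb ⊢
        simpa using ih _ _ _ _ _ h4 g1 (by omega)
      · rw [e] at hb ⊢
        rw [ble_f.2 (by omega), cond_false] at hg
        simpa [add_assoc] using ih _ _ _ _ _ h4 (thn_ne hg).1 (by omega)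
      · rw [e] at hb ⊢
        rw [ble_f.2 (by omega), cond_false] at hg
        have g2 := (thn_ne hg).2
        rw [ble_f.2 (by omega), cond_false] at g2
        simpa [add_assoc, mul_comm] using ih _ _ _ _ _ h4 g2 (by omega)
    · rw [hm, cond_true] at hg
      have h0 : ∀ a ∈ Ico i n, d a = 0 := by
        intro a ha
        by_contra hne
        have h5 := single_le_sum (f := fun a => fld cw (10 * a) 1023 * d a)
          (fun _ _ => Nat.zero_le _) ha
        have h6 := Nat.le_mul_of_pos_right (fld cw (10 * a) 1023) (Nat.pos_of_ne_zero hne)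
        have h7 := hl.2 a ha
        have h8 := ble_t.1 hm
        omega
      rw [sum_eq_zero h0, sum_eq_zero fun a ha => by rw [h0 a ha, mul_zero]]
      exact leaf_ne hg

theorem ext_big {m : ℕ} (h : 10 ≤ m) : ext m = 0 := by
  have : ext m = (0x22194e963e55 >>> (5 * m)) &&& 31 := rfl
  rw [this, Nat.shiftRight_eq_div_pow, Nat.div_eq_of_lt, Nat.zero_and]
  exact lt_of_lt_of_le (by norm_num) (Nat.pow_le_pow_right (by norm_num) (by omega : 50 ≤ 5 * m))

theorem ext_step : ∀ m < 10, ∀ c < 3, (3 * c < m ∨ c = 0) → ext m + c ≤ ext (m + 1) + 3 := by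
  decide +kernel

theorem sum_sq (m : ℕ → ℕ → ℕ) (k : ℕ) (hs : ∀ a < k, ∀ b < k, m a b = m b a)
    (h3 : ∀ a < k, m a a = 3) : ∑ a ∈ range k, ∑ b ∈ range k, m a b
      = 3 * k + 2 * ∑ b ∈ range k, ∑ a ∈ range b, m a b := by
  induction k with
  | zero => simp
  | succ k ih =>
    have h1 := ih (fun a ha b hb => hs a (by omega) b (by omega)) fun a ha => h3 a (by omega)
    have h2 : ∑ b ∈ range k, m k b = ∑ a ∈ range k, m a k :=
      sum_congr rfl fun b hb => hs k (by omega) b (by have := mem_range.1 hb; omega)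
    simp only [sum_range_succ, sum_add_distrib]
    rw [h1, h2, h3 k (by omega)]
    ring

end Pool.Agent.P.MP_6dea24_co.Bip
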