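import Pool.Agent.P.MP_6dea24_co.ChkA

namespace Pool.Agent.P.MP_6dea24_co.Bip

open Finset
open scoped Classical

variable {V : Type*} {R B : SimpleGraph V} {s K : Finset V} {x : V → ℝ}

/-- colour code of a pair -/
noncomputable def col (R B : SimpleGraph V) (u v : V) : ℕ :=
  (if R.Adj u v then 0 else 1) + 2 * (if B.Adj u v then 0 else 1)

theorem en_col (u v : V) : en R B 3 6 u v = 3 * (col R B u v : ℝ) := by
  unfold en col
  split_ifs <;> norm_num

theorem col_symm (u v : V) : col R B u v = col R B v u := by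
  simp only [col, R.adj_comm u v, B.adj_comm u v]

theorem col_self (u : V) : col R B u u = 3 := by simp [col]

theorem col_le (u v : V) : col R B u v ≤ 3 := by
  unfold col
  split_ifs <;> omega

theorem col_le_two (hW : NoWhite R B s) {u v : V} (hu : u ∈ s) (hv : v ∈ s) (h : u ≠ v) :
    col R B u v ≤ 2 := by
  unfold col
  rcases hW u hu v hv h with h | h
  · rw [if_pos h]
    split_ifs <;> omega
  · rw [if_pos h]
    split_ifs <;> omega

/-- the target on ten vertices -/
def Ten (R B : SimpleGraph V) (s : Finset V) : Prop :=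
  ∃ f : ℕ → V, (∀ a < 10, f a ∈ s) ∧
    ∀ b < 10, ∀ a < b, Nat.land (col R B (f a) (f b)) (tpat a b) = 0

/-- the configuration occurs -/
def Has (R B : SimpleGraph V) (n M : ℕ) (f : ℕ → V) : Prop :=
  ∀ b < n, ∀ a < b, col R B (f a) (f b) = mat M a b

/-- full knowledge about a configuration -/
structure Full (R B : SimpleGraph V) (n M dg : ℕ) (f : ℕ → V) : Prop where
  c : ∀ a < n, ∀ b < n, col R B (f a) (f b) = mat M a b
  inj : ∀ a < n, ∀ b < n, f a = f b → a = b
  deg : ∀ a < n, ∑ b ∈ range n, mat M b a = hex dg a + 3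

theorem Has.full {n M dg : ℕ} {f : ℕ → V} (h : Has R B n M f) (hw : wfOK n M dg = true) :
    Full R B n M dg f := by
  simp only [wfOK, allLt_iff, cond_f, beq_t, ble_t, sumLt_eq] at hw
  refine ⟨fun a ha b hb => ?_, fun a ha b hb e => ?_, fun a ha => (hw a ha).1.symm⟩
  · rcases lt_trichotomy a b with h1 | rfl | h1
    · exact h b hb a h1
    · rw [col_self, (hw a ha).2.1]
    · rw [col_symm, h a ha b h1, ((hw a ha).2.2 b h1).1]
  · rcases lt_trichotomy a b with h1 | h1 | h1
    · have h2 := h b hb a h1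
      have h3 := (hw b hb).2.2 a h1
      rw [e, col_self] at h2
      omega
    · exact h1
    · have h2 := h a ha b h1
      have h3 := (hw a ha).2.2 b h1
      rw [e, col_self] at h2
      omega

theorem Full.injOn {n M dg : ℕ} {f : ℕ → V} (h : Full R B n M dg f) {I : Finset ℕ}
    (hI : I ⊆ range n) : Set.InjOn f I := fun a ha b hb =>
  h.inj a (mem_range.1 (hI ha)) b (mem_range.1 (hI hb))

theorem Full.pot {n M dg : ℕ} {f : ℕ → V} (h : Full R B n M dg f) {I : Finset ℕ}
    (hI : I ⊆ range n) : pot R B 3 6 (I.image f)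
      = 27 * I.card - 3 * ((∑ a ∈ I, ∑ b ∈ I, mat M a b : ℕ) : ℝ) := by
  unfold Bip.pot
  rw [card_image_of_injOn (h.injOn hI), sum_image (h.injOn hI)]
  push_cast
  rw [mul_sum]
  congr 1
  · norm_num
  · refine sum_congr rfl fun a ha => ?_
    rw [sum_image (h.injOn hI), mul_sum]
    exact sum_congr rfl fun b hb => by
      rw [en_col, h.c a (mem_range.1 (hI ha)) b (mem_range.1 (hI hb))]

theorem Full.symm {n M dg : ℕ} {f : ℕ → V} (h : Full R B n M dg f) {a b : ℕ} (ha : a < n)
    (hb : b < n) : mat M a b = mat M b a := by rw [← h.c a ha b hb, ← h.c b hb a ha, col_symm]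

theorem Full.pot_all {n M dg tag : ℕ} {f : ℕ → V} (h : Full R B n M dg f)
    (ht : ∑ a ∈ range n, hex dg a + 2 * tag = 6 * n) :
    Bip.pot R B 3 6 ((range n).image f) = 6 * tag := by
  rw [h.pot Subset.rfl, sum_comm, sum_congr rfl fun a ha => h.deg a (mem_range.1 ha),
    sum_add_distrib, card_range]
  have : ((∑ a ∈ range n, hex dg a + 2 * tag : ℕ) : ℝ) = (6 * n : ℕ) := by rw [ht]
  simp only [sum_const, card_range, smul_eq_mul]
  push_cast at this ⊢
  linarith

/-- deleting vertices -/
theorem Full.del {n M dg g k : ℕ} {f : ℕ → V} (h : Full R B n M dg f) (hd : delOK n g k = true) :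
    ∃ I ⊆ range n, I.card + k = n ∧
      (∀ d : ℕ → ℕ, ∑ a ∈ I, d a + ∑ a ∈ range k, d (hex g a) = ∑ a ∈ range n, d a) ∧
      Bip.pot R B 3 6 (I.image f) + 6 * ((3 * k + delE M g k : ℕ) : ℝ)
        = Bip.pot R B 3 6 ((range n).image f) + 6 * ((∑ a ∈ range k, hex dg (hex g a) : ℕ) : ℝ) := by
  simp only [delOK, allLt_iff, cond_n, ble_f, beq_f, and_true] at hd
  have hinj : Set.InjOn (hex g) (range k : Finset ℕ) := by
    intro a ha b hb e
    have ha' : a < k := by simpa using ha
    have hb' : b < k := by simpa using hb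
    rcases lt_trichotomy a b with h1 | h1 | h1
    · exact absurd e ((hd b hb').2 a h1)
    · exact h1
    · exact absurd e.symm ((hd a ha').2 b h1)
  have hD : (range k).image (hex g) ⊆ range n := by
    intro a ha
    obtain ⟨b, hb, rfl⟩ := mem_image.1 ha
    exact mem_range.2 (hd b (mem_range.1 hb)).1
  have hs : ∀ d : ℕ → ℕ, ∑ a ∈ range n \ (range k).image (hex g), d a
      + ∑ a ∈ range k, d (hex g a) = ∑ a ∈ range n, d a := fun d => by
    rw [← sum_image hinj, sum_sdiff hD]
  have hc : (range n \ (range k).image (hex g)).card + k = n := by simpa using hs fun _ => 1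
  refine ⟨_, sdiff_subset, hc, hs, ?_⟩
  rw [h.pot sdiff_subset, h.pot Subset.rfl, card_range]
  set I := range n \ (range k).image (hex g) with hI
  have e1 := hs fun a => ∑ b ∈ range n, mat M a b
  have e2 : ∑ a ∈ I, ∑ b ∈ I, mat M a b + ∑ a ∈ I, ∑ b ∈ range k, mat M a (hex g b)
      = ∑ a ∈ I, ∑ b ∈ range n, mat M a b := by
    rw [← sum_add_distrib]
    exact sum_congr rfl fun a _ => hs _
  have e3 : ∑ a ∈ I, ∑ b ∈ range k, mat M a (hex g b)
      + ∑ a ∈ range k, ∑ b ∈ range k, mat M (hex g a) (hex g b)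
      = ∑ b ∈ range k, (hex dg (hex g b) + 3) := by
    rw [hs fun a => ∑ b ∈ range k, mat M a (hex g b), sum_comm]
    exact sum_congr rfl fun b hb => h.deg _ (hd b (mem_range.1 hb)).1
  have e4 : ∑ a ∈ range k, ∑ b ∈ range n, mat M (hex g a) b
      = ∑ b ∈ range k, (hex dg (hex g b) + 3) := by
    refine sum_congr rfl fun a ha => ?_
    rw [← h.deg _ (hd a (mem_range.1 ha)).1]
    exact sum_congr rfl fun b hb => h.symm (hd a (mem_range.1 ha)).1 (mem_range.1 hb)
  have e5 := sum_sq (fun a b => mat M (hex g a) (hex g b)) k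
    (fun a ha b hb => h.symm (hd a ha).1 (hd b hb).1)
    (fun a ha => by rw [← h.c _ (hd a ha).1 _ (hd a ha).1, col_self])
  have e6 : delE M g k = ∑ b ∈ range k, ∑ a ∈ range b, mat M (hex g a) (hex g b) := by
    simp only [delE, sumLt_eq]
  rw [← e6] at e5
  rw [sum_add_distrib, sum_const, card_range, smul_eq_mul] at e3 e4
  have e7 : ∑ a ∈ I, ∑ b ∈ I, mat M a b + 2 * ∑ a ∈ range k, hex dg (hex g a) + 3 * k
      = ∑ a ∈ range n, ∑ b ∈ range n, mat M a b + 2 * delE M g k := by omega
  have e8 : ((∑ a ∈ I, ∑ b ∈ I, mat M a b + 2 * ∑ a ∈ range k, hex dg (hex g a) + 3 * k : ℕ) : ℝ)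
      = (∑ a ∈ range n, ∑ b ∈ range n, mat M a b + 2 * delE M g k : ℕ) := by rw [e7]
  have e9 : ((I.card + k : ℕ) : ℝ) = n := by rw [hc]
  rw [Nat.cast_add, Nat.cast_add, Nat.cast_mul, Nat.cast_mul, Nat.cast_add, Nat.cast_mul] at e8
  rw [Nat.cast_add] at e9
  rw [Nat.cast_add, Nat.cast_mul]
  push_cast at e8 ⊢
  linarith

/-- the standing assumptions -/
structure Stand (R B : SimpleGraph V) (s K : Finset V) (x : V → ℝ) : Prop where
  ne : s.Nonempty
  pos : ∀ v ∈ s, 0 < x v
  nw : NoWhite R B s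
  deg : Deg R B s x 3 6
  opt : Opt R B 3 6 s K

theorem Stand.ext (h : Stand R B s K x) : ∀ (d : ℕ) (L : Finset V), L ⊆ s → 10 ≤ L.card + d →
    pot R B 3 6 L + 6 * (ext L.card : ℝ) ≤ pot R B 3 6 K := by
  intro d
  induction d with
  | zero =>
    intro L hL hc
    rw [ext_big (by omega : 10 ≤ L.card)]
    simpa using h.opt.1.2 L hL
  | succ d ih =>
    intro L hL hc
    by_cases h10 : 10 ≤ L.card
    · exact ih L hL (by omega)
    obtain ⟨w, hw, hwL, hlt⟩ : ∃ w ∈ s, w ∉ L ∧ (3 * ∑ v ∈ L, col R B v w < L.card ∨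
        ∑ v ∈ L, col R B v w = 0) := by
      rcases L.eq_empty_or_nonempty with rfl | hne
      · obtain ⟨w, hw⟩ := h.ne
        exact ⟨w, hw, notMem_empty w, Or.inr rfl⟩
      · obtain ⟨w, hw, hlt⟩ := avg h.pos h.deg (f := id) hL (c := fun _ => 1)
          (fun _ _ => one_pos) hne
        simp only [one_mul, id, sum_const, nsmul_eq_mul, mul_one, en_col, ← mul_sum] at hlt
        have h1 : 3 * ∑ v ∈ L, col R B v w < L.card := by exact_mod_cast hlt
        refine ⟨w, hw, fun hwL => ?_, Or.inl h1⟩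
        have := single_le_sum (f := fun v => col R B v w) (fun _ _ => Nat.zero_le _) hwL
        rw [col_self] at this
        omega
    have h1 := ih (insert w L) (insert_subset hw hL) (by rw [card_insert_of_notMem hwL]; omega)
    have h2 := ext_step L.card (by omega) (∑ v ∈ L, col R B v w) (by omega) hlt
    rw [pot_insert hwL, card_insert_of_notMem hwL] at h1
    simp only [en_col, ← mul_sum] at h1
    have h3 : ((Bip.ext L.card + ∑ v ∈ L, col R B v w : ℕ) : ℝ)
        ≤ (Bip.ext (L.card + 1) + 3 : ℕ) := by exact_mod_cast h2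
    push_cast at h3
    linarith

theorem pairs_sound {n M dg mask req g k p : ℕ} {m r : ℕ → ℕ → ℕ} {f : ℕ → V} {w : V}
    (h : Full R B n M dg f) (hp : ∀ a < n, dig p a = col R B (f a) w)
    (hm : Nat.land p mask = req) (hk : pairsOK n M mask req g k m r = true) :
    (∀ b < k, hex g b ≤ n) ∧ ∀ b < k, ∀ a < b,
      Nat.land (col R B (Function.update f n w (hex g a)) (Function.update f n w (hex g b)))
        (m a b) = r a b := by
  simp only [pairsOK, allLt_iff, frc_eq, cond_f, ble_t] at hk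
  refine ⟨fun b hb => (hk b hb).1, fun b hb a ha => ?_⟩
  have h1 := (hk b hb).2 a ha
  have h2 := (hk b hb).1
  have h3 := (hk a (by omega)).1
  simp only [pairOK, cond_i, beq_t, beq_f, Bool.false_eq_true, and_false, or_false,
    false_or] at h1
  rcases h1 with ⟨e1, e2, e3, e4⟩ | ⟨e1, ⟨e2, e3, e4⟩ | ⟨e2, e3⟩⟩
  · rw [e1, Function.update_self, Function.update_of_ne e2, ← hp _ (by omega), ← e3, ← e4,
      ← dig_land, hm]
  · rw [e2, Function.update_self, Function.update_of_ne e1, col_symm, ← hp _ (by omega), ← e3,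
      ← e4, ← dig_land, hm]
  · rw [Function.update_of_ne e1, Function.update_of_ne e2, h.c _ (by omega) _ (by omega), e3]

/-- the condition attached to an entry -/
def Pre (R B : SimpleGraph V) (s K : Finset V) (n tag : ℕ) (f : ℕ → V) : Prop :=
  (∀ a < n, f a ∈ s) ∧ (tag = 0 → ∀ a < n, f a ∈ K) ∧ (tag ≠ 0 → pot R B 3 6 K = 6 * tag)

/-- the claim of entry `j` -/
def Clm (R B : SimpleGraph V) (s K : Finset V) (T j : ℕ) : Prop :=
  ∀ f : ℕ → V, Has R B (fld (slot T j) 288 15) (slot T j) f →
    Pre R B s K (fld (slot T j) 288 15) (fld (slot T j) 292 255) f → Ten R B s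

theorem upd_mem {S : Finset V} {n : ℕ} {f : ℕ → V} {w : V} (hf : ∀ a < n, f a ∈ S) (hw : w ∈ S)
    {a : ℕ} (ha : a ≤ n) : Function.update f n w a ∈ S := by
  rcases ha.eq_or_lt with rfl | h
  · rwa [Function.update_self]
  · rw [Function.update_of_ne h.ne]
    exact hf a h

theorem land_three {c : ℕ} (h : c ≤ 3) : Nat.land c 3 = c := by
  interval_cases c <;> rfl

theorem srch_sound (C : Stand R B s K x) {T i n M tag : ℕ} {E : Ent} {f : ℕ → V} {w : V}
    (ih : ∀ j < i, Clm R B s K T j) (h : Full R B n M E.dg f) (hP : Pre R B s K n tag f)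
    (ht : tag ≠ 0 → ∑ a ∈ range n, hex E.dg a + 2 * tag = 6 * n)
    (hw : w ∈ s) (hwK : tag = 0 → w ∈ K) (hne : ∀ a < n, f a ≠ w)
    (hb : ∑ a ∈ range n, fld E.cw (10 * a) 1023 * col R B (f a) w < E.b)
    (hs : srchOK T i n M tag E = true) : Ten R B s := by
  simp only [srchOK, cond_f, ble_t, allLt_iff, frc_eq] at hs
  obtain ⟨-, h1, h2, h3⟩ := hs
  have hd : ∀ a < n, col R B (f a) w ≤ 2 := fun a ha => col_le_two C.nw (hP.1 a ha) hw (hne a ha)
  obtain ⟨a, ha⟩ := go_sound (d := fun a => col R B (f a) w) hd _ 0 E.b 0 0 E.st h1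
    (Nat.one_le_iff_ne_zero.1 h3) (by rwa [← range_eq_Ico])
  rw [← range_eq_Ico, zero_add, zero_add] at ha
  set p := ∑ a ∈ range n, 4 ^ a * col R B (f a) w with hp0
  have hp : ∀ a < n, dig p a = col R B (f a) w :=
    dig_sum (d := fun a => col R B (f a) w) fun a _ => col_le _ _
  simp only [leafOK, cond_n, ble_f, frc_eq] at ha
  obtain ⟨ha, hl⟩ := ha
  have hm := h2 a ha
  set mv := mvAt E.mv a
  simp only [moveOK, frc_eq] at hm
  simp only [cond_i, beq_t, beq_f, ble_t, ble_f, Bool.false_eq_true, and_false, or_false,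
    false_or, sumLt_eq] at hm hl
  rcases hm with ⟨e0, e1, e2, e3⟩ | ⟨e0, ⟨e1, e2⟩ | ⟨e1, ⟨e2, e3, e4, e5⟩ | ⟨e2, e3, e4, e5⟩⟩⟩
  · obtain ⟨k1, k2⟩ := pairs_sound h hp (hl.resolve_left (by omega)).2 e3
    refine ih _ e1 (fun a => Function.update f n w (hex _ a)) (fun b hb a ha => ?_)
      ⟨fun a ha => upd_mem hP.1 hw (k1 a ha), fun e a ha => ?_, fun e => ?_⟩
    · rw [← k2 b hb a ha, land_three (col_le _ _)]
    · rw [e2] at e
      exact upd_mem (hP.2.1 e) (hwK e) (k1 a ha)
    · rw [e2] at e ⊢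
      exact hP.2.2 e
  · obtain ⟨k1, k2⟩ := pairs_sound h hp (hl.resolve_left (by omega)).2 e2
    exact ⟨fun a => Function.update f n w (hex _ a), fun a ha => upd_mem hP.1 hw (k1 a ha), k2⟩
  · exfalso
    obtain ⟨I, hI, hc, hs, hpot⟩ := h.del e4
    have hq := (hl.resolve_right (by omega)).2
    set g := fld mv 48 0xffffffffffff
    set k := fld mv 108 15
    have hwI : w ∉ I.image f := by
      intro hw
      obtain ⟨a, ha, e⟩ := mem_image.1 hw
      exact hne a (mem_range.1 (hI ha)) e
    have hsub : insert w (I.image f) ⊆ s := insert_subset hw fun v hv => by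
      obtain ⟨a, ha, rfl⟩ := mem_image.1 hv
      exact hP.1 a (mem_range.1 (hI ha))
    have k1 := C.ext 10 _ hsub (by omega)
    rw [pot_insert hwI, card_insert_of_notMem hwI, card_image_of_injOn (h.injOn hI),
      sum_image (h.injOn hI), hP.2.2 e3] at k1
    rw [h.pot_all (ht e3)] at hpot
    simp only [en_col, ← mul_sum] at k1
    have k2 := hs (dig p)
    have k3 : ∑ a ∈ range n, dig p a = ∑ a ∈ range n, col R B (f a) w :=
      sum_congr rfl fun a ha => hp a (mem_range.1 ha)
    have k4 : ∑ a ∈ I, dig p a = ∑ a ∈ I, col R B (f a) w :=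
      sum_congr rfl fun a ha => hp a (mem_range.1 (hI ha))
    have k5 : n.succ.sub k = I.card + 1 := by
      change n + 1 - k = _
      omega
    rw [k5] at e5
    have k6 : ∑ a ∈ I, col R B (f a) w + (3 * k + delE M g k)
        ≤ ∑ a ∈ range k, hex E.dg (hex g a) + 2 + ext (I.card + 1) := by
      simp only [Nat.add_eq, Nat.mul_eq] at e5 hq
      omega
    have k7 : ((∑ a ∈ I, col R B (f a) w + (3 * k + delE M g k) : ℕ) : ℝ)
        ≤ (∑ a ∈ range k, hex E.dg (hex g a) + 2 + ext (I.card + 1) : ℕ) := by exact_mod_cast k6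
    rw [Nat.cast_add, Nat.cast_add _ (ext _), Nat.cast_add _ 2, Nat.cast_sum I] at k7
    push_cast at k7 hpot
    linarith
  · exfalso
    have hq := (hl.resolve_left (by omega)).2
    set v := hex (fld mv 48 0xffffffffffff) 0
    have k1 := C.opt.inn (hP.2.1 e3 v e4)
    have k2 : insert w (((range n).erase v).image f) ⊆ K.erase (f v) := by
      refine insert_subset (mem_erase.2 ⟨(hne v e4).symm, hwK e3⟩) fun u hu => ?_
      obtain ⟨a, ha, rfl⟩ := mem_image.1 hu
      obtain ⟨h5, h6⟩ := mem_erase.1 ha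
      exact mem_erase.2 ⟨fun e => h5 (h.inj a (mem_range.1 h6) v e4 e), hP.2.1 e3 a (mem_range.1 h6)⟩
    have hwI : w ∉ ((range n).erase v).image f := by
      intro hw
      obtain ⟨a, ha, e⟩ := mem_image.1 hw
      exact hne a (mem_range.1 (mem_of_mem_erase ha)) e
    have k3 := sum_le_sum_of_subset (f := fun u => col R B u (f v)) k2
    rw [sum_insert hwI, sum_image (h.injOn (erase_subset _ _)),
      sum_congr rfl fun a ha => h.c a (mem_range.1 (mem_of_mem_erase ha)) v e4] at k3
    have k4 := add_sum_erase (range n) (fun a => mat M a v) (mem_range.2 e4)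
    have k5 := h.deg v e4
    have k6 : mat M v v = 3 := by rw [← h.c v e4 v e4, col_self]
    simp only [en_col, ← mul_sum] at k1
    have k7 : ∑ u ∈ K.erase (f v), col R B u (f v) < 3 := by
      have : ((∑ u ∈ K.erase (f v), col R B u (f v) : ℕ) : ℝ) < (3 : ℕ) := by
        push_cast
        linarith
      exact_mod_cast this
    have k8 : dig (fld mv 24 0xffffff) v ≤ col R B w (f v) := by
      rw [← hq, dig_land, hp v e4, col_symm]
      exact Nat.and_le_left
    simp only [Nat.add_eq] at e5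
    beta_reduce at k4
    omega

theorem ent_sound (C : Stand R B s K x) {T i : ℕ} {E : Ent} (ih : ∀ j < i, Clm R B s K T j)
    (hE : entOK T i E = true) : Clm R B s K T i := by
  intro f hf hP
  simp only [entOK, frc_eq] at hE
  set M := slot T i
  set n := fld M 288 15
  set tag := fld M 292 255
  obtain ⟨hw, hE⟩ := cond_f.1 hE
  have h := hf.full hw
  simp only [cond_i, beq_t, beq_f, ble_t, ble_f, Bool.false_eq_true, and_false, or_false,
    false_or, sumLt_eq, allLt_iff, and_true] at hE
  have hsub : (range n).image f ⊆ s := fun v hv => by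
    obtain ⟨a, ha, rfl⟩ := mem_image.1 hv
    exact hP.1 a (mem_range.1 ha)
  rcases hE with ⟨e0, e1, e2, e3, e4⟩ | ⟨e0, e1, ⟨-, e2, e3⟩ | ⟨-, e2, e3, e4, e5⟩⟩
  · have hK : (range n).image f ⊆ K := fun v hv => by
      obtain ⟨a, ha, rfl⟩ := mem_image.1 hv
      exact hP.2.1 e0 a (mem_range.1 ha)
    by_cases hx : ∃ w ∈ K, w ∉ (range n).image f
    · obtain ⟨w, hw, hwI⟩ := hx
      refine srch_sound C ih h (e0 ▸ hP) (fun e => absurd rfl e) (C.opt.1.1 hw) (fun _ => hw)
        (fun a ha e => hwI (mem_image.2 ⟨a, mem_range.2 ha, e⟩)) ?_ e4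
      have k1 := C.opt.inn hw
      have k2 : (range n).image f ⊆ K.erase w := fun v hv =>
        mem_erase.2 ⟨fun e => hwI (e ▸ hv), hK hv⟩
      have k3 := sum_le_sum_of_subset (f := fun u => col R B u w) k2
      rw [sum_image (h.injOn Subset.rfl)] at k3
      simp only [en_col, ← mul_sum] at k1
      have k7 : ∑ u ∈ K.erase w, col R B u w < 3 := by
        have : ((∑ u ∈ K.erase w, col R B u w : ℕ) : ℝ) < (3 : ℕ) := by
          push_cast
          linarith
        exact_mod_cast this
      rw [e3, sum_congr rfl fun a ha => by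
        rw [show fld E.cw (10 * a) 1023 = 1 from e2 a (mem_range.1 ha), one_mul]]
      omega
    · push Not at hx
      have hEq : (range n).image f = K := Subset.antisymm hK hx
      have k1 := C.opt.1.lt_card (by norm_num) (by norm_num) (by norm_num) C.ne C.pos C.deg
      rw [← hEq, card_image_of_injOn (h.injOn Subset.rfl), card_range] at k1
      have k2 : 9 < n := by
        have : ((9 : ℕ) : ℝ) < n := by
          push_cast
          linarith
        exact_mod_cast this
      obtain ⟨-, j1, j2, j3, j4, j5⟩ := e1.resolve_left (by omega)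
      refine ih _ j1 f (fun b hb a ha => ?_) ⟨j3 ▸ hP.1, fun e => absurd e j2, fun _ => ?_⟩
      · rw [j3] at hb
        rw [j4 b hb a ha]
        exact hf b hb a ha
      · rw [← hEq]
        exact h.pot_all j5
  · exfalso
    obtain ⟨I, hI, hc, -, hpot⟩ := h.del e2
    have k1 := C.ext 10 (I.image f) ((image_subset_image hI).trans hsub) (by omega)
    rw [card_image_of_injOn (h.injOn hI), hP.2.2 e0] at k1
    rw [h.pot_all e1] at hpot
    have k5 : n.sub E.nm = I.card := by
      change n - E.nm = _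
      omega
    rw [k5] at e3
    have k6 : 3 * E.nm + delE M E.mv E.nm + 1
        ≤ ∑ a ∈ range E.nm, hex E.dg (hex E.mv a) + ext I.card := e3
    have k7 : ((3 * E.nm + delE M E.mv E.nm + 1 : ℕ) : ℝ)
        ≤ (∑ a ∈ range E.nm, hex E.dg (hex E.mv a) + ext I.card : ℕ) := by exact_mod_cast k6
    push_cast at k7 hpot
    linarith
  · have hl : ∀ a ∈ range n, 1 ≤ fld E.cw (10 * a) 1023 := by
      simp only [srchOK, cond_f, ble_t] at e5
      intro a ha
      exact e5.1.trans ((lst_sound _ _ _ e5.2.1).2 a (by rwa [← range_eq_Ico]))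
    obtain ⟨w, hw, hlt⟩ := avg C.pos C.deg (I := range n) (f := f)
      (fun a ha => hP.1 a (mem_range.1 ha)) (c := fun a => (fld E.cw (10 * a) 1023 : ℝ))
      (fun a ha => by exact_mod_cast hl a ha) ⟨0, mem_range.2 e4⟩
    have k1 : 3 * ∑ a ∈ range n, fld E.cw (10 * a) 1023 * col R B (f a) w
        < ∑ a ∈ range n, fld E.cw (10 * a) 1023 := by
      have : ((3 * ∑ a ∈ range n, fld E.cw (10 * a) 1023 * col R B (f a) w : ℕ) : ℝ)
          < (∑ a ∈ range n, fld E.cw (10 * a) 1023 : ℕ) := by
        push_cast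
        rw [mul_sum]
        refine lt_of_eq_of_lt (sum_congr rfl fun a _ => ?_) hlt
        rw [en_col]
        ring
      exact_mod_cast this
    have k2 : ∑ a ∈ range n, fld E.cw (10 * a) 1023 ≤ 3 * E.b := e2
    refine srch_sound C ih h hP (fun _ => e1) hw (fun e => absurd e e0) (fun a ha e => ?_)
      (by omega) e5
    have k3 : E.b ≤ ∑ z ∈ range n, fld E.cw (10 * z) 1023 * mat M z a := e3 a ha
    rw [← e, sum_congr rfl fun z hz => by rw [h.c z (mem_range.1 hz) a ha]] at k1
    omega

theorem ls_sound (C : Stand R B s K x) {T : ℕ} : ∀ (l : List Ent) (i : ℕ), lsOK T l i = true →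
    (∀ j < i, Clm R B s K T j) → ∀ j < i + l.length, Clm R B s K T j := by
  intro l
  induction l with
  | nil => exact fun i _ h => h
  | cons E l ih =>
    intro i h hi
    change cond (entOK T i E) (lsOK T l (i + 1)) false = true at h
    obtain ⟨h1, h2⟩ := cond_f.1 h
    intro j hj
    refine ih (i + 1) h2 (fun j hj => ?_) j (by simp only [List.length_cons] at hj; omega)
    rcases Nat.lt_succ_iff_lt_or_eq.1 hj with h | rfl
    · exact hi j h
    · exact ent_sound C hi h1

end Pool.Agent.P.MP_6dea24_co.Bip
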