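import Pool.Agent.P.MP_6dea24_co.Basic

namespace Pool.Agent.P.MP_6dea24_co

open Finset
open scoped Classical

variable {V ι : Type*} [Fintype ι]

/-- cluster configurations -/
structure Valid (R B : SimpleGraph V) (s : Finset V) (P : ι → Finset V) : Prop where
  sub : ∀ i, P i ⊆ s
  inside : ∀ i, ∀ u ∈ P i, ∀ v ∈ P i, ¬ (R.Adj u v ∧ B.Adj u v)
  between : ∀ i j, i ≠ j → ∀ u ∈ P i, ∀ v ∈ P j, R.Adj u v ∧ B.Adj u v

/-- number of clusters of size at least `J` -/
noncomputable def big (P : ι → Finset V) (J : ℕ) : ℕ := (univ.filter (fun i => J ≤ (P i).card)).card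

/-- number of non-green partners of `v` in `T` -/
noncomputable def miss (R B : SimpleGraph V) (T : Finset V) (v : V) : ℕ :=
  (T.filter (fun u => ¬ (R.Adj u v ∧ B.Adj u v))).card

theorem exists_config (R B : SimpleGraph V) (s : Finset V) :
    ∃ P : ι → Finset V, Valid R B s P ∧ ∀ v ∈ s, (∀ i, v ∉ P i) → ∀ i,
      (∀ u ∈ P i, ¬ (R.Adj u v ∧ B.Adj u v)) →
      ∃ i', i' ≠ i ∧ 1 ≤ miss R B (P i') v ∧ (P i').card ≤ (P i).card + miss R B (P i') v := by
  let C : Finset (ι → Finset V) :=
    (Fintype.piFinset (fun _ : ι => s.powerset)).filter (fun P => Valid R B s P)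
  have hmem : ∀ P, Valid R B s P → P ∈ C := by
    intro P hP
    simp only [C, mem_filter, Fintype.mem_piFinset, mem_powerset]
    exact ⟨hP.sub, hP⟩
  have hne : C.Nonempty := ⟨fun _ => ∅, hmem _ ⟨by simp, by simp, by simp⟩⟩
  obtain ⟨P, hP, hmax⟩ := exists_max_image C
    (fun P => (toLex (fun J : ℕ => big P J) : Lex (ℕ → ℕ))) hne
  have hV : Valid R B s P := (mem_filter.1 hP).2
  refine ⟨P, hV, ?_⟩
  intro v hv hout i hfull
  by_contra hcon
  push Not at hcon
  let P' : ι → Finset V := fun j =>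
    if j = i then insert v (P i) else (P j).filter (fun u => R.Adj u v ∧ B.Adj u v)
  have hP'i : P' i = insert v (P i) := by simp [P']
  have hP'j : ∀ j, j ≠ i → P' j = (P j).filter (fun u => R.Adj u v ∧ B.Adj u v) := by
    intro j hj
    simp [P', hj]
  have hsub : ∀ j, j ≠ i → P' j ⊆ P j := fun j hj => by
    rw [hP'j j hj]; exact filter_subset _ _
  have hV' : Valid R B s P' := by
    refine ⟨fun j => ?_, fun j => ?_, fun j j' hjj => ?_⟩
    · by_cases hj : j = i
      · subst hj
        rw [hP'i]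
        exact insert_subset hv (hV.sub j)
      · exact (hsub j hj).trans (hV.sub j)
    · by_cases hj : j = i
      · subst hj
        rw [hP'i]
        intro a ha0 b hb0
        rcases mem_insert.1 ha0 with ha | ha <;> rcases mem_insert.1 hb0 with hb | hb
        · rw [ha, hb]; simp
        · rw [ha]; exact fun h => hfull b hb ⟨h.1.symm, h.2.symm⟩
        · rw [hb]; exact hfull a ha
        · exact hV.inside j a ha b hb
      · exact fun a ha b hb => hV.inside j a (hsub j hj ha) b (hsub j hj hb)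
    · intro a ha b hb
      by_cases hj : j = i
      · have hj' : j' ≠ i := fun e => hjj (hj.trans e.symm)
        subst hj
        rw [hP'i] at ha
        rcases mem_insert.1 ha with ha | ha
        · subst ha
          rw [hP'j j' hj'] at hb
          exact ⟨(mem_filter.1 hb).2.1.symm, (mem_filter.1 hb).2.2.symm⟩
        · exact hV.between j j' hjj a ha b (hsub j' hj' hb)
      · by_cases hj' : j' = i
        · subst hj'
          rw [hP'i] at hb
          rcases mem_insert.1 hb with hb | hb
          · subst hb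
            rw [hP'j j hj] at ha
            exact (mem_filter.1 ha).2
          · exact hV.between j j' hjj a (hsub j hj ha) b hb
        · exact hV.between j j' hjj a (hsub j hj ha) b (hsub j' hj' hb)
  have hci : (P' i).card = (P i).card + 1 := by
    rw [hP'i, card_insert_of_notMem (hout i)]
  have hcj : ∀ j, j ≠ i → ∀ J, J ≤ (P i).card + 1 → (J ≤ (P' j).card ↔ J ≤ (P j).card) := by
    intro j hj J hJ
    have h1 : (P' j).card + miss R B (P j) v = (P j).card := by
      rw [hP'j j hj]
      unfold miss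
      exact card_filter_add_card_filter_not _
    have h2 := hcon j hj
    omega
  have hlt : (toLex (fun J : ℕ => big P J) : Lex (ℕ → ℕ)) < toLex (fun J : ℕ => big P' J) := by
    refine ⟨(P i).card + 1, fun J hJ => ?_, ?_⟩
    · show big P J = big P' J
      unfold big
      congr 1
      ext j
      simp only [mem_filter, mem_univ, true_and]
      by_cases hj : j = i
      · subst hj
        omega
      · exact (hcj j hj J hJ.le).symm
    · show big P _ < big P' _
      unfold big
      apply card_lt_card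
      refine ⟨fun j hj => ?_, fun h => ?_⟩
      · simp only [mem_filter, mem_univ, true_and] at hj ⊢
        by_cases hji : j = i
        · subst hji
          omega
        · exact (hcj j hji _ le_rfl).2 hj
      · have : i ∈ univ.filter (fun j => (P i).card + 1 ≤ (P j).card) :=
          h (by simp only [mem_filter, mem_univ, true_and]; omega)
        simp at this
  exact absurd (hmax P' (hmem P' hV')) (not_le.2 hlt)

/-- weights -/
noncomputable def wt (J : ℕ) (j : ℕ) : ℝ := if j ≤ J then (J : ℝ) / j else (J + 1 : ℝ) / j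

theorem wt_nonneg (J j : ℕ) : 0 ≤ wt J j := by
  unfold wt
  split_ifs <;> positivity

theorem wt_pos {J j : ℕ} (hJ : 1 ≤ J) (hj : 1 ≤ j) : 0 < wt J j := by
  unfold wt
  have : (0:ℝ) < J := by exact_mod_cast hJ
  have : (0:ℝ) < j := by exact_mod_cast hj
  split_ifs <;> positivity

theorem wt_self {J j : ℕ} (hj : 1 ≤ j) : (J + 1 : ℝ) ≤ wt J j * (j + 1) := by
  unfold wt
  have h0 : (0:ℝ) < j := by exact_mod_cast hj
  split_ifs with h
  · have : (j:ℝ) ≤ J := by exact_mod_cast h
    rw [div_mul_eq_mul_div, le_div_iff₀ h0]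
    nlinarith
  · rw [div_mul_eq_mul_div, le_div_iff₀ h0]
    have : (0:ℝ) ≤ J := by positivity
    nlinarith

theorem wt_full {J j : ℕ} (hj : 1 ≤ j) :
    wt J j * j = if j ≤ J then (J : ℝ) else J + 1 := by
  unfold wt
  have h0 : (j:ℝ) ≠ 0 := by
    have : (0:ℝ) < j := by exact_mod_cast hj
    exact this.ne'
  split_ifs with h <;> field_simp

theorem wt_extra {J j j' l : ℕ} (hj : j ≤ J) (hl : 1 ≤ l) (hlj : l ≤ j') (h : j' ≤ j + l) :
    (1 : ℝ) ≤ wt J j' * l := by
  unfold wt
  have h0 : (0:ℝ) < j' := by exact_mod_cast (hl.trans hlj)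
  have h1 : (1:ℝ) ≤ l := by exact_mod_cast hl
  split_ifs with h'
  · have : (j':ℝ) ≤ J := by exact_mod_cast h'
    rw [div_mul_eq_mul_div, le_div_iff₀ h0]
    nlinarith
  · rw [div_mul_eq_mul_div, le_div_iff₀ h0]
    have h2 : (j':ℝ) ≤ J + l := by exact_mod_cast (by omega : j' ≤ J + l)
    have h3 : (0:ℝ) ≤ J := by positivity
    nlinarith

/-- number of lacking colours on a pair -/
noncomputable def lk (R B : SimpleGraph V) (u v : V) : ℝ :=
  (if R.Adj u v then 0 else 1) + (if B.Adj u v then 0 else 1)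

theorem lk_nonneg (R B : SimpleGraph V) (u v : V) : 0 ≤ lk R B u v := by
  unfold lk
  split_ifs <;> norm_num

theorem lk_ge (R B : SimpleGraph V) {u v : V} (h : ¬ (R.Adj u v ∧ B.Adj u v)) : 1 ≤ lk R B u v := by
  unfold lk
  split_ifs with h1 h2 h2
  · exact absurd ⟨h1, h2⟩ h
  all_goals norm_num

theorem miss_le (R B : SimpleGraph V) (T : Finset V) (v : V) :
    (miss R B T v : ℝ) ≤ ∑ u ∈ T, lk R B u v := by
  unfold miss
  rw [card_eq_sum_ones, Nat.cast_sum, sum_filter]
  refine sum_le_sum fun u _ => ?_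
  split_ifs with h
  · exact lk_nonneg R B u v
  · simpa using lk_ge R B h

theorem cost_ge {R B : SimpleGraph V} {s : Finset V} {P : ι → Finset V} (hV : Valid R B s P)
    (hE : ∀ v ∈ s, (∀ i, v ∉ P i) → ∀ i, (∀ u ∈ P i, ¬ (R.Adj u v ∧ B.Adj u v)) →
      ∃ i', i' ≠ i ∧ 1 ≤ miss R B (P i') v ∧ (P i').card ≤ (P i).card + miss R B (P i') v)
    {i0 : ι} (h0 : P i0 = ∅) (J : ℕ) {v : V} (hv : v ∈ s) :
    (J + 1 : ℝ) ≤ ∑ i, wt J (P i).card * ∑ u ∈ P i, lk R B u v := by
  have hnn : ∀ i, 0 ≤ wt J (P i).card * ∑ u ∈ P i, lk R B u v := fun i =>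
    mul_nonneg (wt_nonneg _ _) (sum_nonneg fun u _ => lk_nonneg R B u v)
  by_cases hin : ∃ i, v ∈ P i
  · obtain ⟨i, hi⟩ := hin
    refine le_trans ?_ (single_le_sum (fun i _ => hnn i) (mem_univ i))
    have h1 : 1 ≤ (P i).card := card_pos.2 ⟨v, hi⟩
    refine (wt_self h1).trans (mul_le_mul_of_nonneg_left ?_ (wt_nonneg _ _))
    rw [← add_sum_erase _ _ hi]
    have h2 : lk R B v v = 2 := by simp [lk]; norm_num
    have h3 : (((P i).erase v).card : ℝ) ≤ ∑ u ∈ (P i).erase v, lk R B u v := by
      rw [card_eq_sum_ones, Nat.cast_sum]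
      exact sum_le_sum fun u hu => by
        simpa using lk_ge R B (hV.inside i u (mem_of_mem_erase hu) v hi)
    rw [card_erase_of_mem hi, Nat.cast_sub h1] at h3
    push_cast at h3
    linarith
  · push Not at hin
    obtain ⟨i, -, hi1, hi2⟩ := hE v hv hin i0 (by simp [h0])
    rw [h0, card_empty, zero_add] at hi2
    have hmle : ∀ j, miss R B (P j) v ≤ (P j).card := fun j => card_filter_le _ _
    have hi3 : miss R B (P i) v = (P i).card := le_antisymm (hmle i) hi2
    have hfull : ∀ u ∈ P i, ¬ (R.Adj u v ∧ B.Adj u v) := by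
      unfold miss at hi3
      exact filter_eq_self.1 (eq_of_subset_of_card_le (filter_subset _ _) hi3.ge)
    have hA : wt J (P i).card * (P i).card ≤ wt J (P i).card * ∑ u ∈ P i, lk R B u v := by
      refine mul_le_mul_of_nonneg_left ?_ (wt_nonneg _ _)
      rw [← hi3]
      exact miss_le R B _ v
    rw [wt_full (hi1.trans (hmle i))] at hA
    split_ifs at hA with hle
    · obtain ⟨i', hne, h1, h2⟩ := hE v hv hin i hfull
      have hB : 1 ≤ wt J (P i').card * ∑ u ∈ P i', lk R B u v :=
        (wt_extra hle h1 (hmle i') h2).trans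
          (mul_le_mul_of_nonneg_left (miss_le R B _ v) (wt_nonneg _ _))
      have := sum_le_sum_of_subset_of_nonneg (subset_univ ({i, i'} : Finset ι))
        (f := fun i => wt J (P i).card * ∑ u ∈ P i, lk R B u v) (fun j _ _ => hnn j)
      rw [sum_pair hne.symm] at this
      linarith
    · exact hA.trans (single_le_sum (fun i _ => hnn i) (mem_univ i))

theorem sum_wt (P : ι → Finset V) (J : ℕ) :
    ∑ i, wt J (P i).card * (P i).card = J * (big P 1 : ℝ) + big P (J + 1) := by
  unfold big
  rw [card_filter, card_filter]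
  simp only [Nat.cast_sum, mul_sum, ← sum_add_distrib]
  refine sum_congr rfl fun i _ => ?_
  by_cases h : 1 ≤ (P i).card
  · rw [wt_full h]
    by_cases h' : (P i).card ≤ J
    · have : ¬ J + 1 ≤ (P i).card := by omega
      simp [h, h', this]
    · have : J + 1 ≤ (P i).card := by omega
      simp [h, h', this]
  · have h1 : (P i).card = 0 := by omega
    simp [h1]

theorem config_ineq {R B : SimpleGraph V} {s : Finset V} {x : V → ℝ} {c : ℝ} (hc : 0 ≤ c)
    (hs : s.Nonempty) (hx : ∀ v ∈ s, 0 < x v) (hd : Deg R B s x c c) :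
    ∃ P : ι → Finset V, Valid R B s P ∧ ((∀ i, (P i).Nonempty) ∨
      ∀ J : ℕ, 1 ≤ J → c * (J + 1) < J * (big P 1 : ℝ) + big P (J + 1)) := by
  obtain ⟨P, hV, hE⟩ := exists_config (ι := ι) R B s
  refine ⟨P, hV, ?_⟩
  by_cases hall : ∀ i, (P i).Nonempty
  · exact Or.inl hall
  right
  push Not at hall
  obtain ⟨i0, h0⟩ := hall
  intro J hJ
  set n := ∑ u ∈ s, x u with hn
  have hn0 : 0 < n := sum_pos hx hs
  have hL : ∀ y, ∑ v ∈ s, x v * lk R B y v = lack R s x y + lack B s x y := by
    intro y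
    unfold lack lk
    rw [← sum_add_distrib]
    refine sum_congr rfl fun v _ => ?_
    rw [R.adj_comm y v, B.adj_comm y v]
    split_ifs <;> ring
  have h1 : (J + 1 : ℝ) * n ≤ ∑ i, ∑ y ∈ P i, wt J (P i).card * (lack R s x y + lack B s x y) := by
    calc (J + 1 : ℝ) * n = ∑ v ∈ s, x v * (J + 1) := by rw [hn, mul_comm, sum_mul]
      _ ≤ ∑ v ∈ s, x v * ∑ i, wt J (P i).card * ∑ u ∈ P i, lk R B u v :=
          sum_le_sum fun v hv => mul_le_mul_of_nonneg_left (cost_ge hV hE h0 J hv) (hx v hv).le
      _ = ∑ i, ∑ y ∈ P i, wt J (P i).card * (lack R s x y + lack B s x y) := by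
          simp only [mul_sum, ← hL]
          rw [sum_comm]
          refine sum_congr rfl fun i _ => ?_
          rw [sum_comm]
          exact sum_congr rfl fun y _ => sum_congr rfl fun v _ => by ring
  obtain ⟨i1, y1, hy1⟩ : ∃ i y, y ∈ P i := by
    by_contra hno
    push Not at hno
    have : ∀ i, P i = ∅ := fun i => eq_empty_of_forall_notMem (hno i)
    simp only [this, sum_empty, sum_const_zero] at h1
    have : (0:ℝ) < (J + 1) * n := by positivity
    linarith
  have h2 : ∑ i, ∑ y ∈ P i, wt J (P i).card * (c * (lack R s x y + lack B s x y))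
      < ∑ i, ∑ _y ∈ P i, wt J (P i).card * n := by
    have hle : ∀ i, ∀ y ∈ P i, c * (lack R s x y + lack B s x y) < n := fun i y hy => by
      have := hd y (hV.sub i hy)
      linarith
    refine sum_lt_sum (fun i _ => sum_le_sum fun y hy =>
      mul_le_mul_of_nonneg_left (hle i y hy).le (wt_nonneg _ _)) ⟨i1, mem_univ _, ?_⟩
    exact sum_lt_sum_of_nonempty ⟨y1, hy1⟩ fun y hy =>
      mul_lt_mul_of_pos_left (hle i1 y hy) (wt_pos hJ (card_pos.2 ⟨y1, hy1⟩))
  have h3 : ∑ i, ∑ _y ∈ P i, wt J (P i).card * n = (J * (big P 1 : ℝ) + big P (J + 1)) * n := by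
    rw [← sum_wt, sum_mul]
    refine sum_congr rfl fun i _ => ?_
    rw [sum_const, nsmul_eq_mul]
    ring
  have h4 : ∑ i, ∑ y ∈ P i, wt J (P i).card * (c * (lack R s x y + lack B s x y))
      = c * ∑ i, ∑ y ∈ P i, wt J (P i).card * (lack R s x y + lack B s x y) := by
    simp only [mul_sum]
    exact sum_congr rfl fun i _ => sum_congr rfl fun y _ => by ring
  have h5 : c * (J + 1) * n < (J * (big P 1 : ℝ) + big P (J + 1)) * n := by
    have := mul_le_mul_of_nonneg_left h1 hc
    linarith
  exact lt_of_mul_lt_mul_right h5 hn0.le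

end Pool.Agent.P.MP_6dea24_co
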