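import Pool.Agent.P.MP_6dea24_co.Crown

namespace Pool.Agent.P.MP_6dea24_co

open Finset
open scoped Classical

variable {α : Type*} {F : SimpleGraph α}

theorem cc_mono {X Y : Finset α} (h : X ⊆ Y) : cc F X ≤ cc F Y := by
  obtain ⟨g, hg, hc⟩ := cc_spec F Y
  exact (cc_le (hg.mono h)).trans (hc ▸ card_le_card (image_subset_image h))

theorem cc_le_card (F : SimpleGraph α) (X : Finset α) : cc F X ≤ X.card := by
  induction X using Finset.induction_on with
  | empty =>
    obtain ⟨g, -, h⟩ := cc_spec F (∅ : Finset α)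
    simp at h
    omega
  | insert v X hv ih =>
    have := (cc_insert_le F hv).1
    rw [card_insert_of_notMem hv]
    omega

theorem cc_erase_le (F : SimpleGraph α) (X : Finset α) (v : α) :
    cc F X ≤ cc F (X.erase v) + 1 := by
  by_cases hv : v ∈ X
  · have := (cc_insert_le F (notMem_erase v X)).1
    rwa [insert_erase hv] at this
  · rw [erase_eq_of_notMem hv]; omega

theorem cc_union_le (F : SimpleGraph α) (A B : Finset α) : cc F (A ∪ B) ≤ cc F A + cc F B := by
  obtain ⟨g, hg, hc⟩ := cc_spec F A
  obtain ⟨g', hg', hc'⟩ := cc_spec F B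
  have hcov : Cov F (A ∪ B) (fun a => if a ∈ A then 2 * g a else 2 * g' a + 1) := by
    intro a ha b hb hab he
    by_cases h1 : a ∈ A <;> by_cases h2 : b ∈ A <;> simp only [h1, h2, if_true, if_false] at he
    · exact hg a h1 b h2 hab (by omega)
    · omega
    · omega
    · exact hg' a ((mem_union.1 ha).resolve_left h1) b ((mem_union.1 hb).resolve_left h2) hab
        (by omega)
  refine (cc_le hcov).trans ?_
  have h1 : (A ∪ B).image (fun a => if a ∈ A then 2 * g a else 2 * g' a + 1) ⊆
      (A.image g).image (fun c => 2 * c) ∪ (B.image g').image (fun c => 2 * c + 1) := by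
    intro d hd
    obtain ⟨a, ha, rfl⟩ := mem_image.1 hd
    by_cases h1 : a ∈ A <;> simp only [h1, if_true, if_false]
    · exact mem_union_left _ (mem_image_of_mem _ (mem_image_of_mem _ h1))
    · exact mem_union_right _ (mem_image_of_mem _
        (mem_image_of_mem _ ((mem_union.1 ha).resolve_left h1)))
  have h2 := card_le_card h1
  have h3 := card_union_le ((A.image g).image (fun c => 2 * c))
    ((B.image g').image (fun c => 2 * c + 1))
  have h4 : ((A.image g).image (fun c => 2 * c)).card ≤ (A.image g).card := card_image_le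
  have h5 : ((B.image g').image (fun c => 2 * c + 1)).card ≤ (B.image g').card := card_image_le
  omega

theorem Cov.disj {X A B : Finset α} {g : α → ℕ} (hg : Cov F X g) (hA : A ⊆ X) (hB : B ⊆ X)
    (hd : Disjoint A B) (h : ∀ a ∈ A, ∀ b ∈ B, ¬ F.Adj a b) :
    Disjoint (A.image g) (B.image g) := by
  rw [disjoint_left]
  intro c hc hc'
  obtain ⟨a, ha, rfl⟩ := mem_image.1 hc
  obtain ⟨b, hb, he⟩ := mem_image.1 hc'
  exact h a ha b hb (hg a (hA ha) b (hB hb) (fun e => disjoint_left.1 hd ha (e ▸ hb)) he.symm)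

theorem cc_add_le {A B : Finset α} (hd : Disjoint A B) (h : ∀ a ∈ A, ∀ b ∈ B, ¬ F.Adj a b) :
    cc F A + cc F B ≤ cc F (A ∪ B) := by
  obtain ⟨g, hg, hc⟩ := cc_spec F (A ∪ B)
  have h1 := cc_le (hg.mono (subset_union_left (s₂ := B)))
  have h2 := cc_le (hg.mono (subset_union_right (s₁ := A)))
  rw [image_union, card_union_of_disjoint
    (hg.disj subset_union_left subset_union_right hd h)] at hc
  omega

theorem exists_cov_lt {X : Finset α} {n : ℕ} (h : cc F X ≤ n) :
    ∃ g, Cov F X g ∧ ∀ a ∈ X, g a < n := by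
  obtain ⟨g, hg, hc⟩ := cc_spec F X
  obtain ⟨φ, h1, h2⟩ := exists_inj (Y := X.image g) (S := range n) (by simpa [hc] using h) 0
  refine ⟨fun a => φ (g a), fun a ha b hb hab he => hg a ha b hb hab ?_,
    fun a ha => mem_range.1 (h1 _ (mem_image_of_mem g ha))⟩
  by_contra hne
  exact h2 _ (mem_image_of_mem g ha) _ (mem_image_of_mem g hb) hne he

theorem cc_join_le {A B : Finset α} {n : ℕ} (hA : cc F A ≤ n) (hB : cc F B ≤ n)
    (h : ∀ a ∈ A, ∀ b ∈ B, a ≠ b → F.Adj a b) : cc F (A ∪ B) ≤ n := by
  obtain ⟨g, hg, hc⟩ := exists_cov_lt hA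
  obtain ⟨g', hg', hc'⟩ := exists_cov_lt hB
  have hcov : Cov F (A ∪ B) (fun a => if a ∈ A then g a else g' a) := by
    intro a ha b hb hab he
    by_cases h1 : a ∈ A <;> by_cases h2 : b ∈ A <;> simp only [h1, h2, if_true, if_false] at he
    · exact hg a h1 b h2 hab he
    · exact h a h1 b ((mem_union.1 hb).resolve_left h2) hab
    · exact (h b h2 a ((mem_union.1 ha).resolve_left h1) hab.symm).symm
    · exact hg' a ((mem_union.1 ha).resolve_left h1) b ((mem_union.1 hb).resolve_left h2) hab he
  refine (cc_le hcov).trans ?_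
  rw [← card_range n]
  refine card_le_card fun d hd => ?_
  obtain ⟨a, ha, rfl⟩ := mem_image.1 hd
  by_cases h1 : a ∈ A <;> simp only [h1, if_true, if_false]
  · exact mem_range.2 (hc a h1)
  · exact mem_range.2 (hc' a ((mem_union.1 ha).resolve_left h1))

theorem cc_clique {Y : Finset α} (h : F.IsClique Y) : cc F Y ≤ 1 := by
  refine (cc_le (g := fun _ => 0) fun a ha b hb hab _ => h ha hb hab).trans ?_
  exact (card_le_card (t := {0}) fun d hd => by
    obtain ⟨a, -, rfl⟩ := mem_image.1 hd; simp).trans (by simp)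

/-- singletons of a cover -/
noncomputable def sing (X : Finset α) (g : α → ℕ) : Finset α :=
  X.filter (fun u => ∀ b ∈ X, g b = g u → b = u)

/-- optimal covers -/
def Opt (F : SimpleGraph α) (X : Finset α) (g : α → ℕ) : Prop :=
  Cov F X g ∧ (X.image g).card = cc F X

theorem Opt.crit {X : Finset α} {g : α → ℕ} (h : Opt F X g) {t : α} (ht : t ∈ sing X g) :
    cc F (X.erase t) + 1 ≤ cc F X := by
  have h1 := cc_le (h.1.mono (erase_subset t X))
  have h2 : (X.erase t).image g ⊆ (X.image g).erase (g t) := by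
    intro d hd
    obtain ⟨a, ha, rfl⟩ := mem_image.1 hd
    exact mem_erase.2 ⟨fun e => (mem_erase.1 ha).1 ((mem_filter.1 ht).2 a (mem_erase.1 ha).2 e),
      mem_image_of_mem g (mem_erase.1 ha).2⟩
  have h3 := card_le_card h2
  have h4 := card_erase_add_one (mem_image_of_mem g (mem_filter.1 ht).1)
  have := h.2
  omega

/-- a singleton cannot be adjacent to a whole other class -/
theorem Opt.absorb {X : Finset α} {g : α → ℕ} (h : Opt F X g) {t a : α} (ht : t ∈ sing X g)
    (ha : a ∈ X) (hat : a ≠ t) : ∃ b ∈ X, g b = g a ∧ ¬ F.Adj t b := by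
  by_contra hn
  push Not at hn
  have htX := (mem_filter.1 ht).1
  have hcov : Cov F X (Function.update g t (g a)) := by
    intro u hu v hv huv he
    by_cases h1 : u = t <;> by_cases h2 : v = t
    · exact absurd (h1.trans h2.symm) huv
    · rw [h1, Function.update_self, Function.update_of_ne h2] at he
      rw [h1]; exact hn v hv he.symm
    · rw [h2, Function.update_self, Function.update_of_ne h1] at he
      rw [h2]; exact (hn u hu he).symm
    · rw [Function.update_of_ne h1, Function.update_of_ne h2] at he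
      exact h.1 u hu v hv huv he
  have h2 : X.image (Function.update g t (g a)) ⊆ (X.image g).erase (g t) := by
    intro d hd
    obtain ⟨u, hu, rfl⟩ := mem_image.1 hd
    by_cases h1 : u = t
    · rw [h1, Function.update_self]
      exact mem_erase.2 ⟨fun e => hat ((mem_filter.1 ht).2 a ha e), mem_image_of_mem g ha⟩
    · rw [Function.update_of_ne h1]
      exact mem_erase.2 ⟨fun e => h1 ((mem_filter.1 ht).2 u hu e), mem_image_of_mem g hu⟩
  have h3 := card_le_card h2
  have h4 := card_erase_add_one (mem_image_of_mem g htX)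
  have h5 := cc_le hcov
  have := h.2
  omega

theorem Opt.indep {X : Finset α} {g : α → ℕ} (h : Opt F X g) {t a : α} (ht : t ∈ sing X g)
    (ha : a ∈ sing X g) : ¬ F.Adj t a := by
  intro hadj
  obtain ⟨b, hb, h1, h2⟩ := h.absorb ht (mem_filter.1 ha).1 hadj.ne'
  exact h2 ((mem_filter.1 ha).2 b hb h1 ▸ hadj)

theorem opt_of_crit {X : Finset α} {w : α} (hw : w ∈ X) (h : cc F (X.erase w) < cc F X) :
    ∃ g, Opt F X g ∧ w ∈ sing X g := by
  obtain ⟨g, hg, hc⟩ := cc_spec F (X.erase w)
  obtain ⟨c, hc'⟩ := Infinite.exists_notMem_finset ((X.erase w).image g)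
  have key : ∀ u ∈ X, u ≠ w → g u ≠ c := fun u hu h1 e =>
    hc' (e ▸ mem_image_of_mem g (mem_erase.2 ⟨h1, hu⟩))
  have hcov : Cov F X (Function.update g w c) := by
    intro u hu v hv huv he
    by_cases h1 : u = w <;> by_cases h2 : v = w
    · exact absurd (h1.trans h2.symm) huv
    · rw [h1, Function.update_self, Function.update_of_ne h2] at he
      exact absurd he.symm (key v hv h2)
    · rw [h2, Function.update_self, Function.update_of_ne h1] at he
      exact absurd he (key u hu h1)
    · rw [Function.update_of_ne h1, Function.update_of_ne h2] at he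
      exact hg u (mem_erase.2 ⟨h1, hu⟩) v (mem_erase.2 ⟨h2, hv⟩) huv he
  refine ⟨_, ⟨hcov, le_antisymm ?_ (cc_le hcov)⟩, mem_filter.2 ⟨hw, fun b hb he => ?_⟩⟩
  · have h2 : X.image (Function.update g w c) ⊆ insert c ((X.erase w).image g) := by
      intro d hd
      obtain ⟨u, hu, rfl⟩ := mem_image.1 hd
      by_cases h1 : u = w
      · rw [h1, Function.update_self]; exact mem_insert_self _ _
      · rw [Function.update_of_ne h1]
        exact mem_insert_of_mem (mem_image_of_mem g (mem_erase.2 ⟨h1, hu⟩))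
    have h3 := card_le_card h2
    have h4 := card_insert_le c ((X.erase w).image g)
    omega
  · by_contra h1
    rw [Function.update_self, Function.update_of_ne h1] at he
    exact key b hb h1 he

/-- counting classes -/
theorem count_classes (X : Finset α) (g : α → ℕ) :
    2 * (X.image g).card + ((X.image g).filter (fun c => 3 ≤ (X.filter (fun a => g a = c)).card)).card
      ≤ X.card + (sing X g).card := by
  have h1 := card_eq_sum_card_image g X
  have h2 : ((X.image g).filter (fun c => (X.filter (fun a => g a = c)).card ≤ 1)).card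
      ≤ (sing X g).card := by
    refine le_trans (card_le_card fun c hc => ?_) (card_image_le (f := g))
    obtain ⟨hc1, hc2⟩ := mem_filter.1 hc
    obtain ⟨a, ha, rfl⟩ := mem_image.1 hc1
    refine mem_image_of_mem g (mem_filter.2 ⟨ha, fun b hb he => ?_⟩)
    exact card_le_one.1 hc2 b (mem_filter.2 ⟨hb, he⟩) a (mem_filter.2 ⟨ha, rfl⟩)
  have h3 : ∑ c ∈ X.image g, (2 + if 3 ≤ (X.filter (fun a => g a = c)).card then 1 else 0)
      ≤ ∑ c ∈ X.image g, ((X.filter (fun a => g a = c)).card +
        if (X.filter (fun a => g a = c)).card ≤ 1 then 1 else 0) := by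
    refine sum_le_sum fun c hc => ?_
    obtain ⟨a, ha, rfl⟩ := mem_image.1 hc
    have : 0 < (X.filter (fun b => g b = g a)).card := card_pos.2 ⟨a, mem_filter.2 ⟨ha, rfl⟩⟩
    split_ifs <;> omega
  rw [sum_add_distrib, sum_add_distrib, ← card_filter, ← card_filter, sum_const, smul_eq_mul] at h3
  omega

theorem exists_single {X : Finset α} (h : X.card < 2 * cc F X) :
    ∃ g, Opt F X g ∧ ∃ t, t ∈ sing X g := by
  obtain ⟨g, hg, hc⟩ := cc_spec F X
  have := count_classes X g
  exact ⟨g, ⟨hg, hc⟩, card_pos.1 (by omega)⟩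

/-- moving a singleton along an edge -/
theorem move_single {X : Finset α} {g : α → ℕ} (hg : Cov F X g) {w : α} (hw : w ∈ X)
    (h : cc F (X.erase w) < cc F X) :
    ∃ g', Opt F X g' ∧ w ∈ sing X g' ∧ sing X g' ⊆ insert w (sing X g) := by
  let dis : (α → ℕ) → ℕ := fun g' =>
    ((X ×ˢ X).filter (fun p => g' p.1 = g' p.2 ∧ g p.1 ≠ g p.2)).card
  have hex : ∃ n, ∃ g', Opt F X g' ∧ w ∈ sing X g' ∧ dis g' = n := by
    obtain ⟨g', h1, h2⟩ := opt_of_crit hw h
    exact ⟨_, g', h1, h2, rfl⟩
  obtain ⟨g', h1, h2, h3⟩ := Nat.find_spec hex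
  refine ⟨g', h1, h2, fun y hy => ?_⟩
  by_contra hn
  rw [mem_insert, not_or] at hn
  have hyX := (mem_filter.1 hy).1
  have hy2 := (mem_filter.1 hy).2
  have h4 : ¬ ∀ b ∈ X, g b = g y → b = y := fun e => hn.2 (mem_filter.2 ⟨hyX, e⟩)
  push Not at h4
  obtain ⟨z, hz, hzy, hne⟩ := h4
  have hadj : F.Adj y z := hg y hyX z hz hne.symm hzy.symm
  obtain ⟨c, hc, hcz, hcn⟩ := h1.absorb hy hz hne
  have hcz' : c ≠ z := fun e => hcn (e ▸ hadj)
  have hcy : c ≠ y := fun e => hne (hy2 z hz (by rw [← hcz, e]))
  have hgc : g c ≠ g z := fun e => hcn (hg y hyX c hc hcy.symm (by rw [e, hzy]))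
  have hzw : z ≠ w := fun e => h1.indep hy h2 (e ▸ hadj)
  have key : ∀ u ∈ X, g' u = g' y → u = y := hy2
  have hcov : Cov F X (Function.update g' z (g' y)) := by
    intro u hu v hv huv he
    by_cases k1 : u = z <;> by_cases k2 : v = z
    · exact absurd (k1.trans k2.symm) huv
    · rw [k1, Function.update_self, Function.update_of_ne k2] at he
      rw [k1, key v hv he.symm]; exact hadj.symm
    · rw [k2, Function.update_self, Function.update_of_ne k1] at he
      rw [k2, key u hu he]; exact hadj
    · rw [Function.update_of_ne k1, Function.update_of_ne k2] at he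
      exact h1.1 u hu v hv huv he
  have hopt : Opt F X (Function.update g' z (g' y)) := by
    refine ⟨hcov, le_antisymm ?_ (cc_le hcov)⟩
    rw [← h1.2]
    refine card_le_card fun d hd => ?_
    obtain ⟨u, hu, rfl⟩ := mem_image.1 hd
    by_cases k1 : u = z
    · rw [k1, Function.update_self]; exact mem_image_of_mem g' hyX
    · rw [Function.update_of_ne k1]; exact mem_image_of_mem g' hu
  have hws : w ∈ sing X (Function.update g' z (g' y)) := by
    refine mem_filter.2 ⟨hw, fun b hb he => ?_⟩
    rw [Function.update_of_ne hzw.symm] at he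
    by_cases k1 : b = z
    · rw [k1, Function.update_self] at he
      exact absurd ((mem_filter.1 h2).2 y hyX he) hn.1
    · rw [Function.update_of_ne k1] at he
      exact (mem_filter.1 h2).2 b hb he
  have hlt : dis (Function.update g' z (g' y)) < dis g' := by
    refine card_lt_card ⟨fun p hp => ?_, fun hsub => ?_⟩
    · obtain ⟨p1, p2, p3⟩ := mem_filter.1 hp
      obtain ⟨q1, q2⟩ := mem_product.1 p1
      refine mem_filter.2 ⟨p1, ?_, p3⟩
      by_cases k1 : p.1 = z <;> by_cases k2 : p.2 = z
      · rw [k1, k2]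
      · rw [k1, Function.update_self, Function.update_of_ne k2] at p2
        exact absurd (by rw [k1, key _ q2 p2.symm, hzy]) p3
      · rw [k2, Function.update_self, Function.update_of_ne k1] at p2
        exact absurd (by rw [k2, key _ q1 p2, hzy]) p3
      · rwa [Function.update_of_ne k1, Function.update_of_ne k2] at p2
    · have h5 : (c, z) ∈ (X ×ˢ X).filter (fun p => g' p.1 = g' p.2 ∧ g p.1 ≠ g p.2) :=
        mem_filter.2 ⟨mem_product.2 ⟨hc, hz⟩, hcz, hgc⟩
      have h6 := (mem_filter.1 (hsub h5)).2.1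
      simp only [Function.update_self, Function.update_of_ne hcz'] at h6
      exact hcy (key c hc h6)
  have := Nat.find_min' hex ⟨_, hopt, hws, rfl⟩
  omega

end Pool.Agent.P.MP_6dea24_co
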