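import Pool.Agent.P.MP_6dea24_co.Regime

namespace Pool.Agent.P.MP_6dea24_co

open Finset
open scoped Classical

variable {α V : Type*} {F : SimpleGraph α}

theorem exists_cov (F : SimpleGraph α) (X : Finset α) :
    ∃ n, ∃ g, Cov F X g ∧ (X.image g).card = n := by
  obtain ⟨f, hf⟩ := Function.Embedding.exists_of_card_le_finset (α := X) (s := range X.card)
    (by simp)
  refine ⟨_, fun a => if h : a ∈ X then f ⟨a, h⟩ else 0, ?_, rfl⟩
  intro a ha b hb hab h
  simp only [ha, hb, dite_true] at h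
  exact absurd (congrArg Subtype.val (f.injective h)) hab

/-- clique cover number -/
noncomputable def cc (F : SimpleGraph α) (X : Finset α) : ℕ := Nat.find (exists_cov F X)

theorem cc_spec (F : SimpleGraph α) (X : Finset α) : ∃ g, Cov F X g ∧ (X.image g).card = cc F X :=
  Nat.find_spec (exists_cov F X)

theorem cc_le {X : Finset α} {g : α → ℕ} (h : Cov F X g) : cc F X ≤ (X.image g).card :=
  Nat.find_min' _ ⟨g, h, rfl⟩

theorem cc_insert_le (F : SimpleGraph α) {X : Finset α} {v : α} (hv : v ∉ X) :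
    cc F (insert v X) ≤ cc F X + 1 ∧
      ((X.filter (fun u => ¬ F.Adj v u)).card < cc F X → cc F (insert v X) ≤ cc F X) := by
  obtain ⟨g, hg, hc⟩ := cc_spec F X
  have key : ∀ c, (∀ u ∈ X, g u = c → F.Adj v u) →
      cc F (insert v X) ≤ (insert c (X.image g)).card := by
    intro c h
    have hne : ∀ u ∈ X, u ≠ v := fun u hu e => hv (e ▸ hu)
    have hcov : Cov F (insert v X) (Function.update g v c) := by
      intro a ha0 b hb0 hab he
      rcases mem_insert.1 ha0 with ha | ha <;> rcases mem_insert.1 hb0 with hb | hb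
      · exact absurd (ha.trans hb.symm) hab
      · rw [ha, Function.update_self, Function.update_of_ne (hne b hb)] at he
        rw [ha]; exact h b hb he.symm
      · rw [hb, Function.update_self, Function.update_of_ne (hne a ha)] at he
        rw [hb]; exact (h a ha he).symm
      · rw [Function.update_of_ne (hne a ha), Function.update_of_ne (hne b hb)] at he
        exact hg a ha b hb hab he
    refine (cc_le hcov).trans (card_le_card ?_)
    intro d hd
    obtain ⟨a, ha0, rfl⟩ := mem_image.1 hd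
    rcases mem_insert.1 ha0 with ha | ha
    · rw [ha, Function.update_self]; exact mem_insert_self _ _
    · rw [Function.update_of_ne (hne a ha)]
      exact mem_insert_of_mem (mem_image_of_mem g ha)
  constructor
  · obtain ⟨c, hc'⟩ := Infinite.exists_notMem_finset (X.image g)
    refine (key c fun u hu h => absurd (h ▸ mem_image_of_mem g hu) hc').trans ?_
    rw [← hc]; exact card_insert_le _ _
  · intro h
    have h1 : ((X.filter (fun u => ¬ F.Adj v u)).image g).card < (X.image g).card :=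
      lt_of_le_of_lt card_image_le (hc ▸ h)
    obtain ⟨c, hc1, hc2⟩ := exists_mem_notMem_of_card_lt_card h1
    refine (key c fun u hu h => ?_).trans (by rw [insert_eq_of_mem hc1, hc])
    by_contra hn
    exact hc2 (mem_image.2 ⟨u, mem_filter.2 ⟨hu, hn⟩, h⟩)

theorem nordhaus (F : SimpleGraph α) (X : Finset α) : cc F X + cc Fᶜ X ≤ X.card + 1 := by
  induction X using Finset.induction_on with
  | empty =>
    obtain ⟨g, -, h⟩ := cc_spec F (∅ : Finset α)
    obtain ⟨g', -, h'⟩ := cc_spec Fᶜ (∅ : Finset α)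
    simp at h h'
    omega
  | insert v X hv ih =>
    have h1 := cc_insert_le F hv
    have h3 := card_filter_add_card_filter_not (s := X) (fun u => F.Adj v u)
    have h2 : cc Fᶜ (insert v X) ≤ cc Fᶜ X + 1 ∧
        ((X.filter (fun u => F.Adj v u)).card < cc Fᶜ X → cc Fᶜ (insert v X) ≤ cc Fᶜ X) := by
      refine ⟨(cc_insert_le Fᶜ hv).1, fun h => (cc_insert_le Fᶜ hv).2 (lt_of_le_of_lt
        (card_le_card fun u hu => ?_) h)⟩
      simp only [mem_filter] at hu ⊢
      have : v ≠ u := fun e => hv (e ▸ hu.1)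
      refine ⟨hu.1, ?_⟩
      simpa [SimpleGraph.compl_adj, this] using hu.2
    rw [card_insert_of_notMem hv]
    omega

theorem Cert.blues {X : Finset α} {ν τ : ℝ} {R B : SimpleGraph V} (h : Cert F X ν τ R B)
    (hν : 0 ≤ ν) (hτ : 0 ≤ τ) (T : Finset α) (hd : Disjoint T X)
    (hb : ∀ w ∈ T, ∀ a ∈ T ∪ X, ¬ F.Adj w a) : Cert F (T ∪ X) ν (τ + T.card) R B := by
  induction T using Finset.induction_on with
  | empty => simpa using h
  | insert w T hw ih =>
    rw [disjoint_insert_left] at hd
    have h1 := ih hd.2 fun u hu a ha =>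
      hb u (mem_insert_of_mem hu) a (union_subset_union (subset_insert _ _) Subset.rfl ha)
    have h2 := h1.blue hν (by positivity) (w := w) (by simp [hw, hd.1]) fun a ha =>
      hb w (mem_insert_self _ _) a (union_subset_union (subset_insert _ _) Subset.rfl ha)
    rw [insert_union, card_insert_of_notMem hw]
    push_cast
    rwa [← add_assoc]

theorem Cert.anys {X : Finset α} {ν τ : ℝ} {R B : SimpleGraph V} (h : Cert F X ν τ R B)
    (hν : 0 ≤ ν) (hτ : 0 ≤ τ) (T : Finset α) (hd : Disjoint T X) :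
    Cert F (T ∪ X) (ν + T.card) (τ + T.card) R B := by
  induction T using Finset.induction_on with
  | empty => simpa using h
  | insert w T hw ih =>
    rw [disjoint_insert_left] at hd
    have h2 := (ih hd.2).any (by positivity) (by positivity) (w := w) (by simp [hw, hd.1])
    rw [insert_union, card_insert_of_notMem hw]
    push_cast
    rwa [← add_assoc, ← add_assoc]

/-- singletons of a minimum cover and their neighbours -/
theorem singles_struct (F : SimpleGraph α) (X : Finset α) (h : 2 * X.card + 1 ≤ 3 * cc F X) :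
    ∃ S ⊆ X, (∀ u ∈ S, ∀ v ∈ S, ¬ F.Adj u v) ∧
      (X.filter (fun a => ∃ u ∈ S, F.Adj a u)).card < S.card := by
  obtain ⟨g, hg, hc⟩ := cc_spec F X
  set S := X.filter (fun u => ∀ b ∈ X, g b = g u → b = u) with hS
  have hSX : S ⊆ X := filter_subset _ _
  -- a class cannot be absorbed by singletons
  have key : ∀ c ∈ X.image g, ¬ ∀ a ∈ X, g a = c → ∃ u ∈ S, F.Adj a u ∧ g u ≠ c := by
    intro c hcm hall
    choose! f hf using hall
    have hcov : Cov F X (fun a => if g a = c then g (f a) else g a) := by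
      intro a ha b hb hab he
      by_cases h1 : g a = c <;> by_cases h2 : g b = c <;> simp only [h1, h2, if_true, if_false] at he
      · exact hg a ha b hb hab (h1.trans h2.symm)
      · have := hf a ha h1
        rw [(mem_filter.1 this.1).2 b hb he.symm]
        exact this.2.1
      · have := hf b hb h2
        rw [(mem_filter.1 this.1).2 a ha he]
        exact this.2.1.symm
      · exact hg a ha b hb hab he
    have h1 : X.image (fun a => if g a = c then g (f a) else g a) ⊆ (X.image g).erase c := by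
      intro d hd
      obtain ⟨a, ha, rfl⟩ := mem_image.1 hd
      by_cases h1 : g a = c <;> simp only [h1, if_true, if_false]
      · exact mem_erase.2 ⟨(hf a ha h1).2.2, mem_image_of_mem g (hSX (hf a ha h1).1)⟩
      · exact mem_erase.2 ⟨h1, mem_image_of_mem g ha⟩
    have h2 := card_le_card h1
    have h3 := cc_le hcov
    have h4 := card_erase_add_one hcm
    omega
  have hind : ∀ u ∈ S, ∀ v ∈ S, ¬ F.Adj u v := by
    intro u hu v hv hadj
    refine key (g u) (mem_image_of_mem g (hSX hu)) fun a ha he => ⟨v, hv, ?_, fun e => ?_⟩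
    · rw [(mem_filter.1 hu).2 a ha he]; exact hadj
    · exact hadj.ne ((mem_filter.1 hu).2 v (hSX hv) e).symm
  refine ⟨S, hSX, hind, ?_⟩
  set A := X.filter (fun a => ∃ u ∈ S, F.Adj a u) with hA
  have h1 : X.image g ⊆ (X \ A).image g := by
    intro c hcm
    have := key c hcm
    push Not at this
    obtain ⟨a, ha, hac, hno⟩ := this
    refine mem_image.2 ⟨a, mem_sdiff.2 ⟨ha, fun haA => ?_⟩, hac⟩
    obtain ⟨u, hu, hadj⟩ := (mem_filter.1 haA).2
    exact hadj.ne ((mem_filter.1 hu).2 a ha (hac.trans (hno u hu hadj).symm))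
  have h2 := card_le_card h1
  have h3 : ((X \ A).image g).card ≤ (X \ A).card := card_image_le
  have h4 : (X \ A).card + A.card = X.card := card_sdiff_add_card_eq_card (filter_subset _ X)
  have h5 := rm_of_classes (F := F) g _ (X \ S) rfl (hg.mono sdiff_subset) (fun a ha => by
    have ha' := mem_sdiff.1 ha
    have h6 : ¬ ∀ b ∈ X, g b = g a → b = a := fun h => ha'.2 (mem_filter.2 ⟨ha'.1, h⟩)
    push Not at h6
    obtain ⟨b, hb, hgb, hba⟩ := h6
    refine ⟨b, mem_sdiff.2 ⟨hb, fun hbS => hba ?_⟩, hba, hgb⟩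
    exact ((mem_filter.1 hbS).2 a ha'.1 hgb.symm).symm)
  obtain ⟨M, hM, hMc⟩ := h5
  have h6 := card_le_card hM.cov_sub
  rw [hM.card_cov] at h6
  have h7 := card_sdiff_add_card_eq_card hSX
  have h8 : X.image g ⊆ (X \ S).image g ∪ S.image g := by
    rw [← image_union, sdiff_union_of_subset hSX]
  have h9 := card_le_card h8
  have h10 := card_union_le ((X \ S).image g) (S.image g)
  have h11 : (S.image g).card ≤ S.card := card_image_le
  omega

theorem crown (F : SimpleGraph α) (X : Finset α) (h : 2 * X.card + 1 ≤ 3 * cc F X) :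
    ∃ T ⊆ X, ∃ A ⊆ X, T.Nonempty ∧ Disjoint T A ∧ (∀ u ∈ T, ∀ a ∈ X \ A, ¬ F.Adj u a) ∧
      cc F X ≤ cc F ((X \ A) \ T) + T.card := by
  obtain ⟨S, hSX, hind, hS⟩ := singles_struct F X h
  let nb : Finset α → Finset α := fun T => X.filter (fun a => ∃ u ∈ T, F.Adj a u)
  obtain ⟨T, hT, hmin⟩ := exists_min_image (S.powerset.filter (fun T => (nb T).card < T.card)) card
    ⟨S, mem_filter.2 ⟨mem_powerset_self S, hS⟩⟩
  have hTS : T ⊆ S := mem_powerset.1 (mem_filter.1 hT).1
  have hTc : (nb T).card < T.card := (mem_filter.1 hT).2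
  have hdis : Disjoint T (nb T) := by
    rw [disjoint_left]
    intro u hu hu'
    obtain ⟨w, hw, hadj⟩ := (mem_filter.1 hu').2
    exact hind u (hTS hu) w (hTS hw) hadj
  have hall : ∀ Bs : Finset (nb T), Bs.card ≤
      (Bs.biUnion (fun a : nb T => T.filter (fun u => F.Adj a u))).card := by
    intro Bs
    by_contra hlt
    push Not at hlt
    set Γ := Bs.biUnion (fun a : nb T => T.filter (fun u => F.Adj a u)) with hΓ
    have hΓT : Γ ⊆ T := biUnion_subset.2 fun a _ => filter_subset _ _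
    have h1 : nb (T \ Γ) ⊆ nb T \ Bs.map (Function.Embedding.subtype _) := by
      intro a ha
      obtain ⟨haX, u, hu, hadj⟩ := mem_filter.1 ha
      refine mem_sdiff.2 ⟨mem_filter.2 ⟨haX, u, (mem_sdiff.1 hu).1, hadj⟩, fun hm => ?_⟩
      obtain ⟨b, hb, rfl⟩ := mem_map.1 hm
      exact (mem_sdiff.1 hu).2 (mem_biUnion.2 ⟨b, hb, mem_filter.2 ⟨(mem_sdiff.1 hu).1, hadj⟩⟩)
    have h2 := card_le_card h1
    have h3 : Bs.map (Function.Embedding.subtype _) ⊆ nb T := by
      intro a ha
      obtain ⟨b, -, rfl⟩ := mem_map.1 ha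
      exact b.2
    have h4 := card_sdiff_add_card_eq_card h3
    rw [card_map] at h4
    have h5 := card_sdiff_add_card_eq_card hΓT
    have h6 := hmin (T \ Γ) (mem_filter.2 ⟨mem_powerset.2 (sdiff_subset.trans hTS), by omega⟩)
    obtain ⟨b, hb⟩ : Bs.Nonempty := card_pos.1 (by omega)
    obtain ⟨u, hu, hadj⟩ := (mem_filter.1 b.2).2
    have : 0 < Γ.card := card_pos.2 ⟨u, mem_biUnion.2 ⟨b, hb, mem_filter.2 ⟨hu, hadj⟩⟩⟩
    omega
  obtain ⟨f, hf, hf2⟩ := (all_card_le_biUnion_card_iff_exists_injective _).1 hall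
  refine ⟨T, hTS.trans hSX, nb T, filter_subset _ _, card_pos.1 (by omega), hdis, ?_, ?_⟩
  · intro u hu a ha hadj
    exact (mem_sdiff.1 ha).2 (mem_filter.2 ⟨(mem_sdiff.1 ha).1, u, hu, hadj.symm⟩)
  · obtain ⟨g, hg, hc⟩ := cc_spec F ((X \ nb T) \ T)
    obtain ⟨_, e, he, -⟩ := exists_cov (⊥ : SimpleGraph α) X
    have hinj : ∀ a ∈ T, ∀ b ∈ T, e a = e b → a = b := fun a ha b hb h => by
      by_contra hne
      exact he a (hSX (hTS ha)) b (hSX (hTS hb)) hne h
    let g' : α → ℕ := fun a =>
      if h : a ∈ nb T then 2 * e (f ⟨a, h⟩) + 1 else if a ∈ T then 2 * e a + 1 else 2 * g a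
    have hfT : ∀ a : nb T, f a ∈ T := fun a => (mem_filter.1 (hf2 a)).1
    have hcov : Cov F X g' := by
      intro a ha b hb hab hh
      simp only [g'] at hh
      split_ifs at hh with h1 h2 h3 h4 h5 h6 h7 h8
      · exact absurd (congrArg Subtype.val (hf (hinj _ (hfT ⟨a, h1⟩) _ (hfT ⟨b, h2⟩) (by omega)))) hab
      · rw [← hinj _ (hfT ⟨a, h1⟩) b h3 (by omega)]
        exact (mem_filter.1 (hf2 ⟨a, h1⟩)).2
      · omega
      · rw [← hinj _ (hfT ⟨b, h5⟩) a h4 (by omega)]
        exact (mem_filter.1 (hf2 ⟨b, h5⟩)).2.symm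
      · exact absurd (hinj a h4 b h6 (by omega)) hab
      · omega
      · omega
      · omega
      · exact hg a (mem_sdiff.2 ⟨mem_sdiff.2 ⟨ha, h1⟩, h4⟩) b
          (mem_sdiff.2 ⟨mem_sdiff.2 ⟨hb, h7⟩, h8⟩) hab (by omega)
    have h1 : X.image g' ⊆ (((X \ nb T) \ T).image g).image (fun c => 2 * c) ∪
        T.image (fun a => 2 * e a + 1) := by
      intro c hc
      obtain ⟨a, ha, rfl⟩ := mem_image.1 hc
      simp only [g']
      split_ifs with h1 h2
      · exact mem_union_right _ (mem_image_of_mem _ (hfT _))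
      · exact mem_union_right _ (mem_image_of_mem _ h2)
      · exact mem_union_left _ (mem_image_of_mem _
          (mem_image_of_mem _ (mem_sdiff.2 ⟨mem_sdiff.2 ⟨ha, h1⟩, h2⟩)))
    have h2 := card_le_card h1
    have h3 := card_union_le ((((X \ nb T) \ T).image g).image (fun c => 2 * c))
      (T.image (fun a => 2 * e a + 1))
    have h4 : ((((X \ nb T) \ T).image g).image (fun c => 2 * c)).card
      ≤ (((X \ nb T) \ T).image g).card := card_image_le
    have h5 : (T.image (fun a => 2 * e a + 1)).card ≤ T.card := card_image_le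
    have h6 := cc_le hcov
    omega

theorem Inv.even {G : SimpleGraph α} {X : Finset α} (h : Inv G X) : Even X.card := by
  obtain ⟨π, h1, -, -⟩ := h
  have := sum_involution (s := X) (f := fun _ => (1 : ZMod 2)) (fun a _ => π a)
    (fun _ _ => by decide) (fun a ha _ => (h1 a ha).2.2.ne') (fun a ha => (h1 a ha).1)
    (fun a ha => (h1 a ha).2.1)
  rw [sum_const, nsmul_eq_mul, mul_one] at this
  exact (ZMod.natCast_eq_zero_iff_even).1 this

theorem cert_cc {X : Finset α} {D : ℕ} (hX : X.card ≤ D + 1) (h1 : 2 * cc F X ≤ D + 2)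
    (h2 : 2 * cc Fᶜ X ≤ D + 2) (hex : ¬ (X.card = D + 1 ∧ (Inv F X ∨ Inv Fᶜ X)))
    (R B : SimpleGraph V) : Cert F X ((D : ℝ) / 2) ((D : ℝ) / 2) R B := by
  obtain ⟨g, hg, hc⟩ := cc_spec F X
  obtain ⟨g', hg', hc'⟩ := cc_spec Fᶜ X
  exact cert_half hX hg (by omega) hg' (by omega) hex R B

theorem cc_pos (F : SimpleGraph α) {X : Finset α} (h : X.Nonempty) : 1 ≤ cc F X := by
  obtain ⟨g, -, hc⟩ := cc_spec F X
  rw [← hc]
  exact card_pos.2 (h.image g)

theorem cert_crown (F : SimpleGraph α) : ∀ (n : ℕ) (X : Finset α), X.card = n →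
    X.Nonempty → ∃ ν τ : ℝ, 0 ≤ ν ∧ 0 ≤ τ ∧ ν + τ + cc F X + 1 ≤ 2 * X.card ∧
      ∀ (W : Type) (R B : SimpleGraph W), Cert F X ν τ R B := by
  intro n
  induction n using Nat.strong_induction_on with
  | _ n ih =>
  intro X hn hne
  by_cases h : 2 * X.card + 1 ≤ 3 * cc F X
  · obtain ⟨T, hT, A, hA, ⟨w, hw⟩, hdis, hno, hcc⟩ := crown F X h
    set X' := (X \ A) \ T with hX'
    have hTA : T ⊆ X \ A := subset_sdiff.2 ⟨hT, hdis⟩
    have c1 : X'.card + T.card = (X \ A).card := card_sdiff_add_card_eq_card hTA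
    have c2 : (X \ A).card + A.card = X.card := card_sdiff_add_card_eq_card hA
    have c3 := card_erase_add_one hw
    have hwX : w ∉ X' := fun h => (mem_sdiff.1 h).2 hw
    obtain ⟨ν, τ, hν, hτ, hs, hC⟩ : ∃ ν τ : ℝ, 0 ≤ ν ∧ 0 ≤ τ ∧ ν + τ + cc F X' ≤ 2 * X'.card ∧
        ∀ (W : Type) (R B : SimpleGraph W), Cert F (insert w X') ν τ R B := by
      by_cases he : X' = ∅
      · refine ⟨0, 0, le_rfl, le_rfl, ?_, fun W R B => ?_⟩
        · obtain ⟨g, -, hc⟩ := cc_spec F X'
          rw [← hc, he]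
          simp
        · rw [he]; exact Cert.single F w R B
      · obtain ⟨ν, τ, hν, hτ, hs, hC⟩ := ih X'.card (by omega) X' rfl (nonempty_iff_ne_empty.2 he)
        exact ⟨ν, τ + 1, hν, by positivity, by linarith, fun W R B =>
          (hC W R B).blue hν hτ hwX fun a ha => hno w hw a (mem_sdiff.1 ha).1⟩
    have e1 : T.erase w ∪ insert w X' = X \ A := by
      rw [union_insert, ← insert_union, insert_erase hw, hX', union_sdiff_of_subset hTA]
    refine ⟨ν + A.card, τ + (T.erase w).card + A.card, by positivity, by positivity, ?_,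
      fun W R B => ?_⟩
    · have k1 : (cc F X : ℝ) ≤ cc F X' + T.card := by exact_mod_cast hcc
      have k2 : (X'.card : ℝ) + T.card + A.card = X.card := by exact_mod_cast (by omega)
      have k3 : ((T.erase w).card : ℝ) + 1 = T.card := by exact_mod_cast c3
      linarith
    · have k1 := (hC W R B).blues hν hτ (T.erase w)
        (by
          rw [disjoint_insert_right]
          exact ⟨notMem_erase _ _, disjoint_of_subset_left (erase_subset _ _) disjoint_sdiff⟩)
        (fun u hu a ha => hno u (mem_of_mem_erase hu) a (e1 ▸ ha))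
      rw [e1] at k1
      have k2 := k1.anys hν (by positivity) A disjoint_sdiff
      rwa [union_sdiff_of_subset hA] at k2
  · have h1 := nordhaus F X
    have h2 := cc_pos F hne
    have h3 := card_pos.2 hne
    obtain ⟨D, hD⟩ : ∃ D, D + cc F X + 1 = 2 * X.card := ⟨2 * X.card - cc F X - 1, by omega⟩
    refine ⟨(D : ℝ) / 2, (D : ℝ) / 2, by positivity, by positivity, ?_, fun W R B =>
      cert_cc (by omega) (by omega) (by omega) (fun h => by omega) R B⟩
    have : (D : ℝ) + cc F X + 1 = 2 * X.card := by exact_mod_cast hD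
    linarith

/-- the general bound -/
theorem cert_general (F : SimpleGraph α) (X : Finset α) (hX : 2 ≤ X.card) :
    ∃ ν τ : ℝ, 0 ≤ ν ∧ 0 ≤ τ ∧ 3 * (ν + τ) ≤ 4 * (X.card - 1) ∧
      ∀ (W : Type) (R B : SimpleGraph W), Cert F X ν τ R B := by
  wlog hle : cc Fᶜ X ≤ cc F X generalizing F
  · obtain ⟨ν, τ, hν, hτ, hs, hC⟩ := this Fᶜ (by rw [compl_compl]; omega)
    exact ⟨τ, ν, hτ, hν, by linarith, fun W R B => (hC W B R).swap⟩
  obtain ⟨ν, τ, hν, hτ, hs, hC⟩ := cert_crown F _ X rfl (card_pos.1 (by omega))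
  by_cases h : 2 * X.card + 1 ≤ 3 * cc F X
  · refine ⟨ν, τ, hν, hτ, ?_, hC⟩
    have : 2 * (X.card : ℝ) + 1 ≤ 3 * cc F X := by exact_mod_cast h
    linarith
  · by_cases h3 : X.card = 3
    · refine ⟨((2 : ℕ) : ℝ) / 2, ((2 : ℕ) : ℝ) / 2, by positivity, by positivity, ?_, fun W R B =>
        cert_cc (by omega) (by omega) (by omega) (fun h => ?_) R B⟩
      · rw [h3]; norm_num
      · rcases h.2 with h' | h' <;> exact absurd (h3 ▸ h'.even) (by decide)
    have h2 : X.card ≠ 2 := by
      intro h2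
      obtain ⟨g, hg, hc⟩ := cc_spec F X
      obtain ⟨g', hg', hc'⟩ := cc_spec Fᶜ X
      obtain ⟨a, b, hab, rfl⟩ := card_eq_two.1 h2
      have k1 : g a = g b :=
        card_le_one.1 (by omega : (image g {a, b}).card ≤ 1) _ (by simp) _ (by simp)
      have k2 : g' a = g' b :=
        card_le_one.1 (by omega : (image g' {a, b}).card ≤ 1) _ (by simp) _ (by simp)
      exact ((F.compl_adj _ _).1 (hg' a (by simp) b (by simp) hab k2)).2
        (hg a (by simp) b (by simp) hab k1)
    obtain ⟨D, hD1, hD2, hD3⟩ : ∃ D, X.card ≤ D ∧ 2 * cc F X ≤ D + 2 ∧ 3 * D + 4 ≤ 4 * X.card :=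
      ⟨max X.card (2 * cc F X - 2), by omega, by omega, by omega⟩
    refine ⟨(D : ℝ) / 2, (D : ℝ) / 2, by positivity, by positivity, ?_, fun W R B =>
      cert_cc (by omega) hD2 (by omega) (fun h => by omega) R B⟩
    have : 3 * (D : ℝ) + 4 ≤ 4 * X.card := by exact_mod_cast hD3
    linarith

end Pool.Agent.P.MP_6dea24_co
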