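import Pool.Agent.P.MP_6dea24_co.Basic

namespace Pool.Agent.P.MP_6dea24_co

open Finset Matrix
open scoped Classical

variable {α V : Type*} [Fintype V]

theorem quad_shift (M : Matrix V V ℝ) (hM : ∀ u v, M u v = M v u) (x : V → ℝ) (u v : V) (t : ℝ) :
    (x + t • (Pi.single u 1 - Pi.single v 1)) ⬝ᵥ (M *ᵥ (x + t • (Pi.single u 1 - Pi.single v 1)))
      = x ⬝ᵥ (M *ᵥ x) + 2 * t * ((M *ᵥ x) u - (M *ᵥ x) v)
        + t ^ 2 * (M u u + M v v - 2 * M u v) := by
  have h1 : ∀ w, x ⬝ᵥ (M *ᵥ (Pi.single w 1)) = (M *ᵥ x) w := by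
    intro w
    rw [mulVec_single_one]
    simp only [dotProduct, mulVec, Matrix.col_apply]
    exact sum_congr rfl fun i _ => by rw [hM i w, mul_comm]
  have h2 : ∀ w z, (Pi.single w (1:ℝ)) ⬝ᵥ (M *ᵥ (Pi.single z 1)) = M w z := by
    intro w z
    simp
  simp only [mulVec_add, mulVec_smul, mulVec_sub, add_dotProduct, dotProduct_add, smul_dotProduct,
    dotProduct_smul, sub_dotProduct, dotProduct_sub, h1, h2, single_one_dotProduct, smul_eq_mul]
  rw [hM v u]
  ring

theorem shift_mem {x : V → ℝ} (hx : x ∈ stdSimplex ℝ V) {u v : V} (huv : u ≠ v) {t : ℝ}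
    (h0 : 0 ≤ t) (ht : t ≤ x v) : x + t • (Pi.single u 1 - Pi.single v 1) ∈ stdSimplex ℝ V := by
  refine ⟨fun w => ?_, ?_⟩
  · have := hx.1 w
    simp only [Pi.add_apply, Pi.smul_apply, Pi.sub_apply, Pi.single_apply, smul_eq_mul]
    split_ifs with h1 h2 h2
    · exact absurd (h1.symm.trans h2) huv
    · linarith
    · subst h2; linarith
    · linarith
  · simp [sum_add_distrib, ← mul_sum, sum_sub_distrib, hx.2]

/-- cost matrix -/
noncomputable def cost (R B : SimpleGraph V) (ν τ : ℝ) : Matrix V V ℝ :=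
  fun u v => ν * (if R.Adj u v then 0 else 1) + τ * (if B.Adj u v then 0 else 1)

theorem cost_mulVec (R B : SimpleGraph V) (ν τ : ℝ) (x : V → ℝ) (s : Finset V)
    (hs : ∀ u, u ∉ s → x u = 0) (v : V) :
    (cost R B ν τ *ᵥ x) v = ν * lack R s x v + τ * lack B s x v := by
  unfold lack
  rw [mul_sum, mul_sum, ← sum_add_distrib]
  simp only [mulVec, dotProduct, cost]
  rw [← sum_subset (subset_univ s) (fun u _ hu => by simp [hs u hu])]
  refine sum_congr rfl fun u _ => ?_
  rw [R.adj_comm v u, B.adj_comm v u]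
  split_ifs <;> ring

theorem quad_ge {F : SimpleGraph α} {X : Finset α} {ν τ : ℝ} {R B : SimpleGraph V}
    (h : Cert F X ν τ R B) (hν : 0 ≤ ν) (hτ : 0 ≤ τ) (hE : ¬ Emb F X R B univ)
    {y : V → ℝ} (hy : y ∈ stdSimplex ℝ V) : 1 ≤ y ⬝ᵥ (cost R B ν τ *ᵥ y) := by
  set M := cost R B ν τ with hMdef
  have hM : ∀ u v, M u v = M v u := by
    intro u v
    simp only [hMdef, cost, R.adj_comm u v, B.adj_comm u v]
  have hdiag : ∀ u, M u u = ν + τ := by
    intro u
    simp [hMdef, cost]
  have hnn : ∀ u v, 0 ≤ M u v := by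
    intro u v
    simp only [hMdef, cost]
    split_ifs <;> linarith
  have hcont : Continuous fun x : V → ℝ => x ⬝ᵥ (M *ᵥ x) := by
    simp only [dotProduct, mulVec]
    fun_prop
  obtain ⟨x0, hx0, hmin0⟩ := (isCompact_stdSimplex ℝ V).exists_isMinOn ⟨y, hy⟩ hcont.continuousOn
  let P : ℕ → Prop := fun n => ∃ x ∈ stdSimplex ℝ V,
    (∀ z ∈ stdSimplex ℝ V, x ⬝ᵥ (M *ᵥ x) ≤ z ⬝ᵥ (M *ᵥ z)) ∧ (univ.filter (fun v => x v ≠ 0)).card = n
  have hP : ∃ n, P n := ⟨_, x0, hx0, fun z hz => hmin0 hz, rfl⟩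
  obtain ⟨x, hx, hmin, hcard⟩ := Nat.find_spec hP
  have hleast : ∀ n, P n → Nat.find hP ≤ n := fun n hn => Nat.find_min' hP hn
  refine le_trans ?_ (hmin y hy)
  by_contra hlt
  push Not at hlt
  set s := univ.filter (fun v => x v ≠ 0) with hsdef
  have hs0 : ∀ u, u ∉ s → x u = 0 := by
    intro u hu
    simpa [hsdef] using hu
  have hpos : ∀ v ∈ s, 0 < x v := by
    intro v hv
    have : x v ≠ 0 := by simpa [hsdef] using hv
    exact lt_of_le_of_ne (hx.1 v) this.symm
  have hsum : ∑ u ∈ s, x u = 1 := by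
    rw [← hx.2]
    exact sum_subset (subset_univ s) (fun u _ hu => hs0 u hu)
  have hne : s.Nonempty := by
    rw [nonempty_iff_ne_empty]
    intro he
    rw [he] at hsum
    simp at hsum
  -- no white pairs
  have hkey : ∀ u ∈ s, ∀ v ∈ s, u ≠ v → M u v = ν + τ → (M *ᵥ x) u ≤ (M *ᵥ x) v → False := by
    intro u hu v hv huv hw hle
    have hmem := shift_mem hx huv (hx.1 v) le_rfl
    have hq := quad_shift M hM x u v (x v)
    rw [hdiag, hdiag, hw] at hq
    have hxv := hx.1 v
    have hP' : P _ := ⟨_, hmem, fun z hz => le_trans (by rw [hq]; nlinarith) (hmin z hz), rfl⟩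
    have h1 := hleast _ hP'
    have h2 : univ.filter (fun w => (x + x v • (Pi.single u 1 - Pi.single v 1) : V → ℝ) w ≠ 0)
        ⊆ s.erase v := by
      intro w hw'
      simp only [mem_filter, mem_univ, true_and, Pi.add_apply, Pi.smul_apply, Pi.sub_apply,
        Pi.single_apply, smul_eq_mul] at hw'
      rw [mem_erase]
      constructor
      · rintro rfl
        simp [huv.symm] at hw'
      · by_contra hws
        have hwu : w ≠ u := fun e => hws (e ▸ hu)
        have hwv : w ≠ v := fun e => hws (e ▸ hv)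
        simp [hwu, hwv, hs0 w hws] at hw'
    have h3 := card_le_card h2
    rw [card_erase_of_mem hv] at h3
    have h4 : 0 < s.card := card_pos.2 hne
    omega
  have hW : NoWhite R B s := by
    intro u hu v hv huv
    by_contra hn
    push Not at hn
    have hw : M u v = ν + τ := by simp [hMdef, cost, hn.1, hn.2]
    rcases le_total ((M *ᵥ x) u) ((M *ᵥ x) v) with hle | hle
    · exact hkey u hu v hv huv hw hle
    · exact hkey v hv u hu huv.symm (by rw [hM, hw]) hle
  have hD : Deg R B s x ν τ := by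
    intro v hv
    rw [← cost_mulVec R B ν τ x s hs0 v, hsum, ← hMdef]
    by_contra hge
    push Not at hge
    obtain ⟨w, hw, hwle⟩ : ∃ w ∈ s, (M *ᵥ x) w < 1 := by
      by_contra hall
      push Not at hall
      have : ∑ u ∈ s, x u ≤ x ⬝ᵥ (M *ᵥ x) := by
        simp only [dotProduct]
        rw [← sum_subset (subset_univ s) (fun u _ hu => by simp [hs0 u hu])]
        refine sum_le_sum fun u hu => ?_
        have := hall u hu
        have := hpos u hu
        nlinarith
      linarith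
    have hwv : w ≠ v := by
      rintro rfl
      linarith
    set δ := (M *ᵥ x) v - (M *ᵥ x) w with hδ
    have hδ0 : 0 < δ := by linarith
    set t := min (x v) (δ / (ν + τ + 1)) with ht
    have ht0 : 0 < t := lt_min (hpos v hv) (by positivity)
    have ht1 : t * (ν + τ + 1) ≤ δ := by
      have : t ≤ δ / (ν + τ + 1) := min_le_right _ _
      rwa [le_div_iff₀ (by positivity)] at this
    have hmem := shift_mem hx hwv ht0.le (min_le_left _ _)
    have hq := quad_shift M hM x w v t
    have h5 := hmin _ hmem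
    rw [hq, hdiag, hdiag] at h5
    have h6 := hnn w v
    have h7 : (M *ᵥ x) w - (M *ᵥ x) v = -δ := by linarith
    rw [h7] at h5
    nlinarith [mul_pos ht0 ht0, mul_nonneg (mul_pos ht0 ht0).le h6]
  exact hE ((h s x hne hpos hW hD).mono Subset.rfl (subset_univ s))

theorem sum_nonadj (R : SimpleGraph V) :
    ∑ u : V, ∑ v : V, (if R.Adj u v then (0:ℝ) else 1)
      = (Fintype.card V : ℝ) ^ 2 - 2 * (R.edgeSet.ncard : ℝ) := by
  have h1 : ∀ u : V, ∑ v : V, (if R.Adj u v then (0:ℝ) else 1)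
      = (Fintype.card V : ℝ) - R.degree u := by
    intro u
    have : (R.degree u : ℝ) = ∑ v : V, (if R.Adj u v then (1:ℝ) else 0) := by
      rw [sum_boole, ← SimpleGraph.card_neighborFinset_eq_degree, SimpleGraph.neighborFinset_eq_filter]
    rw [this, ← card_univ, card_eq_sum_ones, Nat.cast_sum, ← sum_sub_distrib]
    refine sum_congr rfl fun v _ => ?_
    split_ifs <;> simp
  simp only [h1, sum_sub_distrib, sum_const, card_univ, nsmul_eq_mul]
  rw [← Nat.cast_sum, SimpleGraph.sum_degrees_eq_twice_card_edges,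
    Set.ncard_eq_toFinset_card' R.edgeSet]
  push_cast
  rw [sq]
  rfl

/-- the weighted edge bound coming from a certificate -/
theorem edges_le {F : SimpleGraph α} {X : Finset α} {ν τ : ℝ} {R B : SimpleGraph V}
    (h : Cert F X ν τ R B) (hν : 0 ≤ ν) (hτ : 0 ≤ τ) (hE : ¬ Emb F X R B univ) :
    ν * (R.edgeSet.ncard : ℝ) + τ * (B.edgeSet.ncard : ℝ)
      ≤ (ν + τ - 1) * (Fintype.card V : ℝ) ^ 2 / 2 := by
  rcases isEmpty_or_nonempty V with hV | hV
  · have h1 := sum_nonadj R
    have h2 := sum_nonadj B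
    simp only [univ_eq_empty, sum_empty, Fintype.card_eq_zero, Nat.cast_zero] at h1 h2 ⊢
    have h3 : (R.edgeSet.ncard : ℝ) = 0 := by linarith
    have h4 : (B.edgeSet.ncard : ℝ) = 0 := by linarith
    simp [h3, h4]
  · set n : ℝ := (Fintype.card V : ℝ) with hn
    have hn0 : 0 < n := by
      rw [hn]
      exact_mod_cast Fintype.card_pos
    have hy : (fun _ : V => 1 / n) ∈ stdSimplex ℝ V := by
      refine ⟨fun _ => by positivity, ?_⟩
      simp only [sum_const, card_univ, nsmul_eq_mul]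
      rw [← hn]
      field_simp
    have hq := quad_ge h hν hτ hE hy
    have h1 := sum_nonadj R
    have h2 := sum_nonadj B
    have h3 : (fun _ : V => 1 / n) ⬝ᵥ (cost R B ν τ *ᵥ fun _ : V => 1 / n)
        = (ν * (n ^ 2 - 2 * (R.edgeSet.ncard : ℝ)) + τ * (n ^ 2 - 2 * (B.edgeSet.ncard : ℝ))) / n ^ 2 := by
      rw [← hn] at h1 h2
      rw [← h1, ← h2]
      simp only [dotProduct, mulVec, cost, mul_sum, ← sum_add_distrib, sum_div]
      refine sum_congr rfl fun u _ => sum_congr rfl fun v _ => ?_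
      field_simp
    rw [h3, le_div_iff₀ (by positivity)] at hq
    nlinarith

end Pool.Agent.P.MP_6dea24_co
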