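import Pool.Agent.P.MP_6dea24_co.Crown
import Pool.Agent.P.MP_6dea24_co.Bal
import Pool.Agent.P.MP_6dea24_co.Reduce

namespace Pool.Agent.P.MP_6dea24_co

open Finset
open scoped Classical

variable {α V : Type*}

theorem contains_of_emb [Fintype α] [Fintype V] {F : SimpleGraph α} {R B : SimpleGraph V}
    (h : Emb F univ R B univ) : ∃ φ : α → V, Function.Injective φ ∧
      (∀ u v, F.Adj u v → R.Adj (φ u) (φ v)) ∧ (∀ u v, Fᶜ.Adj u v → B.Adj (φ u) (φ v)) := by
  obtain ⟨φ, -, h⟩ := h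
  refine ⟨φ, fun a b hab => ?_, fun u v huv => (h u (mem_univ _) v (mem_univ _) huv.ne).1 huv,
    fun u v huv => (h u (mem_univ _) v (mem_univ _) huv.ne).2 ((F.compl_adj _ _).1 huv).2⟩
  by_contra hne
  have := h a (mem_univ _) b (mem_univ _) hne
  by_cases hF : F.Adj a b
  · exact (this.1 hF).ne hab
  · exact (this.2 hF).ne hab

/-- from a family of certificates of total at most `D` to the weighted bound -/
theorem bound_of_cert [Fintype α] {F : SimpleGraph α} {ν τ D : ℝ} (hν : 0 ≤ ν) (hτ : 0 ≤ τ)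
    (hD : ν + τ ≤ D) (hD0 : 0 < D)
    (h : ∀ (W : Type) (R B : SimpleGraph W), Cert F univ ν τ R B) :
    ∃ p : ℝ, 0 ≤ p ∧ p ≤ 1 ∧ ∀ (n : ℕ) (R B : SimpleGraph (Fin n)),
      ¬ (∃ φ : α → Fin n, Function.Injective φ ∧ (∀ u v, F.Adj u v → R.Adj (φ u) (φ v)) ∧
        (∀ u v, Fᶜ.Adj u v → B.Adj (φ u) (φ v))) →
      p * (R.edgeSet.ncard : ℝ) + (1 - p) * (B.edgeSet.ncard : ℝ) ≤ (1 - 1 / D) * (n : ℝ) ^ 2 / 2 := by
  refine ⟨ν / D, by positivity, by rw [div_le_one hD0]; linarith, fun n R B hc => ?_⟩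
  have h1 := edges_le ((h _ R B).mono Subset.rfl le_rfl (by linarith : τ ≤ D - ν)) hν (by linarith)
    (fun hE => hc (contains_of_emb hE))
  rw [Fintype.card_fin] at h1
  have h2 : ν / D * (R.edgeSet.ncard : ℝ) + (1 - ν / D) * (B.edgeSet.ncard : ℝ)
      = (ν * (R.edgeSet.ncard : ℝ) + (D - ν) * (B.edgeSet.ncard : ℝ)) / D := by
    field_simp
  have h3 : (1 - 1 / D) * (n : ℝ) ^ 2 / 2 = ((ν + (D - ν) - 1) * (n : ℝ) ^ 2 / 2) / D := by
    field_simp
    ring
  rw [h2, h3]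
  exact div_le_div_of_nonneg_right h1 hD0.le

theorem min_le_comb {a b p : ℝ} (h0 : 0 ≤ p) (h1 : p ≤ 1) : min a b ≤ p * a + (1 - p) * b := by
  have h2 := min_le_left a b
  have h3 := min_le_right a b
  nlinarith

theorem cc_le_of_colorable {F : SimpleGraph α} {X : Finset α} {c : ℕ}
    (h : (Fᶜ.induce (X : Set α)).Colorable c) : cc F X ≤ c := by
  obtain ⟨C⟩ := h
  have hcov : Cov F X (fun a => if ha : a ∈ X then (C ⟨a, ha⟩ : ℕ) else 0) := by
    intro a ha b hb hab he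
    simp only [ha, hb, dite_true] at he
    by_contra hn
    exact C.valid (v := ⟨a, ha⟩) (w := ⟨b, hb⟩) ((F.compl_adj _ _).2 ⟨hab, hn⟩) (Fin.ext he)
  refine (cc_le hcov).trans ?_
  have : X.image (fun a => if ha : a ∈ X then (C ⟨a, ha⟩ : ℕ) else 0) ⊆ range c := by
    intro d hd
    obtain ⟨a, ha, rfl⟩ := mem_image.1 hd
    simp only [ha, dite_true]
    exact mem_range.2 (C ⟨a, ha⟩).2
  simpa using card_le_card this

theorem card_lt_fin {k j : ℕ} (hj : j ≤ k) :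
    (univ.filter (fun u : Fin k => u.val < j)).card = j := by
  rw [Fin.card_filter_val_lt]
  omega

theorem cert_chain {k j : ℕ} (F : SimpleGraph (Fin k)) {ν0 τ0 : ℝ} (hν0 : 0 ≤ ν0)
    (hτ0 : 0 ≤ τ0) (hs0 : ν0 + τ0 + 1 ≤ j)
    (h0 : ∀ (W : Type) (R B : SimpleGraph W),
      Cert F (univ.filter (fun u : Fin k => u.val < j)) ν0 τ0 R B)
    (hu : ∀ v : Fin k, j ≤ v.val → (∀ u < v, F.Adj v u) ∨ (∀ u < v, ¬ F.Adj v u)) :
    ∀ i, j ≤ i → i ≤ k → ∃ ν τ : ℝ, 0 ≤ ν ∧ 0 ≤ τ ∧ ν + τ + 1 ≤ i ∧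
      ∀ (W : Type) (R B : SimpleGraph W),
        Cert F (univ.filter (fun u : Fin k => u.val < i)) ν τ R B := by
  intro i hi
  induction i, hi using Nat.le_induction with
  | base => exact fun _ => ⟨ν0, τ0, hν0, hτ0, hs0, h0⟩
  | succ i hi ih =>
    intro hik
    obtain ⟨ν, τ, hν, hτ, hs, hC⟩ := ih (by omega)
    obtain ⟨v, hvi⟩ : ∃ v : Fin k, v.val = i := ⟨⟨i, hik⟩, rfl⟩
    have hv : v ∉ univ.filter (fun u : Fin k => u.val < i) := by simp [hvi]
    have hlt : ∀ a ∈ univ.filter (fun u : Fin k => u.val < i), a < v := by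
      intro a ha
      rw [Fin.lt_def, hvi]
      exact (mem_filter.1 ha).2
    rcases hu v (by omega) with h | h
    · refine ⟨ν + 1, τ, by positivity, hτ, by push_cast; linarith, fun W R B =>
        ((hC W R B).red hν hτ hv fun a ha => h a (hlt a ha)).mono ?_ le_rfl le_rfl⟩
      intro u hu
      simp only [mem_filter, mem_univ, true_and, mem_insert, Fin.ext_iff] at hu ⊢
      omega
    · refine ⟨ν, τ + 1, hν, by positivity, by push_cast; linarith, fun W R B =>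
        ((hC W R B).blue hν hτ hv fun a ha => h a (hlt a ha)).mono ?_ le_rfl le_rfl⟩
      intro u hu
      simp only [mem_filter, mem_univ, true_and, mem_insert, Fin.ext_iff] at hu ⊢
      omega

end Pool.Agent.P.MP_6dea24_co
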