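import Mathlib

namespace Pool.Agent.P.MP_6dea24_co

open Finset
open scoped Classical

variable {α ι : Type*}

/-- the piece `Y` fits in cluster `i` -/
def Ok (F : SimpleGraph α) (cr cb : ι → ℕ) (Y : Finset α) (i : ι) : Prop :=
  (F.IsClique Y ∧ Y.card ≤ cr i) ∨ (Fᶜ.IsClique Y ∧ Y.card ≤ cb i)

/-- `X` can be split into pieces fitting in distinct clusters of `I` -/
inductive Host (F : SimpleGraph α) (cr cb : ι → ℕ) : Finset α → Finset ι → Prop
  | nil (I : Finset ι) : Host F cr cb ∅ I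
  | step (X : Finset α) (I : Finset ι) (Y : Finset α) (i : ι) : i ∈ I → Ok F cr cb Y i →
      Host F cr cb (X \ Y) (I.erase i) → Host F cr cb X I

variable {F : SimpleGraph α} {cr cb : ι → ℕ}

theorem Host.swap {X : Finset α} {I : Finset ι} (h : Host Fᶜ cb cr X I) : Host F cr cb X I := by
  induction h with
  | nil I => exact Host.nil I
  | step X I Y i hi hY _ ih =>
    refine Host.step X I Y i hi ?_ ih
    unfold Ok at hY ⊢
    rw [compl_compl] at hY
    exact hY.symm

theorem Host.mono {X : Finset α} {I : Finset ι} (h : Host F cr cb X I) :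
    ∀ {X' : Finset α} {I' : Finset ι}, X' ⊆ X → I ⊆ I' → Host F cr cb X' I' := by
  induction h with
  | nil I =>
    intro X' I' h1 _
    rw [subset_empty.1 h1]
    exact Host.nil I'
  | step X I Y i hi hY _ ih =>
    intro X' I' h1 h2
    exact Host.step X' I' Y i (h2 hi) hY (ih (sdiff_subset_sdiff h1 Subset.rfl) (erase_subset_erase _ h2))

theorem Host.singles : ∀ (n : ℕ) (X : Finset α) (I : Finset ι), X.card = n →
    (∀ i ∈ I, 1 ≤ cr i) → X.card ≤ I.card → Host F cr cb X I := by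
  intro n
  induction n with
  | zero =>
    intro X I h _ _
    rw [card_eq_zero.1 h]
    exact Host.nil I
  | succ n ih =>
    intro X I h h1 h2
    obtain ⟨a, ha⟩ : X.Nonempty := card_pos.1 (by omega)
    obtain ⟨i, hi⟩ : I.Nonempty := card_pos.1 (by omega)
    refine Host.step X I {a} i hi (Or.inl ⟨by simp, by simpa using h1 i hi⟩) ?_
    have h3 : (X \ {a}).card = n := by
      rw [sdiff_singleton_eq_erase, card_erase_of_mem ha]; omega
    refine ih _ _ h3 (fun j hj => h1 j (mem_of_mem_erase hj)) ?_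
    rw [card_erase_of_mem hi]; omega

/-- matchings -/
structure Mat (F : SimpleGraph α) (X : Finset α) (M : Finset (Finset α)) : Prop where
  sub : ∀ Y ∈ M, Y ⊆ X
  two : ∀ Y ∈ M, Y.card = 2
  cl : ∀ Y ∈ M, F.IsClique Y
  dis : ∀ Y ∈ M, ∀ Z ∈ M, Y ≠ Z → Disjoint Y Z

/-- there is a matching of size `n` -/
def RM (F : SimpleGraph α) (X : Finset α) (n : ℕ) : Prop := ∃ M, Mat F X M ∧ M.card = n

theorem Mat.mono {X X' : Finset α} {M M' : Finset (Finset α)} (h : Mat F X M) (hX : X ⊆ X')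
    (hM : M' ⊆ M) : Mat F X' M' :=
  ⟨fun Y hY => (h.sub Y (hM hY)).trans hX, fun Y hY => h.two Y (hM hY), fun Y hY => h.cl Y (hM hY),
    fun Y hY Z hZ => h.dis Y (hM hY) Z (hM hZ)⟩

theorem Mat.insert {X Y : Finset α} {M : Finset (Finset α)} (h : Mat F X M) (h1 : Y ⊆ X)
    (h2 : Y.card = 2) (h3 : F.IsClique Y) (h4 : ∀ Z ∈ M, Disjoint Y Z) :
    Mat F X (insert Y M) ∧ (insert Y M).card = M.card + 1 := by
  have hn : Y ∉ M := fun hY => by
    have := h4 Y hY
    rw [disjoint_self, bot_eq_empty] at this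
    simp [this] at h2
  refine ⟨⟨?_, ?_, ?_, ?_⟩, card_insert_of_notMem hn⟩
  · intro Z hZ
    rcases mem_insert.1 hZ with rfl | hZ
    exacts [h1, h.sub Z hZ]
  · intro Z hZ
    rcases mem_insert.1 hZ with rfl | hZ
    exacts [h2, h.two Z hZ]
  · intro Z hZ
    rcases mem_insert.1 hZ with rfl | hZ
    exacts [h3, h.cl Z hZ]
  · intro Z hZ W hW hne
    rcases mem_insert.1 hZ with hZ | hZ <;> rcases mem_insert.1 hW with hW | hW
    · exact absurd (hZ.trans hW.symm) hne
    · rw [hZ]; exact h4 W hW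
    · rw [hW]; exact (h4 Z hZ).symm
    · exact h.dis Z hZ W hW hne

theorem Mat.card_cov {X : Finset α} {M : Finset (Finset α)} (h : Mat F X M) :
    (M.biUnion id).card = 2 * M.card := by
  rw [card_biUnion (t := id) (fun Y hY Z hZ hne => h.dis Y hY Z hZ hne)]
  simp only [id]
  rw [sum_congr rfl (fun Y hY => h.two Y hY), sum_const, smul_eq_mul, mul_comm]

theorem Mat.cov_sub {X : Finset α} {M : Finset (Finset α)} (h : Mat F X M) :
    M.biUnion id ⊆ X := biUnion_subset.2 fun Y hY => h.sub Y hY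

theorem RM.zero (X : Finset α) : RM F X 0 := ⟨∅, ⟨by simp, by simp, by simp, by simp⟩, rfl⟩

theorem RM.mono {X X' : Finset α} {n n' : ℕ} (h : RM F X n) (hX : X ⊆ X') (hn : n' ≤ n) :
    RM F X' n' := by
  obtain ⟨M, hM, rfl⟩ := h
  obtain ⟨M', h1, h2⟩ := exists_subset_card_eq hn
  exact ⟨M', hM.mono hX h1, h2⟩

theorem RM.succ {X Y : Finset α} {n : ℕ} (h : RM F (X \ Y) n) (h1 : Y ⊆ X)
    (h2 : 2 ≤ Y.card) (h3 : F.IsClique Y) : RM F X (n + 1) := by
  obtain ⟨M, hM, rfl⟩ := h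
  obtain ⟨Y', h4, h5⟩ := exists_subset_card_eq h2
  refine ⟨_, (hM.mono sdiff_subset Subset.rfl).insert (h4.trans h1) h5
    (h3.subset (coe_subset.2 h4)) fun Z hZ => ?_⟩
  exact disjoint_of_subset_left h4 (disjoint_of_subset_right (hM.sub Z hZ) disjoint_sdiff)

theorem clique_pair {u v : α} (h : F.Adj u v) : F.IsClique ({u, v} : Finset α) := by
  rw [coe_pair]
  exact SimpleGraph.isClique_pair.2 fun _ => h

theorem clique_pair' {u v : α} (h : ¬ F.Adj u v) : Fᶜ.IsClique ({u, v} : Finset α) := by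
  rw [coe_pair]
  exact SimpleGraph.isClique_pair.2 fun hne => by simp [SimpleGraph.compl_adj, h, hne]

theorem exists_split (X : Finset α) (E : ℕ) (h : 2 * E ≤ X.card) :
    ∃ a b, a + b = E ∧ RM F X a ∧ RM Fᶜ X b := by
  induction E generalizing X with
  | zero => exact ⟨0, 0, rfl, RM.zero X, RM.zero X⟩
  | succ E ih =>
    obtain ⟨u, hu, v, hv, huv⟩ := one_lt_card.1 (by omega : 1 < X.card)
    have hsub : ({u, v} : Finset α) ⊆ X := by
      intro w hw
      rcases mem_insert.1 hw with rfl | hw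
      · exact hu
      · rw [mem_singleton.1 hw]; exact hv
    have hc : ({u, v} : Finset α).card = 2 := card_pair huv
    obtain ⟨a, b, hab, ha, hb⟩ := ih (X \ {u, v}) (by rw [card_sdiff_of_subset hsub]; omega)
    by_cases hF : F.Adj u v
    · exact ⟨a + 1, b, by omega, ha.succ hsub hc.ge (clique_pair hF), hb.mono sdiff_subset le_rfl⟩
    · exact ⟨a, b + 1, by omega, ha.mono sdiff_subset le_rfl, hb.succ hsub hc.ge (clique_pair' hF)⟩

theorem host_pairs (M : Finset (Finset α)) :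
    ∀ (X : Finset α) (I Ia : Finset ι), Mat F X M → Ia ⊆ I → Ia.card = M.card →
      (∀ i ∈ Ia, 2 ≤ cr i) → Host F cr cb (X \ M.biUnion id) (I \ Ia) → Host F cr cb X I := by
  induction M using Finset.induction_on with
  | empty =>
    intro X I Ia _ _ h _ hH
    simp only [card_empty, card_eq_zero] at h
    simpa [h] using hH
  | insert Y M hY ih =>
    intro X I Ia hM hI hc h2 hH
    rw [card_insert_of_notMem hY] at hc
    obtain ⟨i, hi⟩ : Ia.Nonempty := card_pos.1 (by omega)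
    refine Host.step X I Y i (hI hi) (Or.inl ⟨hM.cl Y (mem_insert_self _ _), ?_⟩) ?_
    · rw [hM.two Y (mem_insert_self _ _)]
      exact h2 i hi
    · refine ih (X \ Y) (I.erase i) (Ia.erase i) ?_ (erase_subset_erase _ hI) ?_
        (fun j hj => h2 j (mem_of_mem_erase hj)) (hH.mono ?_ ?_)
      · refine ⟨fun Z hZ => ?_, fun Z hZ => hM.two Z (mem_insert_of_mem hZ),
          fun Z hZ => hM.cl Z (mem_insert_of_mem hZ),
          fun Z hZ W hW => hM.dis Z (mem_insert_of_mem hZ) W (mem_insert_of_mem hW)⟩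
        exact subset_sdiff.2 ⟨hM.sub Z (mem_insert_of_mem hZ),
          hM.dis Z (mem_insert_of_mem hZ) Y (mem_insert_self _ _) (fun e => hY (e ▸ hZ))⟩
      · rw [card_erase_of_mem hi]; omega
      · intro a ha
        simp only [mem_sdiff, biUnion_insert, mem_union, id] at ha ⊢
        tauto
      · intro j hj
        simp only [mem_sdiff, mem_erase] at hj ⊢
        refine ⟨⟨fun e => hj.2 (e ▸ hi), hj.1⟩, fun h => hj.2 h.2⟩

theorem host_two {X : Finset α} {I Ia Ib : Finset ι} {M N : Finset (Finset α)} (hM : Mat F X M)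
    (hN : Mat Fᶜ X N) (hd : Disjoint (M.biUnion id) (N.biUnion id)) (ha : Ia ⊆ I) (hb : Ib ⊆ I)
    (hab : Disjoint Ia Ib) (ca : Ia.card = M.card) (cb' : Ib.card = N.card)
    (ra : ∀ i ∈ Ia, 2 ≤ cr i) (rb : ∀ i ∈ Ib, 2 ≤ cb i)
    (hH : Host F cr cb ((X \ M.biUnion id) \ N.biUnion id) ((I \ Ia) \ Ib)) : Host F cr cb X I := by
  refine host_pairs M X I Ia hM ha ca ra (Host.swap ?_)
  refine host_pairs N _ _ Ib ?_ (subset_sdiff.2 ⟨hb, hab.symm⟩) cb' rb ?_
  · refine ⟨fun Y hY => subset_sdiff.2 ⟨hN.sub Y hY, ?_⟩, hN.two, hN.cl, hN.dis⟩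
    exact disjoint_of_subset_left (subset_biUnion_of_mem id hY) hd.symm
  · apply Host.swap
    simpa using hH

theorem exists_two_subsets {A B : Finset ι} {a b : ℕ} (ha : a ≤ A.card) (hb : b ≤ B.card)
    (hab : a + b ≤ (A ∪ B).card) :
    ∃ Ia Ib, Ia ⊆ A ∧ Ib ⊆ B ∧ Disjoint Ia Ib ∧ Ia.card = a ∧ Ib.card = b := by
  have h1 : (A \ B).card + B.card = (A ∪ B).card := card_sdiff_add_card A B
  by_cases h : a ≤ (A \ B).card
  · obtain ⟨Ia, h2, h3⟩ := exists_subset_card_eq h
    obtain ⟨Ib, h4, h5⟩ := exists_subset_card_eq hb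
    exact ⟨Ia, Ib, h2.trans sdiff_subset, h4,
      disjoint_of_subset_left h2 (disjoint_of_subset_right h4 sdiff_disjoint), h3, h5⟩
  · obtain ⟨Ia, h2, h3, h4⟩ := exists_subsuperset_card_eq (sdiff_subset : A \ B ⊆ A)
      (by omega : (A \ B).card ≤ a) ha
    have h5 : (B \ Ia).card + Ia.card = (B ∪ Ia).card := card_sdiff_add_card B Ia
    have h6 : A ∪ B ⊆ B ∪ Ia := by
      intro i hi
      by_cases hiB : i ∈ B
      · exact mem_union_left _ hiB
      · exact mem_union_right _ (h2 (mem_sdiff.2 ⟨(mem_union.1 hi).resolve_right hiB, hiB⟩))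
    have h7 := card_le_card h6
    obtain ⟨Ib, h8, h9⟩ := exists_subset_card_eq (by omega : b ≤ (B \ Ia).card)
    exact ⟨Ia, Ib, h3, h8.trans sdiff_subset,
      disjoint_of_subset_right h8 disjoint_sdiff, h4, h9⟩

/-- replacing an edge through a shared vertex by an uncovered pair -/
theorem reduce_overlap {X C : Finset α} {M : Finset (Finset α)} (hM : Mat F X M) {u z z' : α}
    (hu : u ∈ M.biUnion id ∩ C) (hz : z ∈ X) (hz' : z' ∈ X) (hzz : F.Adj z z')
    (h1 : z ∉ M.biUnion id ∪ C) (h2 : z' ∉ M.biUnion id ∪ C) :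
    ∃ M', Mat F X M' ∧ M'.card = M.card ∧ (M'.biUnion id ∩ C).card < (M.biUnion id ∩ C).card := by
  obtain ⟨Y, hY, huY⟩ := mem_biUnion.1 (mem_inter.1 hu).1
  have hins := (hM.mono Subset.rfl (erase_subset Y M)).insert (Y := {z, z'})
    (insert_subset hz (singleton_subset_iff.2 hz')) (card_pair hzz.ne) (clique_pair hzz)
    (fun Z hZ => by
      rw [disjoint_left]
      intro a ha haZ
      have : a ∈ M.biUnion id ∪ C :=
        mem_union_left _ (mem_biUnion.2 ⟨Z, mem_of_mem_erase hZ, haZ⟩)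
      rcases mem_insert.1 ha with rfl | ha
      · exact h1 this
      · rw [mem_singleton.1 ha] at this; exact h2 this)
  refine ⟨_, hins.1, ?_, ?_⟩
  · rw [hins.2, card_erase_of_mem hY]
    have : 0 < M.card := card_pos.2 ⟨Y, hY⟩
    omega
  · have hsub : (insert {z, z'} (M.erase Y)).biUnion id ∩ C ⊆ (M.biUnion id ∩ C).erase u := by
      intro a ha
      obtain ⟨ha1, ha2⟩ := mem_inter.1 ha
      obtain ⟨Z, hZ, haZ⟩ := mem_biUnion.1 ha1
      rcases mem_insert.1 hZ with rfl | hZ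
      · exfalso
        rcases mem_insert.1 haZ with rfl | haZ
        · exact h1 (mem_union_right _ ha2)
        · rw [mem_singleton.1 haZ] at ha2; exact h2 (mem_union_right _ ha2)
      · refine mem_erase.2 ⟨?_, mem_inter.2 ⟨mem_biUnion.2 ⟨Z, mem_of_mem_erase hZ, haZ⟩, ha2⟩⟩
        rintro rfl
        exact disjoint_left.1 (hM.dis Z (mem_of_mem_erase hZ) Y hY (ne_of_mem_erase hZ)) haZ huY
    exact lt_of_le_of_lt (card_le_card hsub) (card_erase_lt_of_mem hu)

theorem mixed {X : Finset α} {a b : ℕ} (ha : RM F X a) (hb : RM Fᶜ X b) :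
    ∃ M N, Mat F X M ∧ Mat Fᶜ X N ∧ M.card = a ∧ N.card = b ∧
      (Disjoint (M.biUnion id) (N.biUnion id) ∨
        X.card + (M.biUnion id ∩ N.biUnion id).card ≤ 2 * (a + b) + 1) := by
  obtain ⟨M0, hM0, ca0⟩ := ha
  obtain ⟨N0, hN0, cb0⟩ := hb
  have key : ∀ n, ∀ M N, Mat F X M → Mat Fᶜ X N → M.card = a → N.card = b →
      (M.biUnion id ∩ N.biUnion id).card = n →
      ∃ M N, Mat F X M ∧ Mat Fᶜ X N ∧ M.card = a ∧ N.card = b ∧
      (Disjoint (M.biUnion id) (N.biUnion id) ∨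
        X.card + (M.biUnion id ∩ N.biUnion id).card ≤ 2 * (a + b) + 1) := by
    intro n
    induction n using Nat.strong_induction_on with
    | _ n ih =>
      intro M N hM hN ca cb hn
      by_cases hd : Disjoint (M.biUnion id) (N.biUnion id)
      · exact ⟨M, N, hM, hN, ca, cb, Or.inl hd⟩
      by_cases hs : X.card + (M.biUnion id ∩ N.biUnion id).card ≤ 2 * (a + b) + 1
      · exact ⟨M, N, hM, hN, ca, cb, Or.inr hs⟩
      obtain ⟨u, hu⟩ : (M.biUnion id ∩ N.biUnion id).Nonempty :=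
        not_disjoint_iff_nonempty_inter.1 hd
      have h1 := card_union_add_card_inter (M.biUnion id) (N.biUnion id)
      rw [hM.card_cov, hN.card_cov] at h1
      have h2 := card_sdiff_of_subset (union_subset hM.cov_sub hN.cov_sub)
      obtain ⟨z, hz, z', hz', hzz⟩ :=
        one_lt_card.1 (by omega : 1 < (X \ (M.biUnion id ∪ N.biUnion id)).card)
      rw [mem_sdiff] at hz hz'
      by_cases hF : F.Adj z z'
      · obtain ⟨M', hM', c1, c2⟩ := reduce_overlap hM hu hz.1 hz'.1 hF hz.2 hz'.2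
        exact ih _ (hn ▸ c2) M' N hM' hN (c1.trans ca) cb rfl
      · rw [inter_comm] at hu
        rw [union_comm] at hz hz'
        obtain ⟨N', hN', c1, c2⟩ := reduce_overlap hN hu hz.1 hz'.1
          (by simp [SimpleGraph.compl_adj, hF, hzz]) hz.2 hz'.2
        rw [inter_comm, inter_comm (N.biUnion id)] at c2
        exact ih _ (hn ▸ c2) M N' hM hN' ca (c1.trans cb) rfl
  exact key _ M0 N0 hM0 hN0 ca0 cb0 rfl

end Pool.Agent.P.MP_6dea24_co
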