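import Pool.Agent.P.MP_6dea24_co.Beta3
import Pool.Agent.P.MP_6dea24_co.Alpha

namespace Pool.Agent.P.MP_6dea24_co

open Finset
open scoped Classical

variable {α ι : Type*} {F : SimpleGraph α} {cr cb : ι → ℕ}

theorem cnt_le (c : ι → ℕ) (I : Finset ι) (J : ℕ) : cnt c I J ≤ I.card := card_filter_le _ _

theorem alpha_case {X : Finset α} {I : Finset ι} {sz : ι → ℕ} {D : ℕ} {g : α → ℕ}
    (h1 : ∀ i ∈ I, 1 ≤ cr i) (hs1 : ∀ i ∈ I, sz i ≤ cr i ∨ 2 ≤ cb i)
    (hD : ∀ J, 1 ≤ J → D * (J + 1) < 2 * (J * I.card + cnt sz I (J + 1)))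
    (hX : X.card ≤ D + 1) (hg : Cov F X g) (hN : 2 * (X.image g).card ≤ D + 2)
    (hlt : cnt cb I 2 + I.card < X.card) (hR : ¬ RM F X (X.card - I.card - cnt cb I 2)) :
    Host F cr cb X I := by
  set K := I.filter (fun i => 2 ≤ cb i) with hK
  have hKc : K.card = cnt cb I 2 := rfl
  have hA : ∀ J, cnt sz I J ≤ cnt cr (I \ K) J + K.card := by
    intro J
    unfold cnt
    refine le_trans (card_le_card ?_) (card_union_le _ _)
    intro i hi
    have hi' := mem_filter.1 hi
    by_cases hiK : i ∈ K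
    · exact mem_union_right _ hiK
    · refine mem_union_left _ (mem_filter.2 ⟨mem_sdiff.2 ⟨hi'.1, hiK⟩, ?_⟩)
      rcases hs1 i hi'.1 with h | h
      · omega
      · exact absurd (mem_filter.2 ⟨hi'.1, h⟩) hiK
  have hm := hD 1 le_rfl
  have hm' := cnt_le sz I (1 + 1)
  have hA2 := hA (1 + 1)
  obtain ⟨μ, hμ⟩ : ∃ μ, X.card = I.card + K.card + μ + 1 :=
    ⟨X.card - I.card - K.card - 1, by omega⟩
  have hR' : ¬ RM F X (μ + 1) := by
    have : X.card - I.card - cnt cb I 2 = μ + 1 := by omega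
    rwa [this] at hR
  refine host_alpha μ (min K.card ((X.image g).card - μ - 1)) g X I K hg h1 (filter_subset _ _)
    (fun i hi => (mem_filter.1 hi).2) (min_le_left _ _) (by omega) ?_ hR' (by norm_num at hA2 hm; omega)
    (by omega)
  intro J hJ
  have h2 := hD J (by omega)
  have h3 := hA (J + 1)
  obtain ⟨j, rfl⟩ : ∃ j, J = j + 2 := ⟨J - 2, by omega⟩
  set N := (X.image g).card
  set e := cnt sz I (j + 2 + 1)
  set A := cnt cr (I \ K) (j + 2 + 1)
  set m := I.card
  have key : ∀ T : ℕ, 2 * T ≤ (j + 3) * (D + 2) → T ≤ e + (j + 2) * (m + 1) := by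
    intro T hT
    have : 2 * T ≤ 2 * (e + (j + 2) * (m + 1)) + 1 := by nlinarith
    omega
  rcases le_total K.card (N - μ - 1) with h | h
  · rw [min_eq_left h]
    have := key (X.card + 1 + (j + 1) * N) (by nlinarith)
    nlinarith
  · rw [min_eq_right h]
    have h4 : 2 * (K.card + μ + 1) ≤ D + 2 := by omega
    have h5 : N ≤ K.card + μ + 1 := by omega
    have h6 : j * N ≤ j * (K.card + μ + 1) := Nat.mul_le_mul_left _ h5
    have := key (X.card + 1 + (j + 1) * (K.card + μ + 1)) (by nlinarith)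
    have h7 : N ≤ (N - μ - 1) + μ + 1 := by omega
    nlinarith

theorem quad_of_overlap {X : Finset α} {M N : Finset (Finset α)} (hM : Mat F X M)
    (hN : Mat Fᶜ X N) (h1 : (M.biUnion id ∩ N.biUnion id).card = 1)
    (hX : X.card = 2 * (M.card + N.card)) :
    ∃ u v w z : α, ({u, v} : Finset α) ∈ M ∧ ({u, w} : Finset α) ∈ N ∧ z ∈ X ∧
      F.Adj u v ∧ Fᶜ.Adj u w ∧ v ≠ w ∧ z ≠ u ∧ z ≠ v ∧ z ≠ w ∧
      (∀ p ∈ ({u, v, w, z} : Finset α), p ∉ (M.erase {u, v}).biUnion id ∧
        p ∉ (N.erase {u, w}).biUnion id) ∧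
      X ⊆ {u, v, w, z} ∪ ((M.erase {u, v}).biUnion id ∪ (N.erase {u, w}).biUnion id) := by
  obtain ⟨u, hu⟩ := card_eq_one.1 h1
  have huniq : ∀ p, p ∈ M.biUnion id → p ∈ N.biUnion id → p = u := fun p h h' =>
    mem_singleton.1 (hu ▸ mem_inter.2 ⟨h, h'⟩)
  have hu' : u ∈ M.biUnion id ∩ N.biUnion id := by rw [hu]; simp
  have part : ∀ {G : SimpleGraph α} {L : Finset (Finset α)}, Mat G X L → u ∈ L.biUnion id →
      ∃ v, ({u, v} : Finset α) ∈ L ∧ G.Adj u v := by
    intro G L hL h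
    obtain ⟨Y, hY, huY⟩ := mem_biUnion.1 h
    obtain ⟨a, b, hab, rfl⟩ := card_eq_two.1 (hL.two Y hY)
    have hadj : G.Adj a b := hL.cl _ hY (by simp) (by simp) hab
    rcases mem_insert.1 huY with rfl | h
    · exact ⟨b, hY, hadj⟩
    · rw [mem_singleton.1 h]
      exact ⟨a, by rwa [pair_comm], hadj.symm⟩
  obtain ⟨v, hv, huv⟩ := part hM (mem_inter.1 hu').1
  obtain ⟨w, hw, huw⟩ := part hN (mem_inter.1 hu').2
  have c1 := card_union_add_card_inter (M.biUnion id) (N.biUnion id)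
  rw [hM.card_cov, hN.card_cov] at c1
  have c2 := card_sdiff_of_subset (union_subset hM.cov_sub hN.cov_sub)
  obtain ⟨z, hz⟩ := card_eq_one.1 (by omega : (X \ (M.biUnion id ∪ N.biUnion id)).card = 1)
  have hz' : z ∈ X \ (M.biUnion id ∪ N.biUnion id) := by rw [hz]; simp
  rw [mem_sdiff, mem_union, not_or] at hz'
  have vM : v ∈ M.biUnion id := mem_biUnion.2 ⟨_, hv, by simp⟩
  have wN : w ∈ N.biUnion id := mem_biUnion.2 ⟨_, hw, by simp⟩
  have sM : (M.erase {u, v}).biUnion id ⊆ M.biUnion id :=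
    biUnion_subset_biUnion_of_subset_left _ (erase_subset _ _)
  have sN : (N.erase {u, w}).biUnion id ⊆ N.biUnion id :=
    biUnion_subset_biUnion_of_subset_left _ (erase_subset _ _)
  have own : ∀ {G : SimpleGraph α} {L : Finset (Finset α)} {Y : Finset α}, Mat G X L → Y ∈ L →
      ∀ p ∈ Y, p ∉ (L.erase Y).biUnion id := by
    intro G L Y hL hY p hp h
    obtain ⟨Z, hZ, hpZ⟩ := mem_biUnion.1 h
    exact disjoint_left.1 (hL.dis Z (mem_of_mem_erase hZ) Y hY (ne_of_mem_erase hZ)) hpZ hp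
  refine ⟨u, v, w, z, hv, hw, hz'.1, huv, huw, ?_, ?_, ?_, ?_, ?_, ?_⟩
  · rintro rfl
    exact ((F.compl_adj _ _).1 huw).2 huv
  · rintro rfl
    exact hz'.2.1 (mem_inter.1 hu').1
  · rintro rfl
    exact hz'.2.1 vM
  · rintro rfl
    exact hz'.2.2 wN
  · intro p hp
    simp only [mem_insert, mem_singleton] at hp
    rcases hp with rfl | rfl | rfl | rfl
    · exact ⟨own hM hv _ (by simp), own hN hw _ (by simp)⟩
    · exact ⟨own hM hv _ (by simp), fun h => huv.ne (huniq _ vM (sN h)).symm⟩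
    · exact ⟨fun h => huw.ne (huniq _ (sM h) wN).symm, own hN hw _ (by simp)⟩
    · exact ⟨fun h => hz'.2.1 (sM h), fun h => hz'.2.2 (sN h)⟩
  · intro a ha
    by_cases h : a ∈ M.biUnion id ∪ N.biUnion id
    · rcases mem_union.1 h with h | h
      · obtain ⟨W, hW, haW⟩ := mem_biUnion.1 h
        by_cases e : W = {u, v}
        · subst e
          refine mem_union_left _ ?_
          simp only [id, mem_insert, mem_singleton] at haW ⊢
          rcases haW with h | h <;> simp [h]
        · exact mem_union_right _ (mem_union_left _ (mem_biUnion.2 ⟨W, mem_erase.2 ⟨e, hW⟩, haW⟩))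
      · obtain ⟨W, hW, haW⟩ := mem_biUnion.1 h
        by_cases e : W = {u, w}
        · subst e
          refine mem_union_left _ ?_
          simp only [id, mem_insert, mem_singleton] at haW ⊢
          rcases haW with h | h <;> simp [h]
        · exact mem_union_right _ (mem_union_right _ (mem_biUnion.2 ⟨W, mem_erase.2 ⟨e, hW⟩, haW⟩))
    · have : a ∈ ({z} : Finset α) := hz ▸ mem_sdiff.2 ⟨ha, h⟩
      rw [mem_singleton.1 this]
      simp

theorem host_main {X : Finset α} {I : Finset ι} {sz : ι → ℕ} {D : ℕ} {g g' : α → ℕ}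
    (h1 : ∀ i ∈ I, 1 ≤ cr i) (h1' : ∀ i ∈ I, 1 ≤ cb i)
    (hs1 : ∀ i ∈ I, sz i ≤ cr i ∨ 2 ≤ cb i) (hs2 : ∀ i ∈ I, sz i ≤ cb i ∨ 2 ≤ cr i)
    (hD : ∀ J, 1 ≤ J → D * (J + 1) < 2 * (J * I.card + cnt sz I (J + 1)))
    (hX : X.card ≤ D + 1) (hg : Cov F X g) (hN : 2 * (X.image g).card ≤ D + 2)
    (hg' : Cov Fᶜ X g') (hN' : 2 * (X.image g').card ≤ D + 2) :
    Host F cr cb X I ∨ (X.card = D + 1 ∧ (Inv F X ∨ Inv Fᶜ X)) := by
  by_cases hH : Host F cr cb X I
  · exact Or.inl hH
  right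
  have hlt : I.card < X.card := by
    by_contra h
    exact hH (Host.singles _ X I rfl h1 (by omega))
  set Rs := I.filter (fun i => 2 ≤ cr i) with hRs
  set Bs := I.filter (fun i => 2 ≤ cb i) with hBs
  have hR : Rs ⊆ I := filter_subset _ _
  have hB : Bs ⊆ I := filter_subset _ _
  have hR2 : ∀ i ∈ Rs, 2 ≤ cr i := fun i hi => (mem_filter.1 hi).2
  have hB2 : ∀ i ∈ Bs, 2 ≤ cb i := fun i hi => (mem_filter.1 hi).2
  have hRc : Rs.card = cnt cr I 2 := rfl
  have hBc : Bs.card = cnt cb I 2 := rfl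
  have hsub : I.filter (fun i => 2 ≤ sz i) ⊆ Rs ∪ Bs := by
    intro i hi
    have hi' := mem_filter.1 hi
    rcases hs1 i hi'.1 with h | h
    · exact mem_union_left _ (mem_filter.2 ⟨hi'.1, by omega⟩)
    · exact mem_union_right _ (mem_filter.2 ⟨hi'.1, h⟩)
  have he2 : cnt sz I 2 ≤ (Rs ∪ Bs).card := card_le_card hsub
  have hU := card_union_le Rs Bs
  have hm := hD 1 le_rfl
  norm_num at hm
  have hm' := cnt_le sz I 2
  have ha : RM F X (X.card - I.card - cnt cb I 2) := by
    by_contra h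
    by_cases h' : cnt cb I 2 + I.card < X.card
    · exact hH (alpha_case h1 hs1 hD hX hg hN h' h)
    · rw [(by omega : X.card - I.card - cnt cb I 2 = 0)] at h
      exact h (RM.zero X)
  have hb : RM Fᶜ X (X.card - I.card - cnt cr I 2) := by
    by_contra h
    by_cases h' : cnt cr I 2 + I.card < X.card
    · exact hH (alpha_case (F := Fᶜ) (cr := cb) (cb := cr) h1' hs2 hD hX hg' hN' h' h).swap
    · rw [(by omega : X.card - I.card - cnt cr I 2 = 0)] at h
      exact h (RM.zero X)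
  obtain ⟨a, b, hab, hra, hrb, haR, hbB⟩ : ∃ a b, a + b = X.card - I.card ∧ RM F X a ∧ RM Fᶜ X b ∧
      a ≤ Rs.card ∧ b ≤ Bs.card := by
    obtain ⟨a, b, hab, h2, h3⟩ := exists_split (F := F) X (X.card - I.card) (by omega)
    by_cases h4 : a ≤ Rs.card
    · by_cases h5 : b ≤ Bs.card
      · exact ⟨a, b, hab, h2, h3, h4, h5⟩
      · exact ⟨_, Bs.card, by omega, ha, h3.mono Subset.rfl (by omega), by omega, le_rfl⟩
    · exact ⟨Rs.card, _, by omega, h2.mono Subset.rfl (by omega), hb, le_rfl, by omega⟩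
  obtain ⟨M, N, hM, hN, cM, cN, hd⟩ := mixed hra hrb
  by_cases hdis : Disjoint (M.biUnion id) (N.biUnion id)
  · exfalso
    obtain ⟨Ia, Ib, k1, k2, k3, k4, k5⟩ := exists_two_subsets haR hbB (by omega)
    refine hH (host_two hM hN hdis (k1.trans hR) (k2.trans hB) k3 (by omega) (by omega)
      (fun i hi => hR2 i (k1 hi)) (fun i hi => hB2 i (k2 hi))
      (Host.singles _ _ _ rfl (fun i hi => h1 i (mem_sdiff.1 (mem_sdiff.1 hi).1).1) ?_))
    have c1 := card_sdiff_add_card_eq_card hM.cov_sub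
    have c2 := card_sdiff_add_card_eq_card (subset_sdiff.2 ⟨hN.cov_sub, hdis.symm⟩)
    have c3 := card_sdiff_add_card_eq_card (k1.trans hR)
    have c4 := card_sdiff_add_card_eq_card (subset_sdiff.2 ⟨k2.trans hB, k3.symm⟩)
    rw [hM.card_cov] at c1
    rw [hN.card_cov] at c2
    omega
  have hov := hd.resolve_left hdis
  have hov1 : 0 < (M.biUnion id ∩ N.biUnion id).card :=
    card_pos.2 (not_disjoint_iff_nonempty_inter.1 hdis)
  refine ⟨by omega, ?_⟩
  obtain ⟨u, v, w, z, hv, hw, hz, huv, huw, hvw, hzu, hzv, hzw, hout, hcov⟩ :=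
    quad_of_overlap hM hN (by omega) (by omega)
  have cM0 := card_erase_add_one hv
  have cN0 := card_erase_add_one hw
  have hM0 := hM.mono Subset.rfl (erase_subset {u, v} M)
  have hN0 := hN.mono Subset.rfl (erase_subset {u, w} N)
  have hall : ∀ i ∈ I, 2 ≤ cr i ∨ 2 ≤ cb i := by
    have : Rs ∪ Bs = I := eq_of_subset_of_card_le (union_subset hR hB) (by omega)
    intro i hi
    rcases mem_union.1 (this ▸ hi : i ∈ Rs ∪ Bs) with h | h
    exacts [Or.inl (hR2 i h), Or.inr (hB2 i h)]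
  have h4 : (I.filter (fun i => sz i < 4)).card ≤ 1 := by
    have k1 := hD 3 (by norm_num)
    have k2 := card_filter_add_card_filter_not (s := I) (fun i => sz i < 4)
    have k3 : (I.filter (fun i => ¬ sz i < 4)).card = cnt sz I (3 + 1) := by
      unfold cnt
      simp only [not_lt]
    omega
  have sw : ∀ p q r t : α, F.Adj p q → ¬ F.Adj r t →
      ({u, v, w, z} : Finset α) ⊆ {p, q} ∪ {r, t} → False := by
    intro p q r t hpq hrt hs
    have c1 := card_insert_le ({p, q} : Finset α) (M.erase {u, v})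
    have c2 := card_insert_le ({r, t} : Finset α) (N.erase {u, w})
    refine hH (fam2 (A := insert {p, q} (M.erase {u, v})) (C := insert {r, t} (N.erase {u, w}))
      hR hB ?_ ?_ (by omega) (by omega) (by omega) (hcov.trans ?_))
    · intro Y hY i hi
      rcases mem_insert.1 hY with rfl | hY
      · exact ok_red2 hpq (hR2 i hi)
      · exact Or.inl ⟨hM0.cl Y hY, (hM0.two Y hY).le.trans (hR2 i hi)⟩
    · intro Y hY i hi
      rcases mem_insert.1 hY with rfl | hY
      · exact ok_blue2 hrt (hB2 i hi)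
      · exact Or.inr ⟨hN0.cl Y hY, (hN0.two Y hY).le.trans (hB2 i hi)⟩
    · simp only [biUnion_insert, id]
      exact union_subset (hs.trans (union_subset_union subset_union_left subset_union_left))
        (union_subset_union subset_union_right subset_union_right)
  have huw' : ¬ F.Adj u w := ((F.compl_adj _ _).1 huw).2
  have k1 : F.Adj w z := by
    by_contra h
    exact sw u v w z huv h (by simp [insert_subset_iff])
  have k2 : ¬ F.Adj v z := fun h => sw v z u w h huw' (by simp [insert_subset_iff])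
  have qu : u ∈ X := hM.sub _ hv (by simp)
  have qv : v ∈ X := hM.sub _ hv (by simp)
  have qw : w ∈ X := hN.sub _ hw (by simp)
  by_cases k3 : F.Adj u z
  · have k4 : F.Adj v w := by
      by_contra h
      exact sw u z v w k3 h (by simp [insert_subset_iff])
    exact beta_core hall hs1 hs2 h4 hM0 hN0 qu qv qw hz huv k4 k1 k3.symm huw
      ((F.compl_adj _ _).2 ⟨hzv.symm, k2⟩) hout hcov (by omega) (by rw [← hRs]; omega)
      (by rw [← hBs]; omega) hH
  · have k4 : ¬ F.Adj v w := fun h => sw v w u z h k3 (by simp [insert_subset_iff])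
    have := beta_core (F := Fᶜ) (cr := cb) (cb := cr) (sz := sz) (X := X) (I := I)
      (M0 := N.erase {u, w}) (N0 := M.erase {u, v}) (p1 := u) (p2 := w) (p3 := v) (p4 := z)
      (fun i hi => (hall i hi).symm) hs2 hs1 h4 hN0 (by rwa [compl_compl]) qu qw qv hz huw
      ((F.compl_adj _ _).2 ⟨hvw.symm, fun h => k4 h.symm⟩) ((F.compl_adj _ _).2 ⟨hzv.symm, k2⟩)
      ((F.compl_adj _ _).2 ⟨hzu, fun h => k3 h.symm⟩) (by rwa [compl_compl])
      (by rwa [compl_compl]) (fun p hp => (hout p (by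
        simp only [mem_insert, mem_singleton] at hp ⊢
        rcases hp with h | h | h | h <;> simp [h])).symm)
      (hcov.trans (union_subset_union (by simp [insert_subset_iff]) (by rw [union_comm])))
      (by omega) (by rw [← hBs]; omega) (by rw [← hRs]; omega) (fun h => hH h.swap)
    rw [compl_compl] at this
    exact this.symm

end Pool.Agent.P.MP_6dea24_co
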