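import Pool.Agent.P.MP_6dea24_co.HostMain
import Pool.Agent.P.MP_6dea24_co.Cluster

namespace Pool.Agent.P.MP_6dea24_co

open Finset
open scoped Classical

variable {α V ι : Type*}

/-- clique number of `R` inside `T` -/
noncomputable def cap (R : SimpleGraph V) (T : Finset V) : ℕ :=
  (T.powerset.filter (fun S : Finset V => R.IsClique S)).sup card

theorem le_cap {R : SimpleGraph V} {T S : Finset V} (h : S ⊆ T) (hS : R.IsClique S) :
    S.card ≤ cap R T :=
  le_sup (f := card) (mem_filter.2 ⟨mem_powerset.2 h, hS⟩)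

theorem exists_cap (R : SimpleGraph V) (T : Finset V) :
    ∃ S ⊆ T, R.IsClique S ∧ cap R T = S.card := by
  obtain ⟨S, hS, h⟩ := exists_mem_eq_sup (T.powerset.filter (fun S : Finset V => R.IsClique S))
    ⟨∅, by simp⟩ card
  exact ⟨S, mem_powerset.1 (mem_filter.1 hS).1, (mem_filter.1 hS).2, h⟩

theorem exists_inj {Y : Finset α} {S : Finset V} (h : Y.card ≤ S.card) (v0 : V) :
    ∃ φ : α → V, (∀ a ∈ Y, φ a ∈ S) ∧ ∀ a ∈ Y, ∀ b ∈ Y, a ≠ b → φ a ≠ φ b := by
  obtain ⟨f, hf⟩ := Function.Embedding.exists_of_card_le_finset (α := Y) (s := S) (by simpa using h)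
  refine ⟨fun a => if ha : a ∈ Y then f ⟨a, ha⟩ else v0, fun a ha => ?_, fun a ha b hb hab => ?_⟩
  · simp only [ha, dite_true]
    exact hf ⟨_, rfl⟩
  · simp only [ha, hb, dite_true]
    exact fun e => hab (congrArg Subtype.val (f.injective e))

theorem emb_of_ok {F : SimpleGraph α} {R B : SimpleGraph V} {P : ι → Finset V} {Y : Finset α}
    {i : ι} (v0 : V) (h : Ok F (fun i => cap R (P i)) (fun i => cap B (P i)) Y i) :
    Emb F Y R B (P i) := by
  rcases h with ⟨h1, h2⟩ | ⟨h1, h2⟩
  · obtain ⟨S, hS, hcl, hc⟩ := exists_cap R (P i)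
    obtain ⟨φ, k1, k2⟩ := exists_inj (h2.trans hc.le) v0
    exact ⟨φ, fun a ha => hS (k1 a ha), fun a ha b hb hab =>
      ⟨fun _ => hcl (k1 a ha) (k1 b hb) (k2 a ha b hb hab), fun h => absurd (h1 ha hb hab) h⟩⟩
  · obtain ⟨S, hS, hcl, hc⟩ := exists_cap B (P i)
    obtain ⟨φ, k1, k2⟩ := exists_inj (h2.trans hc.le) v0
    exact ⟨φ, fun a ha => hS (k1 a ha), fun a ha b hb hab =>
      ⟨fun h => absurd h ((F.compl_adj _ _).1 (h1 ha hb hab)).2,
        fun _ => hcl (k1 a ha) (k1 b hb) (k2 a ha b hb hab)⟩⟩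

theorem emb_of_host [Fintype ι] {F : SimpleGraph α} {R B : SimpleGraph V} {s : Finset V}
    {P : ι → Finset V} (hV : Valid R B s P) (v0 : V) {X : Finset α} {I : Finset ι}
    (h : Host F (fun i => cap R (P i)) (fun i => cap B (P i)) X I) :
    Emb F X R B (I.biUnion P) := by
  induction h with
  | nil I => exact ⟨fun _ => v0, by simp, by simp⟩
  | step X I Y i hi hY _ ih =>
    obtain ⟨φ, a1, a2⟩ := emb_of_ok v0 hY
    obtain ⟨ψ, b1, b2⟩ := ih
    have green : ∀ a ∈ Y, ∀ b ∈ X \ Y, R.Adj (φ a) (ψ b) ∧ B.Adj (φ a) (ψ b) := by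
      intro a ha b hb
      obtain ⟨j, hj, hbj⟩ := mem_biUnion.1 (b1 b hb)
      exact hV.between i j (ne_of_mem_erase hj).symm _ (a1 a ha) _ hbj
    refine ⟨fun a => if a ∈ Y then φ a else ψ a, fun a ha => ?_, fun a ha b hb hab => ?_⟩
    · by_cases haY : a ∈ Y
      · simp only [haY, if_true]
        exact mem_biUnion.2 ⟨i, hi, a1 a haY⟩
      · simp only [haY, if_false]
        exact biUnion_subset_biUnion_of_subset_left P (erase_subset i I)
          (b1 a (mem_sdiff.2 ⟨ha, haY⟩))
    · by_cases haY : a ∈ Y <;> by_cases hbY : b ∈ Y <;> simp only [haY, hbY, if_true, if_false]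
      · exact a2 a haY b hbY hab
      · have := green a haY b (mem_sdiff.2 ⟨hb, hbY⟩)
        exact ⟨fun _ => this.1, fun _ => this.2⟩
      · have := green b hbY a (mem_sdiff.2 ⟨ha, haY⟩)
        exact ⟨fun _ => this.1.symm, fun _ => this.2.symm⟩
      · exact b2 a (mem_sdiff.2 ⟨ha, haY⟩) b (mem_sdiff.2 ⟨hb, hbY⟩) hab

theorem cap_cases {R B : SimpleGraph V} {s T : Finset V} (hW : NoWhite R B s) (hT : T ⊆ s) :
    T.card ≤ cap R T ∨ 2 ≤ cap B T := by
  by_cases h : R.IsClique T
  · exact Or.inl (le_cap Subset.rfl h)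
  · right
    rw [SimpleGraph.isClique_iff, Set.Pairwise] at h
    push Not at h
    obtain ⟨u, hu, v, hv, huv, hn⟩ := h
    have hB : B.Adj u v := (hW u (hT hu) v (hT hv) huv).resolve_left hn
    rw [← card_pair huv]
    exact le_cap (insert_subset hu (singleton_subset_iff.2 hv)) (clique_pair hB)

theorem cert_half {F : SimpleGraph α} {X : Finset α} {D : ℕ} {g g' : α → ℕ}
    (hX : X.card ≤ D + 1) (hg : Cov F X g) (hN : 2 * (X.image g).card ≤ D + 2)
    (hg' : Cov Fᶜ X g') (hN' : 2 * (X.image g').card ≤ D + 2)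
    (hex : ¬ (X.card = D + 1 ∧ (Inv F X ∨ Inv Fᶜ X))) (R B : SimpleGraph V) :
    Cert F X ((D : ℝ) / 2) ((D : ℝ) / 2) R B := by
  intro s x hs hx hW hd
  obtain ⟨P, hV, hP⟩ := config_ineq (ι := Fin (D + 1)) (by positivity) hs hx hd
  obtain ⟨v0, -⟩ := hs
  set I := univ.filter (fun i => 1 ≤ (P i).card) with hI
  have hone : ∀ (G : SimpleGraph V), ∀ i ∈ I, 1 ≤ cap G (P i) := by
    intro G i hi
    obtain ⟨u, hu⟩ := card_pos.1 (mem_filter.1 hi).2
    rw [← card_singleton u]
    exact le_cap (singleton_subset_iff.2 hu) (by simp)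
  have hH : Host F (fun i => cap R (P i)) (fun i => cap B (P i)) X I := by
    rcases hP with hP | hP
    · refine Host.singles _ X I rfl (hone R) ?_
      have : I = univ := by
        rw [hI, filter_eq_self]
        exact fun i _ => card_pos.2 (hP i)
      simpa [this] using hX
    · refine (host_main (sz := fun i => (P i).card) (hone R) (hone B)
        (fun i _ => cap_cases hW (hV.sub i)) (fun i _ => cap_cases hW.swap (hV.sub i))
        ?_ hX hg hN hg' hN').resolve_right hex
      intro J hJ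
      have h1 := hP J hJ
      have h2 : big P 1 = I.card := rfl
      have h3 : big P (J + 1) = cnt (fun i => (P i).card) I (J + 1) := by
        unfold big cnt
        rw [hI, filter_filter]
        congr 1
        ext i
        simp only [mem_filter, mem_univ, true_and]
        omega
      rw [h2, h3] at h1
      have h4 : (D : ℝ) * (J + 1) < 2 * (J * I.card + cnt (fun i => (P i).card) I (J + 1)) := by
        linarith
      exact_mod_cast h4
  exact (emb_of_host hV v0 hH).mono Subset.rfl (biUnion_subset.2 fun i _ => hV.sub i)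

end Pool.Agent.P.MP_6dea24_co
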