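import Pool.Agent.P.MP_6dea24_co.Critical

namespace Pool.Agent.P.MP_6dea24_co

open Finset
open scoped Classical

variable {α : Type*} {F : SimpleGraph α}

/-- red component of a vertex inside `X` -/
noncomputable def comp (F : SimpleGraph α) (X : Finset α) (z : α) : Finset α :=
  X.filter (fun w => Relation.ReflTransGen (fun a b => a ∈ X ∧ b ∈ X ∧ F.Adj a b) z w)

theorem comp_closed {X : Finset α} {z a b : α} (ha : a ∈ comp F X z) (hb : b ∈ X)
    (h : F.Adj a b) : b ∈ comp F X z :=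
  mem_filter.2 ⟨hb, (mem_filter.1 ha).2.tail ⟨(mem_filter.1 ha).1, hb, h⟩⟩

theorem reach_single {X : Finset α} {g : α → ℕ} (hg : Opt F X g)
    (hmin : ∀ g', Opt F X g' → (sing X g).card ≤ (sing X g').card)
    (hall : ∀ w ∈ X, cc F (X.erase w) < cc F X) {z w : α} (hz : z ∈ sing X g)
    (hw : w ∈ comp F X z) : w ∉ (sing X g).erase z := by
  have key : ∀ w, Relation.ReflTransGen (fun a b => a ∈ X ∧ b ∈ X ∧ F.Adj a b) z w →
      w ∉ (sing X g).erase z ∧ ∃ g', Opt F X g' ∧ sing X g' = insert w ((sing X g).erase z) := by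
    intro w h
    induction h with
    | refl => exact ⟨notMem_erase _ _, g, hg, (insert_erase hz).symm⟩
    | @tail v w _ hvw ih =>
      obtain ⟨-, g', h1, h2⟩ := ih
      obtain ⟨g'', k1, k2, k3⟩ := move_single h1.1 hvw.2.1 (hall w hvw.2.1)
      have k4 : sing X g'' ⊆ insert w ((sing X g).erase z) := by
        intro y hy
        have := k3 hy
        rw [h2, mem_insert, mem_insert] at this
        rcases this with h | h | h
        · exact mem_insert.2 (Or.inl h)
        · exact absurd hvw.2.2 (k1.indep (h ▸ hy) k2)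
        · exact mem_insert_of_mem h
      have k5 := hmin g'' k1
      have k6 := card_erase_add_one hz
      have k7 := card_le_card k4
      refine ⟨fun hin => ?_, g'', k1, eq_of_subset_of_card_le k4 ?_⟩
      · rw [insert_eq_of_mem hin] at k7; omega
      · have := card_insert_le w ((sing X g).erase z); omega
  exact (key w (mem_filter.1 hw).2).1

theorem good_comp {X : Finset α} {g : α → ℕ} (hg : Opt F X g) {z : α} (hz : z ∈ sing X g)
    (h1 : ∀ w ∈ comp F X z, w ∉ (sing X g).erase z)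
    (h2 : ∀ a ∈ comp F X z, (X.filter (fun b => g b = g a)).card ≤ 2) :
    ∃ μ, (comp F X z).card = 2 * μ + 1 ∧ RM F (comp F X z) μ ∧ cc F (comp F X z) ≤ μ + 1 ∧
      cc F (X \ comp F X z) + μ + 1 ≤ cc F X := by
  set U := comp F X z with hU
  have hUX : U ⊆ X := filter_subset _ _
  have hzU : z ∈ U := mem_filter.2 ⟨(mem_filter.1 hz).1, Relation.ReflTransGen.refl⟩
  have hrm := rm_of_classes (F := F) g _ (U.erase z) rfl
    (hg.1.mono ((erase_subset _ _).trans hUX)) (fun a ha => by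
      obtain ⟨haz, haU⟩ := mem_erase.1 ha
      have h3 : ¬ ∀ b ∈ X, g b = g a → b = a := fun e =>
        h1 a haU (mem_erase.2 ⟨haz, mem_filter.2 ⟨hUX haU, e⟩⟩)
      push Not at h3
      obtain ⟨b, hb, hgb, hba⟩ := h3
      refine ⟨b, mem_erase.2 ⟨fun e => haz ?_, comp_closed haU hb
        (hg.1 a (hUX haU) b hb hba.symm hgb.symm)⟩, hba, hgb⟩
      exact (mem_filter.1 hz).2 a (hUX haU) (e ▸ hgb.symm))
  have h3 : (U.erase z).card ≤ 2 * ((U.erase z).image g).card := by
    refine card_le_mul_card_image _ _ fun c hc => ?_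
    obtain ⟨a, ha, rfl⟩ := mem_image.1 hc
    exact (card_le_card (filter_subset_filter _ ((erase_subset _ _).trans hUX))).trans
      (h2 a (mem_of_mem_erase ha))
  have h4 : (U.image g).card = ((U.erase z).image g).card + 1 := by
    conv_lhs => rw [← insert_erase hzU, image_insert]
    refine card_insert_of_notMem fun hin => ?_
    obtain ⟨a, ha, he⟩ := mem_image.1 hin
    exact (mem_erase.1 ha).1 ((mem_filter.1 hz).2 a (hUX (mem_of_mem_erase ha)) he)
  have h5 := card_erase_add_one hzU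
  refine ⟨((U.erase z).image g).card, ?_, hrm.mono (erase_subset _ _) le_rfl, ?_, ?_⟩
  · obtain ⟨M, hM, hMc⟩ := hrm
    have h6 := card_le_card hM.cov_sub
    rw [hM.card_cov] at h6
    omega
  · exact h4 ▸ cc_le (hg.1.mono hUX)
  · have h6 := cc_le (hg.1.mono (sdiff_subset (t := U)))
    have h7 := hg.2
    rw [← union_sdiff_of_subset hUX, image_union, card_union_of_disjoint
      (hg.1.disj hUX sdiff_subset disjoint_sdiff fun a ha b hb hab =>
        (mem_sdiff.1 hb).2 (comp_closed ha (mem_sdiff.1 hb).1 hab)), union_sdiff_of_subset hUX] at h7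
    omega

/-- a small tight component of a critical graph -/
theorem tight {X : Finset α} {τ : ℕ} (hc : cc F X = τ + 1) (hX : X.card ≤ 2 * τ)
    (hall : ∀ w ∈ X, cc F (X.erase w) < cc F X) :
    ∃ U ⊆ X, ∃ μ, U.card = 2 * μ + 1 ∧ RM F U μ ∧ (∀ a ∈ U, ∀ b ∈ X \ U, ¬ F.Adj a b) ∧
      cc F (X \ U) + μ = τ ∧ cc F (X \ U) + μ ≤ (X \ U).card ∧
      ∀ t ∈ U, μ ≤ ((U.erase t).filter (fun u => ¬ F.Adj t u)).card := by
  have hex : ∃ n, ∃ g, Opt F X g ∧ (sing X g).card = n := by
    obtain ⟨g, h⟩ := cc_spec F X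
    exact ⟨_, g, h, rfl⟩
  obtain ⟨g, hg, hn⟩ := Nat.find_spec hex
  have hmin : ∀ g', Opt F X g' → (sing X g).card ≤ (sing X g').card := fun g' h =>
    hn ▸ Nat.find_min' hex ⟨g', h, rfl⟩
  have hr := fun z w (hz : z ∈ sing X g) (hw : w ∈ comp F X z) => reach_single hg hmin hall hz hw
  have hdis : ∀ z ∈ sing X g, ∀ z' ∈ sing X g, z ≠ z' → Disjoint (comp F X z) (comp F X z') := by
    intro z hz z' hz' hne
    rw [disjoint_left]
    intro a ha ha'
    refine hr z z' hz (mem_filter.2 ⟨(mem_filter.1 hz').1, (mem_filter.1 ha).2.trans ?_⟩)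
      (mem_erase.2 ⟨hne.symm, hz'⟩)
    have key : ∀ b, Relation.ReflTransGen (fun a b => a ∈ X ∧ b ∈ X ∧ F.Adj a b) z' b →
        Relation.ReflTransGen (fun a b => a ∈ X ∧ b ∈ X ∧ F.Adj a b) b z' := by
      intro b hb
      induction hb with
      | refl => exact Relation.ReflTransGen.refl
      | tail _ h ih => exact Relation.ReflTransGen.head ⟨h.2.1, h.1, h.2.2.symm⟩ ih
    exact key a (mem_filter.1 ha').2
  have hbad : ((sing X g).filter
      (fun z => ¬ ∀ a ∈ comp F X z, (X.filter (fun b => g b = g a)).card ≤ 2)).card ≤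
      ((X.image g).filter (fun c => 3 ≤ (X.filter (fun a => g a = c)).card)).card := by
    have h1 : ∀ z, ∃ a, (¬ ∀ a ∈ comp F X z, (X.filter (fun b => g b = g a)).card ≤ 2) →
        a ∈ comp F X z ∧ 3 ≤ (X.filter (fun b => g b = g a)).card := by
      intro z
      by_cases h : ∀ a ∈ comp F X z, (X.filter (fun b => g b = g a)).card ≤ 2
      · exact ⟨z, fun h' => absurd h h'⟩
      · push Not at h
        obtain ⟨a, h1, h2⟩ := h
        exact ⟨a, fun _ => ⟨h1, h2⟩⟩
    choose f hf using h1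
    refine card_le_card_of_injOn (fun z => g (f z)) (fun z hz => ?_) (fun z hz z' hz' he => ?_)
    · have := hf z (mem_filter.1 hz).2
      exact mem_coe.2 (mem_filter.2 ⟨mem_image_of_mem g (mem_filter.1 this.1).1, this.2⟩)
    · by_contra hne
      have k1 := (hf z (mem_filter.1 hz).2).1
      have k2 := (hf z' (mem_filter.1 hz').2).1
      have k3 := disjoint_left.1 (hdis z (mem_filter.1 hz).1 z' (mem_filter.1 hz').1 hne)
      by_cases e : f z = f z'
      · exact k3 k1 (e ▸ k2)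
      · exact k3 (comp_closed k1 (mem_filter.1 k2).1
          (hg.1 _ (mem_filter.1 k1).1 _ (mem_filter.1 k2).1 e he)) k2
  have h1 := count_classes X g
  have h2 := card_filter_add_card_filter_not (s := sing X g)
    (fun z => ∀ a ∈ comp F X z, (X.filter (fun b => g b = g a)).card ≤ 2)
  have h3 := hg.2
  have main : ∀ z ∈ sing X g, ∀ z' ∈ sing X g, z ≠ z' → ∀ μ μ', μ ≤ μ' →
      (comp F X z).card = 2 * μ + 1 → RM F (comp F X z) μ → cc F (comp F X z) ≤ μ + 1 →
      cc F (X \ comp F X z) + μ + 1 ≤ cc F X → (comp F X z').card = 2 * μ' + 1 →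
      cc F (comp F X z') ≤ μ' + 1 →
      ∃ U ⊆ X, ∃ μ, U.card = 2 * μ + 1 ∧ RM F U μ ∧ (∀ a ∈ U, ∀ b ∈ X \ U, ¬ F.Adj a b) ∧
      cc F (X \ U) + μ = τ ∧ cc F (X \ U) + μ ≤ (X \ U).card ∧
      ∀ t ∈ U, μ ≤ ((U.erase t).filter (fun u => ¬ F.Adj t u)).card := by
    intro z hz z' hz' hne μ μ' hle k1 k2 k3 k4 k5 k6
    set U := comp F X z with hU
    have hUX : U ⊆ X := filter_subset _ _
    have hno : ∀ a ∈ U, ∀ b ∈ X \ U, ¬ F.Adj a b := fun a ha b hb hab =>
      (mem_sdiff.1 hb).2 (comp_closed ha (mem_sdiff.1 hb).1 hab)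
    have k7 := cc_union_le F U (X \ U)
    rw [union_sdiff_of_subset hUX] at k7
    refine ⟨U, hUX, μ, k1, k2, hno, by omega, ?_, fun t ht => ?_⟩
    · have h4 : comp F X z' ⊆ X \ U :=
        subset_sdiff.2 ⟨filter_subset _ _, hdis z' hz' z hz hne.symm⟩
      have h5 := cc_union_le F (comp F X z') ((X \ U) \ comp F X z')
      rw [union_sdiff_of_subset h4] at h5
      have h6 := cc_le_card F ((X \ U) \ comp F X z')
      have h7 := card_sdiff_add_card_eq_card h4
      omega
    · have h4 := cc_add_le (F := F) (A := U.erase t) (B := X \ U)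
        (disjoint_of_subset_left (erase_subset _ _) disjoint_sdiff)
        fun a ha => hno a (mem_of_mem_erase ha)
      have h5 := cc_mono (F := F) (X := U.erase t ∪ X \ U) (Y := X.erase t)
        (union_subset (erase_subset_erase _ hUX) fun a ha => mem_erase.2
          ⟨fun e => (mem_sdiff.1 ha).2 (e ▸ ht), (mem_sdiff.1 ha).1⟩)
      have h6 := hall t (hUX ht)
      have h7 := cc_insert_le F (notMem_erase t U)
      rw [insert_erase ht] at h7
      by_contra hlt
      have := h7.2 (by omega)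
      omega
  obtain ⟨z, hz, z', hz', hne⟩ := one_lt_card.1 (by omega : 1 < ((sing X g).filter
    (fun z => ∀ a ∈ comp F X z, (X.filter (fun b => g b = g a)).card ≤ 2)).card)
  obtain ⟨hz, hz2⟩ := mem_filter.1 hz
  obtain ⟨hz', hz2'⟩ := mem_filter.1 hz'
  obtain ⟨μ, a1, a2, a3, a4⟩ := good_comp hg hz (fun w hw => hr z w hz hw) hz2
  obtain ⟨μ', b1, b2, b3, b4⟩ := good_comp hg hz' (fun w hw => hr z' w hz' hw) hz2'
  rcases le_total μ μ' with h | h
  · exact main z hz z' hz' hne μ μ' h a1 a2 a3 a4 b1 b3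
  · exact main z' hz' z hz hne.symm μ' μ h b1 b2 b3 b4 a1 a3

theorem Mat.erase {U : Finset α} {M : Finset (Finset α)} (h : Mat F U M) {v : α}
    (hv : v ∉ M.biUnion id) : Mat F (U.erase v) M :=
  ⟨fun Y hY a ha => mem_erase.2 ⟨fun e => hv (mem_biUnion.2 ⟨Y, hY, e ▸ ha⟩), h.sub Y hY ha⟩,
    h.two, h.cl, h.dis⟩

theorem Mat.not_cov {U : Finset α} {M : Finset (Finset α)} (h : Mat F U M) {Y : Finset α}
    (hY : Y ∈ M) {v : α} (hv : v ∈ Y) : v ∉ (M.erase Y).biUnion id := by
  intro hin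
  obtain ⟨Z, hZ, hvZ⟩ := mem_biUnion.1 hin
  exact disjoint_left.1 (h.dis Z (mem_of_mem_erase hZ) Y hY (ne_of_mem_erase hZ)) hvZ hv

theorem RM.erase {U : Finset α} {n : ℕ} (h : RM F U (n + 1)) (v : α) : RM F (U.erase v) n := by
  obtain ⟨M, hM, hc⟩ := h
  by_cases hv : v ∈ M.biUnion id
  · obtain ⟨Y, hY, hvY⟩ := mem_biUnion.1 hv
    refine ⟨M.erase Y, (hM.mono Subset.rfl (erase_subset _ _)).erase (hM.not_cov hY hvY), ?_⟩
    rw [card_erase_of_mem hY]; omega
  · exact RM.mono ⟨M, hM.erase hv, hc⟩ Subset.rfl (by omega)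

theorem Mat.pair {U : Finset α} {M : Finset (Finset α)} (h : Mat F U M) {Y : Finset α}
    (hY : Y ∈ M) {v : α} (hv : v ∈ Y) : ∃ c, Y = {v, c} ∧ F.Adj v c := by
  obtain ⟨a, b, hab, rfl⟩ := card_eq_two.1 (h.two Y hY)
  have := h.cl _ hY (by simp : a ∈ _) (by simp : b ∈ _) hab
  rcases mem_insert.1 hv with rfl | hv
  · exact ⟨b, rfl, this⟩
  · rw [mem_singleton.1 hv]; exact ⟨a, pair_comm _ _, this.symm⟩

theorem Mat.exposed {U : Finset α} {M : Finset (Finset α)} (h : Mat F U M)
    (hc : 2 * M.card < U.card) : ∃ w ∈ U, w ∉ M.biUnion id := by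
  rw [← h.card_cov] at hc
  exact exists_mem_notMem_of_card_lt_card hc

/-- large minimum degree gives a near-perfect matching -/
theorem rm_of_deg {U : Finset α} {μ : ℕ} (hU : U.card = 2 * μ + 1)
    (h : ∀ t ∈ U, μ ≤ (U.filter (fun u => F.Adj t u)).card) : RM F U μ := by
  have key : ∀ n, n ≤ μ → RM F U n := by
    intro n
    induction n with
    | zero => exact fun _ => RM.zero U
    | succ n ih =>
      intro hn
      obtain ⟨M, hM, hc⟩ := ih (by omega)
      by_contra hcon
      have ext : ∀ a ∈ U, ∀ b ∈ U, F.Adj a b → a ∉ M.biUnion id → b ∈ M.biUnion id := by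
        intro a ha b hb hab h1
        by_contra h2
        refine hcon (RM.succ (Y := {a, b}) ⟨M, ?_, hc⟩
          (insert_subset ha (singleton_subset_iff.2 hb)) (card_pair hab.ne).ge (clique_pair hab))
        rw [sdiff_insert, sdiff_singleton_eq_erase]
        exact (hM.erase h2).erase h1
      have h1 := card_sdiff_add_card_eq_card hM.cov_sub
      rw [hM.card_cov] at h1
      obtain ⟨a, ha, b, hb, hab⟩ := one_lt_card.1 (by omega : 1 < (U \ M.biUnion id).card)
      rw [mem_sdiff] at ha hb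
      have cnt : ∀ a ∈ U, a ∉ M.biUnion id →
          μ ≤ ∑ Y ∈ M, (Y.filter (fun u => F.Adj a u)).card := by
        intro a ha ha'
        refine (h a ha).trans ((card_le_card fun u hu => ?_).trans card_biUnion_le)
        obtain ⟨Y, hY, huY⟩ := mem_biUnion.1
          (ext a ha u (mem_filter.1 hu).1 (mem_filter.1 hu).2 ha')
        exact mem_biUnion.2 ⟨Y, hY, mem_filter.2 ⟨huY, (mem_filter.1 hu).2⟩⟩
      have h2 : ∑ Y ∈ M, ((Y.filter (fun u => F.Adj a u)).card
          + (Y.filter (fun u => F.Adj b u)).card) ≤ ∑ _Y ∈ M, 2 := by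
        refine sum_le_sum fun Y hY => ?_
        by_contra hlt
        obtain ⟨y, y', hyy, rfl⟩ := card_eq_two.1 (hM.two Y hY)
        have aug : ∀ p q : α, ({p, q} : Finset α) ∈ M → p ≠ q → F.Adj a p → F.Adj b q → False := by
          intro p q hY hpq k1 k2
          have hp : p ∈ U := hM.sub _ hY (by simp)
          have hq : q ∈ U := hM.sub _ hY (by simp)
          have hM' := hM.mono Subset.rfl (erase_subset {p, q} M)
          have n1 := hM.not_cov hY (by simp : p ∈ _)
          have n2 := hM.not_cov hY (by simp : q ∈ _)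
          have n3 : ∀ c, c ∉ M.biUnion id → c ∉ (M.erase {p, q}).biUnion id := fun c hc h' =>
            hc (biUnion_subset_biUnion_of_subset_left _ (erase_subset _ _) h')
          have hpos : 0 < M.card := card_pos.2 ⟨_, hY⟩
          have hbp : b ≠ p := fun e => hb.2 (mem_biUnion.2 ⟨_, hY, by simp [e]⟩)
          have haq : q ≠ a := fun e => ha.2 (mem_biUnion.2 ⟨_, hY, by simp [← e]⟩)
          refine hcon (RM.succ (Y := {a, p}) ?_ (insert_subset ha.1 (singleton_subset_iff.2 hp))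
            (card_pair k1.ne).ge (clique_pair k1))
          obtain ⟨m, hm⟩ : ∃ m, n = m + 1 := ⟨n - 1, by omega⟩
          rw [hm]
          refine RM.succ (Y := {b, q}) ⟨M.erase {p, q}, ?_, by rw [card_erase_of_mem hY]; omega⟩
            (insert_subset (by simp [hb.1, hab.symm, hbp])
              (singleton_subset_iff.2 (by simp [hq, haq, hpq.symm])))
            (card_pair k2.ne).ge (clique_pair k2)
          rw [sdiff_insert, sdiff_singleton_eq_erase, sdiff_insert, sdiff_singleton_eq_erase]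
          exact (((hM'.erase n1).erase (n3 a ha.2)).erase n2).erase (n3 b hb.2)
        simp only [filter_insert, filter_singleton] at hlt
        by_cases c1 : F.Adj a y <;> by_cases c2 : F.Adj a y' <;> by_cases c3 : F.Adj b y <;>
          by_cases c4 : F.Adj b y' <;> simp only [c1, c2, c3, c4, if_true, if_false] at hlt <;>
          first
          | exact aug y y' hY hyy c1 c4
          | exact aug y' y (pair_comm y y' ▸ hY) hyy.symm c2 c3
          | simp [hyy] at hlt
      rw [sum_add_distrib, sum_const, smul_eq_mul] at h2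
      have := cnt a ha.1 ha.2
      have := cnt b hb.1 hb.2
      omega
  exact key μ le_rfl

/-- removing a red edge while keeping both matchings -/
theorem box_step {U : Finset α} {μ : ℕ} (hU : U.card = 2 * (μ + 1) + 1) (h1 : RM F U (μ + 1))
    (h2 : RM Fᶜ U (μ + 1)) : ∃ a ∈ U, ∃ b ∈ U, F.Adj a b ∧ RM F ((U.erase a).erase b) μ ∧
      RM Fᶜ ((U.erase a).erase b) μ := by
  obtain ⟨M, hM, cM⟩ := h1
  obtain ⟨N, hN, cN⟩ := h2
  obtain ⟨w, hw, hwN⟩ := hN.exposed (by omega)
  have k0 : ∀ c, RM Fᶜ ((U.erase w).erase c) μ := fun c => RM.erase ⟨N, hN.erase hwN, cN⟩ c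
  have k1 : ∀ Y ∈ M, ∀ p q, Y = {p, q} → RM F ((U.erase p).erase q) μ := by
    intro Y hY p q e
    refine ⟨M.erase Y, ((hM.mono Subset.rfl (erase_subset _ _)).erase
      (hM.not_cov hY (by simp [e]))).erase (hM.not_cov hY (by simp [e])), ?_⟩
    rw [card_erase_of_mem hY]; omega
  by_cases hwM : w ∈ M.biUnion id
  · obtain ⟨Y, hY, hwY⟩ := mem_biUnion.1 hwM
    obtain ⟨c, e, hc⟩ := hM.pair hY hwY
    exact ⟨w, hw, c, hM.sub Y hY (by simp [e]), hc, k1 Y hY w c e, k0 c⟩
  by_cases hr : ∃ a ∈ U, F.Adj w a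
  · obtain ⟨a, ha, hwa⟩ := hr
    exact ⟨w, hw, a, ha, hwa, RM.erase ⟨M, hM.erase hwM, cM⟩ a, k0 a⟩
  push Not at hr
  obtain ⟨Y, hY⟩ : M.Nonempty := card_pos.1 (by omega)
  obtain ⟨p, hp⟩ : Y.Nonempty := card_pos.1 (by rw [hM.two Y hY]; omega)
  obtain ⟨q, e, hpq⟩ := hM.pair hY hp
  have hpU := hM.sub Y hY hp
  have hqU : q ∈ U := hM.sub Y hY (by simp [e])
  have hpw : w ≠ p := fun e' => hwM (mem_biUnion.2 ⟨Y, hY, e' ▸ hp⟩)
  have hpN : p ∈ N.biUnion id := by
    have h3 : N.biUnion id = U.erase w := eq_of_subset_of_card_le (hN.erase hwN).cov_sub (by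
      rw [hN.card_cov, card_erase_of_mem hw]; omega)
    rw [h3]; exact mem_erase.2 ⟨hpw.symm, hpU⟩
  obtain ⟨Z, hZ, hpZ⟩ := mem_biUnion.1 hpN
  obtain ⟨p', e', hp'⟩ := hN.pair hZ hpZ
  have hp'U : p' ∈ U := hN.sub Z hZ (by simp [e'])
  have hwp' : w ≠ p' := fun e'' => hwN (mem_biUnion.2 ⟨Z, hZ, by simp [e', e'']⟩)
  refine ⟨p, hpU, q, hqU, hpq, k1 Y hY p q e, RM.erase (RM.succ (Y := {w, p'})
    ⟨N.erase Z, ?_, by rw [card_erase_of_mem hZ]; omega⟩
    (insert_subset (mem_erase.2 ⟨hpw, hw⟩)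
      (singleton_subset_iff.2 (mem_erase.2 ⟨hp'.ne', hp'U⟩))) (card_pair hwp').ge
    (clique_pair' (hr p' hp'U))) q⟩
  rw [sdiff_insert, sdiff_singleton_eq_erase]
  exact (((hN.mono Subset.rfl (erase_subset _ _)).erase (hN.not_cov hZ hpZ)).erase
    (hN.not_cov hZ (by simp [e']))).erase
    fun h' => hwN (biUnion_subset_biUnion_of_subset_left _ (erase_subset _ _) h')

theorem cc_of_rm {U : Finset α} {μ : ℕ} (h : RM F U μ) : cc F U + μ ≤ U.card := by
  induction μ generalizing U with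
  | zero => simpa using cc_le_card F U
  | succ n ih =>
    obtain ⟨M, hM, cM⟩ := h
    obtain ⟨Y, hY⟩ : M.Nonempty := card_pos.1 (by omega)
    have h1 : RM F (U \ Y) n := ⟨M.erase Y, ⟨fun Z hZ => subset_sdiff.2
      ⟨hM.sub Z (mem_of_mem_erase hZ), hM.dis Z (mem_of_mem_erase hZ) Y hY (ne_of_mem_erase hZ)⟩,
      fun Z hZ => hM.two Z (mem_of_mem_erase hZ), fun Z hZ => hM.cl Z (mem_of_mem_erase hZ),
      fun Z hZ W hW => hM.dis Z (mem_of_mem_erase hZ) W (mem_of_mem_erase hW)⟩,
      by rw [card_erase_of_mem hY]; omega⟩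
    have h2 := ih h1
    have h3 := cc_union_le F Y (U \ Y)
    rw [union_sdiff_of_subset (hM.sub Y hY)] at h3
    have h4 := cc_clique (hM.cl Y hY)
    have h5 := card_sdiff_add_card_eq_card (hM.sub Y hY)
    have h6 := hM.two Y hY
    omega

end Pool.Agent.P.MP_6dea24_co
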